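import Pool.Agent.K9h32.SP.StmA

/-!
# Leaf FRC: the gradient of the potential and the bounds of the force
-/

set_option autoImplicit false

open Set Filter Topology
open scoped ContDiff

noncomputable section

namespace Pool.Agent.K9h32.SP

open Pool.Agent.N980.TL

namespace FRC

variable {n N : ℕ}

/-- a continuous 1-periodic function is bounded -/
theorem bddP {f : ℝ → ℝ} (hc : Continuous f) (hp : ∀ (s : ℝ) (m : ℤ), f (s + m) = f s) :
    ∃ C : ℝ, 0 ≤ C ∧ ∀ s, |f s| ≤ C := by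
  obtain ⟨C, hC⟩ := (isCompact_Icc (a := (0 : ℝ)) (b := 1)).exists_bound_of_continuousOn hc.continuousOn
  refine ⟨max C 0, le_max_right _ _, fun s => ?_⟩
  have h1 := hp (Int.fract s) ⌊s⌋
  rw [Int.fract_add_floor] at h1
  rw [h1]
  exact le_trans (hC (Int.fract s) ⟨Int.fract_nonneg _, (Int.fract_lt_one _).le⟩) (le_max_left _ _)

theorem per_deriv {f : ℝ → ℝ} (hp : ∀ (s : ℝ) (m : ℤ), f (s + m) = f s) (s : ℝ) (m : ℤ) :
    deriv f (s + m) = deriv f s := by
  have h : (fun x => f (x + (m : ℝ))) = f := funext fun x => hp x m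
  conv_rhs => rw [← h]
  rw [deriv_comp_add_const]

theorem smooth_deriv {f : ℝ → ℝ} (h : ContDiff ℝ ∞ f) : ContDiff ℝ ∞ (deriv f) :=
  (contDiff_infty_iff_deriv.1 h).2

theorem dot_continuous (p : Fin n → ℤ) : Continuous (fun x : E n => dot p x) := by
  unfold dot
  fun_prop

theorem dot_line (p : Fin n → ℤ) (x : E n) (i : Fin n) :
    HasDerivAt (fun u : ℝ => dot p (x + u • (Pi.single i 1 : E n))) (p i : ℝ) 0 := by
  have e : (fun u : ℝ => dot p (x + u • (Pi.single i 1 : E n))) = fun u => dot p x + u * (p i : ℝ) := by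
    funext u
    rw [dot_add, dot_smul]
    congr 2
    simp [dot, Pi.single_apply]
  rw [e]
  simpa using ((hasDerivAt_id (0 : ℝ)).mul_const (p i : ℝ)).const_add (dot p x)

theorem lip_cos (a b : ℝ) : |Real.cos a - Real.cos b| ≤ |a - b| := Real.abs_cos_sub_cos_le a b

theorem lip_sin (a b : ℝ) : |Real.sin a - Real.sin b| ≤ |a - b| := Real.abs_sin_sub_sin_le a b

theorem dot_lip (p : Fin n → ℤ) (x y : E n) : |dot p x - dot p y| ≤ l1 p * ‖x - y‖ := by
  rw [← dot_sub]
  exact dot_le p (x - y)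

/-- product of bounded Lipschitz functions -/
theorem lip_mul {f g f' g' A B a b d : ℝ} (hf : |f| ≤ A) (hg' : |g'| ≤ B) (h1 : |f - f'| ≤ a * d)
    (h2 : |g - g'| ≤ b * d) : |f * g - f' * g'| ≤ (A * b + a * B) * d := by
  have e : f * g - f' * g' = f * (g - g') + (f - f') * g' := by ring
  rw [e]
  refine (abs_add_le _ _).trans ?_
  rw [abs_mul, abs_mul]
  have h3 : |f| * |g - g'| ≤ A * (b * d) := mul_le_mul hf h2 (abs_nonneg _) ((abs_nonneg _).trans hf)
  have h4 : |f - f'| * |g'| ≤ a * d * B := mul_le_mul h1 hg' (abs_nonneg _) ((abs_nonneg _).trans h1)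
  linarith

/-! ## the trigonometric polynomial -/

theorem phase_eq (D : Trig n N) (μ : Fin N) (x : E n) (t : ℝ) :
    D.phase μ x t = 2 * Real.pi * (dot (D.k μ) x + D.m μ * t) + D.ph μ := rfl

theorem grad_cont (D : Trig n N) : Continuous (fun z : E n × ℝ => (fun i => D.grad z.1 z.2 i : E n)) := by
  refine continuous_pi fun i => ?_
  unfold Trig.grad Trig.phase
  fun_prop

theorem grad_bdd (D : Trig n N) : ∃ C : ℝ, 0 ≤ C ∧ ∀ (x : E n) (t : ℝ), ‖(fun i => D.grad x t i : E n)‖ ≤ C := by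
  refine ⟨∑ μ, |D.c μ| * (2 * Real.pi * l1 (D.k μ)), Finset.sum_nonneg fun μ _ => ?_, fun x t => ?_⟩
  · have := l1_nonneg (D.k μ)
    positivity
  refine (pi_norm_le_iff_of_nonneg (Finset.sum_nonneg fun μ _ => ?_)).2 fun i => ?_
  · have := l1_nonneg (D.k μ)
    positivity
  unfold Trig.grad
  rw [norm_neg]
  refine (norm_sum_le _ _).trans (Finset.sum_le_sum fun μ _ => ?_)
  rw [Real.norm_eq_abs, abs_mul, abs_mul, abs_mul, abs_of_pos (by positivity : (0 : ℝ) < 2 * Real.pi)]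
  have h1 : |((D.k μ i : ℤ) : ℝ)| ≤ l1 (D.k μ) :=
    Finset.single_le_sum (f := fun i => |((D.k μ i : ℤ) : ℝ)|) (fun i _ => abs_nonneg _) (Finset.mem_univ i)
  calc |D.c μ| * (2 * Real.pi * |((D.k μ i : ℤ) : ℝ)|) * |Real.sin (D.phase μ x t)|
      ≤ |D.c μ| * (2 * Real.pi * |((D.k μ i : ℤ) : ℝ)|) * 1 :=
        mul_le_mul_of_nonneg_left (Real.abs_sin_le_one _) (by positivity)
    _ ≤ |D.c μ| * (2 * Real.pi * l1 (D.k μ)) := by
        rw [mul_one]
        gcongr

theorem grad_lip (D : Trig n N) : ∃ L : ℝ, 0 ≤ L ∧ ∀ (x y : E n) (t : ℝ),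
    ‖(fun i => D.grad x t i : E n) - (fun i => D.grad y t i : E n)‖ ≤ L * ‖x - y‖ := by
  have h0 : ∀ μ, 0 ≤ |D.c μ| * (2 * Real.pi * l1 (D.k μ)) * (2 * Real.pi * l1 (D.k μ)) := fun μ => by
    have := l1_nonneg (D.k μ)
    positivity
  refine ⟨∑ μ, |D.c μ| * (2 * Real.pi * l1 (D.k μ)) * (2 * Real.pi * l1 (D.k μ)),
    Finset.sum_nonneg fun μ _ => h0 μ, fun x y t => ?_⟩
  refine (pi_norm_le_iff_of_nonneg (mul_nonneg (Finset.sum_nonneg fun μ _ => h0 μ) (norm_nonneg _))).2 fun i => ?_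
  simp only [Pi.sub_apply]
  unfold Trig.grad
  rw [← neg_sub_neg, neg_neg, neg_neg, ← Finset.sum_sub_distrib, Finset.sum_mul]
  refine (norm_sum_le _ _).trans (Finset.sum_le_sum fun μ _ => ?_)
  rw [← mul_sub, Real.norm_eq_abs, abs_mul, abs_mul, abs_mul, abs_of_pos (by positivity : (0 : ℝ) < 2 * Real.pi)]
  have h1 : |((D.k μ i : ℤ) : ℝ)| ≤ l1 (D.k μ) :=
    Finset.single_le_sum (f := fun i => |((D.k μ i : ℤ) : ℝ)|) (fun i _ => abs_nonneg _) (Finset.mem_univ i)
  have h2 : |Real.sin (D.phase μ y t) - Real.sin (D.phase μ x t)| ≤ 2 * Real.pi * l1 (D.k μ) * ‖x - y‖ := by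
    refine (lip_sin _ _).trans ?_
    have e : D.phase μ y t - D.phase μ x t = 2 * Real.pi * (dot (D.k μ) y - dot (D.k μ) x) := by
      rw [phase_eq, phase_eq]; ring
    rw [e, abs_mul, abs_of_pos (by positivity : (0 : ℝ) < 2 * Real.pi), mul_assoc (2 * Real.pi), norm_sub_rev]
    exact mul_le_mul_of_nonneg_left (dot_lip _ _ _) (by positivity)
  calc |D.c μ| * (2 * Real.pi * |((D.k μ i : ℤ) : ℝ)|) * |Real.sin (D.phase μ y t) - Real.sin (D.phase μ x t)|
      ≤ |D.c μ| * (2 * Real.pi * l1 (D.k μ)) * (2 * Real.pi * l1 (D.k μ) * ‖x - y‖) := by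
        refine mul_le_mul (by gcongr) h2 (abs_nonneg _) ?_
        have := l1_nonneg (D.k μ)
        positivity
    _ = _ := by ring

theorem val_line (D : Trig n N) (x : E n) (t : ℝ) (i : Fin n) :
    HasDerivAt (fun u : ℝ => D.val (x + u • (Pi.single i 1 : E n)) t) (D.grad x t i) 0 := by
  unfold Trig.val Trig.grad
  have h1 : ∀ μ, HasDerivAt (fun u : ℝ => D.c μ * Real.cos (D.phase μ (x + u • (Pi.single i 1 : E n)) t))
      (-(D.c μ * (2 * Real.pi * D.k μ i) * Real.sin (D.phase μ x t))) 0 := by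
    intro μ
    have h2 : HasDerivAt (fun u : ℝ => D.phase μ (x + u • (Pi.single i 1 : E n)) t)
        (2 * Real.pi * D.k μ i) 0 := by
      simp only [phase_eq]
      exact (((dot_line (D.k μ) x i).add_const _).const_mul _).add_const _
    have h4 := (h2.cos).const_mul (D.c μ)
    refine h4.congr_deriv ?_
    rw [zero_smul, add_zero]
    ring
  have h5 := HasDerivAt.fun_sum (u := Finset.univ) (fun μ (_ : μ ∈ Finset.univ) => h1 μ)
  refine h5.congr_deriv ?_
  rw [Finset.sum_neg_distrib]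

/-! ## the gates -/

theorem phs_line (q : Fin n → ℤ) (j : Fin 3) (x : E n) (i : Fin n) :
    HasDerivAt (fun u : ℝ => phs q j (x + u • (Pi.single i 1 : E n))) (2 * Real.pi * q i) 0 := by
  unfold phs
  exact ((dot_line q x i).const_mul _).add_const _

theorem phs_lip (q : Fin n → ℤ) (j : Fin 3) (x y : E n) :
    |phs q j x - phs q j y| ≤ 2 * Real.pi * l1 q * ‖x - y‖ := by
  have e : phs q j x - phs q j y = 2 * Real.pi * (dot q x - dot q y) := by
    unfold phs; ring
  rw [e, abs_mul, abs_of_pos (by positivity : (0 : ℝ) < 2 * Real.pi), mul_assoc (2 * Real.pi)]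
  exact mul_le_mul_of_nonneg_left (dot_lip _ _ _) (by positivity)

theorem phs_cont (q : Fin n → ℤ) (j : Fin 3) : Continuous (fun x : E n => phs q j x) := by
  unfold phs
  have := dot_continuous q
  fun_prop

/-- bound and Lipschitz bound for `∑_j f_j(p.x) g(phase_j)` -/
theorem sum_bounds (p q : Fin n → ℤ) {f : Fin 3 → ℝ → ℝ} (hf : ∀ j, ContDiff ℝ ∞ (f j))
    (hp : ∀ (j : Fin 3) (s : ℝ) (m : ℤ), f j (s + m) = f j s) {g : ℝ → ℝ} {G : ℝ} (hg : ∀ u, |g u| ≤ G)
    (hl : ∀ u v, |g u - g v| ≤ G * |u - v|) :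
    ∃ C : ℝ, 0 ≤ C ∧ (∀ x : E n, |∑ j, f j (dot p x) * g (phs q j x)| ≤ C) ∧
      ∀ x y : E n, |∑ j, f j (dot p x) * g (phs q j x) - ∑ j, f j (dot p y) * g (phs q j y)| ≤ C * ‖x - y‖ := by
  have hG : 0 ≤ G := (abs_nonneg _).trans (hg 0)
  have h1 : ∀ j, ∃ C : ℝ, 0 ≤ C ∧ ∀ s, |f j s| ≤ C := fun j => bddP (hf j).continuous (hp j)
  have h2 : ∀ j, ∃ C : ℝ, 0 ≤ C ∧ ∀ s, |deriv (f j) s| ≤ C :=
    fun j => bddP (smooth_deriv (hf j)).continuous (per_deriv (hp j))
  choose C1 hC1 h1 using h1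
  choose C2 hC2 h2 using h2
  have hl1 := l1_nonneg p
  have hl2 := l1_nonneg q
  have hc : ∀ j, 0 ≤ C1 j * G + (C1 j * (G * (2 * Real.pi * l1 q)) + C2 j * l1 p * G) := fun j => by
    have := hC1 j
    have := hC2 j
    positivity
  refine ⟨∑ j, (C1 j * G + (C1 j * (G * (2 * Real.pi * l1 q)) + C2 j * l1 p * G)),
    Finset.sum_nonneg fun j _ => hc j, fun x => ?_, fun x y => ?_⟩
  · refine (Finset.abs_sum_le_sum_abs _ _).trans (Finset.sum_le_sum fun j _ => ?_)
    rw [abs_mul]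
    have h3 : |f j (dot p x)| * |g (phs q j x)| ≤ C1 j * G := mul_le_mul (h1 j _) (hg _) (abs_nonneg _) (hC1 j)
    have h4 : 0 ≤ C1 j * (G * (2 * Real.pi * l1 q)) + C2 j * l1 p * G := by
      have := hC1 j
      have := hC2 j
      positivity
    linarith
  · rw [← Finset.sum_sub_distrib, Finset.sum_mul]
    refine (Finset.abs_sum_le_sum_abs _ _).trans (Finset.sum_le_sum fun j _ => ?_)
    have h3 : |f j (dot p x) - f j (dot p y)| ≤ C2 j * l1 p * ‖x - y‖ := by
      have hd : Differentiable ℝ (f j) := (hf j).differentiable (by simp)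
      refine (lip_of_deriv (fun u => (hd u).hasDerivAt) (h2 j) _ _).trans ?_
      rw [mul_assoc]
      exact mul_le_mul_of_nonneg_left (dot_lip _ _ _) (hC2 j)
    have h4 : |g (phs q j x) - g (phs q j y)| ≤ G * (2 * Real.pi * l1 q) * ‖x - y‖ := by
      refine (hl _ _).trans ?_
      rw [mul_assoc]
      exact mul_le_mul_of_nonneg_left (phs_lip _ _ _ _) hG
    refine (lip_mul (h1 j _) (hg _) h3 h4).trans ?_
    refine mul_le_mul_of_nonneg_right ?_ (norm_nonneg _)
    have : 0 ≤ C1 j * G := mul_nonneg (hC1 j) hG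
    linarith

theorem lip2sin (u v : ℝ) : |2 * Real.pi * Real.sin u - 2 * Real.pi * Real.sin v| ≤ 2 * Real.pi * |u - v| := by
  rw [← mul_sub, abs_mul, abs_of_pos (by positivity : (0 : ℝ) < 2 * Real.pi)]
  exact mul_le_mul_of_nonneg_left (lip_sin _ _) (by positivity)

theorem gfc_bounds (p q : Fin n → ℤ) {χ : Fin 3 → ℝ → ℝ} (hχ : Chi χ) {b : ℝ → ℝ} (hb : ContDiff ℝ 1 b)
    (hbp : ∀ (t : ℝ) (l : ℤ), b (t + l) = b t) : ∃ C : ℝ, 0 ≤ C ∧ (∀ x t, ‖gfc p q χ b x t‖ ≤ C) ∧
      ∀ (x y : E n) (t : ℝ), ‖gfc p q χ b x t - gfc p q χ b y t‖ ≤ C * ‖x - y‖ := by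
  obtain ⟨Cb, hCb, hb1⟩ := bddP hb.continuous hbp
  obtain ⟨C1, hC1, h1, h1'⟩ := sum_bounds p q (f := fun j => deriv (χ j)) (fun j => smooth_deriv (hχ.1 j))
    (fun j => per_deriv (hχ.2 j)) (g := Real.cos) (G := 1) (fun u => Real.abs_cos_le_one u)
    (fun u v => by rw [one_mul]; exact lip_cos u v)
  obtain ⟨C2, hC2, h2, h2'⟩ := sum_bounds p q (f := χ) hχ.1 hχ.2 (g := fun u => 2 * Real.pi * Real.sin u)
    (G := 2 * Real.pi) (fun u => by
      rw [abs_mul, abs_of_pos (by positivity : (0 : ℝ) < 2 * Real.pi)]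
      exact mul_le_of_le_one_right (by positivity) (Real.abs_sin_le_one u)) lip2sin
  refine ⟨Cb * C1 * ‖(rv p : E n)‖ + Cb * C2 * ‖(rv q : E n)‖, by positivity, fun x t => ?_, fun x y t => ?_⟩
  · unfold gfc
    refine (norm_sub_le _ _).trans (add_le_add ?_ ?_)
    · rw [norm_smul, Real.norm_eq_abs, abs_mul]
      exact mul_le_mul_of_nonneg_right (mul_le_mul (hb1 t) (h1 x) (abs_nonneg _) hCb) (norm_nonneg _)
    · rw [norm_smul, Real.norm_eq_abs, abs_mul]
      exact mul_le_mul_of_nonneg_right (mul_le_mul (hb1 t) (h2 x) (abs_nonneg _) hCb) (norm_nonneg _)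
  · have e : gfc p q χ b x t - gfc p q χ b y t =
        (b t * (∑ j : Fin 3, deriv (χ j) (dot p x) * Real.cos (phs q j x) -
          ∑ j : Fin 3, deriv (χ j) (dot p y) * Real.cos (phs q j y))) • rv p -
        (b t * (∑ j : Fin 3, χ j (dot p x) * (2 * Real.pi * Real.sin (phs q j x)) -
          ∑ j : Fin 3, χ j (dot p y) * (2 * Real.pi * Real.sin (phs q j y)))) • rv q := by
      unfold gfc
      rw [mul_sub, mul_sub, sub_smul, sub_smul]
      abel
    rw [e]
    refine (norm_sub_le _ _).trans ?_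
    rw [add_mul]
    refine add_le_add ?_ ?_
    · rw [norm_smul, Real.norm_eq_abs, abs_mul]
      refine (mul_le_mul_of_nonneg_right (mul_le_mul (hb1 t) (h1' x y) (abs_nonneg _) hCb) (norm_nonneg _)).trans ?_
      rw [← mul_assoc]
      exact le_of_eq (by ring)
    · rw [norm_smul, Real.norm_eq_abs, abs_mul]
      refine (mul_le_mul_of_nonneg_right (mul_le_mul (hb1 t) (h2' x y) (abs_nonneg _) hCb) (norm_nonneg _)).trans ?_
      rw [← mul_assoc]
      exact le_of_eq (by ring)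

theorem gfc_cont (p q : Fin n → ℤ) {χ : Fin 3 → ℝ → ℝ} (hχ : Chi χ) {b : ℝ → ℝ} (hb : ContDiff ℝ 1 b) :
    Continuous (fun z : E n × ℝ => gfc p q χ b z.1 z.2) := by
  unfold gfc
  have h1 := dot_continuous p
  have h2 : ∀ j, Continuous (fun x : E n => phs q j x) := phs_cont q
  have h3 := hb.continuous
  have h4 : ∀ j, Continuous (χ j) := fun j => (hχ.1 j).continuous
  have h5 : ∀ j, Continuous (deriv (χ j)) := fun j => (smooth_deriv (hχ.1 j)).continuous
  refine ((h3.comp continuous_snd).mul (continuous_finsetSum _ fun j _ => ?_)).smul continuous_const |>.sub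
    (((h3.comp continuous_snd).mul (continuous_finsetSum _ fun j _ => ?_)).smul continuous_const)
  · exact ((h5 j).comp (h1.comp continuous_fst)).mul (Real.continuous_cos.comp ((h2 j).comp continuous_fst))
  · exact ((h4 j).comp (h1.comp continuous_fst)).mul
      (continuous_const.mul (Real.continuous_sin.comp ((h2 j).comp continuous_fst)))

/-! ## the gradient -/

theorem prt_line {p : Fin n → ℤ} (q : Fin n → ℤ) {A : ℝ → ℝ → ℝ} (hA : SP2 A) {χ : Fin 3 → ℝ → ℝ}
    (hχ : Chi χ) (b : ℝ → ℝ) (δ : ℝ) (x : E n) (t : ℝ) (i : Fin n) :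
    HasDerivAt (fun u : ℝ => prt p q A χ b δ (x + u • (Pi.single i 1 : E n)) t)
      ((sF p A x t + δ • gfc p q χ b x t) i) 0 := by
  unfold prt
  have e0 : x + (0 : ℝ) • (Pi.single i 1 : E n) = x := by rw [zero_smul, add_zero]
  have h1 : HasDerivAt (fun u : ℝ => A (dot p (x + u • (Pi.single i 1 : E n))) t)
      (ds A (dot p x) t * p i) 0 := by
    have h := ds_hasDeriv hA.1 (dot p (x + (0 : ℝ) • (Pi.single i 1 : E n))) t
    have h' := HasDerivAt.comp (0 : ℝ) h (dot_line p x i)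
    rw [e0] at h'
    exact h'
  have h2 : ∀ j, HasDerivAt (fun u : ℝ => χ j (dot p (x + u • (Pi.single i 1 : E n))))
      (deriv (χ j) (dot p x) * p i) 0 := by
    intro j
    have hd : Differentiable ℝ (χ j) := (hχ.1 j).differentiable (by simp)
    have h := (hd (dot p (x + (0 : ℝ) • (Pi.single i 1 : E n)))).hasDerivAt
    have h' := HasDerivAt.comp (0 : ℝ) h (dot_line p x i)
    rw [e0] at h'
    exact h'
  have h3 : ∀ j, HasDerivAt (fun u : ℝ => Real.cos (phs q j (x + u • (Pi.single i 1 : E n))))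
      (-Real.sin (phs q j x) * (2 * Real.pi * q i)) 0 := by
    intro j
    have h := (phs_line q j x i).cos
    rw [e0] at h
    exact h
  have h4 : ∀ j, HasDerivAt (fun u : ℝ => χ j (dot p (x + u • (Pi.single i 1 : E n))) *
      Real.cos (phs q j (x + u • (Pi.single i 1 : E n))))
      (deriv (χ j) (dot p x) * Real.cos (phs q j x) * p i -
        χ j (dot p x) * (2 * Real.pi * Real.sin (phs q j x)) * q i) 0 := by
    intro j
    refine ((h2 j).mul (h3 j)).congr_deriv ?_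
    rw [e0]
    ring
  have h5 := HasDerivAt.fun_sum (u := Finset.univ) (fun j (_ : j ∈ Finset.univ) => h4 j)
  have h6 := (h1.div_const (dot p (rv p))).add ((h5.const_mul (b t)).const_mul δ)
  refine h6.congr_deriv ?_
  simp only [Pi.add_apply, Pi.smul_apply, sF, gfc, Pi.sub_apply, smul_eq_mul, rv]
  rw [Finset.sum_sub_distrib, ← Finset.sum_mul, ← Finset.sum_mul]
  ring

theorem prt_diff (p q : Fin n → ℤ) {A : ℝ → ℝ → ℝ} (hA : SP2 A) {χ : Fin 3 → ℝ → ℝ} (hχ : Chi χ) {b : ℝ → ℝ}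
    (hb : ContDiff ℝ 1 b) (δ : ℝ) : Differentiable ℝ (fun z : E n × ℝ => prt p q A χ b δ z.1 z.2) := by
  unfold prt
  have h1 : ContDiff ℝ 1 (fun z : E n × ℝ => dot p z.1) := by
    unfold dot
    fun_prop
  have h2 : ∀ j, ContDiff ℝ 1 (fun z : E n × ℝ => phs q j z.1) := fun j => by
    unfold phs dot
    fun_prop
  have h3 : ContDiff ℝ 1 (fun z : E n × ℝ => A (dot p z.1) z.2) :=
    (hA.1.of_le (by simp : (1 : WithTop ℕ∞) ≤ ∞)).comp (h1.prodMk contDiff_snd)
  have h4 : ContDiff ℝ 1 (fun z : E n × ℝ => A (dot p z.1) z.2 / dot p (rv p) +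
      δ * (b z.2 * ∑ j : Fin 3, χ j (dot p z.1) * Real.cos (phs q j z.1))) := by
    refine (h3.div_const _).add (contDiff_const.mul ((hb.comp contDiff_snd).mul (ContDiff.sum fun j _ => ?_)))
    exact (((hχ.1 j).of_le (by simp : (1 : WithTop ℕ∞) ≤ ∞)).comp h1).mul (Real.contDiff_cos.comp (h2 j))
  exact h4.differentiable (by simp)

/-- **Leaf FRC.** -/
theorem t : S_FRC := by
  intro n N D p q A χ b hp hA hχ hb hbp
  obtain ⟨Cg, hCg, hg1, hg2⟩ := gfc_bounds p q hχ hb hbp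
  obtain ⟨Cd, hCd, hd1⟩ := grad_bdd D
  obtain ⟨Ld, hLd, hd2⟩ := grad_lip D
  obtain ⟨La, hLa, ha1, ha2, -⟩ := AU_bounds hA
  have hpp := pp_pos hp
  have hpp0 : 0 < dot p (rv p) := by linarith
  have hn1 := norm_rv_le p
  have hs1 : ∀ (x : E n) (t : ℝ), ‖sF p A x t‖ ≤ La := by
    intro x t
    unfold sF
    rw [norm_smul, Real.norm_eq_abs, abs_div, abs_of_pos hpp0, div_mul_eq_mul_div, div_le_iff₀ hpp0]
    exact mul_le_mul (ha1 _ _) hn1 (norm_nonneg _) hLa
  have hs2 : ∀ (x y : E n) (t : ℝ), ‖sF p A x t - sF p A y t‖ ≤ La * l1 p * ‖x - y‖ := by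
    intro x y t
    unfold sF
    rw [← sub_smul, ← sub_div, norm_smul, Real.norm_eq_abs, abs_div, abs_of_pos hpp0, div_mul_eq_mul_div,
      div_le_iff₀ hpp0]
    have h3 : |ds A (dot p x) t - ds A (dot p y) t| ≤ La * l1 p * ‖x - y‖ := by
      refine (ha2 _ _ _).trans ?_
      rw [mul_assoc]
      exact mul_le_mul_of_nonneg_left (dot_lip _ _ _) hLa
    exact mul_le_mul h3 hn1 (norm_nonneg _) (by have := l1_nonneg p; positivity)
  refine ⟨⟨Cg, hCg, hg1⟩, fun δ => ⟨fun x t => ?_, ?_, ⟨Cd + (La + |δ| * Cg), by positivity, fun x t => ?_⟩,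
    ⟨Ld + (La * l1 p + |δ| * Cg), by have := l1_nonneg p; positivity, fun x y t => ?_⟩, fun x t l => ?_⟩⟩
  · funext i
    unfold gr
    have hdf : Differentiable ℝ (fun z : E n × ℝ => D.val z.1 z.2 + prt p q A χ b δ z.1 z.2) :=
      ((val_smooth D).differentiable (by simp)).add (prt_diff p q hA hχ hb δ)
    have hline : HasDerivAt (fun u : ℝ => ((x + u • (Pi.single i 1 : E n), t) : E n × ℝ))
        ((Pi.single i 1 : E n), (0 : ℝ)) 0 := by
      have h1 : HasDerivAt (fun u : ℝ => x + u • (Pi.single i 1 : E n)) (Pi.single i 1 : E n) 0 := by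
        simpa using ((hasDerivAt_id (0 : ℝ)).smul_const (Pi.single i 1 : E n)).const_add x
      exact h1.prodMk (hasDerivAt_const 0 t)
    have e0 : ((x + (0 : ℝ) • (Pi.single i 1 : E n), t) : E n × ℝ) = (x, t) := by rw [zero_smul, add_zero]
    have h1 := (hdf ((x + (0 : ℝ) • (Pi.single i 1 : E n), t) : E n × ℝ)).hasFDerivAt.comp_hasDerivAt (0 : ℝ) hline
    rw [e0] at h1
    have h2 := (val_line D x t i).add (prt_line (p := p) q hA hχ b δ x t i)
    exact h1.unique h2
  · unfold Frc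
    refine (grad_cont D).add (Continuous.add ?_ ((gfc_cont p q hχ hb).const_smul δ))
    unfold sF
    have h1 : Continuous (fun z : E n × ℝ => ds A (dot p z.1) z.2) :=
      hA.ds.1.continuous.comp (((dot_continuous p).comp continuous_fst).prodMk continuous_snd)
    exact (h1.div_const _).smul continuous_const
  · unfold Frc
    refine (norm_add_le _ _).trans (add_le_add (hd1 x t) ((norm_add_le _ _).trans (add_le_add (hs1 x t) ?_)))
    rw [norm_smul, Real.norm_eq_abs]
    exact mul_le_mul_of_nonneg_left (hg1 x t) (abs_nonneg _)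
  · have e : Frc D p q A χ b δ x t - Frc D p q A χ b δ y t =
        ((fun i => D.grad x t i : E n) - (fun i => D.grad y t i : E n)) +
          ((sF p A x t - sF p A y t) + δ • (gfc p q χ b x t - gfc p q χ b y t)) := by
      unfold Frc
      rw [smul_sub]
      abel
    rw [e, add_mul, add_mul]
    refine (norm_add_le _ _).trans (add_le_add (hd2 x y t) ((norm_add_le _ _).trans (add_le_add (hs2 x y t) ?_)))
    rw [norm_smul, Real.norm_eq_abs, mul_assoc]
    exact mul_le_mul_of_nonneg_left (hg2 x y t) (abs_nonneg _)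
  · unfold Frc
    have e1 : (fun i => D.grad x (t + l) i : E n) = fun i => D.grad x t i := funext fun i => grad_time D x t l i
    have e2 : sF p A x (t + l) = sF p A x t := by
      unfold sF
      have := hA.ds.2 (dot p x) t 0 l
      rw [Int.cast_zero, add_zero] at this
      rw [this]
    have e3 : gfc p q χ b x (t + l) = gfc p q χ b x t := by
      unfold gfc
      rw [hbp]
    rw [e1, e2, e3]

end FRC

end Pool.Agent.K9h32.SP
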