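import Pool.Agent.K9h32.SP.StmU

/-!
# `C^k`-density for every `k`: the hyperbolic slow dynamics (corrected statement)
-/

set_option autoImplicit false

open Set Filter Topology
open scoped ContDiff

noncomputable section

namespace Pool.Agent.K9h32.SP

/-- Leaf UH (the clause on the right end of `S_UH` is replaced: both ends are in one clause) -/
def S_UH2 : Prop :=
  ∀ (k : ℕ) (ε : ℝ), 0 < ε → ∃ (A : ℝ → ℝ → ℝ) (χ : Fin 3 → ℝ → ℝ) (T : ℕ) (sg mu κ ρ a b : ℝ)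
    (aj bj : Fin 3 → ℝ) (G : Set (ℝ × ℝ)),
    2 ≤ T ∧ 0 < sg ∧ sg ≤ 1 / 100 ∧ 0 < mu ∧ mu ≤ sg / 100 ∧ 0 < κ ∧ κ ≤ 1 ∧ 0 < ρ ∧ ρ ≤ 1 / 100 ∧
    3 / 8 ≤ a ∧ b ≤ 5 / 8 ∧ (∀ j, a < aj j ∧ aj j < bj j ∧ bj j < b) ∧
    ContDiff ℝ ∞ (fun q : ℝ × ℝ => A q.1 q.2) ∧ (∀ (s t : ℝ) (m l : ℤ), A (s + m) (t + l) = A s t) ∧
    (∀ i ≤ k, ∀ q, ‖iteratedFDeriv ℝ i (fun q : ℝ × ℝ => A q.1 q.2) q‖ ≤ ε) ∧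
    (∀ j, ContDiff ℝ ∞ (χ j)) ∧ (∀ (j : Fin 3) (s : ℝ) (m : ℤ), χ j (s + m) = χ j s) ∧
    -- no slow force near the gates
    (∀ s t : ℝ, s ∈ Icc (1 / 4 : ℝ) (3 / 4) → t ∈ Icc (-(2 / 5) : ℝ) (2 / 5) → A s t = 0) ∧
    -- the ends of a family of initial states
    (∀ (j : Fin 3) (z w : ℝ → ℝ → ℝ) (τ1 τ2 : ℝ), τ1 ≤ τ2 → (∀ τ ∈ Icc τ1 τ2, Sol A (z τ) (w τ)) →
      ContinuousOn (fun τ => z τ 0) (Icc τ1 τ2) → ContinuousOn (fun τ => w τ 0) (Icc τ1 τ2) →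
      z τ1 0 = aj j → z τ2 0 = bj j → (∀ τ ∈ Icc τ1 τ2, z τ 0 ∈ Icc (aj j) (bj j) ∧ |w τ 0 - sg| ≤ mu) →
      ∃ τ' τ'', τ1 ≤ τ' ∧ τ' ≤ τ'' ∧ τ'' ≤ τ2 ∧ z τ' T = a + 1 - ρ ∧ z τ'' T = b + 1 + ρ ∧
        ∀ τ ∈ Icc τ' τ'', (z τ 0, w τ 0) ∈ G ∧ z τ T ∈ Icc (a + 1 - ρ) (b + 1 + ρ)) ∧
    -- passages
    (∀ (j : Fin 3) (s r : ℝ → ℝ), Sol A s r → s 0 ∈ Icc (aj j) (bj j) → |r 0 - sg| ≤ mu → (s 0, r 0) ∈ G →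
      s T ∈ Icc (a + 1 - ρ) (b + 1 + ρ) →
      |r T - sg| ≤ mu / 2 ∧
      (∀ t ∈ Icc (0 : ℝ) (1 / 5), s t ∈ Icc (1 / 4 + ρ) (3 / 4 - ρ)) ∧
      (∀ t ∈ Icc (0 : ℝ) (1 / 100), ∀ u, |u - s t| ≤ ρ → ∀ i, χ i u = if i = j then 1 else 0) ∧
      (∀ l : ℕ, 1 ≤ l → l < T → ∀ t ∈ Icc (l : ℝ) (l + 1 / 100), ∀ u, |u - s t| ≤ ρ → ∀ i, χ i u = 0)) ∧
    -- hyperbolicity
    (∀ (j : Fin 3) (s r s' r' : ℝ → ℝ), Sol A s r → Sol A s' r' → s 0 ∈ Icc (aj j) (bj j) → |r 0 - sg| ≤ mu →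
      (s 0, r 0) ∈ G → s T ∈ Icc (a + 1 - ρ) (b + 1 + ρ) → s' 0 ∈ Icc (aj j) (bj j) → |r' 0 - sg| ≤ mu →
      (s' 0, r' 0) ∈ G → s' T ∈ Icc (a + 1 - ρ) (b + 1 + ρ) → |r' 0 - r 0| ≤ κ * |s' 0 - s 0| →
      8 * |s' 0 - s 0| ≤ |s' T - s T| ∧ |r' T - r T| ≤ κ / 2 * |s' T - s T|)

end Pool.Agent.K9h32.SP
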