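import Pool.Agent.K9h32.SP.UHD
import Pool.Agent.K9h32.SP.StmU2

/-!
# Leaf UH
-/

set_option autoImplicit false

open Set Filter Topology
open scoped ContDiff

noncomputable section

namespace Pool.Agent.K9h32.SP.UH

open Pool.Agent.K9h32.SP.Slow

/-- the gates -/
def gate (h : ℝ) (j : Fin 3) : ℝ → ℝ := pb (z h j - h / 2) (h / 10) (11 / 200 * h)

theorem gate_plateau {h : ℝ} (h0 : 0 < h) (h1 : h ≤ 1 / 100) {j : Fin 3} {s : ℝ}
    (hs1 : z h j - 111 / 200 * h ≤ s) (hs2 : s ≤ z h j - 89 / 200 * h) (i : Fin 3) :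
    gate h i s = if i = j then 1 else 0 := by
  unfold gate
  split_ifs with hij
  · subst hij
    exact pb_one (by positivity) (by linarith) (by linarith) (by rw [abs_le]; constructor <;> linarith)
  · obtain ⟨z1, z2⟩ := z_bd h0 i
    obtain ⟨z3, z4⟩ := z_bd h0 j
    rcases lt_or_gt_of_ne hij with hlt | hgt
    · have h2 : ((i : ℕ) : ℝ) + 1 ≤ ((j : ℕ) : ℝ) := by exact_mod_cast hlt
      have h3 : z h i + h / 4 ≤ z h j := by
        unfold z
        nlinarith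
      exact pb_zero (by positivity) (by linarith) (by linarith) (by linarith) (by linarith)
    · have h2 : ((j : ℕ) : ℝ) + 1 ≤ ((i : ℕ) : ℝ) := by exact_mod_cast hgt
      have h3 : z h j + h / 4 ≤ z h i := by
        unfold z
        nlinarith
      have e := pb_per (z h i - h / 2) (h / 10) (11 / 200 * h) s 1
      rw [← e]
      push_cast
      exact pb_zero (by positivity) (by linarith) (by linarith) (by linarith) (by linarith)

theorem gate_off {h : ℝ} (h0 : 0 < h) (h1 : h ≤ 1 / 100) {s : ℝ}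
    (hs1 : 1 / 2 + h / 10 ≤ s) (hs2 : s ≤ 3 / 2 - 3 / 5 * h) (i : Fin 3) : gate h i s = 0 := by
  obtain ⟨z1, z2⟩ := z_bd h0 i
  exact pb_zero (by positivity) (by linarith) (by linarith) (by linarith) (by linarith)

/-- from solutions of the slow equation to the shifted system -/
theorem conv {N : ℕ} {β : ℝ} {s r : ℝ → ℝ} (hs : SP.Sol (AA N β) s r) :
    Slow.Sol (fF (fun s => (1 / (N:ℝ)) ^ 2 / 2 * deriv u2 s) bb (deriv (R N)) β)
      (fun t => (s (t + 1 / 2), r (t + 1 / 2))) := by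
  intro t
  have h1 := (hs (t + 1 / 2)).1.comp_add_const t (1 / 2)
  have h2 := (hs (t + 1 / 2)).2.comp_add_const t (1 / 2)
  refine (h1.prodMk h2).congr_deriv ?_
  have h3 : HasDerivAt (fun u => AA N β u (t + 1 / 2)) (-((1 / (N : ℝ)) ^ 2 / 2) * deriv u2 (s (t + 1 / 2)) +
      β * (bb (t + 1 / 2 - 1 / 2) * deriv (R N) (s (t + 1 / 2)))) (s (t + 1 / 2)) := by
    unfold AA
    refine HasDerivAt.add ?_ ?_
    · exact ((u2_contDiff.differentiable (by norm_cast)) _).hasDerivAt.const_mul _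
    · exact ((((R_contDiff N).differentiable (by norm_cast)) _).hasDerivAt.const_mul _).const_mul _
  rw [h3.deriv]
  unfold rhs fF
  simp only [Prod.mk.injEq, true_and]
  rw [add_sub_cancel_right]
  ring

/-- Leaf UH -/
theorem t : S_UH2 := by
  intro k ε hε
  obtain ⟨N, β, m, κ, w, T, L, hN, S, hsmall⟩ := exists_sys k hε
  have hconv := fun {s r : ℝ → ℝ} (hs : SP.Sol (AA N β) s r) => conv hs
  obtain ⟨h, hh⟩ : ∃ h : ℝ, h = 1 / N := ⟨_, rfl⟩
  rw [← hh] at S hconv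
  have h0 := S.h0
  have h1 := S.h1
  have hm0 := S.m0
  have hm1 := S.m1
  have hκ0 := S.κ0
  have hκ1 := S.κ1
  have hT : (3 : ℝ) ≤ T := by exact_mod_cast S.T3
  have hT3 := S.T3
  obtain ⟨Φ, Φ0, Φ1, Φ2⟩ := S.niceF.flow
  obtain ⟨Ψ, Ψ0, Ψ1, Ψ2⟩ := S.niceA.flow
  -- identification of the solutions
  have ident : ∀ (j : Fin 3) (s r : ℝ → ℝ), SP.Sol (AA N β) s r →
      s 0 ∈ Icc (z h j - 27 / 50 * h) (z h j - 23 / 50 * h) → |r 0 - h| ≤ m →
      (s 0 + r 0 / 2, r 0) ∈ W h m j ∧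
      (∀ t ∈ Icc (0 : ℝ) (1 / 2), s t = s 0 + r 0 * t) ∧
      ∀ t, (s (t + 1 / 2), r (t + 1 / 2)) = Φ (s 0 + r 0 / 2, r 0) t := by
    intro j s r hs hs0 hr0
    have e0 : (-(1 / 2) : ℝ) + 1 / 2 = 0 := by norm_num
    have hξ := hconv hs
    have hi := init S hξ (j := j) (by simp only; rw [e0]; exact hs0.1) (by simp only; rw [e0]; exact hs0.2)
      (by simp only; rw [e0]; exact hr0)
    simp only at hi
    rw [e0] at hi
    obtain ⟨i1, i2⟩ := hi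
    have e1 : ((0:ℝ) + 1 / 2) = 1 / 2 := by norm_num
    have i3 := i1 0 ⟨by norm_num, le_rfl⟩
    have e2 : s 0 + r 0 * ((0:ℝ) + 1 / 2) = s 0 + r 0 / 2 := by ring
    rw [e2] at i3
    refine ⟨?_, ?_, ?_⟩
    · rw [← i3]; exact i2
    · intro t ht
      have i4 := i1 (t - 1 / 2) ⟨by linarith [ht.1], by linarith [ht.2]⟩
      rw [sub_add_cancel] at i4
      exact congrArg Prod.fst i4
    · intro t
      exact S.niceF.uniq' hξ (Φ1 (s 0 + r 0 / 2, r 0)) (t0 := 0) (by rw [Φ0]; exact i3) t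
  have eT : (T:ℝ) - 1 / 2 + 1 / 2 = T := by ring
  -- states of `G` with the data of the autonomous continuation
  have mkGS : ∀ (j : Fin 3) (q : ℝ × ℝ), q ∈ W h m j → h ≤ (Φ q (1 / 100)).2 →
      (Ψ (Φ q (1 / 100)) ((T:ℝ) - 1 / 2 - 1 / 100)).1 ≤ 3 / 2 + 51 / 1000 * h →
      GS h m β T (fun s => h ^ 2 / 2 * deriv u2 s) bb (deriv (R N)) j (Φ q)
        (fun t => Ψ (Φ q (1 / 100)) (t - 1 / 100)) := by
    intro j q hq hv hX
    have e : Ψ (Φ q (1 / 100)) (1 / 100 - 1 / 100) = Φ q (1 / 100) := by rw [sub_self, Ψ0]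
    exact ⟨Φ1 _, (Ψ1 _).shift_auto (1 / 100), e.symm, by rw [Φ0]; exact hq, by rw [e]; exact hv, hX⟩
  -- hyperbolicity, ordered case
  have hyp1 : ∀ (j : Fin 3) (s r s' r' : ℝ → ℝ), SP.Sol (AA N β) s r → SP.Sol (AA N β) s' r' →
      s 0 ∈ Icc (z h j - 27 / 50 * h) (z h j - 23 / 50 * h) → |r 0 - h| ≤ m →
      (h ≤ (Φ (s 0 + r 0 / 2, r 0) (1 / 100)).2 ∧
        (Ψ (Φ (s 0 + r 0 / 2, r 0) (1 / 100)) ((T:ℝ) - 1 / 2 - 1 / 100)).1 ≤ 3 / 2 + 51 / 1000 * h) →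
      3 / 2 - 551 / 1000 * h ≤ s T →
      s' 0 ∈ Icc (z h j - 27 / 50 * h) (z h j - 23 / 50 * h) → |r' 0 - h| ≤ m →
      (h ≤ (Φ (s' 0 + r' 0 / 2, r' 0) (1 / 100)).2 ∧
        (Ψ (Φ (s' 0 + r' 0 / 2, r' 0) (1 / 100)) ((T:ℝ) - 1 / 2 - 1 / 100)).1 ≤ 3 / 2 + 51 / 1000 * h) →
      3 / 2 - 551 / 1000 * h ≤ s' T →
      |r' 0 - r 0| ≤ κ * (s' 0 - s 0) → s 0 < s' 0 →
      8 * (s' 0 - s 0) ≤ s' T - s T ∧ |r' T - r T| ≤ κ / 2 * (s' T - s T) := by
    intro j s r s' r' hs hs' a1 a2 a3 a4 b1 b2 b3 b4 hr hlt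
    obtain ⟨c1, _, c3⟩ := ident j s r hs a1 a2
    obtain ⟨d1, _, d3⟩ := ident j s' r' hs' b1 b2
    have c4 := c3 ((T:ℝ) - 1 / 2)
    have d4 := d3 ((T:ℝ) - 1 / 2)
    rw [eT] at c4 d4
    have c5 : (Φ (s 0 + r 0 / 2, r 0) ((T:ℝ) - 1 / 2)).1 = s T := by rw [← c4]
    have c6 : (Φ (s 0 + r 0 / 2, r 0) ((T:ℝ) - 1 / 2)).2 = r T := by rw [← c4]
    have d5 : (Φ (s' 0 + r' 0 / 2, r' 0) ((T:ℝ) - 1 / 2)).1 = s' T := by rw [← d4]
    have d6 : (Φ (s' 0 + r' 0 / 2, r' 0) ((T:ℝ) - 1 / 2)).2 = r' T := by rw [← d4]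
    have H := mkGS j _ c1 a3.1 a3.2
    have H' := mkGS j _ d1 b3.1 b3.2
    have hr' := abs_le.1 hr
    have hD : 0 < s' 0 - s 0 := by linarith
    have hκD : κ * (s' 0 - s 0) ≤ 1 / 10 * (s' 0 - s 0) := mul_le_mul_of_nonneg_right hκ1 hD.le
    obtain ⟨e1, e2, e3⟩ := hyper S H H' (by rw [c5]; exact a4) (by rw [d5]; exact b4) (D := s' 0 - s 0) hD
      (by rw [Φ0, Φ0]; simp only; linarith) (by rw [Φ0, Φ0]; simp only; linarith)
    rw [c5, d5] at e1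
    rw [c6, d6] at e2
    rw [c5, d5, c6, d6] at e3
    exact ⟨e1, by rw [abs_of_nonneg e2]; exact e3⟩
  refine ⟨AA N β, gate h, T, h, m, κ, h / 1000, 1 / 2 - 11 / 20 * h, 1 / 2 + 1 / 20 * h,
    fun j => z h j - 27 / 50 * h, fun j => z h j - 23 / 50 * h,
    {q | h ≤ (Φ (q.1 + q.2 / 2, q.2) (1 / 100)).2 ∧
      (Ψ (Φ (q.1 + q.2 / 2, q.2) (1 / 100)) ((T:ℝ) - 1 / 2 - 1 / 100)).1 ≤ 3 / 2 + 51 / 1000 * h},
    by omega, h0, h1, hm0, by linarith, hκ0, by linarith, by positivity, by linarith, by linarith,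
    by linarith, fun j => ?_, ?_, ?_, hsmall, fun j => pb_contDiff _ _ _, fun j s a => pb_per _ _ _ _ _,
    ?_, ?_, ?_, ?_⟩
  · obtain ⟨z1, z2⟩ := z_bd h0 j
    refine ⟨by linarith, by linarith, by linarith⟩
  · unfold AA
    refine ContDiff.add ?_ ?_
    · exact contDiff_const.mul (u2_contDiff.comp contDiff_fst)
    · refine contDiff_const.mul (ContDiff.mul ?_ ((R_contDiff N).comp contDiff_fst))
      exact (pb_contDiff _ _ _).comp (contDiff_snd.sub contDiff_const)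
  · intro s t a c
    unfold AA
    have e : t + (c : ℝ) - 1 / 2 = (t - 1 / 2) + c := by ring
    have e2 : bb ((t - 1 / 2) + c) = bb (t - 1 / 2) := pb_per _ _ _ _ _
    rw [e, e2, u2_per, R_per]
  · -- no force near the gates
    intro s t hs ht
    unfold AA
    have e1 : bb (t - 1 / 2) = 0 := by
      have e := S.bper (t - 1 / 2) 1
      push_cast at e
      rw [← e]
      exact bb_zero (by linarith [ht.1]) (by linarith [ht.2])
    rw [u2_zero hs.1 hs.2, e1]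
    ring
  · -- the ends
    intro j zz ww τ1 τ2 h12 hsol cz cw e1 e2 hin
    obtain ⟨γ, hγ⟩ : ∃ γ : ℝ → ℝ × ℝ, γ = fun τ => (zz τ 0 + ww τ 0 / 2, ww τ 0) := ⟨_, rfl⟩
    have hγc : ContinuousOn γ (Icc τ1 τ2) := by
      rw [hγ]
      exact (cz.add (cw.div_const 2)).prodMk cw
    have hid := fun τ (hτ : τ ∈ Icc τ1 τ2) => ident j (zz τ) (ww τ) (hsol τ hτ) (hin τ hτ).1 (hin τ hτ).2
    have hK : ∀ p ∈ Icc τ1 τ2, γ p ∈ W h m j := fun p hp => by rw [hγ]; exact (hid p hp).1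
    have hval : ∀ p ∈ Icc τ1 τ2, (Φ (γ p) ((T:ℝ) - 1 / 2)).1 = zz p T := by
      intro p hp
      have := (hid p hp).2.2 ((T:ℝ) - 1 / 2)
      rw [eT] at this
      rw [hγ]
      simp only
      rw [← this]
    have w1 := abs_le.1 (hin τ1 ⟨le_rfl, h12⟩).2
    have w2 := abs_le.1 (hin τ2 ⟨h12, le_rfl⟩).2
    obtain ⟨a', c', f1, f2, f3, f4, f5, f6⟩ := family S Φ0 Φ1 Φ2 Ψ0 Ψ1 Ψ2 (j := j) h12 hγc
      (by rw [hγ]; simp only; rw [e1]; linarith) (by rw [hγ]; simp only; rw [e2]; linarith) hK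
    refine ⟨a', c', f1, f2, f3, ?_, ?_, fun τ hτ => ?_⟩
    · rw [← hval a' ⟨f1, f2.trans f3⟩, f4]; ring
    · rw [← hval c' ⟨f1.trans f2, f3⟩, f5]; ring
    · obtain ⟨g1, g2, g3, g4⟩ := f6 τ hτ
      have hτ' : τ ∈ Icc τ1 τ2 := ⟨f1.trans hτ.1, hτ.2.trans f3⟩
      rw [hval τ hτ'] at g3 g4
      rw [hγ] at g1 g2
      exact ⟨⟨g1, g2⟩, by linarith, by linarith⟩
  · -- passages
    intro j s r hs a1 a2 a3 a4
    obtain ⟨c1, c2, c3⟩ := ident j s r hs a1 a2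
    have c4 := c3 ((T:ℝ) - 1 / 2)
    rw [eT] at c4
    have c5 : (Φ (s 0 + r 0 / 2, r 0) ((T:ℝ) - 1 / 2)).1 = s T := by rw [← c4]
    have c6 : (Φ (s 0 + r 0 / 2, r 0) ((T:ℝ) - 1 / 2)).2 = r T := by rw [← c4]
    have H := mkGS j _ c1 a3.1 a3.2
    have hr0 := abs_le.1 a2
    obtain ⟨z1, z2⟩ := z_bd h0 j
    refine ⟨?_, ?_, ?_, ?_⟩
    · have := (H.endv S (by rw [c5]; linarith [a4.1])).2
      rw [c6] at this
      exact this
    · intro t ht
      rw [c2 t ⟨ht.1, by linarith [ht.2]⟩]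
      have m1 : 0 ≤ r 0 * t := mul_nonneg (by linarith) ht.1
      have m2 : r 0 * t ≤ r 0 * (1 / 5) := mul_le_mul_of_nonneg_left ht.2 (by linarith)
      constructor <;> linarith [a1.1, a1.2]
    · intro t ht u hu i
      rw [c2 t ⟨ht.1, by linarith [ht.2]⟩] at hu
      have m1 : 0 ≤ r 0 * t := mul_nonneg (by linarith) ht.1
      have m2 : r 0 * t ≤ r 0 * (1 / 100) := mul_le_mul_of_nonneg_left ht.2 (by linarith)
      rw [abs_le] at hu
      exact gate_plateau h0 h1 (by linarith [a1.1, hu.1]) (by linarith [a1.2, hu.2]) i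
    · intro l hl1 hl2 t ht u hu i
      have hl1' : (1 : ℝ) ≤ l := by exact_mod_cast hl1
      have hl2' : (l : ℝ) + 1 ≤ T := by exact_mod_cast hl2
      have e1 : s t = (Φ (s 0 + r 0 / 2, r 0) (t - 1 / 2)).1 := by
        have := c3 (t - 1 / 2)
        rw [sub_add_cancel] at this
        rw [← this]
      have e2 := H.full S (t - 1 / 2) ⟨by linarith [ht.1], by linarith [ht.2]⟩
      obtain ⟨e3, e4⟩ := (H.auto S).2.2.1 (t - 1 / 2) ⟨by linarith [ht.1], by linarith [ht.2]⟩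
      rw [← e2, ← e1] at e3 e4
      rw [abs_le] at hu
      exact gate_off h0 h1 (by linarith [hu.1]) (by linarith [hu.2]) i
  · -- hyperbolicity
    intro j s r s' r' hs hs' a1 a2 a3 a4 b1 b2 b3 b4 hr
    have a4' : 3 / 2 - 551 / 1000 * h ≤ s T := by linarith [a4.1]
    have b4' : 3 / 2 - 551 / 1000 * h ≤ s' T := by linarith [b4.1]
    rcases lt_trichotomy (s 0) (s' 0) with hlt | heq | hgt
    · have hp : 0 < s' 0 - s 0 := by linarith
      rw [abs_of_pos hp] at hr ⊢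
      obtain ⟨e1, e2⟩ := hyp1 j s r s' r' hs hs' a1 a2 a3 a4' b1 b2 b3 b4' hr hlt
      rw [abs_of_pos (by linarith : 0 < s' T - s T)]
      exact ⟨e1, e2⟩
    · -- equal initial states
      have e1 : s' 0 - s 0 = 0 := by linarith
      rw [e1, abs_zero, mul_zero] at hr
      have e2 : r' 0 - r 0 = 0 := abs_eq_zero.1 (le_antisymm hr (abs_nonneg _))
      have e3 : r' 0 = r 0 := by linarith
      obtain ⟨_, _, c3⟩ := ident j s r hs a1 a2
      obtain ⟨_, _, d3⟩ := ident j s' r' hs' b1 b2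
      have c4 := c3 ((T:ℝ) - 1 / 2)
      have d4 := d3 ((T:ℝ) - 1 / 2)
      rw [eT] at c4 d4
      rw [← heq, e3, ← c4] at d4
      have d5 : s' T = s T := congrArg Prod.fst d4
      have d6 : r' T = r T := congrArg Prod.snd d4
      rw [d5, d6, e1]
      simp
    · have hp : 0 < s 0 - s' 0 := by linarith
      rw [abs_sub_comm (r' 0) (r 0), abs_sub_comm (s' 0) (s 0)] at hr
      rw [abs_sub_comm (s' 0) (s 0), abs_sub_comm (s' T) (s T), abs_sub_comm (r' T) (r T)]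
      rw [abs_of_pos hp] at hr ⊢
      obtain ⟨e1, e2⟩ := hyp1 j s' r' s r hs' hs b1 b2 b3 b4' a1 a2 a3 a4' hr hgt
      rw [abs_of_pos (by linarith : 0 < s T - s' T)]
      exact ⟨e1, e2⟩

end Pool.Agent.K9h32.SP.UH
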