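import Pool.Agent.K9h32.SP.StmS
import Pool.Agent.N980.TL.EX4

/-!
# Leaf GLOB: global solutions
-/

set_option autoImplicit false

open Set Filter Topology
open scoped ContDiff NNReal

noncomputable section

namespace Pool.Agent.K9h32.SP

open Pool.Agent.N980.TL

namespace Glob

variable {n : ℕ}

/-- the vector field -/
def X (F : E n → ℝ → E n) (t : ℝ) (p : E n × E n) : E n × E n := (p.2, F p.1 t)

theorem X_lip {F : E n → ℝ → E n} {L : ℝ} (hL : 0 ≤ L) (hFL : ∀ x y t, ‖F x t - F y t‖ ≤ L * ‖x - y‖) (t : ℝ) :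
    LipschitzWith (⟨max 1 L, le_max_of_le_left zero_le_one⟩ : ℝ≥0) (X F t) := by
  refine LipschitzWith.of_dist_le_mul fun p q => ?_
  rw [dist_eq_norm, dist_eq_norm]
  change ‖X F t p - X F t q‖ ≤ max 1 L * ‖p - q‖
  have e1 : ‖p.2 - q.2‖ ≤ ‖p - q‖ := norm_snd_le (p - q)
  have e2 : ‖p.1 - q.1‖ ≤ ‖p - q‖ := norm_fst_le (p - q)
  have hpq : 0 ≤ ‖p - q‖ := norm_nonneg _
  have h1 : ‖p.2 - q.2‖ ≤ max 1 L * ‖p - q‖ := by
    have : 1 * ‖p - q‖ ≤ max 1 L * ‖p - q‖ := mul_le_mul_of_nonneg_right (le_max_left _ _) hpq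
    linarith
  have h2 : ‖F p.1 t - F q.1 t‖ ≤ max 1 L * ‖p - q‖ := by
    refine (hFL _ _ _).trans ?_
    exact mul_le_mul (le_max_right _ _) e2 (norm_nonneg _) (le_max_of_le_left zero_le_one)
  have : X F t p - X F t q = (p.2 - q.2, F p.1 t - F q.1 t) := rfl
  rw [this, Prod.norm_def]
  exact max_le h1 h2

theorem local_ex {F : E n → ℝ → E n} {B L : ℝ} (hB : 0 ≤ B) (hL : 0 ≤ L)
    (hF : Continuous (fun q : E n × ℝ => F q.1 q.2)) (hFB : ∀ x t, ‖F x t‖ ≤ B)
    (hFL : ∀ x y t, ‖F x t - F y t‖ ≤ L * ‖x - y‖) (t0 : ℝ) (x0 v0 : E n) (K : ℝ) (hK : 0 ≤ K) :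
    ∃ α : ℝ → E n × E n, α t0 = (x0, v0) ∧ ∀ t ∈ Ioo (t0 - (K + 1)) (t0 + (K + 1)),
      HasDerivAt α (X F t (α t)) t := by
  set T : ℝ := K + 2 with hT
  have hTpos : 0 < T := by rw [hT]; linarith
  set R : ℝ := ‖v0‖ + B * T + 1 with hR
  have hv0 : 0 ≤ ‖v0‖ := norm_nonneg _
  have hBT : 0 ≤ B * T := mul_nonneg hB hTpos.le
  have hRpos : 0 ≤ R := by rw [hR]; linarith
  set M : ℝ := max R B with hM
  have hM0 : 0 ≤ M := hRpos.trans (le_max_left _ _)
  set Y : ℝ → E n × E n → E n × E n := fun t p => (exClamp R p.2, F p.1 t) with hY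
  have hmem : t0 ∈ Icc (t0 - T) (t0 + T) := ⟨by linarith, by linarith⟩
  have hPL : IsPicardLindelof Y (⟨t0, hmem⟩ : Icc (t0 - T) (t0 + T)) (x0, v0)
      ⟨M * T, mul_nonneg hM0 hTpos.le⟩ 0 ⟨M, hM0⟩ ⟨max 1 L, le_max_of_le_left zero_le_one⟩ := by
    refine ⟨?_, ?_, ?_, ?_⟩
    · intro t _
      refine LipschitzOnWith.of_dist_le_mul ?_
      intro p _ q _
      rw [dist_eq_norm, dist_eq_norm]
      change ‖Y t p - Y t q‖ ≤ max 1 L * ‖p - q‖
      have e1 : ‖p.2 - q.2‖ ≤ ‖p - q‖ := norm_snd_le (p - q)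
      have e2 : ‖p.1 - q.1‖ ≤ ‖p - q‖ := norm_fst_le (p - q)
      have hpq : 0 ≤ ‖p - q‖ := norm_nonneg _
      have h1 : ‖exClamp R p.2 - exClamp R q.2‖ ≤ max 1 L * ‖p - q‖ := by
        refine (exClamp_sub_le R _ _).trans (e1.trans ?_)
        have : 1 * ‖p - q‖ ≤ max 1 L * ‖p - q‖ := mul_le_mul_of_nonneg_right (le_max_left _ _) hpq
        linarith
      have h2 : ‖F p.1 t - F q.1 t‖ ≤ max 1 L * ‖p - q‖ := by
        refine (hFL _ _ _).trans ?_
        exact mul_le_mul (le_max_right _ _) e2 (norm_nonneg _) (le_max_of_le_left zero_le_one)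
      have : Y t p - Y t q = (exClamp R p.2 - exClamp R q.2, F p.1 t - F q.1 t) := rfl
      rw [this, Prod.norm_def]
      exact max_le h1 h2
    · intro p _
      have h1 : Continuous fun t : ℝ => F p.1 t := hF.comp (by fun_prop : Continuous fun t : ℝ => (p.1, t))
      exact (continuous_const.prodMk h1).continuousOn
    · intro t _ p _
      change ‖Y t p‖ ≤ M
      rw [hY, Prod.norm_def]
      exact max_le ((exClamp_norm_le hRpos _).trans (le_max_left _ _)) ((hFB _ _).trans (le_max_right _ _))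
    · change M * max (t0 + T - t0) (t0 - (t0 - T)) ≤ M * T - 0
      rw [sub_zero]
      refine mul_le_mul_of_nonneg_left (max_le (by linarith) (by linarith)) hM0
  obtain ⟨α, hα0, hα⟩ := hPL.exists_eq_forall_mem_Icc_hasDerivWithinAt₀
  change α t0 = (x0, v0) at hα0
  have hv' : ∀ t ∈ Icc (t0 - T) (t0 + T), HasDerivWithinAt (fun s => (α s).2) (F (α t).1 t)
      (Icc (t0 - T) (t0 + T)) t := by
    intro t htm
    exact (hα t htm).snd
  have hbd : ∀ t ∈ Icc (t0 - T) (t0 + T), ‖(α t).2‖ ≤ R := by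
    intro t htm
    have h1 := Convex.norm_image_sub_le_of_norm_hasDerivWithin_le (C := B) hv' (fun s _ => hFB _ _)
      (convex_Icc _ _) hmem htm
    have h2 : (α t0).2 = v0 := by rw [hα0]
    simp only [h2] at h1
    have h3 : ‖t - t0‖ ≤ T := by
      rw [Real.norm_eq_abs, abs_le]
      constructor <;> linarith [htm.1, htm.2]
    have h4 : B * ‖t - t0‖ ≤ B * T := mul_le_mul_of_nonneg_left h3 hB
    have h5 : ‖(α t).2‖ ≤ ‖(α t).2 - v0‖ + ‖v0‖ := by
      have := norm_add_le ((α t).2 - v0) v0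
      simpa using this
    rw [hR]; linarith
  refine ⟨α, hα0, fun t ht => ?_⟩
  have hI : t ∈ Icc (t0 - T) (t0 + T) := ⟨by linarith [ht.1], by linarith [ht.2]⟩
  have hnb : Icc (t0 - T) (t0 + T) ∈ 𝓝 t := Icc_mem_nhds (by linarith [ht.1]) (by linarith [ht.2])
  have h1 := (hα t hI).hasDerivAt hnb
  have e : X F t (α t) = (exClamp R (α t).2, F (α t).1 t) := by
    rw [exClamp_eq (hbd t hI)]
    rfl
  rw [e]
  exact h1

/-- the global flow -/
theorem exists_glob {F : E n → ℝ → E n} {B L : ℝ} (hB : 0 ≤ B) (hL : 0 ≤ L)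
    (hF : Continuous (fun q : E n × ℝ => F q.1 q.2)) (hFB : ∀ x t, ‖F x t‖ ≤ B)
    (hFL : ∀ x y t, ‖F x t - F y t‖ ≤ L * ‖x - y‖) (t0 : ℝ) (x0 v0 : E n) :
    ∃ α : ℝ → E n × E n, α t0 = (x0, v0) ∧ ∀ t, HasDerivAt α (X F t (α t)) t := by
  choose β hβ0 hβ using fun K : ℕ => local_ex hB hL hF hFB hFL t0 x0 v0 K (Nat.cast_nonneg K)
  have hag : ∀ K K' : ℕ, K ≤ K' → EqOn (β K) (β K') (Ioo (t0 - ((K : ℝ) + 1)) (t0 + ((K : ℝ) + 1))) := by
    intro K K' h
    have hc : (K : ℝ) ≤ K' := by exact_mod_cast h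
    have hK : (0 : ℝ) ≤ K := Nat.cast_nonneg K
    refine ODE_solution_unique_of_mem_Ioo (v := X F) (s := fun _ => univ)
      (fun t _ => (X_lip hL hFL t).lipschitzOnWith) (t₀ := t0) ⟨by linarith, by linarith⟩
      (fun t ht => ⟨hβ K t ht, trivial⟩) (fun t ht => ⟨hβ K' t ⟨by linarith [ht.1], by linarith [ht.2]⟩, trivial⟩) ?_
    rw [hβ0, hβ0]
  refine ⟨fun t => β ⌈|t - t0|⌉₊ t, ?_, fun t => ?_⟩
  · exact hβ0 _
  · set K := ⌈|t - t0|⌉₊ + 1 with hK
    have h1 : |t - t0| ≤ (⌈|t - t0|⌉₊ : ℝ) := Nat.le_ceil _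
    have h2 := abs_le.1 h1
    have hKc : (K : ℝ) = (⌈|t - t0|⌉₊ : ℝ) + 1 := by rw [hK]; push_cast; ring
    have ht : t ∈ Ioo (t0 - ((K : ℝ) + 1)) (t0 + ((K : ℝ) + 1)) := ⟨by linarith, by linarith⟩
    have hmem : ∀ s : ℝ, s ∈ Ioo (t - 1) (t + 1) → ⌈|s - t0|⌉₊ ≤ K := by
      intro s hs
      rw [Nat.ceil_le, hKc]
      have : |s - t0| ≤ |s - t| + |t - t0| := abs_sub_le _ _ _
      have h3 : |s - t| ≤ 1 := by rw [abs_le]; constructor <;> linarith [hs.1, hs.2]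
      linarith
    have heq : ∀ s ∈ Ioo (t - 1) (t + 1), β ⌈|s - t0|⌉₊ s = β K s := by
      intro s hs
      have h4 := abs_le.1 (Nat.le_ceil |s - t0|)
      exact hag _ _ (hmem s hs) ⟨by linarith, by linarith⟩
    have hd := hβ K t ht
    have e1 : β ⌈|t - t0|⌉₊ t = β K t := heq t ⟨by linarith, by linarith⟩
    rw [show X F t (β ⌈|t - t0|⌉₊ t) = X F t (β K t) by rw [e1]]
    refine hd.congr_of_eventuallyEq ?_
    filter_upwards [Ioo_mem_nhds (by linarith : t - 1 < t) (by linarith : t < t + 1)] with s hs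
    exact heq s hs

theorem dist_fwd {F : E n → ℝ → E n} {L : ℝ} (hL : 0 ≤ L)
    (hFL : ∀ x y t, ‖F x t - F y t‖ ≤ L * ‖x - y‖) {α β : ℝ → E n × E n}
    (hα : ∀ t, HasDerivAt α (X F t (α t)) t) (hβ : ∀ t, HasDerivAt β (X F t (β t)) t) (t0 t : ℝ) (ht : t0 ≤ t) :
    dist (α t) (β t) ≤ dist (α t0) (β t0) * Real.exp (max 1 L * (t - t0)) := by
  have := dist_le_of_trajectories_ODE (v := X F) (f := α) (g := β) (a := t0) (b := t)
    (K := ⟨max 1 L, le_max_of_le_left zero_le_one⟩) (X_lip hL hFL)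
    (fun s _ => (hα s).continuousAt.continuousWithinAt) (fun s _ => (hα s).hasDerivWithinAt)
    (fun s _ => (hβ s).continuousAt.continuousWithinAt) (fun s _ => (hβ s).hasDerivWithinAt) (le_refl _)
    t ⟨ht, le_refl _⟩
  exact this

theorem dist_bwd {F : E n → ℝ → E n} {L : ℝ} (hL : 0 ≤ L)
    (hFL : ∀ x y t, ‖F x t - F y t‖ ≤ L * ‖x - y‖) {α β : ℝ → E n × E n}
    (hα : ∀ t, HasDerivAt α (X F t (α t)) t) (hβ : ∀ t, HasDerivAt β (X F t (β t)) t) (t0 t : ℝ) (ht : t ≤ t0) :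
    dist (α t) (β t) ≤ dist (α t0) (β t0) * Real.exp (max 1 L * (t0 - t)) := by
  have hneg : ∀ γ : ℝ → E n × E n, (∀ t, HasDerivAt γ (X F t (γ t)) t) →
      ∀ s, HasDerivAt (fun s => γ (-s)) (-(X F (-s) (γ (-s)))) s := by
    intro γ hγ s
    have h1 := (hγ (-s)).scomp s (hasDerivAt_neg s)
    rw [neg_one_smul] at h1
    exact h1
  have hl : ∀ s, LipschitzWith (⟨max 1 L, le_max_of_le_left zero_le_one⟩ : ℝ≥0) (fun p => -(X F (-s) p)) := by
    intro s
    have h1 := (X_lip hL hFL (-s))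
    refine LipschitzWith.of_dist_le_mul fun p q => ?_
    rw [dist_neg_neg]
    exact h1.dist_le_mul p q
  have := dist_le_of_trajectories_ODE (v := fun s p => -(X F (-s) p)) (f := fun s => α (-s)) (g := fun s => β (-s))
    (a := -t0) (b := -t) (K := ⟨max 1 L, le_max_of_le_left zero_le_one⟩) hl
    (fun s _ => (hneg α hα s).continuousAt.continuousWithinAt) (fun s _ => (hneg α hα s).hasDerivWithinAt)
    (fun s _ => (hneg β hβ s).continuousAt.continuousWithinAt) (fun s _ => (hneg β hβ s).hasDerivWithinAt)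
    (le_refl _) (-t) ⟨by linarith, le_refl _⟩
  simp only [neg_neg] at this
  have e : -t - -t0 = t0 - t := by ring
  rw [e] at this
  exact this

theorem t : S_GLOB := by
  intro n F B L hB hL hF hFB hFL
  choose α hα0 hα using fun z : ℝ × E n × E n => exists_glob hB hL hF hFB hFL z.1 z.2.1 z.2.2
  refine ⟨fun t0 x0 v0 t => α (t0, x0, v0) t, fun t0 x0 v0 => hα0 _, fun t0 x0 v0 t => ?_, ?_, ?_, ?_⟩
  · have h := hα (t0, x0, v0) t
    exact ⟨h.fst, h.snd⟩
  · intro t0 t1 x v h01 h t ht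
    have h1 : EqOn (α (t0, x t0, v t0)) (fun t => (x t, v t)) (Icc t0 t1) := by
      refine ODE_solution_unique_of_mem_Icc_right (v := X F) (s := fun _ => univ)
        (K := ⟨max 1 L, le_max_of_le_left zero_le_one⟩)
        (fun t _ => (X_lip hL hFL t).lipschitzOnWith)
        (fun s _ => (hα (t0, x t0, v t0) s).continuousAt.continuousWithinAt)
        (fun s _ => (hα (t0, x t0, v t0) s).hasDerivWithinAt) (fun _ _ => trivial) ?_ ?_ (fun _ _ => trivial) ?_
      · intro s hs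
        exact ((h s hs).1.prodMk (h s hs).2).continuousWithinAt
      · intro s hs
        exact ((h s ⟨hs.1, hs.2.le⟩).1.prodMk (h s ⟨hs.1, hs.2.le⟩).2).mono_of_mem_nhdsWithin
          (Icc_mem_nhdsGE_of_mem hs)
      · exact hα0 _
    exact h1 ht
  · intro t0 t1 x v h01 h t ht
    have h1 : EqOn (α (t1, x t1, v t1)) (fun t => (x t, v t)) (Icc t0 t1) := by
      refine ODE_solution_unique_of_mem_Icc_left (v := X F) (s := fun _ => univ)
        (K := ⟨max 1 L, le_max_of_le_left zero_le_one⟩)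
        (fun t _ => (X_lip hL hFL t).lipschitzOnWith)
        (fun s _ => (hα (t1, x t1, v t1) s).continuousAt.continuousWithinAt)
        (fun s _ => (hα (t1, x t1, v t1) s).hasDerivWithinAt) (fun _ _ => trivial) ?_ ?_ (fun _ _ => trivial) ?_
      · intro s hs
        exact ((h s hs).1.prodMk (h s hs).2).continuousWithinAt
      · intro s hs
        exact ((h s ⟨hs.1.le, hs.2⟩).1.prodMk (h s ⟨hs.1.le, hs.2⟩).2).mono_of_mem_nhdsWithin
          (Icc_mem_nhdsLE_of_mem hs)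
      · exact hα0 _
    exact h1 ht
  · intro t0 t
    rw [Metric.continuous_iff]
    intro z ε hε
    obtain ⟨C, hC0, hC⟩ : ∃ C : ℝ, 0 < C ∧ ∀ w : E n × E n,
        dist (α (t0, w.1, w.2) t) (α (t0, z.1, z.2) t) ≤ dist w z * C := by
      refine ⟨Real.exp (max 1 L * |t - t0|), Real.exp_pos _, fun w => ?_⟩
      have e0 : dist (α (t0, w.1, w.2) t0) (α (t0, z.1, z.2) t0) = dist w z := by
        rw [hα0, hα0]
      rcases le_total t0 t with h | h
      · have h1 := dist_fwd hL hFL (hα (t0, w.1, w.2)) (hα (t0, z.1, z.2)) t0 t h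
        rw [e0, ← abs_of_nonneg (sub_nonneg.2 h)] at h1
        exact h1
      · have h1 := dist_bwd hL hFL (hα (t0, w.1, w.2)) (hα (t0, z.1, z.2)) t0 t h
        rw [e0] at h1
        rw [abs_sub_comm, abs_of_nonneg (sub_nonneg.2 h)]
        exact h1
    refine ⟨ε / C, by positivity, fun w hw => ?_⟩
    calc dist (α (t0, w.1, w.2) t) (α (t0, z.1, z.2) t) ≤ dist w z * C := hC w
      _ < ε / C * C := mul_lt_mul_of_pos_right hw hC0
      _ = ε := by field_simp

end Glob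

end Pool.Agent.K9h32.SP
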