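import Pool.Agent.K9h32.SP.StmA

/-!
# Leaf ITER: nested intervals and growth
-/

set_option autoImplicit false

open Set Filter Topology
open scoped ContDiff

noncomputable section

namespace Pool.Agent.K9h32.SP

open Pool.Agent.N980.TL

namespace Iter

/-- nested intervals with a property -/
theorem nested (Q : ℕ → ℝ → ℝ → Prop) (S : ℕ → ℝ → Prop) (α β : ℝ) (h0 : Q 0 α β)
    (hle : ∀ m α β, Q m α β → α ≤ β)
    (hs : ∀ m α β, Q m α β → ∃ α' β', α ≤ α' ∧ β' ≤ β ∧ Q (m + 1) α' β' ∧ ∀ τ ∈ Icc α' β', S m τ) :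
    ∃ τ : ℝ, ∀ m, S m τ := by
  classical
  choose f g hf hg hQ hS using hs
  let seq : ∀ m : ℕ, {I : ℝ × ℝ // Q m I.1 I.2} := fun m =>
    Nat.rec (motive := fun m => {I : ℝ × ℝ // Q m I.1 I.2}) ⟨(α, β), h0⟩
      (fun m I => ⟨(f m I.1.1 I.1.2 I.2, g m I.1.1 I.1.2 I.2), hQ m I.1.1 I.1.2 I.2⟩) m
  have hmono : Monotone fun m => (seq m).1.1 := by
    refine monotone_nat_of_le_succ fun m => ?_
    exact hf m (seq m).1.1 (seq m).1.2 (seq m).2
  have hanti : Antitone fun m => (seq m).1.2 := by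
    refine antitone_nat_of_succ_le fun m => ?_
    exact hg m (seq m).1.1 (seq m).1.2 (seq m).2
  have hfg : (fun m => (seq m).1.1) ≤ fun m => (seq m).1.2 := fun m => hle m _ _ (seq m).2
  have hmem := hmono.ciSup_mem_iInter_Icc_of_antitone hanti hfg
  refine ⟨⨆ m, (seq m).1.1, fun m => ?_⟩
  have h1 := mem_iInter.1 hmem (m + 1)
  exact hS m (seq m).1.1 (seq m).1.2 (seq m).2 _ h1

/-- **Leaf ITER.** -/
theorem t : S_ITER := by
  intro hG hU hTim hPrt hFrc hStep n k hn hk N D ε R hε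
  obtain ⟨B, hBB, hBk⟩ := hTim k
  obtain ⟨p, q, w0, hp, -, -, hSt⟩ := hStep n N D k B hn hBB
  obtain ⟨ε', hε', hPr⟩ := hPrt n k p q hp ε hε
  obtain ⟨A, χ, T, sg, mu, κ, ρ, a, b, aj, bj, G, hUH⟩ := S_UH2_iff.1 hU k ε' hε'
  obtain ⟨hT2, -, -, -, -, -, -, -, -, -, -, -, hAs, hAp, hAe, hχs, hχp, -⟩ := id hUH
  have hSP2 : SP2 A := ⟨hAs, hAp⟩
  have hChi : Chi χ := ⟨hχs, hχp⟩
  have hbper : ∀ (t : ℝ) (l : ℤ), bt B (t + l) = bt B t := fun t l => by simp [bt]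
  have hb1 : ContDiff ℝ 1 (bt B) := hBk.of_le (by exact_mod_cast (by omega : 1 ≤ k))
  obtain ⟨δ0, hδ0, hPr2⟩ := hPr A χ (bt B) hSP2 hAe hChi hBk hbper
  obtain ⟨hgC, hF⟩ := hFrc n N D p q A χ (bt B) hp hSP2 hChi hb1 hbper
  obtain ⟨δ1, hδ1, hSt2⟩ := hSt ε' A χ T sg mu κ ρ a b aj bj G hUH hgC
  set δ : ℝ := min δ0 δ1 with hδ
  have hδpos : 0 < δ := lt_min hδ0 hδ1
  obtain ⟨κf, c1, lam0, c', C, hlam0, hc', hC, hInit, hStepp⟩ := hSt2 δ hδpos (min_le_right _ _)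
  obtain ⟨hgr, hcont, ⟨CB, hCB0, hCB⟩, ⟨Lb, hLb0, hLb⟩, hper⟩ := hF δ
  obtain ⟨hFk, hFper, hFe⟩ := hPr2 δ hδpos.le (min_le_left _ _)
  obtain ⟨Φ, hΦ0, hΦd, -, -, hΦc⟩ := hG n (fun x t => Frc D p q A χ (bt B) δ x t) CB Lb hCB0 hLb0 hcont hCB hLb
  set lam : ℝ := lam0 + |R| + 2 * C + 1 with hlam
  have hlamR := abs_nonneg R
  have hlamge : lam0 ≤ lam := by rw [hlam]; linarith
  have hlam1 : 1 ≤ lam := hlam0.trans hlamge
  obtain ⟨x, v, hxc, hvc, hInv⟩ := hInit lam hlamge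
  have hTpos : (0 : ℝ) < T := by
    have : 0 < T := by omega
    exact_mod_cast this
  -- the nested intervals
  obtain ⟨τ, hτ⟩ := nested
    (fun m α β => Inv k p q w0 sg mu κ a b κf T c1 (m : ℤ) (lam ^ (k + 3) + c' * m)
      (fun τ => (Φ 0 (x τ) (v τ) (T * m)).1) (fun τ => (Φ 0 (x τ) (v τ) (T * m)).2) α β)
    (fun m τ => ∀ t ∈ Icc (0 : ℝ) T, ∃ l : ℝ, 0 < l ∧ lam ^ (k + 3) + c' * m ≤ l ^ (k + 3) ∧
      l - C ≤ ‖(Φ 0 (x τ) (v τ) (T * m + t)).2‖) a b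
    (by
      have e1 : (fun τ => (Φ 0 (x τ) (v τ) (T * ((0 : ℕ) : ℝ))).1) = x := by
        funext τ; rw [Nat.cast_zero, mul_zero, hΦ0]
      have e2 : (fun τ => (Φ 0 (x τ) (v τ) (T * ((0 : ℕ) : ℝ))).2) = v := by
        funext τ; rw [Nat.cast_zero, mul_zero, hΦ0]
      have e3 : lam ^ (k + 3) + c' * ((0 : ℕ) : ℝ) = lam ^ (k + 3) := by simp
      simp only [e1, e2, e3]
      exact_mod_cast hInv)
    (fun m α β h => h.le)
    (by
      intro m α β hI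
      have hΛ : lam0 ^ (k + 3) ≤ lam ^ (k + 3) + c' * m := by
        have h1 : lam0 ^ (k + 3) ≤ lam ^ (k + 3) := pow_le_pow_left₀ (by linarith) hlamge _
        have h2 : 0 ≤ c' * m := by positivity
        linarith
      have hTm : ∀ t : ℝ, (T : ℝ) * m + t = t + (((T * m : ℕ) : ℤ) : ℝ) := by
        intro t
        push_cast
        ring
      obtain ⟨α', β', h1, h2, h3, h4⟩ := hStepp (m : ℤ) (lam ^ (k + 3) + c' * m) hΛ
        (fun τ t => (Φ 0 (x τ) (v τ) (T * m + t)).1) (fun τ t => (Φ 0 (x τ) (v τ) (T * m + t)).2) α β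
        (by
          intro τ _ t _
          have hd := hΦd 0 (x τ) (v τ) (T * m + t)
          refine ⟨hd.1.comp_const_add (T * m : ℝ) t, ?_⟩
          have h5 := hd.2.comp_const_add (T * m : ℝ) t
          have e : Frc D p q A χ (bt B) δ (Φ 0 (x τ) (v τ) (T * m + t)).1 (T * m + t) =
              Frc D p q A χ (bt B) δ (Φ 0 (x τ) (v τ) (T * m + t)).1 t := by
            conv_lhs => rw [hTm t]
            rw [hper, ← hTm t]
          rw [e] at h5
          exact h5)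
        (by
          intro t _
          have h5 : Continuous fun τ => Φ 0 (x τ) (v τ) (T * m + t) :=
            (hΦc 0 (T * m + t)).comp (hxc.prodMk hvc)
          exact ⟨h5.fst.continuousOn, h5.snd.continuousOn⟩)
        (by simpa only [add_zero] using hI)
      refine ⟨α', β', h1, h2, ?_, h4⟩
      have e1 : (T : ℝ) * ((m + 1 : ℕ) : ℝ) = T * m + T := by push_cast; ring
      have e2 : lam ^ (k + 3) + c' * ((m + 1 : ℕ) : ℝ) = lam ^ (k + 3) + c' * m + c' := by push_cast; ring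
      have e3 : ((m + 1 : ℕ) : ℤ) = (m : ℤ) + 1 := by push_cast; ring
      simp only [e1, e2, e3]
      exact h3)
  -- the estimate of the velocity
  have key : ∀ t : ℝ, 0 ≤ t → ∃ l : ℝ, lam ≤ l ∧ min 1 c' / T * t ≤ l ^ (k + 3) ∧
      l - C ≤ ‖(Φ 0 (x τ) (v τ) t).2‖ := by
    intro t ht
    set m : ℕ := ⌊t / T⌋₊ with hm
    have h1 : (m : ℝ) ≤ t / T := Nat.floor_le (by positivity)
    have h2 : t / T < m + 1 := Nat.lt_floor_add_one _
    have h3 : (T : ℝ) * m ≤ t := by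
      rw [le_div_iff₀ hTpos] at h1
      linarith
    have h4 : t < T * (m + 1) := by
      rw [div_lt_iff₀ hTpos] at h2
      linarith
    obtain ⟨l, hl0, hl1, hl2⟩ := hτ m (t - T * m) ⟨by linarith, by linarith⟩
    have e : (T : ℝ) * m + (t - T * m) = t := by ring
    rw [e] at hl2
    have hcm : 0 ≤ c' * m := by positivity
    have hll : lam ≤ l := by
      have h5 : lam ^ (k + 3) ≤ l ^ (k + 3) := by linarith
      exact le_of_pow_le_pow_left₀ (by omega) hl0.le h5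
    refine ⟨l, hll, ?_, hl2⟩
    refine le_trans ?_ hl1
    have h6 : 1 ≤ lam ^ (k + 3) := one_le_pow₀ hlam1
    have h7 : min 1 c' / T * t ≤ min 1 c' * (m + 1) := by
      rw [div_mul_eq_mul_div, div_le_iff₀ hTpos]
      have h8 : 0 < min 1 c' := lt_min one_pos hc'
      nlinarith
    refine h7.trans ?_
    have h9 : min 1 c' * m ≤ c' * m := mul_le_mul_of_nonneg_right (min_le_right _ _) (by positivity)
    have h10 : min 1 c' ≤ 1 := min_le_left _ _
    linarith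
  have hc2 : 0 < min 1 c' / (T : ℝ) := div_pos (lt_min one_pos hc') hTpos
  refine ⟨fun z => prt p q A χ (bt B) δ z.1 z.2, fun t => (Φ 0 (x τ) (v τ) t).1, fun t => (Φ 0 (x τ) (v τ) t).2,
    (min 1 c' / (T : ℝ)) ^ (1 / ((k : ℝ) + 3)) / 2, by positivity, hFk, hFper, hFe, ?_, ?_⟩
  · intro t ht
    obtain ⟨l, hl1, hl2, hl3⟩ := key t ht
    have hR : R ≤ |R| := le_abs_self R
    refine ⟨by rw [hlam] at hl1; linarith, ?_⟩
    have h2C : 2 * C ≤ l := by rw [hlam] at hl1; linarith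
    have hl0 : 0 ≤ l := by linarith
    have h3 : l / 2 ≤ l - C := by linarith
    refine le_trans ?_ (h3.trans hl3)
    have e : (1 : ℝ) / ((k : ℝ) + 3) = ((k + 3 : ℕ) : ℝ)⁻¹ := by push_cast; rw [one_div]
    have h4 : (min 1 c' / (T : ℝ) * t) ^ (1 / ((k : ℝ) + 3)) ≤ l := by
      calc (min 1 c' / (T : ℝ) * t) ^ (1 / ((k : ℝ) + 3)) ≤ (l ^ (k + 3)) ^ (1 / ((k : ℝ) + 3)) :=
            Real.rpow_le_rpow (by positivity) hl2 (by positivity)
        _ = l := by rw [e, Real.pow_rpow_inv_natCast hl0 (by omega)]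
    rw [Real.mul_rpow hc2.le ht] at h4
    calc (min 1 c' / (T : ℝ)) ^ (1 / ((k : ℝ) + 3)) / 2 * t ^ (1 / ((k : ℝ) + 3))
        = ((min 1 c' / (T : ℝ)) ^ (1 / ((k : ℝ) + 3)) * t ^ (1 / ((k : ℝ) + 3))) / 2 := by ring
      _ ≤ l / 2 := by linarith
  · intro t
    have hd := hΦd 0 (x τ) (v τ) t
    refine ⟨hd.1, ?_⟩
    have h1 := hgr (Φ 0 (x τ) (v τ) t).1 t
    rw [h1]
    exact hd.2

end Iter

end Pool.Agent.K9h32.SP
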