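import Pool.Agent.K9h32.SP.StmA
import Pool.Agent.N980.TL.BL4

/-!
# Leaf PRT: the perturbation is small in `C^k`
-/

set_option autoImplicit false

open Set Filter Topology
open scoped ContDiff

noncomputable section

namespace Pool.Agent.K9h32.SP

open Pool.Agent.N980.TL

namespace PRT

variable {n : ℕ}

/-- the linear map `(x, t) ↦ (p.x, t)` -/
def Lam (p : Fin n → ℤ) : Z n →L[ℝ] ℝ × ℝ :=
  LinearMap.toContinuousLinearMap
    { toFun := fun z => (dot p z.1, z.2)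
      map_add' := fun z w => by
        rw [Prod.mk.injEq]
        exact ⟨dot_add p z.1 w.1, rfl⟩
      map_smul' := fun c z => by
        rw [Prod.mk.injEq]
        exact ⟨dot_smul p c z.1, rfl⟩ }

theorem Lam_apply (p : Fin n → ℤ) (z : Z n) : Lam p z = (dot p z.1, z.2) := rfl

theorem iter_comp {k : ℕ} {f : ℝ × ℝ → ℝ} (hf : ContDiff ℝ k f) (A : Z n →L[ℝ] ℝ × ℝ) {i : ℕ} (hi : i ≤ k) (q : Z n) :
    ‖iteratedFDeriv ℝ i (f ∘ A) q‖ ≤ ‖iteratedFDeriv ℝ i f (A q)‖ * ‖A‖ ^ i := by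
  have h1 : iteratedFDeriv ℝ i (f ∘ A) q = (iteratedFDeriv ℝ i f (A q)).compContinuousLinearMap fun _ => A :=
    A.iteratedFDeriv_comp_right hf q (by exact_mod_cast hi)
  rw [h1]
  refine (ContinuousMultilinearMap.norm_compContinuousLinearMap_le _ _).trans ?_
  simp

/-- `p.k` for integral vectors -/
def idot (p k : Fin n → ℤ) : ℤ := ∑ i, p i * k i

theorem dot_int (p : Fin n → ℤ) (x : E n) (k : Fin n → ℤ) :
    dot p (fun i => x i + k i) = dot p x + (idot p k : ℤ) := by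
  unfold dot idot
  push_cast
  rw [← Finset.sum_add_distrib]
  exact Finset.sum_congr rfl fun i _ => by ring

/-- the part of the gates -/
def F2 (p q : Fin n → ℤ) (χ : Fin 3 → ℝ → ℝ) (b : ℝ → ℝ) (z : Z n) : ℝ :=
  b z.2 * ∑ j : Fin 3, χ j (dot p z.1) * Real.cos (phs q j z.1)

theorem F2_per (p q : Fin n → ℤ) {χ : Fin 3 → ℝ → ℝ} (hχ : Chi χ) {b : ℝ → ℝ}
    (hb : ∀ (t : ℝ) (l : ℤ), b (t + l) = b t) (x : E n) (t : ℝ) (k : Fin n → ℤ) (l : ℤ) :
    F2 p q χ b ((fun i => x i + k i), t + l) = F2 p q χ b (x, t) := by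
  unfold F2
  simp only
  rw [hb]
  congr 1
  refine Finset.sum_congr rfl fun j _ => ?_
  rw [dot_int, hχ.2]
  congr 1
  have e : phs q j (fun i => x i + k i) = phs q j x + (idot q k : ℤ) * (2 * Real.pi) := by
    unfold phs
    rw [dot_int]
    ring
  rw [e, Real.cos_add_int_mul_two_pi]

theorem F2_smooth (p q : Fin n → ℤ) {χ : Fin 3 → ℝ → ℝ} (hχ : Chi χ) {k : ℕ} {b : ℝ → ℝ} (hb : ContDiff ℝ k b) :
    ContDiff ℝ k (F2 p q χ b) := by
  unfold F2
  have h1 : ContDiff ℝ k (fun z : Z n => dot p z.1) := by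
    unfold dot
    fun_prop
  have h2 : ∀ j, ContDiff ℝ k (fun z : Z n => phs q j z.1) := fun j => by
    unfold phs dot
    fun_prop
  refine (hb.comp contDiff_snd).mul (ContDiff.sum fun j _ => ?_)
  exact (((hχ.1 j).of_le (by exact_mod_cast le_top)).comp h1).mul (Real.contDiff_cos.comp (h2 j))

/-- the derivatives of a periodic function are bounded -/
theorem iter_bdd {k : ℕ} {f : Z n → ℝ} (hf : ContDiff ℝ k f)
    (hp : ∀ (x : E n) (t : ℝ) (a : Fin n → ℤ) (l : ℤ), f ((fun i => x i + a i), t + l) = f (x, t)) :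
    ∃ C : ℝ, 0 ≤ C ∧ ∀ i ≤ k, ∀ z, ‖iteratedFDeriv ℝ i f z‖ ≤ C := by
  have h1 : ∀ i : ℕ, ∃ C : ℝ, 0 ≤ C ∧ (i ≤ k → ∀ z, ‖iteratedFDeriv ℝ i f z‖ ≤ C) := by
    intro i
    by_cases hi : i ≤ k
    · obtain ⟨C, hC, h⟩ := BL4_.bdd (iteratedFDeriv ℝ i f)
        (hf.continuous_iteratedFDeriv (by exact_mod_cast hi)) (fun q a l => by
          have e : (fun z : Z n => f (z + ((fun i => (a i : ℝ)), (l : ℝ)))) = f := by
            funext z
            exact hp z.1 z.2 a l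
          have h2 := iteratedFDeriv_comp_add_right (𝕜 := ℝ) (f := f) i ((fun i => (a i : ℝ)), (l : ℝ)) q
          rw [e] at h2
          exact h2.symm)
      exact ⟨C, hC, fun _ => h⟩
    · exact ⟨0, le_refl _, fun h => absurd h hi⟩
  choose C hC h using h1
  refine ⟨∑ i ∈ Finset.range (k + 1), C i, Finset.sum_nonneg fun i _ => hC i, fun i hi z => ?_⟩
  refine (h i hi z).trans ?_
  exact Finset.single_le_sum (fun j _ => hC j) (Finset.mem_range.2 (by omega))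

/-- **Leaf PRT.** -/
theorem t : S_PRT := by
  intro n k p q hp ε hε
  have hpp := pp_pos hp
  have hpp0 : 0 < dot p (rv p) := by linarith
  obtain ⟨K, hK⟩ : ∃ K : ℝ, K = (1 + ‖Lam p‖) ^ k := ⟨_, rfl⟩
  have hA1 : 1 ≤ 1 + ‖Lam p‖ := by have := norm_nonneg (Lam p); linarith
  have hK1 : 1 ≤ K := by rw [hK]; exact one_le_pow₀ hA1
  have hKi : ∀ i ≤ k, ‖Lam p‖ ^ i ≤ K := fun i hi => by
    rw [hK]
    calc ‖Lam p‖ ^ i ≤ (1 + ‖Lam p‖) ^ i := pow_le_pow_left₀ (norm_nonneg _) (by linarith) i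
      _ ≤ _ := pow_le_pow_right₀ hA1 hi
  refine ⟨ε / (2 * K), by positivity, fun A χ b hA hAe hχ hb hbp => ?_⟩
  have hF2s := F2_smooth p q hχ hb
  obtain ⟨C, hC, hCb⟩ := iter_bdd hF2s (F2_per p q hχ hbp)
  have hAk : ContDiff ℝ k (fun w : ℝ × ℝ => A w.1 w.2) := hA.1.of_le (by exact_mod_cast le_top)
  have hF1s : ContDiff ℝ k ((fun w : ℝ × ℝ => A w.1 w.2) ∘ (Lam p)) := hAk.comp (Lam p).contDiff
  refine ⟨ε / (2 * (1 + C)), by positivity, fun δ hδ0 hδ => ?_⟩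
  have hfun : (fun z : Z n => prt p q A χ b δ z.1 z.2) =
      fun z => (dot p (rv p))⁻¹ • ((fun w : ℝ × ℝ => A w.1 w.2) ∘ (Lam p)) z + δ • F2 p q χ b z := by
    funext z
    unfold prt F2
    simp only [Function.comp_apply, Lam_apply, smul_eq_mul]
    rw [div_eq_inv_mul]
  have hs1 : ContDiff ℝ k (fun z => (dot p (rv p))⁻¹ • ((fun w : ℝ × ℝ => A w.1 w.2) ∘ (Lam p)) z) :=
    hF1s.const_smul _
  have hs2 : ContDiff ℝ k (fun z => δ • F2 p q χ b z) := hF2s.const_smul _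
  refine ⟨?_, fun x t a l => ?_, fun i hi z => ?_⟩
  · rw [hfun]
    exact hs1.add hs2
  · unfold prt
    have h1 := F2_per p q hχ hbp x t a l
    unfold F2 at h1
    simp only at h1
    rw [h1, dot_int, hA.2]
  · have hi' : ((i : ℕ) : WithTop ℕ∞) ≤ k := by exact_mod_cast hi
    rw [hfun, fun_iteratedFDeriv_add_apply (hs1.of_le hi').contDiffAt (hs2.of_le hi').contDiffAt]
    have h3 : ε = ε / 2 + ε / 2 := by ring
    rw [h3]
    refine (norm_add_le _ _).trans (add_le_add ?_ ?_)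
    · rw [iteratedFDeriv_const_smul_apply' (hF1s.of_le hi').contDiffAt, norm_smul, norm_inv, Real.norm_eq_abs,
        abs_of_pos hpp0]
      have h4 : ‖iteratedFDeriv ℝ i ((fun w : ℝ × ℝ => A w.1 w.2) ∘ (Lam p)) z‖ ≤ ε / 2 := by
        refine (iter_comp hAk (Lam p) hi z).trans ?_
        calc ‖iteratedFDeriv ℝ i (fun w : ℝ × ℝ => A w.1 w.2) (Lam p z)‖ * ‖Lam p‖ ^ i
            ≤ ε / (2 * K) * K := mul_le_mul (hAe i hi _) (hKi i hi) (by positivity) (by positivity)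
          _ = ε / 2 := by field_simp
      have h5 : (dot p (rv p))⁻¹ ≤ 1 := inv_le_one_of_one_le₀ hpp
      calc (dot p (rv p))⁻¹ * ‖iteratedFDeriv ℝ i ((fun w : ℝ × ℝ => A w.1 w.2) ∘ (Lam p)) z‖
          ≤ 1 * (ε / 2) := mul_le_mul h5 h4 (norm_nonneg _) zero_le_one
        _ = ε / 2 := one_mul _
    · rw [iteratedFDeriv_const_smul_apply' (hF2s.of_le hi').contDiffAt, norm_smul, Real.norm_eq_abs,
        abs_of_nonneg hδ0]
      calc δ * ‖iteratedFDeriv ℝ i (F2 p q χ b) z‖ ≤ ε / (2 * (1 + C)) * (1 + C) :=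
            mul_le_mul hδ ((hCb i hi z).trans (by linarith)) (norm_nonneg _) (by positivity)
        _ = ε / 2 := by field_simp

end PRT

end Pool.Agent.K9h32.SP
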