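import Pool.Agent.K9h32.SP.StmA

/-!
# The function of time of the gates is of class `C^k` (leaf TIM)
-/

set_option autoImplicit false

open Set Filter Topology
open scoped ContDiff

noncomputable section

namespace Pool.Agent.K9h32.SP.Tim

open Pool.Agent.K9h32.SP

theorem maxpow_hasDeriv (m : ℕ) (t : ℝ) :
    HasDerivAt (fun u : ℝ => (max u 0) ^ (m + 2)) (((m : ℝ) + 2) * (max t 0) ^ (m + 1)) t := by
  rcases lt_trichotomy t 0 with h | h | h
  · have e : (fun u : ℝ => (max u 0) ^ (m + 2)) =ᶠ[𝓝 t] fun _ => (0 : ℝ) := by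
      filter_upwards [Iio_mem_nhds h] with u hu
      rw [max_eq_right (le_of_lt hu)]
      simp
    have h0 : ((m : ℝ) + 2) * (max t 0) ^ (m + 1) = 0 := by
      rw [max_eq_right h.le]
      simp
    rw [h0]
    exact (hasDerivAt_const t (0 : ℝ)).congr_of_eventuallyEq e
  · subst h
    have h0 : ((m : ℝ) + 2) * (max (0 : ℝ) 0) ^ (m + 1) = 0 := by simp
    rw [h0]
    rw [hasDerivAt_iff_isLittleO]
    simp only [max_self, sub_zero, smul_zero]
    have h1 : (fun u : ℝ => (max u 0) ^ (m + 2) - 0 ^ (m + 2)) =O[𝓝 0] fun u : ℝ => u ^ 2 := by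
      refine Asymptotics.IsBigO.of_bound 1 ?_
      filter_upwards [Metric.ball_mem_nhds (0 : ℝ) one_pos] with u hu
      rw [Metric.mem_ball, dist_zero_right, Real.norm_eq_abs] at hu
      rw [zero_pow (by omega), sub_zero, one_mul, norm_pow, norm_pow, Real.norm_eq_abs, Real.norm_eq_abs]
      have h2 : |max u 0| ≤ |u| := by
        rcases le_total u 0 with h | h
        · rw [max_eq_right h, abs_zero]; exact abs_nonneg _
        · rw [max_eq_left h]
      calc |max u 0| ^ (m + 2) ≤ |u| ^ (m + 2) := pow_le_pow_left₀ (abs_nonneg _) h2 _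
        _ ≤ |u| ^ 2 := pow_le_pow_of_le_one (abs_nonneg _) hu.le (by omega)
    refine h1.trans_isLittleO ?_
    have h3 : (fun u : ℝ => u ^ 2) =o[𝓝 0] fun u : ℝ => u ^ 1 := Asymptotics.isLittleO_pow_pow one_lt_two
    simpa using h3
  · have e : (fun u : ℝ => (max u 0) ^ (m + 2)) =ᶠ[𝓝 t] fun u => u ^ (m + 2) := by
      filter_upwards [Ioi_mem_nhds h] with u hu
      rw [max_eq_left (le_of_lt hu)]
    have h0 : ((m : ℝ) + 2) * (max t 0) ^ (m + 1) = ((m + 2 : ℕ) : ℝ) * t ^ (m + 2 - 1) := by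
      rw [max_eq_left h.le]
      push_cast
      rfl
    rw [h0]
    exact (hasDerivAt_pow (m + 2) t).congr_of_eventuallyEq e

theorem maxpow_contDiff (k : ℕ) : ContDiff ℝ k (fun u : ℝ => (max u 0) ^ (k + 1)) := by
  induction k with
  | zero =>
    rw [Nat.cast_zero, contDiff_zero]
    exact (continuous_id.max continuous_const).pow _
  | succ k ih =>
    rw [Nat.cast_succ, contDiff_succ_iff_deriv]
    refine ⟨fun t => (maxpow_hasDeriv k t).differentiableAt, fun h => absurd h (by simp), ?_⟩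
    have e : deriv (fun u : ℝ => (max u 0) ^ (k + 1 + 1)) = fun u => ((k : ℝ) + 2) * (max u 0) ^ (k + 1) := by
      funext t
      exact (maxpow_hasDeriv k t).deriv
    rw [e]
    exact contDiff_const.mul ih

/-- Leaf TIM -/
theorem t : S_TIM := by
  intro k
  let ψ : ContDiffBump (0 : ℝ) := ⟨1 / 400, 1 / 200, by norm_num, by norm_num⟩
  have hψ : ContDiff ℝ ∞ (ψ : ℝ → ℝ) := ψ.contDiff
  have hψ1 : ∀ᶠ t in 𝓝 (0 : ℝ), ψ t = 1 := by
    filter_upwards [Metric.closedBall_mem_nhds (0 : ℝ) (show (0 : ℝ) < 1 / 400 by norm_num)] with t ht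
    exact ψ.one_of_mem_closedBall ht
  have hψ0 : ∀ t : ℝ, 1 / 100 ≤ t → ψ t = 0 := by
    intro t ht
    apply ψ.zero_of_le_dist
    rw [dist_zero_right, Real.norm_eq_abs, abs_of_nonneg (by linarith)]
    show (1 : ℝ) / 200 ≤ t
    linarith
  refine ⟨fun t => t ^ (k + 1) * ψ t, ⟨(contDiff_id.pow _).mul hψ, ?_, ?_, ?_⟩, ?_⟩
  · intro i hi
    have e : (fun t => t ^ (k + 1) * ψ t) =ᶠ[𝓝 (0 : ℝ)] fun t => t ^ (k + 1) := by
      filter_upwards [hψ1] with t ht
      rw [ht, mul_one]
    rw [e.iteratedDeriv_eq, iteratedDeriv_fun_pow_zero, if_neg (by omega), Nat.cast_zero]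
  · have e : (fun t => t ^ (k + 1) * ψ t) =ᶠ[𝓝 (0 : ℝ)] fun t => t ^ (k + 1) := by
      filter_upwards [hψ1] with t ht
      rw [ht, mul_one]
    rw [e.iteratedDeriv_eq, iteratedDeriv_fun_pow_zero, if_pos rfl]
  · intro t ht
    show t ^ (k + 1) * ψ t = 0
    rw [hψ0 t ht, mul_zero]
  · rw [contDiff_iff_contDiffAt]
    intro t0
    by_cases h : Int.fract t0 = 0
    · obtain ⟨l, hl⟩ : ∃ l : ℤ, t0 = l := ⟨⌊t0⌋, by
        have := Int.floor_add_fract t0
        rw [h, add_zero] at this
        exact this.symm⟩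
      have e : bt (fun t => t ^ (k + 1) * ψ t) =ᶠ[𝓝 t0] fun t => (max (t - l) 0) ^ (k + 1) * ψ (t - l) := by
        filter_upwards [Metric.ball_mem_nhds t0 (show (0 : ℝ) < 1 / 2 by norm_num)] with t ht
        rw [hl, Metric.mem_ball, Real.dist_eq, abs_lt] at ht
        show (Int.fract t) ^ (k + 1) * ψ (Int.fract t) = _
        rcases lt_or_ge t l with h1 | h1
        · have h2 : Int.fract t = t - l + 1 := by
            rw [Int.fract_eq_iff]
            refine ⟨by linarith, by linarith, l - 1, by push_cast; ring⟩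
          rw [h2, hψ0 _ (by linarith), max_eq_right (by linarith)]
          simp
        · have h2 : Int.fract t = t - l := by
            rw [Int.fract_eq_iff]
            refine ⟨by linarith, by linarith, l, by ring⟩
          rw [h2, max_eq_left (by linarith)]
      refine ContDiffAt.congr_of_eventuallyEq ?_ e
      refine ContDiff.contDiffAt ?_
      exact ((maxpow_contDiff k).comp (contDiff_id.sub contDiff_const)).mul
        ((hψ.of_le (by exact_mod_cast le_top)).comp (contDiff_id.sub contDiff_const))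
    · have h1 : 0 < Int.fract t0 := lt_of_le_of_ne (Int.fract_nonneg _) (Ne.symm h)
      have h2 := Int.fract_lt_one t0
      have h3 := Int.floor_add_fract t0
      have e : bt (fun t => t ^ (k + 1) * ψ t) =ᶠ[𝓝 t0] fun t => (t - ⌊t0⌋) ^ (k + 1) * ψ (t - ⌊t0⌋) := by
        have ho : Ioo (⌊t0⌋ : ℝ) (⌊t0⌋ + 1) ∈ 𝓝 t0 := Ioo_mem_nhds (by linarith) (by linarith)
        filter_upwards [ho] with t ht
        show (Int.fract t) ^ (k + 1) * ψ (Int.fract t) = _
        have h2 : Int.fract t = t - ⌊t0⌋ := by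
          rw [Int.fract_eq_iff]
          refine ⟨by linarith [ht.1], by linarith [ht.2], ⌊t0⌋, by ring⟩
        rw [h2]
      refine ContDiffAt.congr_of_eventuallyEq ?_ e
      refine ContDiff.contDiffAt ?_
      exact ((contDiff_id.sub contDiff_const).pow _).mul
        ((hψ.of_le (by exact_mod_cast le_top)).comp (contDiff_id.sub contDiff_const))

end Pool.Agent.K9h32.SP.Tim
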