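import Pool.Agent.K9h32.SP.StmK
import Pool.Agent.K9h32.SP.TEV

/-!
# `C^k`-density for every `k`: the gate and the passage (statements)
-/

set_option autoImplicit false

open Set Filter Topology
open scoped ContDiff

noncomputable section

namespace Pool.Agent.K9h32.SP

open Pool.Agent.N980.TL

/-- the gradient of the sum of atoms -/
def gw {n : ℕ} (w0 : List (TA n)) (x P : E n) (t : ℝ) : E n := fun i => tev (tdx i w0) x P t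

/-- conditions on the approximate solution `w0` -/
def W0 {n : ℕ} (w0 : List (TA n)) : Prop :=
  (∀ a ∈ w0, ContDiff ℝ ∞ a.a) ∧ (∀ a ∈ w0, 1 ≤ a.F.length) ∧ (∀ a ∈ w0, ∀ f ∈ a.F, f ≠ 0) ∧
    ∀ (x P : E n) (t : ℝ), gw w0 x P (t + 1) = gw w0 x P t

/-- `w0` is an approximate solution of the Hamilton-Jacobi equation of `D` (for `t ≥ 0`; the error is taken at the
time `t + 1`) -/
def WE {n N : ℕ} (D : Trig n N) (w0 : List (TA n)) (M : ℕ) (𝓕 : List (Fin n → ℤ)) (e0 : List (TA n)) : Prop :=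
  Good 𝓕 w0 ∧ Good 𝓕 e0 ∧ (∀ a ∈ e0, M ≤ a.F.length) ∧
    ∀ P : E n, (∀ f ∈ 𝓕, dot f P ≠ 0) → ∀ (x : E n) (j : Fin n) (t : ℝ), 0 ≤ t →
      tev (tdt (tdx j w0)) x P t + ∑ i, (P i + tev (tdx i w0) x P t) * tev (tdx i (tdx j w0)) x P t =
        D.grad x t j + tev (tdx j e0) x P (t + 1)

/-- `q` is nonresonant up to the order `R` -/
def NonRes {n : ℕ} (R : ℕ) (q : Fin n → ℤ) : Prop :=
  ∀ f : Fin n → ℤ, f ≠ 0 →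
    (∃ (g : Fin n → ℤ) (l : ℤ), (∀ i, |g i| ≤ R) ∧ |l| ≤ R ∧ f = fun i => g i + l * q i) → ∑ i, f i * q i ≠ 0

/-- the conditions on the function of time `B` -/
def BB (k : ℕ) (B : ℝ → ℝ) : Prop :=
  ContDiff ℝ ∞ B ∧ (∀ i ≤ k, iteratedDeriv i B 0 = 0) ∧ iteratedDeriv (k + 1) B 0 = (k + 1).factorial ∧
    ∀ t, 1 / 100 ≤ t → B t = 0

/-- the force in the gate number `j` -/
def gateF {n N : ℕ} (D : Trig n N) (q : Fin n → ℤ) (B : ℝ → ℝ) (δ : ℝ) (j : Fin 3) (x : E n) (t : ℝ) : E n :=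
  fun i => D.grad x t i - δ * B t * (2 * Real.pi * q i) *
    Real.sin (2 * Real.pi * dot q x + 2 * Real.pi * ((j : ℕ) : ℝ) / 3)

/-- Leaf GATE: the kick of one gate. -/
def S_GATE : Prop :=
  ∀ (n N : ℕ) (D : Trig n N) (k : ℕ) (B : ℝ → ℝ), BB k B → ∃ (R : ℕ) (w0 : List (TA n)), W0 w0 ∧
    ∀ q : Fin n → ℤ, q ≠ 0 → NonRes R q → ∃ (𝓕 : List (Fin n → ℤ)) (e0 : List (TA n)), q ∈ 𝓕 ∧
      WE D w0 (k + 3) 𝓕 e0 ∧ (∀ f ∈ 𝓕, ∑ i, f i * q i ≠ 0) ∧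
      ∀ δ : ℝ, 0 < δ → ∃ c C lam0 : ℝ, 0 < c ∧ 0 ≤ C ∧ 1 ≤ lam0 ∧ ∀ lam : ℝ, lam0 ≤ lam → ∀ P : E n, Reg 𝓕 lam P →
        0 < dot q P → dot q P ≤ 2 * lam * dot q (rv q) →
        ∀ (j : Fin 3) (x v : ℝ → E n), (∀ t ∈ Icc (0 : ℝ) (1 / 100), HasDerivAt x (v t) t ∧
          HasDerivAt v (gateF D q B δ j (x t) t) t) → v 0 = P + gw w0 (x 0) P 0 →
          1 / 4 ≤ (-1) ^ (k + 1) * Real.sin (2 * Real.pi * dot q (x 0) + 2 * Real.pi * ((j : ℕ) : ℝ) / 3 -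
            (k + 2) * (Real.pi / 2)) →
          ∃ (P' : E n) (κ : ℝ), c / lam ^ (k + 2) ≤ κ ∧ ‖P' - P - κ • rv q‖ ≤ C / lam ^ (k + 3) ∧ ‖P' - P‖ ≤ 1 ∧
            ‖v (1 / 100) - P' - gw w0 (x (1 / 100)) P' (1 / 100)‖ ≤ C / lam ^ (k + 3)

/-- Leaf PASS: the components of the velocity transversal to `p` are adiabatic invariants. -/
def S_PASS : Prop :=
  ∀ (n N : ℕ) (D : Trig n N) (w0 : List (TA n)) (M : ℕ), W0 w0 → ∃ R : ℕ,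
    ∀ (𝓕 : List (Fin n → ℤ)) (e0 : List (TA n)), WE D w0 M 𝓕 e0 →
    ∀ (p : Fin n → ℤ) (A : ℝ → ℝ → ℝ) (T K : ℝ), p ≠ 0 → 1 ≤ T →
      ContDiff ℝ ∞ (fun q : ℝ × ℝ => A q.1 q.2) → (∀ (s t : ℝ) (m l : ℤ), A (s + m) (t + l) = A s t) →
      ∃ C lam0 : ℝ, 0 ≤ C ∧ 1 ≤ lam0 ∧ ∀ lam : ℝ, lam0 ≤ lam → ∀ P : E n, Reg 𝓕 lam P →
        (∀ f : Fin n → ℤ, f ≠ 0 → (∀ i, |f i| ≤ R) → lam / 2 ≤ |dot f P|) → |dot p P| ≤ K →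
        ∀ x v : ℝ → E n, (∀ t ∈ Icc (1 / 100 : ℝ) T, HasDerivAt x (v t) t ∧
          HasDerivAt v (fun i => D.grad (x t) t i + deriv (fun u => A u t) (dot p (x t)) * p i) t) →
          (∀ᶠ z in 𝓝 (dot p (x (1 / 100)), (1 / 100 : ℝ)), A z.1 z.2 = 0) →
          (∀ᶠ z in 𝓝 (dot p (x T), T), A z.1 z.2 = 0) →
          ‖v (1 / 100) - P - gw w0 (x (1 / 100)) P (1 / 100)‖ ≤ K / lam ^ M →
          ∃ ρ : ℝ, |ρ| ≤ C ∧ ‖v T - (P + ρ • rv p) - gw w0 (x T) (P + ρ • rv p) T‖ ≤ C / lam ^ M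

end Pool.Agent.K9h32.SP
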