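import Pool.Agent.K9h32.SP.Pert3
import Pool.Agent.K9h32.SP.StmU
import Pool.Agent.K9h32.SP.StmU2
import Pool.Agent.K9h32.SP.StmG

/-!
# `C^k`-density for every `k`: the last leaves (statements)
-/

set_option autoImplicit false

open Set Filter Topology
open scoped ContDiff

noncomputable section

namespace Pool.Agent.K9h32.SP

open Pool.Agent.N980.TL

/-- the 1-periodic function of time of the gates -/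
def bt (B : ℝ → ℝ) (t : ℝ) : ℝ := B (Int.fract t)

/-- the phase of the gate number `j` -/
def phs {n : ℕ} (q : Fin n → ℤ) (j : Fin 3) (x : E n) : ℝ :=
  2 * Real.pi * dot q x + 2 * Real.pi * ((j : ℕ) : ℝ) / 3

/-- the perturbation of the potential -/
def prt {n : ℕ} (p q : Fin n → ℤ) (A : ℝ → ℝ → ℝ) (χ : Fin 3 → ℝ → ℝ) (b : ℝ → ℝ) (δ : ℝ) (x : E n) (t : ℝ) : ℝ :=
  A (dot p x) t / dot p (rv p) + δ * (b t * ∑ j : Fin 3, χ j (dot p x) * Real.cos (phs q j x))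

/-- the force of the gates -/
def gfc {n : ℕ} (p q : Fin n → ℤ) (χ : Fin 3 → ℝ → ℝ) (b : ℝ → ℝ) (x : E n) (t : ℝ) : E n :=
  (b t * ∑ j : Fin 3, deriv (χ j) (dot p x) * Real.cos (phs q j x)) • rv p -
    (b t * ∑ j : Fin 3, χ j (dot p x) * (2 * Real.pi * Real.sin (phs q j x))) • rv q

/-- the force -/
def Frc {n N : ℕ} (D : Trig n N) (p q : Fin n → ℤ) (A : ℝ → ℝ → ℝ) (χ : Fin 3 → ℝ → ℝ) (b : ℝ → ℝ) (δ : ℝ)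
    (x : E n) (t : ℝ) : E n :=
  (fun i => D.grad x t i) + (sF p A x t + δ • gfc p q χ b x t)

/-- the conditions on the gates `χ` -/
def Chi (χ : Fin 3 → ℝ → ℝ) : Prop :=
  (∀ j, ContDiff ℝ ∞ (χ j)) ∧ ∀ (j : Fin 3) (s : ℝ) (m : ℤ), χ j (s + m) = χ j s

/-- Leaf TIM: the function of time of the gates is of class `C^k` -/
def S_TIM : Prop := ∀ k : ℕ, ∃ B : ℝ → ℝ, BB k B ∧ ContDiff ℝ k (bt B)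

/-- Leaf PRT: the perturbation is small in `C^k` -/
def S_PRT : Prop :=
  ∀ (n k : ℕ) (p q : Fin n → ℤ), p ≠ 0 → ∀ ε : ℝ, 0 < ε → ∃ ε' : ℝ, 0 < ε' ∧
    ∀ (A : ℝ → ℝ → ℝ) (χ : Fin 3 → ℝ → ℝ) (b : ℝ → ℝ), SP2 A →
      (∀ i ≤ k, ∀ z, ‖iteratedFDeriv ℝ i (fun z : ℝ × ℝ => A z.1 z.2) z‖ ≤ ε') → Chi χ →
      ContDiff ℝ k b → (∀ (t : ℝ) (l : ℤ), b (t + l) = b t) → ∃ δ0 : ℝ, 0 < δ0 ∧ ∀ δ : ℝ, 0 ≤ δ → δ ≤ δ0 →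
        ContDiff ℝ k (fun z : Z n => prt p q A χ b δ z.1 z.2) ∧ Periodic (prt p q A χ b δ) ∧
        ∀ i ≤ k, ∀ z, ‖iteratedFDeriv ℝ i (fun z : Z n => prt p q A χ b δ z.1 z.2) z‖ ≤ ε

/-- Leaf FRC: the gradient of the potential, bounds of the force -/
def S_FRC : Prop :=
  ∀ (n N : ℕ) (D : Trig n N) (p q : Fin n → ℤ) (A : ℝ → ℝ → ℝ) (χ : Fin 3 → ℝ → ℝ) (b : ℝ → ℝ), p ≠ 0 → SP2 A →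
    Chi χ → ContDiff ℝ 1 b → (∀ (t : ℝ) (l : ℤ), b (t + l) = b t) →
    (∃ C : ℝ, 0 ≤ C ∧ ∀ x t, ‖gfc p q χ b x t‖ ≤ C) ∧ ∀ δ : ℝ,
      (∀ x t, gr (fun x t => D.val x t + prt p q A χ b δ x t) x t = Frc D p q A χ b δ x t) ∧
      Continuous (fun z : E n × ℝ => Frc D p q A χ b δ z.1 z.2) ∧
      (∃ C : ℝ, 0 ≤ C ∧ ∀ x t, ‖Frc D p q A χ b δ x t‖ ≤ C) ∧
      (∃ L : ℝ, 0 ≤ L ∧ ∀ x y t, ‖Frc D p q A χ b δ x t - Frc D p q A χ b δ y t‖ ≤ L * ‖x - y‖) ∧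
      (∀ (x : E n) (t : ℝ) (l : ℤ), Frc D p q A χ b δ x (t + l) = Frc D p q A χ b δ x t)

/-- the conclusion of `S_UH2` -/
def UHd (k : ℕ) (ε : ℝ) (A : ℝ → ℝ → ℝ) (χ : Fin 3 → ℝ → ℝ) (T : ℕ) (sg mu κ ρ a b : ℝ)
    (aj bj : Fin 3 → ℝ) (G : Set (ℝ × ℝ)) : Prop :=
    2 ≤ T ∧ 0 < sg ∧ sg ≤ 1 / 100 ∧ 0 < mu ∧ mu ≤ sg / 100 ∧ 0 < κ ∧ κ ≤ 1 ∧ 0 < ρ ∧ ρ ≤ 1 / 100 ∧
    3 / 8 ≤ a ∧ b ≤ 5 / 8 ∧ (∀ j, a < aj j ∧ aj j < bj j ∧ bj j < b) ∧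
    ContDiff ℝ ∞ (fun q : ℝ × ℝ => A q.1 q.2) ∧ (∀ (s t : ℝ) (m l : ℤ), A (s + m) (t + l) = A s t) ∧
    (∀ i ≤ k, ∀ q, ‖iteratedFDeriv ℝ i (fun q : ℝ × ℝ => A q.1 q.2) q‖ ≤ ε) ∧
    (∀ j, ContDiff ℝ ∞ (χ j)) ∧ (∀ (j : Fin 3) (s : ℝ) (m : ℤ), χ j (s + m) = χ j s) ∧
    -- no slow force near the gates
    (∀ s t : ℝ, s ∈ Icc (1 / 4 : ℝ) (3 / 4) → t ∈ Icc (-(2 / 5) : ℝ) (2 / 5) → A s t = 0) ∧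
    -- the ends of a family of initial states
    (∀ (j : Fin 3) (z w : ℝ → ℝ → ℝ) (τ1 τ2 : ℝ), τ1 ≤ τ2 → (∀ τ ∈ Icc τ1 τ2, Sol A (z τ) (w τ)) →
      ContinuousOn (fun τ => z τ 0) (Icc τ1 τ2) → ContinuousOn (fun τ => w τ 0) (Icc τ1 τ2) →
      z τ1 0 = aj j → z τ2 0 = bj j → (∀ τ ∈ Icc τ1 τ2, z τ 0 ∈ Icc (aj j) (bj j) ∧ |w τ 0 - sg| ≤ mu) →
      ∃ τ' τ'', τ1 ≤ τ' ∧ τ' ≤ τ'' ∧ τ'' ≤ τ2 ∧ z τ' T = a + 1 - ρ ∧ z τ'' T = b + 1 + ρ ∧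
        ∀ τ ∈ Icc τ' τ'', (z τ 0, w τ 0) ∈ G ∧ z τ T ∈ Icc (a + 1 - ρ) (b + 1 + ρ)) ∧
    -- passages
    (∀ (j : Fin 3) (s r : ℝ → ℝ), Sol A s r → s 0 ∈ Icc (aj j) (bj j) → |r 0 - sg| ≤ mu → (s 0, r 0) ∈ G →
      s T ∈ Icc (a + 1 - ρ) (b + 1 + ρ) →
      |r T - sg| ≤ mu / 2 ∧
      (∀ t ∈ Icc (0 : ℝ) (1 / 5), s t ∈ Icc (1 / 4 + ρ) (3 / 4 - ρ)) ∧
      (∀ t ∈ Icc (0 : ℝ) (1 / 100), ∀ u, |u - s t| ≤ ρ → ∀ i, χ i u = if i = j then 1 else 0) ∧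
      (∀ l : ℕ, 1 ≤ l → l < T → ∀ t ∈ Icc (l : ℝ) (l + 1 / 100), ∀ u, |u - s t| ≤ ρ → ∀ i, χ i u = 0)) ∧
    -- hyperbolicity
    (∀ (j : Fin 3) (s r s' r' : ℝ → ℝ), Sol A s r → Sol A s' r' → s 0 ∈ Icc (aj j) (bj j) → |r 0 - sg| ≤ mu →
      (s 0, r 0) ∈ G → s T ∈ Icc (a + 1 - ρ) (b + 1 + ρ) → s' 0 ∈ Icc (aj j) (bj j) → |r' 0 - sg| ≤ mu →
      (s' 0, r' 0) ∈ G → s' T ∈ Icc (a + 1 - ρ) (b + 1 + ρ) → |r' 0 - r 0| ≤ κ * |s' 0 - s 0| →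
      8 * |s' 0 - s 0| ≤ |s' T - s T| ∧ |r' T - r T| ≤ κ / 2 * |s' T - s T|)

theorem S_UH2_iff : S_UH2 ↔ ∀ (k : ℕ) (ε : ℝ), 0 < ε → ∃ (A : ℝ → ℝ → ℝ) (χ : Fin 3 → ℝ → ℝ) (T : ℕ)
    (sg mu κ ρ a b : ℝ) (aj bj : Fin 3 → ℝ) (G : Set (ℝ × ℝ)), UHd k ε A χ T sg mu κ ρ a b aj bj G := Iff.rfl

/-- `λ(P)` -/
def lm {n : ℕ} (q : Fin n → ℤ) (P : E n) : ℝ := dot q P / dot q (rv q)

/-- the state of a family of orbits (positions `x τ`, velocities `v τ`, `τ ∈ [α, β]`) at the beginning of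
the stage number `m`; `Λ ≤ λ(P)^(k+3)` -/
structure Inv {n : ℕ} (k : ℕ) (p q : Fin n → ℤ) (w0 : List (TA n)) (sg mu κ a b κf T c1 : ℝ) (m : ℤ) (Λ : ℝ)
    (x v : ℝ → E n) (α β : ℝ) : Prop where
  le : α ≤ β
  left : dot p (x α) = a + m
  right : dot p (x β) = b + m
  mem : ∀ τ ∈ Icc α β, dot p (x τ) ∈ Icc (a + m) (b + m)
  vel : ∀ τ ∈ Icc α β, |dot p (v τ) - sg| ≤ mu
  cone : ∀ τ ∈ Icc α β, ∀ τ' ∈ Icc α β, |dot p (v τ' - v τ)| ≤ κ * |dot p (x τ' - x τ)| ∧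
    max ‖pj p (x τ' - x τ)‖ (T * ‖pj p (v τ' - v τ)‖) ≤ κf * |dot p (x τ' - x τ)|
  adm : ∀ τ ∈ Icc α β, ∃ P : E n, v τ = P + gw w0 (x τ) P 0 ∧ |dot p P| ≤ 2 ∧ 0 < lm q P ∧ Λ ≤ lm q P ^ (k + 3) ∧
    ‖pj p (P - lm q P • rv q)‖ ≤ c1 * lm q P

/-- one stage -/
def Step {n N : ℕ} (k : ℕ) (D : Trig n N) (p q : Fin n → ℤ) (w0 : List (TA n)) (A : ℝ → ℝ → ℝ)
    (χ : Fin 3 → ℝ → ℝ) (b' : ℝ → ℝ) (δ : ℝ) (sg mu κ a b κf : ℝ) (T : ℕ) (c1 lam0 c' C : ℝ) : Prop :=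
  ∀ (m : ℤ) (Λ : ℝ), lam0 ^ (k + 3) ≤ Λ → ∀ (X V : ℝ → ℝ → E n) (α β : ℝ),
    (∀ τ ∈ Icc α β, ∀ t ∈ Icc (0 : ℝ) T, HasDerivAt (X τ) (V τ t) t ∧
      HasDerivAt (V τ) (Frc D p q A χ b' δ (X τ t) t) t) →
    (∀ t ∈ Icc (0 : ℝ) T, ContinuousOn (fun τ => X τ t) (Icc α β) ∧ ContinuousOn (fun τ => V τ t) (Icc α β)) →
    Inv k p q w0 sg mu κ a b κf T c1 m Λ (fun τ => X τ 0) (fun τ => V τ 0) α β →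
    ∃ α' β' : ℝ, α ≤ α' ∧ β' ≤ β ∧
      Inv k p q w0 sg mu κ a b κf T c1 (m + 1) (Λ + c') (fun τ => X τ T) (fun τ => V τ T) α' β' ∧
      ∀ τ ∈ Icc α' β', ∀ t ∈ Icc (0 : ℝ) T, ∃ l : ℝ, 0 < l ∧ Λ ≤ l ^ (k + 3) ∧ l - C ≤ ‖V τ t‖

/-- Leaf STEP: the initial states and the stages -/
def S_STEP : Prop :=
  ∀ (n N : ℕ) (D : Trig n N) (k : ℕ) (B : ℝ → ℝ), 2 ≤ n → BB k B → ∃ (p q : Fin n → ℤ) (w0 : List (TA n)),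
    p ≠ 0 ∧ q ≠ 0 ∧ dot p (rv q) = 0 ∧
    ∀ (ε : ℝ) (A : ℝ → ℝ → ℝ) (χ : Fin 3 → ℝ → ℝ) (T : ℕ) (sg mu κ ρ a b : ℝ) (aj bj : Fin 3 → ℝ)
      (G : Set (ℝ × ℝ)), UHd k ε A χ T sg mu κ ρ a b aj bj G →
      (∃ C : ℝ, 0 ≤ C ∧ ∀ x t, ‖gfc p q χ (bt B) x t‖ ≤ C) → ∃ δ1 : ℝ, 0 < δ1 ∧ ∀ δ : ℝ, 0 < δ → δ ≤ δ1 →
      ∃ κf c1 lam0 c' C : ℝ, 1 ≤ lam0 ∧ 0 < c' ∧ 0 ≤ C ∧
        (∀ lam : ℝ, lam0 ≤ lam → ∃ x v : ℝ → E n, Continuous x ∧ Continuous v ∧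
          Inv k p q w0 sg mu κ a b κf T c1 0 (lam ^ (k + 3)) x v a b) ∧
        Step k D p q w0 A χ (bt B) δ sg mu κ a b κf T c1 lam0 c' C

/-- the main statement for trigonometric polynomials -/
def MainS : Prop :=
  ∀ (n k : ℕ), 2 ≤ n → 2 ≤ k → ∀ (N : ℕ) (D : Trig n N) (ε R : ℝ), 0 < ε →
    ∃ (F : Z n → ℝ) (γ γ' : ℝ → E n) (c : ℝ), 0 < c ∧ ContDiff ℝ k F ∧ Periodic (fun x t => F (x, t)) ∧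
      (∀ i ≤ k, ∀ q, ‖iteratedFDeriv ℝ i F q‖ ≤ ε) ∧
      (∀ t, 0 ≤ t → R ≤ ‖γ' t‖ ∧ c * t ^ (1 / ((k : ℝ) + 3)) ≤ ‖γ' t‖) ∧
      ∀ t, HasDerivAt γ (γ' t) t ∧ HasDerivAt γ' (gr (fun x t => D.val x t + F (x, t)) (γ t) t) t

/-- Leaf ITER: the nested intervals, growth -/
def S_ITER : Prop := S_GLOB → S_UH2 → S_TIM → S_PRT → S_FRC → S_STEP → MainS

/-- Leaf FIN2: the assembly (uses `densk_all`, `Fn.loc`, `Gq.el_B`; the pattern is `fin_all` in `HJ/FinB.lean`) -/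
def S_FIN2 : Prop :=
  MainS → ∀ (n k : ℕ), 2 ≤ n → 2 ≤ k → ∀ (R : ℝ) (L : (Fin n → ℝ) → (Fin n → ℝ) → ℝ → ℝ)
    (f₀ : (Fin n → ℝ) → ℝ → ℝ), HJ.PotK k f₀ → (∀ x v t, R ≤ ‖v‖ → L x v t = (∑ i, v i ^ 2) / 2 + f₀ x t) →
    ∀ f₁ : (Fin n → ℝ) → ℝ → ℝ, HJ.PotK k f₁ → ∀ ε : ℝ, 0 < ε →
    ∃ (f : (Fin n → ℝ) → ℝ → ℝ) (γ : ℝ → Fin n → ℝ) (c : ℝ), HJ.PotK k f ∧ HJ.CloseK k ε f₁ f ∧ 0 < c ∧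
      (∀ t, 0 ≤ t → c * t ^ (1 / ((k : ℝ) + 3)) ≤ ‖deriv γ t‖) ∧ (∀ t, 0 ≤ t → R < ‖deriv γ t‖) ∧
      ∀ t, 0 < t → EulerLagrange (fun x v t => L x v t + f x t) γ t

/-- Leaf EXA: the exact velocity `P` -/
def S_EXA : Prop :=
  ∀ (n N : ℕ) (D : Trig n N) (w0 e0 : List (TA n)) (𝓕 : List (Fin n → ℤ)) (M : ℕ), W0 w0 → WE D w0 M 𝓕 e0 →
    ∀ T : ℝ, ∃ lam0 : ℝ, 1 ≤ lam0 ∧ ∀ lam : ℝ, lam0 ≤ lam → ∀ P0 : E n, Reg 𝓕 lam P0 → ∀ (x v : E n) (t η : ℝ),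
      t ∈ Icc (0 : ℝ) T → 0 ≤ η → η ≤ 1 / 2 → ‖v - P0 - gw w0 x P0 t‖ ≤ η →
      ∃ P : E n, v = P + gw w0 x P t ∧ ‖P - P0‖ ≤ 2 * η

end Pool.Agent.K9h32.SP
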