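import Pool.Agent.K9h32.SP.StmA
import Pool.Agent.K9h32.HJ.FinA
import Pool.Agent.K9h32.HJ.DensK

/-!
# Leaf FIN2: the assembly
-/

set_option autoImplicit false

open Set Filter Topology
open scoped ContDiff

noncomputable section

namespace Pool.Agent.K9h32.SP

open Pool.Agent.N980.TL Pool.Agent.K9h32.HJ

namespace Fin2

/-- the identity matrix -/
def I {n : ℕ} : Fin n → Fin n → ℝ := fun i j => if i = j then 1 else 0

theorem mvI {n : ℕ} (y : Fin n → ℝ) : mv (I : Fin n → Fin n → ℝ) y = y := by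
  funext i
  simp [mv, I]

theorem LagI {n : ℕ} (G : (Fin n → ℝ) → ℝ → ℝ) (x v : Fin n → ℝ) (t : ℝ) :
    LagB I G x v t = (∑ i, v i ^ 2) / 2 + G x t := by
  unfold LagB
  congr 2
  refine Finset.sum_congr rfl fun i _ => ?_
  simp [I, ite_mul]
  ring

/-- **Leaf FIN2.** -/
theorem t : S_FIN2 := by
  intro hMain n k hn hk R L f₀ hf₀ hL f₁ hf₁ ε hε
  have hs : ContDiff ℝ k (fun q : Z n => f₀ q.1 q.2 + f₁ q.1 q.2) := hf₀.1.add hf₁.1
  have hp : ∀ (x : Fin n → ℝ) (t : ℝ) (a : Fin n → ℤ) (l : ℤ),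
      (fun q : Z n => f₀ q.1 q.2 + f₁ q.1 q.2) (fun i => x i + a i, t + l) =
        (fun q : Z n => f₀ q.1 q.2 + f₁ q.1 q.2) (x, t) := by
    intro x t a l
    show f₀ _ _ + f₁ _ _ = _
    rw [hf₀.2 x t a l, hf₁.2 x t a l]
  obtain ⟨N, D, hD⟩ := densk_all k n _ hs hp (ε / 2) (by positivity)
  obtain ⟨F, γ, γ', c, hc, hFs, hFp, hFb, hv, hE⟩ := hMain n k hn hk N D (ε / 2) (|R| + 1) (by positivity)
  have hDs : ContDiff ℝ k (fun q : Z n => D.val q.1 q.2) := (val_smooth D).of_le (by exact_mod_cast le_top)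
  have hder : ∀ t, deriv γ t = γ' t := fun t => (hE t).1.deriv
  have hder' : deriv γ = γ' := funext hder
  have hR : ∀ t, 0 ≤ t → R < ‖deriv γ t‖ := by
    intro t ht
    rw [hder]
    have h1 := (hv t ht).1
    have h2 := le_abs_self R
    linarith
  obtain ⟨G, hG⟩ : ∃ G : (Fin n → ℝ) → ℝ → ℝ, G = fun x t => D.val x t + F (x, t) := ⟨_, rfl⟩
  have hGs : ContDiff ℝ k (fun q : Z n => G q.1 q.2) := by
    rw [hG]
    exact hDs.add hFs
  have hGs2 : ContDiff ℝ 2 (fun q : Z n => G q.1 q.2) := hGs.of_le (by exact_mod_cast hk)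
  refine ⟨fun x t => G x t - f₀ x t, γ, c, ⟨hGs.sub hf₀.1, fun x t a l => ?_⟩, ?_, hc, fun t ht => ?_, hR,
    fun t ht => ?_⟩
  · show G _ _ - f₀ _ _ = _
    rw [hf₀.2 x t a l, hG]
    have e1 := val_periodic D x t a l
    have e2 := hFp x t a l
    simp only at e2 ⊢
    rw [e1, e2]
  · intro i hi q
    have hi' : ((i : ℕ) : WithTop ℕ∞) ≤ k := by exact_mod_cast hi
    have s1 : ContDiffAt ℝ i (fun q : Z n => -((f₀ q.1 q.2 + f₁ q.1 q.2) - D.val q.1 q.2)) q :=
      (((hs.sub hDs).neg).of_le hi').contDiffAt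
    have s2 : ContDiffAt ℝ i F q := (hFs.of_le hi').contDiffAt
    have e2 : (fun q : Z n => (G q.1 q.2 - f₀ q.1 q.2) - f₁ q.1 q.2) =
        fun q => -((f₀ q.1 q.2 + f₁ q.1 q.2) - D.val q.1 q.2) + F q := by
      funext q
      rw [hG]
      ring
    show ‖iteratedFDeriv ℝ i (fun q : Z n => (G q.1 q.2 - f₀ q.1 q.2) - f₁ q.1 q.2) q‖ ≤ ε
    rw [e2, fun_iteratedFDeriv_add_apply s1 s2]
    have h3 : ε = ε / 2 + ε / 2 := by ring
    rw [h3]
    refine (norm_add_le _ _).trans (add_le_add ?_ (hFb i hi q))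
    have e5 : (fun q : Z n => -((f₀ q.1 q.2 + f₁ q.1 q.2) - D.val q.1 q.2)) =
        -(fun q : Z n => (f₀ q.1 q.2 + f₁ q.1 q.2) - D.val q.1 q.2) := rfl
    rw [e5, iteratedFDeriv_neg_apply, norm_neg]
    exact hD i hi q
  · rw [hder]
    exact (hv t ht).2
  · have hEG : EulerLagrange (LagB I G) γ t := by
      refine (Gq.el_B (B := I) (Q := I) (fun i j => ?_) (fun i j => ?_) hGs2).2 γ γ' t
        (Filter.Eventually.of_forall fun s => (hE s).1) ?_
      · simp only [I]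
        exact if_congr eq_comm rfl rfl
      · simp [I]
      · rw [mvI, hG]
        exact (hE t).2
    refine Fn.loc (L' := LagB I G) (R := R) (fun x v t hv => ?_) ?_ hEG
    · rw [hL x v t hv, LagI]
      ring
    · filter_upwards [lt_mem_nhds ht] with s hs'
      exact hR s hs'.le

end Fin2

end Pool.Agent.K9h32.SP
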