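import Pool.Agent.K9h32.SP.Iter
import Pool.Agent.K9h32.SP.FRC
import Pool.Agent.K9h32.SP.Fin2
import Pool.Agent.K9h32.SP.Glob

/-!
# The assembly of the leaves
-/

set_option autoImplicit false

open Set Filter Topology
open scoped ContDiff

noncomputable section

namespace Pool.Agent.K9h32.SP

open Pool.Agent.N980.TL

/-- the final theorem from the leaves UH, TIM, PRT, STEP -/
theorem all_of (hUH : S_UH2) (hTim : S_TIM) (hPrt : S_PRT) (hStep : S_STEP) :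
    ∀ (n k : ℕ), 2 ≤ n → 2 ≤ k → ∀ (R : ℝ) (L : (Fin n → ℝ) → (Fin n → ℝ) → ℝ → ℝ)
    (f₀ : (Fin n → ℝ) → ℝ → ℝ), HJ.PotK k f₀ → (∀ x v t, R ≤ ‖v‖ → L x v t = (∑ i, v i ^ 2) / 2 + f₀ x t) →
    ∀ f₁ : (Fin n → ℝ) → ℝ → ℝ, HJ.PotK k f₁ → ∀ ε : ℝ, 0 < ε →
    ∃ (f : (Fin n → ℝ) → ℝ → ℝ) (γ : ℝ → Fin n → ℝ) (c : ℝ), HJ.PotK k f ∧ HJ.CloseK k ε f₁ f ∧ 0 < c ∧
      (∀ t, 0 ≤ t → c * t ^ (1 / ((k : ℝ) + 3)) ≤ ‖deriv γ t‖) ∧ (∀ t, 0 ≤ t → R < ‖deriv γ t‖) ∧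
      ∀ t, 0 < t → EulerLagrange (fun x v t => L x v t + f x t) γ t :=
  Fin2.t (Iter.t Glob.t hUH hTim hPrt FRC.t hStep)

end Pool.Agent.K9h32.SP
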