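import Pool.Agent.K9h32.SP.StmA
import Pool.Agent.K9h32.SP.Glob

/-!
# Auxiliary facts for the leaf STEP
-/

set_option autoImplicit false

open Set Filter Topology
open scoped ContDiff NNReal

noncomputable section

namespace Pool.Agent.K9h32.SP

open Pool.Agent.N980.TL

/-- existence of the solutions of the slow equation -/
theorem sol_exists {A : ℝ → ℝ → ℝ} (h : SP2 A) (s0 r0 : ℝ) :
    ∃ s r : ℝ → ℝ, Sol A s r ∧ s 0 = s0 ∧ r 0 = r0 := by
  obtain ⟨L, hL, hL0, hL1, -⟩ := AU_bounds h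
  have hc : Continuous (fun q : E 1 × ℝ => (fun _ => ds A (q.1 0) q.2 : E 1)) := by
    refine continuous_pi fun _ => ?_
    have h1 : Continuous (fun q : ℝ × ℝ => ds A q.1 q.2) := h.ds.1.continuous
    have h2 : Continuous (fun q : E 1 × ℝ => (q.1 0, q.2)) :=
      ((continuous_apply 0).comp continuous_fst).prodMk continuous_snd
    exact h1.comp h2
  obtain ⟨Φ, h0, hd, -⟩ := Glob.t 1 (fun x t => fun _ => ds A (x 0) t) L L hL hL hc
    (fun x t => (pi_norm_le_iff_of_nonneg hL).2 fun i => hL0 _ _)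
    (fun x y t => by
      refine (pi_norm_le_iff_of_nonneg (by positivity)).2 fun i => ?_
      refine (hL1 (x 0) (y 0) t).trans (mul_le_mul_of_nonneg_left ?_ hL)
      exact norm_le_pi_norm (x - y) 0)
  refine ⟨fun t => (Φ 0 (fun _ => s0) (fun _ => r0) t).1 0, fun t => (Φ 0 (fun _ => s0) (fun _ => r0) t).2 0,
    fun t => ?_, by simp only [h0], by simp only [h0]⟩
  obtain ⟨h1, h2⟩ := hd 0 (fun _ => s0) (fun _ => r0) t
  exact ⟨(hasDerivAt_pi.1 h1) 0, (hasDerivAt_pi.1 h2) 0⟩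

/-- a subinterval which is mapped onto an interval -/
theorem subint {f : ℝ → ℝ} {α β c d : ℝ} (hαβ : α ≤ β) (hf : ContinuousOn f (Icc α β)) (hc : f α ≤ c)
    (hcd : c ≤ d) (hd : d ≤ f β) : ∃ τ1 τ2 : ℝ, α ≤ τ1 ∧ τ1 ≤ τ2 ∧ τ2 ≤ β ∧ f τ1 = c ∧ f τ2 = d ∧
      ∀ τ ∈ Icc τ1 τ2, f τ ∈ Icc c d := by
  -- the first time `≥ d`
  obtain ⟨S, hS⟩ : ∃ S : Set ℝ, S = Icc α β ∩ f ⁻¹' (Ici d) := ⟨_, rfl⟩
  have hSc : IsClosed S := by rw [hS]; exact hf.preimage_isClosed_of_isClosed isClosed_Icc isClosed_Ici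
  have hSne : S.Nonempty := ⟨β, by rw [hS]; exact ⟨⟨hαβ, le_refl _⟩, hd⟩⟩
  have hSb : BddBelow S := ⟨α, fun x hx => by rw [hS] at hx; exact hx.1.1⟩
  have hτ2 : sInf S ∈ S := hSc.csInf_mem hSne hSb
  obtain ⟨τ2, ht2⟩ : ∃ τ2, τ2 = sInf S := ⟨_, rfl⟩
  rw [← ht2] at hτ2
  have hτ2' : τ2 ∈ Icc α β ∧ d ≤ f τ2 := by rw [hS] at hτ2; exact hτ2
  have hlt : ∀ τ ∈ Icc α β, τ < τ2 → f τ < d := by
    intro τ hτ hlt
    by_contra hcon
    push Not at hcon
    have : τ2 ≤ τ := by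
      rw [ht2]
      refine csInf_le hSb ?_
      rw [hS]
      exact ⟨hτ, hcon⟩
    linarith
  have hf2 : ContinuousOn f (Icc α τ2) := hf.mono (Icc_subset_Icc_right hτ2'.1.2)
  have hfd : f τ2 = d := by
    refine le_antisymm ?_ hτ2'.2
    rcases eq_or_lt_of_le hτ2'.1.1 with h | h
    · rw [← h]; linarith
    · by_contra hcon
      push Not at hcon
      -- IVT
      have hiv := intermediate_value_Icc h.le hf2
      have hmem : d ∈ Icc (f α) (f τ2) := ⟨by linarith, hcon.le⟩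
      obtain ⟨τ, hτ, hτd⟩ := hiv hmem
      have h3 : τ ≠ τ2 := by
        rintro rfl
        linarith
      have h4 : τ < τ2 := lt_of_le_of_ne hτ.2 h3
      have := hlt τ ⟨hτ.1, hτ.2.trans hτ2'.1.2⟩ h4
      linarith
  have hle : ∀ τ ∈ Icc α τ2, f τ ≤ d := by
    intro τ hτ
    rcases eq_or_lt_of_le hτ.2 with h | h
    · rw [h, hfd]
    · exact (hlt τ ⟨hτ.1, hτ.2.trans hτ2'.1.2⟩ h).le
  -- the last time `≤ c`
  obtain ⟨S', hS'⟩ : ∃ S' : Set ℝ, S' = Icc α τ2 ∩ f ⁻¹' (Iic c) := ⟨_, rfl⟩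
  have hSc' : IsClosed S' := by rw [hS']; exact hf2.preimage_isClosed_of_isClosed isClosed_Icc isClosed_Iic
  have hSne' : S'.Nonempty := ⟨α, by rw [hS']; exact ⟨⟨le_refl _, hτ2'.1.1⟩, hc⟩⟩
  have hSb' : BddAbove S' := ⟨τ2, fun x hx => by rw [hS'] at hx; exact hx.1.2⟩
  have hτ1 : sSup S' ∈ S' := hSc'.csSup_mem hSne' hSb'
  obtain ⟨τ1, ht1⟩ : ∃ τ1, τ1 = sSup S' := ⟨_, rfl⟩
  rw [← ht1] at hτ1
  have hτ1' : τ1 ∈ Icc α τ2 ∧ f τ1 ≤ c := by rw [hS'] at hτ1; exact hτ1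
  have hgt : ∀ τ ∈ Icc α τ2, τ1 < τ → c < f τ := by
    intro τ hτ hlt
    by_contra hcon
    push Not at hcon
    have : τ ≤ τ1 := by
      rw [ht1]
      refine le_csSup hSb' ?_
      rw [hS']
      exact ⟨hτ, hcon⟩
    linarith
  have hfc : f τ1 = c := by
    refine le_antisymm hτ1'.2 ?_
    by_contra hcon
    push Not at hcon
    have hf3 : ContinuousOn f (Icc τ1 τ2) := hf2.mono (Icc_subset_Icc_left hτ1'.1.1)
    have hiv := intermediate_value_Icc hτ1'.1.2 hf3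
    have hmem : c ∈ Icc (f τ1) (f τ2) := ⟨hcon.le, by rw [hfd]; exact hcd⟩
    obtain ⟨τ, hτ, hτd⟩ := hiv hmem
    have h3 : τ1 ≠ τ := by
      rintro rfl
      linarith
    have h4 : τ1 < τ := lt_of_le_of_ne hτ.1 h3
    have := hgt τ ⟨hτ1'.1.1.trans hτ.1, hτ.2⟩ h4
    linarith
  refine ⟨τ1, τ2, hτ1'.1.1, hτ1'.1.2, hτ2'.1.2, hfc, hfd, fun τ hτ => ⟨?_, hle τ ⟨hτ1'.1.1.trans hτ.1, hτ.2⟩⟩⟩
  rcases eq_or_lt_of_le hτ.1 with h | h
  · rw [← h, hfc]
  · exact (hgt τ ⟨hτ1'.1.1.trans hτ.1, hτ.2⟩ h).le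

/-- one of three equidistant phases is good -/
theorem three_phase (θ e : ℝ) (he : e = 1 ∨ e = -1) :
    ∃ j : Fin 3, 1 / 2 ≤ e * Real.sin (θ + 2 * Real.pi * ((j : ℕ) : ℝ) / 3) := by
  have key : ∀ θ : ℝ, ∃ j : Fin 3, 1 / 2 ≤ Real.sin (θ + 2 * Real.pi * ((j : ℕ) : ℝ) / 3) := by
    intro θ
    by_contra hcon
    push Not at hcon
    have h0 := hcon 0
    have h1 := hcon 1
    have h2 := hcon 2
    simp only [Fin.val_zero, Fin.val_one, Fin.val_two, Nat.cast_zero, Nat.cast_one, Nat.cast_ofNat, mul_zero,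
      zero_div, add_zero, mul_one] at h0 h1 h2
    have e1 : Real.sin (θ + 2 * Real.pi / 3) = -(1 / 2) * Real.sin θ + Real.sqrt 3 / 2 * Real.cos θ := by
      rw [Real.sin_add]
      have hc : Real.cos (2 * Real.pi / 3) = -(1 / 2) := by
        have : 2 * Real.pi / 3 = Real.pi - Real.pi / 3 := by ring
        rw [this, Real.cos_pi_sub, Real.cos_pi_div_three]
      have hs : Real.sin (2 * Real.pi / 3) = Real.sqrt 3 / 2 := by
        have : 2 * Real.pi / 3 = Real.pi - Real.pi / 3 := by ring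
        rw [this, Real.sin_pi_sub, Real.sin_pi_div_three]
      rw [hc, hs]; ring
    have e2 : Real.sin (θ + 2 * Real.pi * 2 / 3) = -(1 / 2) * Real.sin θ - Real.sqrt 3 / 2 * Real.cos θ := by
      rw [Real.sin_add]
      have hc : Real.cos (2 * Real.pi * 2 / 3) = -(1 / 2) := by
        have : 2 * Real.pi * 2 / 3 = Real.pi / 3 + Real.pi := by ring
        rw [this, Real.cos_add_pi, Real.cos_pi_div_three]
      have hs : Real.sin (2 * Real.pi * 2 / 3) = -(Real.sqrt 3 / 2) := by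
        have : 2 * Real.pi * 2 / 3 = Real.pi / 3 + Real.pi := by ring
        rw [this, Real.sin_add_pi, Real.sin_pi_div_three]
      rw [hc, hs]; ring
    rw [e1] at h1
    rw [e2] at h2
    obtain ⟨s, hs⟩ : ∃ s, s = Real.sin θ := ⟨_, rfl⟩
    obtain ⟨c, hc⟩ : ∃ c, c = Real.sqrt 3 * Real.cos θ := ⟨_, rfl⟩
    have hsc : 3 * s ^ 2 + c ^ 2 = 3 := by
      rw [hs, hc, mul_pow, Real.sq_sqrt (by norm_num : (0 : ℝ) ≤ 3)]
      have := Real.sin_sq_add_cos_sq θ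
      nlinarith
    rw [← hs] at h0 h1 h2
    have h1' : -s + c < 1 := by rw [hc]; linarith
    have h2' : -s - c < 1 := by rw [hc]; linarith
    -- |c| < 1 + s, s < 1/2
    have h3 : c ^ 2 < (1 + s) ^ 2 := by
      have : |c| < 1 + s := by rw [abs_lt]; constructor <;> linarith
      have h4 := abs_nonneg c
      have h5 : c ^ 2 = |c| ^ 2 := (sq_abs c).symm
      rw [h5]
      exact pow_lt_pow_left₀ this h4 (by norm_num)
    have h6 : 0 < 1 + s := by linarith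
    -- 3 = 3 s^2 + c^2 < 3 s^2 + (1+s)^2 = 4 s^2 + 2 s + 1, i.e. 0 < 2 (2 s - 1)(s + 1)
    nlinarith
  rcases he with he | he
  · rw [he]
    obtain ⟨j, hj⟩ := key θ
    exact ⟨j, by rw [one_mul]; exact hj⟩
  · rw [he]
    obtain ⟨j, hj⟩ := key (θ + Real.pi)
    refine ⟨j, ?_⟩
    have e : θ + Real.pi + 2 * Real.pi * ((j : ℕ) : ℝ) / 3 = (θ + 2 * Real.pi * ((j : ℕ) : ℝ) / 3) + Real.pi := by ring
    rw [e, Real.sin_add_pi] at hj
    linarith

end Pool.Agent.K9h32.SP
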