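import Pool.Agent.K9h32.SP.Gate2

/-!
# Leaf GATE: the kick of one gate
-/

set_option autoImplicit false

open Set Filter Topology
open scoped ContDiff

noncomputable section

namespace Pool.Agent.K9h32.SP.Gate

open Pool.Agent.N980.TL Pool.Agent.K9h32.SP

theorem t : S_HJT → S_GATE := by
  intro hHJT n N D k B hB
  obtain ⟨hB1, hB2, hB3, hB4⟩ := hB
  obtain ⟨R, w0, o0, hper, hq⟩ := hHJT n N D k (k + 3) B hB1 hB2 hB3 hB4
  rcases Nat.eq_zero_or_pos n with rfl | hn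
  · -- `n = 0`
    refine ⟨0, [], ⟨fun a ha => by simp at ha, fun a ha => by simp at ha, fun a ha => by simp at ha,
      fun x P t => rfl⟩, fun q hq => ?_⟩
    exact absurd (Subsingleton.elim q 0) hq
  have hW0 : W0 w0 := by
    have h1 : (fun _ : Fin n => (1 : ℤ)) ≠ 0 := fun h => by
      have := congrFun h ⟨0, hn⟩
      simp at this
    obtain ⟨𝓕, -, g0, hF, -⟩ := hq _ h1
    refine ⟨fun a ha => (g0 a ha).1, o0, fun a ha f hf => (hF f ((g0 a ha).2 f hf)).1, fun x P t => ?_⟩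
    funext i
    exact hper x P t i
  refine ⟨R, w0, hW0, fun q hq0 hres => ?_⟩
  obtain ⟨𝓕, hqF, g0, hF, hδ⟩ := hq q hq0
  obtain ⟨w1, e1, r, g1, ge, -, -, oe, -, hI⟩ := hδ 0 0
  refine ⟨𝓕, e1, hqF, ?_, fun f hf => hres f (hF f hf).1 (hF f hf).2, fun δ hδ0 => ?_⟩
  · exact we D w0 w1 e1 (k + 3) q B 0 g0 g1 ge oe hper fun v hv x j =>
      ⟨(hI v hv x j).1, (hI v hv x j).2.1⟩
  have hkick : ∀ j : Fin 3, ∃ c C lam0 : ℝ, 0 < c ∧ 0 ≤ C ∧ 1 ≤ lam0 ∧ ∀ lam : ℝ, lam0 ≤ lam → ∀ P : E n,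
      Reg 𝓕 lam P → 0 < dot q P → dot q P ≤ 2 * lam * dot q (rv q) →
      ∀ (x v : ℝ → E n), (∀ t ∈ Icc (0 : ℝ) (1 / 100), HasDerivAt x (v t) t ∧
        HasDerivAt v (fun i => D.grad (x t) t i -
          δ * B t * (2 * Real.pi * q i) * Real.sin (2 * Real.pi * dot q (x t) + 2 * Real.pi * ((j : ℕ) : ℝ) / 3)) t) →
        v 0 = P + gw w0 (x 0) P 0 →
        1 / 4 ≤ (-1) ^ (k + 1) * Real.sin (2 * Real.pi * dot q (x 0) + 2 * Real.pi * ((j : ℕ) : ℝ) / 3 -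
          (k + 2) * (Real.pi / 2)) →
        ∃ (P' : E n) (κ : ℝ), c / lam ^ (k + 2) ≤ κ ∧ ‖P' - P - κ • rv q‖ ≤ C / lam ^ (k + 3) ∧ ‖P' - P‖ ≤ 1 ∧
          ‖v (1 / 100) - P' - gw w0 (x (1 / 100)) P' (1 / 100)‖ ≤ C / lam ^ (k + 3) := fun j => by
    obtain ⟨w1, e1, r, g1, ge, gr, o1, oe, or, hI⟩ := hδ δ (2 * Real.pi * ((j : ℕ) : ℝ) / 3)
    exact kick D k B q w0 w1 e1 r δ (2 * Real.pi * ((j : ℕ) : ℝ) / 3) hδ0 hqF hq0 g0 g1 ge gr o0 o1 oe or hI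
  choose c C l hc hC hl hk using hkick
  refine ⟨min (c 0) (min (c 1) (c 2)), C 0 + C 1 + C 2, l 0 + l 1 + l 2,
    lt_min (hc 0) (lt_min (hc 1) (hc 2)), by linarith [hC 0, hC 1, hC 2], by linarith [hl 0, hl 1, hl 2], ?_⟩
  intro lam hlam P hP hq1 hq2 j x v hx hv hS
  have hj : min (c 0) (min (c 1) (c 2)) ≤ c j ∧ C j ≤ C 0 + C 1 + C 2 ∧ l j ≤ l 0 + l 1 + l 2 := by
    have a0 := hC 0; have a1 := hC 1; have a2 := hC 2
    have b0 := hl 0; have b1 := hl 1; have b2 := hl 2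
    fin_cases j
    · exact ⟨min_le_left _ _, by simp only [Fin.zero_eta]; linarith, by simp only [Fin.zero_eta]; linarith⟩
    · exact ⟨(min_le_right _ _).trans (min_le_left _ _), by simp only [Fin.mk_one]; linarith,
        by simp only [Fin.mk_one]; linarith⟩
    · exact ⟨(min_le_right _ _).trans (min_le_right _ _), by simp only [Fin.reduceFinMk]; linarith,
        by simp only [Fin.reduceFinMk]; linarith⟩
  obtain ⟨hj1, hj2, hj3⟩ := hj
  have hlam0 : 0 < lam := by linarith [hl j]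
  obtain ⟨P', κ, h1, h2, h3, h4⟩ := hk j lam (hj3.trans hlam) P hP hq1 hq2 x v hx hv hS
  refine ⟨P', κ, le_trans ?_ h1, h2.trans ?_, h3, h4.trans ?_⟩
  · exact div_le_div_of_nonneg_right hj1 (by positivity)
  · exact div_le_div_of_nonneg_right hj2 (by positivity)
  · exact div_le_div_of_nonneg_right hj2 (by positivity)

theorem t' : S_HJT → S_QQ → S_GATE := fun h _ => t h

end Pool.Agent.K9h32.SP.Gate
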