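import Pool.Agent.K9h32.SP.HJK2

/-!
# Leaf HJK: approximate solutions of the Hamilton-Jacobi equation with a slow resonant potential
-/

set_option autoImplicit false

open Set Filter Topology
open scoped ContDiff

noncomputable section

namespace Pool.Agent.K9h32.SP.HJK

open Pool.Agent.N980.TL Pool.Agent.K9h32.SP

variable {n : ℕ} {p : Fin n → ℤ} {A : ℝ → ℝ → ℝ}

/-- the new error -/
def eN (p : Fin n → ℤ) (w0 : List (TA n)) (M : ℕ) (A : ℝ → ℝ → ℝ) (w al e : List (TS n)) : List (TS n) :=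
  rds (sninv e) ++ (st (sninv e) ++ ((List.finRange n).flatMap (fun i =>
    mul (sx p i (emb w0)) (sx p i (sninv e)) ++ (mul (sx p i w) (sx p i (sninv e)) ++
      scal (1 / 2) (mul (sx p i (sninv e)) (sx p i (sninv e))))) ++
  (List.range M).flatMap fun j => scal (1 / ((j + 1).factorial : ℝ))
    (mul (ss^[j + 1] (scal (-1) (sres e))) (pw ((sp p (emb w0) ++ sp p w) ++ sp p (sninv e)) (j + 1)) ++
      mul (ss^[j + 1] (slowAt A :: al)) (Dp (sp p (emb w0) ++ sp p w) (sp p (sninv e)) (j + 1)))))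

/-- the first error -/
def e1 (p : Fin n → ℤ) (w0 : List (TA n)) (M : ℕ) (A : ℝ → ℝ → ℝ) : List (TS n) :=
  (List.range M).flatMap fun j => scal (1 / ((j + 1).factorial : ℝ))
    (mul (ss^[j + 1] [slowAt A]) (pw (sp p (emb w0)) (j + 1)))

/-- the equation -/
def EQ (p : Fin n → ℤ) (w0 : List (TA n)) (M : ℕ) (A : ℝ → ℝ → ℝ) (w al e : List (TS n)) (P : E n) : Prop :=
  ∀ (x : E n) (t : ℝ), sev p (st w) x P t + ∑ i, P i * sev p (sx p i w) x P t +
    ∑ i, sev p (sx p i (emb w0)) x P t * sev p (sx p i w) x P t +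
    (∑ i, sev p (sx p i w) x P t ^ 2) / 2 - A (dot p x) t +
    ∑ j ∈ Finset.range (M + 1), sev p (ss^[j] (slowAt A :: al)) x P t *
      (sev p (sp p (emb w0)) x P t + sev p (sp p w) x P t) ^ j / (j.factorial : ℝ) =
  sev p e x P t

theorem range_sum (K : ℕ) (f : ℕ → ℝ) : ((List.range K).map f).sum = ∑ l ∈ Finset.range K, f l := by
  induction K with
  | zero => rfl
  | succ K ih => rw [List.range_succ, List.map_append, List.sum_append, ih, Finset.sum_range_succ]; simp

theorem finRange_sum (f : Fin n → ℝ) : ((List.finRange n).map f).sum = ∑ i, f i := by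
  rw [← List.ofFn_eq_map, List.sum_ofFn]

theorem slowAt_ev (x P : E n) (t : ℝ) : (slowAt (n := n) A).ev p x P t = A (dot p x) t := by
  simp [TS.ev, slowAt, dot]

theorem EQ_zero (w0 : List (TA n)) (M : ℕ) (P : E n) : EQ p w0 M A [] [] (e1 p w0 M A) P := by
  intro x t
  rw [Finset.sum_range_succ', e1, sev_flatMap, range_sum]
  have h1 : ∀ j, sev p (scal (1 / ((j + 1).factorial : ℝ))
      (mul (ss^[j + 1] [slowAt A]) (pw (sp p (emb w0)) (j + 1)))) x P t =
      sev p (ss^[j + 1] [slowAt A]) x P t * (sev p (sp p (emb w0)) x P t + sev p (sp p []) x P t) ^ (j + 1) /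
        ((j + 1).factorial : ℝ) := by
    intro j
    have h2 : sev p (sp p ([] : List (TS n))) x P t = 0 := rfl
    rw [scal_ev, mul_ev, pw_ev, h2, add_zero]
    ring
  simp only [h1]
  have h3 : sev p (ss^[0] [slowAt A]) x P t = A (dot p x) t := by
    rw [Function.iterate_zero_apply, sev_cons, sev_nil, slowAt_ev, add_zero]
  have h4 : sev p (st ([] : List (TS n))) x P t = 0 := rfl
  have h5 : ∀ i, sev p (sx p i ([] : List (TS n))) x P t = 0 := fun i => rfl
  simp only [h3, h4, h5]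
  simp

theorem EQ_step {w0 : List (TA n)} {M : ℕ} {w al e : List (TS n)} {P : E n} (h : EQ p w0 M A w al e P)
    (hP : ∀ a ∈ e, a.k ≠ 0 → dot a.k P ≠ 0) :
    EQ p w0 M A (w ++ sninv e) (al ++ scal (-1) (sres e)) (eN p w0 M A w al e) P := by
  intro x t
  have h0 := h x t
  have hs := sninv_ev (p := p) e x P t hP
  have hsp := split_ev (p := p) e x P t
  have hres : sev p (scal (-1) (sres e)) x P t = -sev p (sres e) x P t := by rw [scal_ev]; ring
  set d := sninv e with hd
  set dal := scal (-1) (sres e) with hdal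
  set Ev := sp p (emb w0) ++ sp p w with hEv
  -- the pieces
  have a1 : sev p (st (w ++ d)) x P t = sev p (st w) x P t + sev p (st d) x P t := by
    rw [st_append, sev_append]
  have a2 : ∀ i, sev p (sx p i (w ++ d)) x P t = sev p (sx p i w) x P t + sev p (sx p i d) x P t := fun i => by
    rw [sx_append, sev_append]
  have a3 : sev p (sp p (w ++ d)) x P t = sev p (sp p w) x P t + sev p (sp p d) x P t := by
    rw [sp_append, sev_append]
  have a4 : ∀ j, sev p (ss^[j] (slowAt A :: (al ++ dal))) x P t =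
      sev p (ss^[j] (slowAt A :: al)) x P t + sev p (ss^[j] dal) x P t := fun j => by
    rw [← List.cons_append, ssit_append, sev_append]
  have a5 : sev p Ev x P t = sev p (sp p (emb w0)) x P t + sev p (sp p w) x P t := by
    rw [hEv, sev_append]
  have b1 : ∑ i, P i * sev p (sx p i (w ++ d)) x P t =
      ∑ i, P i * sev p (sx p i w) x P t + ∑ i, P i * sev p (sx p i d) x P t := by
    rw [← Finset.sum_add_distrib]
    exact Finset.sum_congr rfl fun i _ => by rw [a2]; ring
  have b2 : ∑ i, sev p (sx p i (emb w0)) x P t * sev p (sx p i (w ++ d)) x P t =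
      ∑ i, sev p (sx p i (emb w0)) x P t * sev p (sx p i w) x P t +
        ∑ i, sev p (sx p i (emb w0)) x P t * sev p (sx p i d) x P t := by
    rw [← Finset.sum_add_distrib]
    exact Finset.sum_congr rfl fun i _ => by rw [a2]; ring
  have b3 : (∑ i, sev p (sx p i (w ++ d)) x P t ^ 2) / 2 = (∑ i, sev p (sx p i w) x P t ^ 2) / 2 +
      (∑ i, sev p (sx p i w) x P t * sev p (sx p i d) x P t +
        ∑ i, 1 / 2 * (sev p (sx p i d) x P t * sev p (sx p i d) x P t)) := by
    rw [Finset.sum_div, Finset.sum_div, ← Finset.sum_add_distrib, ← Finset.sum_add_distrib]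
    exact Finset.sum_congr rfl fun i _ => by rw [a2]; ring
  have c1 : sev p (eN p w0 M A w al e) x P t = sev p (rds d) x P t + (sev p (st d) x P t +
      ((∑ i, sev p (sx p i (emb w0)) x P t * sev p (sx p i d) x P t +
        (∑ i, sev p (sx p i w) x P t * sev p (sx p i d) x P t +
        ∑ i, 1 / 2 * (sev p (sx p i d) x P t * sev p (sx p i d) x P t))) +
      ∑ j ∈ Finset.range M, 1 / ((j + 1).factorial : ℝ) * (sev p (ss^[j + 1] dal) x P t *
        (sev p Ev x P t + sev p (sp p d) x P t) ^ (j + 1) + sev p (ss^[j + 1] (slowAt A :: al)) x P t *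
          ((sev p Ev x P t + sev p (sp p d) x P t) ^ (j + 1) - sev p Ev x P t ^ (j + 1))))) := by
    rw [eN, sev_append, sev_append, sev_append, sev_flatMap, sev_flatMap, finRange_sum, range_sum]
    congr 3
    · rw [← Finset.sum_add_distrib, ← Finset.sum_add_distrib]
      refine Finset.sum_congr rfl fun i _ => ?_
      rw [sev_append, sev_append, scal_ev, mul_ev, mul_ev, mul_ev]
    · refine Finset.sum_congr rfl fun j _ => ?_
      rw [scal_ev, sev_append, mul_ev, mul_ev, pw_ev, Dp_ev, sev_append]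
  have c2 : ∑ j ∈ Finset.range (M + 1), sev p (ss^[j] (slowAt A :: (al ++ dal))) x P t *
      (sev p (sp p (emb w0)) x P t + sev p (sp p (w ++ d)) x P t) ^ j / (j.factorial : ℝ) =
      ∑ j ∈ Finset.range (M + 1), sev p (ss^[j] (slowAt A :: al)) x P t *
        (sev p (sp p (emb w0)) x P t + sev p (sp p w) x P t) ^ j / (j.factorial : ℝ) +
      (∑ j ∈ Finset.range M, 1 / ((j + 1).factorial : ℝ) * (sev p (ss^[j + 1] dal) x P t *
        (sev p Ev x P t + sev p (sp p d) x P t) ^ (j + 1) + sev p (ss^[j + 1] (slowAt A :: al)) x P t *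
          ((sev p Ev x P t + sev p (sp p d) x P t) ^ (j + 1) - sev p Ev x P t ^ (j + 1))) +
        sev p dal x P t) := by
    rw [Finset.sum_range_succ' _ M, Finset.sum_range_succ' _ M]
    have d1 : ∀ j, sev p (ss^[j + 1] (slowAt A :: (al ++ dal))) x P t *
        (sev p (sp p (emb w0)) x P t + sev p (sp p (w ++ d)) x P t) ^ (j + 1) / ((j + 1).factorial : ℝ) =
        sev p (ss^[j + 1] (slowAt A :: al)) x P t *
          (sev p (sp p (emb w0)) x P t + sev p (sp p w) x P t) ^ (j + 1) / ((j + 1).factorial : ℝ) +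
        1 / ((j + 1).factorial : ℝ) * (sev p (ss^[j + 1] dal) x P t *
        (sev p Ev x P t + sev p (sp p d) x P t) ^ (j + 1) + sev p (ss^[j + 1] (slowAt A :: al)) x P t *
          ((sev p Ev x P t + sev p (sp p d) x P t) ^ (j + 1) - sev p Ev x P t ^ (j + 1))) := by
      intro j
      rw [a4, a3, a5, ← add_assoc (sev p (sp p (emb w0)) x P t)]
      ring
    rw [Finset.sum_congr rfl fun j _ => d1 j, Finset.sum_add_distrib, a4]
    simp only [Function.iterate_zero_apply, pow_zero, Nat.factorial_zero, Nat.cast_one, mul_one, div_one]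
    ring
  rw [a1, b1, b2, b3, c1, c2, hres, hs]
  linarith

/-! ## the induction -/

theorem emb_G (w0 : List (TA n)) (h1 : ∀ a ∈ w0, ContDiff ℝ ∞ a.a) (h2 : ∀ a ∈ w0, 1 ≤ a.F.length)
    (h3 : ∀ a ∈ w0, ∀ f ∈ a.F, f ≠ 0) : ∃ r : ℕ, G r 1 (emb w0) := by
  induction w0 with
  | nil => exact ⟨0, G.nil⟩
  | cons a w0 ih =>
    obtain ⟨r, hr⟩ := ih (fun b hb => h1 b (List.mem_cons_of_mem _ hb))
      (fun b hb => h2 b (List.mem_cons_of_mem _ hb)) (fun b hb => h3 b (List.mem_cons_of_mem _ hb))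
    have ha : ∃ ρ : ℕ, G ρ 1 (emb [a]) := by
      refine ⟨(∑ i, (a.k i).natAbs) + (a.F.map fun f => ∑ i, (f i).natAbs).sum, fun b hb => ?_⟩
      simp only [emb, List.map_cons, List.map_nil, List.mem_singleton] at hb
      subst hb
      have hk : ∀ (f : Fin n → ℤ) (i : Fin n), |f i| ≤ ((∑ i, (f i).natAbs : ℕ) : ℤ) := by
        intro f i
        have h1 : (f i).natAbs ≤ ∑ i, (f i).natAbs :=
          Finset.single_le_sum (f := fun i => (f i).natAbs) (fun _ _ => Nat.zero_le _) (Finset.mem_univ i)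
        rw [Int.abs_eq_natAbs]
        exact_mod_cast h1
      refine ⟨⟨?_, fun _ _ _ _ => rfl⟩, fun i => (hk a.k i).trans ?_, fun f hf => ⟨h3 a List.mem_cons_self f hf,
        fun i => (hk f i).trans ?_⟩, h2 a List.mem_cons_self⟩
      · exact (h1 a List.mem_cons_self).comp (contDiff_snd.comp contDiff_snd)
      · exact_mod_cast Nat.le_add_right _ _
      · have h5 : ∑ i, (f i).natAbs ≤ (a.F.map fun f => ∑ i, (f i).natAbs).sum :=
          List.single_le_sum (by simp) _ (List.mem_map.2 ⟨f, hf, rfl⟩)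
        exact_mod_cast h5.trans (Nat.le_add_left _ _)
    obtain ⟨ρ, hρ⟩ := ha
    refine ⟨max r ρ, ?_⟩
    have : emb (a :: w0) = emb [a] ++ emb w0 := rfl
    rw [this]
    exact (hρ.mono (le_max_right _ _) le_rfl).append (hr.mono (le_max_left _ _) le_rfl)

theorem slowAt_G (hA : ContDiff ℝ ∞ (fun q : ℝ × ℝ => A q.1 q.2))
    (hA' : ∀ (s t : ℝ) (m : ℤ), A (s + m) t = A s t) (r : ℕ) : G r 0 [slowAt (n := n) A] := by
  intro a ha
  rw [List.mem_singleton] at ha
  subst ha
  refine ⟨⟨?_, fun s _ t m => hA' s t m⟩, fun i => ?_, fun f hf => ?_, Nat.zero_le _⟩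
  · exact hA.comp (contDiff_fst.prodMk (contDiff_snd.comp contDiff_snd))
  · simp [slowAt]
  · simp [slowAt] at hf

/-- the boxes -/
def rx (M r0 : ℕ) : ℕ → ℕ
  | 0 => (M + 2) * r0
  | i + 1 => (M + 2) * rx M r0 i

theorem rx_mono (M r0 i : ℕ) : r0 ≤ rx M r0 i := by
  induction i with
  | zero => rw [rx]; nlinarith
  | succ i ih => rw [rx]; nlinarith

theorem main (w0 : List (TA n)) (M r0 : ℕ) (hA : ContDiff ℝ ∞ (fun q : ℝ × ℝ => A q.1 q.2))
    (hA' : ∀ (s t : ℝ) (m : ℤ), A (s + m) t = A s t) (h0 : G r0 1 (emb w0)) (i : ℕ) :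
    ∃ w al e : List (TS n), G (rx M r0 i) 1 w ∧ G (rx M r0 i) 1 al ∧ (∀ a ∈ al, a.k = 0) ∧
      G (rx M r0 i) (i + 1) e ∧ Loc A w ∧ Loc A al ∧ Loc A e ∧
      ∀ P : E n, (∀ f : Fin n → ℤ, f ≠ 0 → (∀ j, |f j| ≤ rx M r0 i) → dot f P ≠ 0) → EQ p w0 M A w al e P := by
  induction i with
  | zero =>
    refine ⟨[], [], e1 p w0 M A, G.nil, G.nil, fun a ha => by simp at ha, ?_, Loc.nil, Loc.nil, ?_,
      fun P _ => EQ_zero w0 M P⟩
    · refine G.flatMap fun j hj => G.scal ?_ _
      rw [List.mem_range] at hj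
      refine (((slowAt_G hA hA' 0).ssit (j + 1)).mul (h0.sp.pw (j + 1))).mono ?_ (by omega)
      rw [rx, zero_add]
      exact Nat.mul_le_mul_right _ (by omega)
    · refine Loc.flatMap fun j _ => Loc.scal (Loc.mul_left (Loc.ssit loc_slowAt _)) _
  | succ i ih =>
    obtain ⟨w, al, e, hw, hal, hk, he, lw, lal, le, hEQ⟩ := ih
    set ρ := rx M r0 i with hρ
    have hρ0 : r0 ≤ ρ := rx_mono M r0 i
    have hρ1 : ρ ≤ (M + 2) * ρ := Nat.le_mul_of_pos_left _ (by omega)
    have hρ2 : ρ + ρ ≤ (M + 2) * ρ := by nlinarith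
    have h0' : G ρ 1 (emb w0) := h0.mono hρ0 le_rfl
    have hd : G ρ (i + 2) (sninv e) := he.sninv
    have hda : G ρ (i + 1) (scal (-1) (sres e)) := he.sres.scal _
    have hAA : G ρ 0 (slowAt A :: al) := (slowAt_G hA hA' ρ).append (hal.mono le_rfl (by omega))
    have hE : G ρ 1 (sp p (emb w0) ++ sp p w) := h0'.sp.append hw.sp
    have hZ : G ρ (i + 2) (sp p (sninv e)) := hd.sp
    have ld : Loc A (sninv e) := Loc.sninv le
    have lAA : Loc A (slowAt A :: al) := Loc.append loc_slowAt lal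
    refine ⟨w ++ sninv e, al ++ scal (-1) (sres e), eN p w0 M A w al e, ?_, ?_, ?_, ?_, Loc.append lw ld,
      Loc.append lal (Loc.scal (Loc.sres le) _), ?_, ?_⟩
    · exact (hw.append (hd.mono le_rfl (by omega))).mono hρ1 le_rfl
    · exact (hal.append (hda.mono le_rfl (by omega))).mono hρ1 le_rfl
    · intro a ha
      rcases List.mem_append.1 ha with ha | ha
      · exact hk a ha
      · obtain ⟨b, hb, rfl⟩ := mem_scal ha
        exact (mem_sres hb).2
    · refine G.append (hd.rds.mono hρ1 (by omega)) (G.append (hd.st.mono hρ1 (by omega)) (G.append ?_ ?_))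
      · refine G.flatMap fun l _ => G.append ?_ (G.append ?_ (G.scal ?_ _))
        · exact ((h0'.sx l).mul (hd.sx l)).mono hρ2 (by omega)
        · exact ((hw.sx l).mul (hd.sx l)).mono hρ2 (by omega)
        · exact ((hd.sx l).mul (hd.sx l)).mono hρ2 (by omega)
      · refine G.flatMap fun j hj => G.scal (G.append ?_ ?_) _
        · rw [List.mem_range] at hj
          have h1 := (hE.append (hZ.mono le_rfl (by omega))).pw (j + 1)
          refine ((hda.ssit (j + 1)).mul h1).mono ?_ (by omega)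
          have h2 : ρ + (j + 1) * ρ = (j + 2) * ρ := by ring
          rw [h2]
          exact Nat.mul_le_mul_right _ (by omega)
        · rw [List.mem_range] at hj
          have h1 := G.Dp (hE.mono le_rfl (Nat.zero_le _)) hZ (j + 1)
          refine ((hAA.ssit (j + 1)).mul h1).mono ?_ (by omega)
          have h2 : ρ + (j + 1) * ρ = (j + 2) * ρ := by ring
          rw [h2]
          exact Nat.mul_le_mul_right _ (by omega)
    · refine Loc.append (Loc.rds ld) (Loc.append (Loc.st ld) (Loc.append ?_ ?_))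
      · refine Loc.flatMap fun l _ => Loc.append ?_ (Loc.append ?_ (Loc.scal ?_ _))
        · exact Loc.mul_right (Loc.sx ld l)
        · exact Loc.mul_right (Loc.sx ld l)
        · exact Loc.mul_right (Loc.sx ld l)
      · refine Loc.flatMap fun j _ => Loc.scal (Loc.append ?_ ?_) _
        · exact Loc.mul_left (Loc.ssit (Loc.scal (Loc.sres le) _) _)
        · exact Loc.mul_left (Loc.ssit lAA _)
    · intro P hP
      have hPρ : ∀ f : Fin n → ℤ, f ≠ 0 → (∀ j, |f j| ≤ ρ) → dot f P ≠ 0 := fun f hf hb =>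
        hP f hf fun j => (hb j).trans (by rw [rx]; exact_mod_cast hρ1)
      exact EQ_step (hEQ P hPρ) fun a ha hk => hPρ a.k hk (he a ha).2.1

theorem exists_F (R : ℕ) : ∃ 𝓕 : List (Fin n → ℤ), ∀ f, f ∈ 𝓕 ↔ f ≠ 0 ∧ ∀ i, |f i| ≤ R := by
  classical
  let S : Finset (Fin n → ℤ) := (Fintype.piFinset fun _ : Fin n => Finset.Icc (-(R : ℤ)) R).filter fun f => f ≠ 0
  refine ⟨S.toList, fun f => ?_⟩
  rw [Finset.mem_toList]
  simp only [S, Finset.mem_filter, Fintype.mem_piFinset, Finset.mem_Icc]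
  constructor
  · rintro ⟨h1, h0⟩
    exact ⟨h0, fun i => abs_le.2 (h1 i)⟩
  · rintro ⟨h0, h1⟩
    exact ⟨fun i => abs_le.1 (h1 i), h0⟩

theorem t : S_HJK := by
  intro n w0 M h1 h2 h3
  obtain ⟨r0, hr0⟩ := emb_G w0 h1 h2 h3
  refine ⟨rx M r0 M, fun p A hA hA' => ?_⟩
  obtain ⟨w, al, e, hw, hal, hk, he, lw, lal, le, hEQ⟩ := main (p := p) w0 M r0 hA hA' hr0 M
  obtain ⟨𝓕, hF⟩ := exists_F (n := n) (rx M r0 M)
  refine ⟨w, al, e, 𝓕, fun f hf => (hF f).1 hf, (hr0.mono (rx_mono M r0 M) le_rfl).good hF, hw.good hF,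
    hal.good hF, he.good hF, fun a ha => (hw a ha).2.2.2, fun a ha => ⟨hk a ha, (hal a ha).2.2.2⟩,
    fun a ha => ?_, lw, lal, fun P hP x t => ?_⟩
  · have := (he a ha).2.2.2
    omega
  · exact hEQ P (fun f hf hb => hP f ((hF f).2 ⟨hf, hb⟩)) x t

end Pool.Agent.K9h32.SP.HJK
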