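import Pool.Agent.K9h32.SP.HJT3

/-!
# Leaf HJT: approximate solutions of the Hamilton-Jacobi equation and their jump
-/

set_option autoImplicit false

open Set Filter Topology
open scoped ContDiff

noncomputable section

namespace Pool.Agent.K9h32.SP.HJT

open Pool.Agent.N980.TL Pool.Agent.K9h32.SP

variable {n : ℕ}

/-! ## summation -/

/-- the sum of the first `K` lists -/
def ws (U : ℕ → List (TA n)) (K : ℕ) : List (TA n) := (List.range K).flatMap U

theorem range_sum (K : ℕ) (f : ℕ → ℝ) : ((List.range K).map f).sum = ∑ l ∈ Finset.range K, f l := by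
  induction K with
  | zero => rfl
  | succ K ih => rw [List.range_succ, List.map_append, List.sum_append, ih, Finset.sum_range_succ]; simp

theorem ws_g1 (U : ℕ → List (TA n)) (K : ℕ) (x v : E n) (t : ℝ) (i : Fin n) :
    tev (tdx i (ws U K)) x v t = ∑ l ∈ Finset.range K, g1 (U l) x v t i := by
  rw [ws, tdx_flatMap, tev_flatMap, range_sum]
  rfl

theorem ws_s2 (U : ℕ → List (TA n)) (K : ℕ) (x v : E n) (t : ℝ) (j i : Fin n) :
    tev (tdx i (tdx j (ws U K))) x v t = ∑ l ∈ Finset.range K, s2 (U l) x v t j i := by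
  rw [ws, tdx_flatMap, tdx_flatMap, tev_flatMap, range_sum]
  rfl

theorem ws_dt (U : ℕ → List (TA n)) (K : ℕ) (x v : E n) (t : ℝ) (j : Fin n) :
    tev (tdt (tdx j (ws U K))) x v t = ∑ l ∈ Finset.range K, tev (tdx j (tdt (U l))) x v t := by
  rw [tdt_tdx, ws, tdt_flatMap, tdx_flatMap, tev_flatMap, range_sum]

/-- the pairs of indices in the error -/
def prs (K : ℕ) : Finset (ℕ × ℕ) := (Finset.range K ×ˢ Finset.range K).filter fun p => K ≤ p.1 + p.2 + 2

theorem sum_pairs (m : ℕ) (Q : ℕ → ℕ → ℝ) :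
    ∑ a ∈ Finset.range (m + 1), ∑ b ∈ Finset.range (m + 1), Q a b =
      ∑ l ∈ Finset.range m, ∑ a ∈ Finset.range l, Q a (l - 1 - a) + ∑ p ∈ prs (m + 1), Q p.1 p.2 := by
  rw [← Finset.sum_product', prs, ← Finset.sum_filter_add_sum_filter_not
    (Finset.range (m + 1) ×ˢ Finset.range (m + 1)) (fun p => m + 1 ≤ p.1 + p.2 + 2), add_comm]
  congr 1
  rw [Finset.sum_sigma']
  refine Finset.sum_bij' (fun p _ => (⟨p.1 + p.2 + 1, p.1⟩ : (_ : ℕ) × ℕ)) (fun s _ => (s.2, s.1 - 1 - s.2))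
    ?_ ?_ ?_ ?_ ?_
  · intro p hp
    simp only [Finset.mem_filter, Finset.mem_product, Finset.mem_range] at hp
    simp only [Finset.mem_sigma, Finset.mem_range]
    omega
  · intro s hs
    simp only [Finset.mem_sigma, Finset.mem_range] at hs
    simp only [Finset.mem_filter, Finset.mem_product, Finset.mem_range]
    omega
  · intro p hp
    ext
    · rfl
    · simp only
      omega
  · intro s hs
    simp only [Finset.mem_sigma, Finset.mem_range] at hs
    obtain ⟨l, a⟩ := s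
    simp only at hs ⊢
    have : a + (l - 1 - a) + 1 = l := by omega
    rw [this]
  · intro p hp
    simp only
    congr 1
    omega

/-- the error -/
def er (U : ℕ → List (TA n)) (K : ℕ) : List (TA n) :=
  tdt (U (K - 1)) ++ (prs K).toList.flatMap fun p => tP (U p.1) (U p.2)

theorem ws_eq {Φ : List (TA n)} {U : ℕ → List (TA n)} {m : ℕ} {x v : E n} {t : ℝ} {j : Fin n}
    (h : Rec Φ U (m + 1) x v t j) :
    tev (tdt (tdx j (ws U (m + 1)))) x v t + ∑ i, (v i + tev (tdx i (ws U (m + 1))) x v t) *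
      tev (tdx i (tdx j (ws U (m + 1)))) x v t = tev (tdx j Φ) x v t + tev (tdx j (er U (m + 1))) x v t := by
  set T : ℕ → ℝ := fun l => tev (tdx j (tdt (U l))) x v t with hT
  set Q : ℕ → ℕ → ℝ := fun a b => q2 (U a) (U b) x v t j with hQ
  set S : ℕ → Fin n → ℝ := fun l i => s2 (U l) x v t j i with hS
  set p : ℕ → Fin n → ℝ := fun l i => g1 (U l) x v t i with hp
  have e1 : ∀ i, (v i + tev (tdx i (ws U (m + 1))) x v t) * tev (tdx i (tdx j (ws U (m + 1)))) x v t =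
      v i * (∑ l ∈ Finset.range (m + 1), S l i) +
        (∑ a ∈ Finset.range (m + 1), p a i) * ∑ b ∈ Finset.range (m + 1), S b i := by
    intro i
    rw [ws_g1, ws_s2]
    ring
  have e2 : ∑ i, v i * (∑ l ∈ Finset.range (m + 1), S l i) =
      tev (tdx j Φ) x v t - ∑ l ∈ Finset.range m, (T l + ∑ a ∈ Finset.range l, Q a (l - 1 - a)) := by
    have : ∑ i, v i * (∑ l ∈ Finset.range (m + 1), S l i) =
        ∑ l ∈ Finset.range (m + 1), ∑ i, v i * S l i := by
      rw [Finset.sum_comm]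
      exact Finset.sum_congr rfl fun i _ => Finset.mul_sum _ _ _
    rw [this, Finset.sum_range_succ', h.1]
    have h2 : ∀ l ∈ Finset.range m, ∑ i, v i * S (l + 1) i = -(T l + ∑ a ∈ Finset.range l, Q a (l - 1 - a)) :=
      fun l hl => h.2 l (by rw [Finset.mem_range] at hl; omega)
    rw [Finset.sum_congr rfl h2, Finset.sum_neg_distrib]
    ring
  have e3 : ∑ i, (∑ a ∈ Finset.range (m + 1), p a i) * ∑ b ∈ Finset.range (m + 1), S b i =
      ∑ a ∈ Finset.range (m + 1), ∑ b ∈ Finset.range (m + 1), Q a b := by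
    have f1 : ∑ a ∈ Finset.range (m + 1), ∑ b ∈ Finset.range (m + 1), Q a b =
        (∑ i, ∑ a ∈ Finset.range (m + 1), ∑ b ∈ Finset.range (m + 1), S a i * p b i +
          ∑ i, ∑ a ∈ Finset.range (m + 1), ∑ b ∈ Finset.range (m + 1), p a i * S b i) / 2 := by
      rw [← Finset.sum_add_distrib, Finset.sum_div]
      have : ∀ a b, Q a b = ∑ i, (S a i * p b i + p a i * S b i) / 2 := by
        intro a b
        rw [← Finset.sum_div]
        rfl
      simp only [this]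
      rw [Finset.sum_congr rfl fun a _ => Finset.sum_comm, Finset.sum_comm]
      refine Finset.sum_congr rfl fun i _ => ?_
      rw [← Finset.sum_add_distrib, Finset.sum_div]
      refine Finset.sum_congr rfl fun a _ => ?_
      rw [← Finset.sum_add_distrib, Finset.sum_div]
    have f2 : ∑ i, ∑ a ∈ Finset.range (m + 1), ∑ b ∈ Finset.range (m + 1), S a i * p b i =
        ∑ i, (∑ a ∈ Finset.range (m + 1), p a i) * ∑ b ∈ Finset.range (m + 1), S b i := by
      refine Finset.sum_congr rfl fun i _ => ?_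
      rw [mul_comm, Finset.sum_mul_sum]
    have f3 : ∑ i, ∑ a ∈ Finset.range (m + 1), ∑ b ∈ Finset.range (m + 1), p a i * S b i =
        ∑ i, (∑ a ∈ Finset.range (m + 1), p a i) * ∑ b ∈ Finset.range (m + 1), S b i := by
      refine Finset.sum_congr rfl fun i _ => ?_
      rw [Finset.sum_mul_sum]
    rw [f1, f2, f3]
    ring
  have e4 : tev (tdx j (er U (m + 1))) x v t = T m + ∑ p ∈ prs (m + 1), Q p.1 p.2 := by
    rw [er, tdx_append, tev_append, tdx_flatMap, tev_flatMap]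
    simp only [tdx_tP']
    rw [Finset.sum_map_toList]
    rfl
  rw [Finset.sum_congr rfl fun i _ => e1 i, Finset.sum_add_distrib, e2, e3, sum_pairs, e4, ws_dt,
    Finset.sum_range_succ]
  rw [Finset.sum_add_distrib]
  ring

/-! ## the potentials -/

variable {N : ℕ}

/-- the atoms of the trigonometric polynomial -/
def PD (D : Trig n N) : List (TA n) := (List.finRange N).flatMap fun μ =>
  [⟨fun t => D.c μ * Real.cos (2 * Real.pi * D.m μ * t), [], D.k μ, D.ph μ⟩,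
   ⟨fun t => D.c μ * Real.sin (2 * Real.pi * D.m μ * t), [], D.k μ, D.ph μ + Real.pi / 2⟩]

theorem PD_grad (D : Trig n N) (x v : E n) (t : ℝ) (j : Fin n) :
    tev (tdx j (PD D)) x v t = D.grad x t j := by
  rw [PD, tdx_flatMap, tev_flatMap]
  unfold Trig.grad
  rw [← List.ofFn_eq_map, List.sum_ofFn, ← Finset.sum_neg_distrib]
  refine Finset.sum_congr rfl fun μ _ => ?_
  simp only [tdx_cons, tdx_nil, tev_cons, tev_nil, adx_ev, phs, pin, List.map_nil, List.prod_nil, add_zero]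
  have h1 : D.phase μ x t = (2 * Real.pi * dot (D.k μ) x + D.ph μ) + 2 * Real.pi * D.m μ * t := by
    simp only [Trig.phase, dot]
    ring
  have h2 : 2 * Real.pi * dot (D.k μ) x + (D.ph μ + Real.pi / 2) =
      (2 * Real.pi * dot (D.k μ) x + D.ph μ) + Real.pi / 2 := by ring
  rw [h1, h2, Real.sin_add_pi_div_two,
    Real.sin_add (2 * Real.pi * dot (D.k μ) x + D.ph μ) (2 * Real.pi * D.m μ * t)]
  ring

theorem mem_PD {D : Trig n N} {a : TA n} (h : a ∈ PD D) : ∃ μ : Fin N, a.F = [] ∧ a.k = D.k μ ∧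
    ((a.a = fun t => D.c μ * Real.cos (2 * Real.pi * D.m μ * t)) ∨
      a.a = fun t => D.c μ * Real.sin (2 * Real.pi * D.m μ * t)) := by
  unfold PD at h
  rw [List.mem_flatMap] at h
  obtain ⟨μ, -, h⟩ := h
  simp only [List.mem_cons, List.not_mem_nil, or_false] at h
  rcases h with rfl | rfl
  · exact ⟨μ, rfl, rfl, Or.inl rfl⟩
  · exact ⟨μ, rfl, rfl, Or.inr rfl⟩

theorem PD_Sm (D : Trig n N) : CP Sm (PD D) := by
  intro a ha
  obtain ⟨μ, -, -, h | h⟩ := mem_PD ha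
  · rw [h]; unfold Sm; fun_prop
  · rw [h]; unfold Sm; fun_prop

theorem PD_Pr (D : Trig n N) : CP Pr (PD D) := by
  intro a ha
  obtain ⟨μ, -, -, h | h⟩ := mem_PD ha
  · rw [h]; intro t
    have : 2 * Real.pi * D.m μ * (t + 1) = 2 * Real.pi * D.m μ * t + D.m μ * (2 * Real.pi) := by ring
    simp only [this, Real.cos_add_int_mul_two_pi]
  · rw [h]; intro t
    have : 2 * Real.pi * D.m μ * (t + 1) = 2 * Real.pi * D.m μ * t + D.m μ * (2 * Real.pi) := by ring
    simp only [this, Real.sin_add_int_mul_two_pi]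

theorem PD_Ms (D : Trig n N) : ∃ ρ : ℕ, 1 ≤ ρ ∧ ∀ q : Fin n → ℤ, Ms ρ q (PD D) := by
  refine ⟨1 + ∑ μ, ∑ i, (D.k μ i).natAbs, by omega, fun q a ha => ?_⟩
  obtain ⟨μ, hF, hk, -⟩ := mem_PD ha
  rw [hF, hk]
  refine ⟨⟨D.k μ, 0, fun i => ?_, ?_, ?_⟩, fun f hf => by simp at hf⟩
  · have h1 : (D.k μ i).natAbs ≤ ∑ i, (D.k μ i).natAbs :=
      Finset.single_le_sum (f := fun i => (D.k μ i).natAbs) (fun _ _ => Nat.zero_le _) (Finset.mem_univ i)
    have h2 : ∑ i, (D.k μ i).natAbs ≤ ∑ μ, ∑ i, (D.k μ i).natAbs :=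
      Finset.single_le_sum (f := fun μ => ∑ i, (D.k μ i).natAbs) (fun _ _ => Nat.zero_le _)
        (Finset.mem_univ μ)
    rw [Int.abs_eq_natAbs]
    exact_mod_cast (h1.trans h2).trans (by omega)
  · rw [abs_zero]; positivity
  · funext i; ring

/-- the atom of the perturbation -/
def GB (B : ℝ → ℝ) (q : Fin n → ℤ) (δ φ : ℝ) : List (TA n) := [⟨fun t => B t * δ, [], q, φ⟩]

theorem GB_CP {p : (ℝ → ℝ) → Prop} (hs : ∀ (f : ℝ → ℝ) (c : ℝ), p f → p fun t => f t * c) {B : ℝ → ℝ}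
    (h : p B) (q : Fin n → ℤ) (δ φ : ℝ) : CP p (GB B q δ φ) := by
  intro a ha
  simp only [GB, List.mem_singleton] at ha
  subst ha
  exact hs _ _ h

theorem GB_Ms (B : ℝ → ℝ) (q : Fin n → ℤ) (δ φ : ℝ) {ρ : ℕ} (hρ : 1 ≤ ρ) : Ms ρ q (GB B q δ φ) := by
  intro a ha
  simp only [GB, List.mem_singleton] at ha
  subst ha
  refine ⟨⟨0, 1, fun i => ?_, ?_, ?_⟩, fun f hf => by simp at hf⟩
  · simp
  · rw [abs_one]; exact_mod_cast hρ
  · funext i; simp

theorem GB_grad (B : ℝ → ℝ) (q : Fin n → ℤ) (δ φ : ℝ) (x v : E n) (t : ℝ) (j : Fin n) :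
    tev (tdx j (GB B q δ φ)) x v t =
      -(δ * B t * (2 * Real.pi * q j) * Real.sin (2 * Real.pi * dot q x + φ)) := by
  simp only [GB, tdx_cons, tdx_nil, tev_cons, tev_nil, adx_ev, phs, pin, List.map_nil, List.prod_nil,
    add_zero]
  ring

theorem CC_GB (B : ℝ → ℝ) (q : Fin n → ℤ) (hq : q ≠ 0) (δ φ : ℝ) (l : ℕ) :
    ∃ c : TA n, CC (GB B q δ φ) l = [c] ∧ c.k = q ∧ c.F = List.replicate (l + 1) q ∧
      (c.a = fun t => δ * iteratedDeriv l B t * (-(-(1 / (2 * Real.pi))) ^ (l + 1))) ∧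
      c.φ = φ - (l + 1) * (Real.pi / 2) := by
  classical
  induction l with
  | zero =>
    refine ⟨ainv ⟨fun t => -(B t * δ), [], q, φ⟩, ?_, rfl, rfl, ?_, ?_⟩
    · simp [CC, GB, neg, ninv, hq]
    · funext t
      simp only [ainv, iteratedDeriv_zero]
      ring
    · simp only [ainv]
      push_cast
      ring
  | succ l ih =>
    obtain ⟨c, h1, h2, h3, h4, h5⟩ := ih
    refine ⟨ainv { c with a := deriv c.a }, ?_, h2, ?_, ?_, ?_⟩
    · simp [CC, h1, tdt, ninv, h2, hq]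
    · simp only [ainv, h2, h3, List.replicate_succ]
    · funext t
      have h6 : deriv c.a t = δ * iteratedDeriv (l + 1) B t * (-(-(1 / (2 * Real.pi))) ^ (l + 1)) := by
        rw [h4, iteratedDeriv_succ]
        rw [deriv_mul_const_field, deriv_const_mul_field]
      simp only [ainv]
      rw [h6]
      ring
    · simp only [ainv]
      rw [h5]
      push_cast
      ring

/-! ## the list of the factors -/

theorem exists_F (R : ℕ) (q : Fin n → ℤ) : ∃ 𝓕 : List (Fin n → ℤ), ∀ f, f ∈ 𝓕 ↔ f ≠ 0 ∧ Md R q f := by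
  classical
  let S : Finset (Fin n → ℤ) := (((Fintype.piFinset fun _ : Fin n => Finset.Icc (-(R : ℤ)) R) ×ˢ
    Finset.Icc (-(R : ℤ)) R).image fun p => fun i => p.1 i + p.2 * q i).filter fun f => f ≠ 0
  refine ⟨S.toList, fun f => ?_⟩
  rw [Finset.mem_toList]
  simp only [S, Finset.mem_filter, Finset.mem_image, Finset.mem_product, Fintype.mem_piFinset, Finset.mem_Icc,
    Prod.exists]
  constructor
  · rintro ⟨⟨g, l, ⟨h1, h2⟩, rfl⟩, h0⟩
    exact ⟨h0, g, l, fun i => abs_le.2 (h1 i), abs_le.2 h2, rfl⟩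
  · rintro ⟨h0, g, l, h1, h2, rfl⟩
    exact ⟨⟨g, l, ⟨fun i => abs_le.1 (h1 i), abs_le.1 h2⟩, rfl⟩, h0⟩

theorem good {R : ℕ} {q : Fin n → ℤ} {𝓕 : List (Fin n → ℤ)} (hF : ∀ f, f ∈ 𝓕 ↔ f ≠ 0 ∧ Md R q f)
    {L : List (TA n)} (h : CP Sm L) (h' : Ms R q L) : Good 𝓕 L :=
  fun a ha => ⟨h a ha, fun f hf => (hF f).2 ((h' a ha).2 f hf)⟩

theorem vn_zero {m : ℕ} (hm : 1 ≤ m) {f : ℝ → ℝ} (h : Vn m f) : f 0 = 0 := by
  obtain ⟨m, rfl⟩ := Nat.exists_eq_add_of_le' hm
  exact h.2.1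

theorem t : S_HJT := by
  intro n N D k M B hB hB0 hB1 hBz
  obtain ⟨ρ, hρ, hD⟩ := PD_Ms D
  set K : ℕ := k + 2 + M with hK
  have hK1 : 1 ≤ K := by omega
  have hKρ : ∀ l < K, (l + 1) * ρ ≤ K * ρ := fun l hl => Nat.mul_le_mul_right _ (by omega)
  have hVS : CP Sm (ws (VV (PD D)) K) := CP.flatMap fun l _ => VV_Sm (PD_Sm D) l
  refine ⟨2 * (K * ρ), ws (VV (PD D)) K, ?_, ?_, ?_⟩
  · exact Ln.flatMap (m := 1) fun l _ => (VV_Ln (PD D) l).mono (by omega)
  · intro x v t i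
    exact tev_per (CP.flatMap fun l _ => VV_Pr (PD_Pr D) l) x v t i
  intro q hq
  obtain ⟨𝓕, hF⟩ := exists_F (2 * (K * ρ)) q
  have hKρ' : K * ρ ≤ 2 * (K * ρ) := by omega
  have hKρ1 : 1 ≤ K * ρ := Nat.mul_pos hK1 hρ
  have hVM : Ms (2 * (K * ρ)) q (ws (VV (PD D)) K) := Ms.flatMap fun l hl =>
    (VV_Ms (hD q) l).mono ((hKρ l (List.mem_range.1 hl)).trans hKρ')
  refine ⟨𝓕, ?_, good hF hVS hVM, ?_, ?_⟩
  · refine (hF q).2 ⟨hq, 0, 1, fun i => ?_, ?_, ?_⟩
    · rw [Pi.zero_apply, abs_zero]; positivity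
    · rw [abs_one]; exact_mod_cast hKρ1.trans hKρ'
    · funext i; simp
  · intro f hf
    obtain ⟨h0, g, l, h1, h2, h3⟩ := (hF f).1 hf
    exact ⟨h0, g, l, h1, h2, h3⟩
  intro δ φ
  have hBS : Sm B := hB
  have hGS : CP Sm (GB B q δ φ) := GB_CP (fun _ c h => h.smul c) hBS q δ φ
  have hGZ : CP Zr (GB B q δ φ) := GB_CP (fun _ c h => h.smul c) ⟨hBS, hBz⟩ q δ φ
  have hGV : CP (Vn (k + 1)) (GB B q δ φ) := GB_CP (fun _ c h => h.smul c)
    (vn_of_iter hBS fun i hi => hB0 i (by omega)) q δ φ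
  have hGM : Ms ρ q (GB B q δ φ) := GB_Ms B q δ φ hρ
  have hDM := hD q
  set Φ := PD D with hΦ
  set G := GB B q δ φ with hG
  have hUS : ∀ l, CP Sm (UU Φ G l) := fun l => (VV_Sm (PD_Sm D) l).append (RR_Sm (PD_Sm D) hGS l)
  have hUM : ∀ l < K, Ms (K * ρ) q (UU Φ G l) := fun l hl =>
    ((VV_Ms hDM l).append (RR_Ms hDM hGM l)).mono (hKρ l hl)
  have hUL : ∀ l, Ln (l + 1) (UU Φ G l) := fun l => (VV_Ln Φ l).append (RR_Ln Φ G l)
  have hpr : ∀ p ∈ (prs K).toList, p.1 < K ∧ p.2 < K ∧ K ≤ p.1 + p.2 + 2 := by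
    intro p hp
    rw [Finset.mem_toList, prs, Finset.mem_filter, Finset.mem_product, Finset.mem_range, Finset.mem_range] at hp
    exact ⟨hp.1.1, hp.1.2, hp.2⟩
  refine ⟨ws (UU Φ G) K, er (UU Φ G) K, (List.range M).flatMap fun l => RR Φ G (k + 2 + l), ?_, ?_, ?_, ?_, ?_,
    ?_, ?_⟩
  · exact good hF (CP.flatMap fun l _ => hUS l)
      (Ms.flatMap fun l hl => (hUM l (List.mem_range.1 hl)).mono hKρ')
  · refine good hF (CP.append ((hUS _).tdt fun _ h => h.deriv) (CP.flatMap fun p _ =>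
      CP.tP (hUS _) (hUS _) fun _ _ c h h' => h.mul3 h' c)) ?_
    refine Ms.append ((hUM (K - 1) (by omega)).tdt.mono hKρ') (Ms.flatMap fun p hp => ?_)
    obtain ⟨h1, h2, -⟩ := hpr p hp
    exact ((hUM _ h1).tP (hUM _ h2)).mono (by omega)
  · exact good hF (CP.flatMap fun l _ => RR_Sm (PD_Sm D) hGS _) (Ms.flatMap fun l hl =>
      (RR_Ms hDM hGM _).mono ((hKρ _ (by have := List.mem_range.1 hl; omega)).trans hKρ'))
  · exact Ln.flatMap (m := 1) fun l _ => (hUL l).mono (by omega)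
  · refine Ln.append ((hUL (K - 1)).tdt.mono (by omega)) (Ln.flatMap fun p hp => ?_)
    obtain ⟨h1, h2, h3⟩ := hpr p hp
    exact ((hUL _).tP (hUL _)).mono (by omega)
  · exact Ln.flatMap fun l _ => (RR_Ln Φ G _).mono (by omega)
  intro v hv x j
  have hNR : NRv (K * ρ) q v := fun f hf hm => hv f ((hF f).2 ⟨hf, hm.mono hKρ'⟩)
  have hdiff : ∀ t, tev (tdx j (ws (UU Φ G) K)) x v t - tev (tdx j (ws (VV Φ) K)) x v t =
      ∑ l ∈ Finset.range K, tev (tdx j (RR Φ G l)) x v t := by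
    intro t
    rw [ws_g1, ws_g1, ← Finset.sum_sub_distrib]
    refine Finset.sum_congr rfl fun l _ => ?_
    simp only [UU, g1_append]
    simp only [g1]
    ring
  refine ⟨fun t => ?_, fun t ht => ?_, ?_⟩
  · have hrec := UU_rec hDM hGM hNR hK1 x t j
    obtain ⟨m, hm⟩ := Nat.exists_eq_add_of_le' hK1
    rw [hm] at hrec ⊢
    rw [ws_eq hrec, tdx_append, tev_append, PD_grad, GB_grad]
    ring
  · have h1 := hdiff t
    rw [Finset.sum_eq_zero fun l _ => tev_zero (fun a ha => (RR_Zr (PD_Sm D) hGZ l a ha).2 t ht) x v j] at h1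
    linarith
  · rw [hdiff, hK, Finset.sum_range_add]
    have hr : tev (tdx j ((List.range M).flatMap fun l => RR Φ G (k + 2 + l))) x v 0 =
        ∑ l ∈ Finset.range M, tev (tdx j (RR Φ G (k + 2 + l))) x v 0 := by
      rw [tdx_flatMap, tev_flatMap, range_sum]
    rw [hr, Finset.sum_range_succ]
    congr 1
    have h0 : ∑ l ∈ Finset.range (k + 1), tev (tdx j (RR Φ G l)) x v 0 = 0 := by
      refine Finset.sum_eq_zero fun l hl => ?_
      rw [Finset.mem_range] at hl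
      refine tev_zero (fun a ha => ?_) x v j
      rcases List.mem_append.1 ha with ha | ha
      · exact vn_zero (by omega) (CC_Vn hGV l a ha)
      · exact vn_zero (by omega) (XX_Vn (PD_Sm D) hGV l a ha)
    rw [h0, zero_add, RR, tdx_append, tev_append,
      tev_zero (L := XX Φ G (k + 1)) (fun a ha => vn_zero (by omega) (XX_Vn (PD_Sm D) hGV (k + 1) a ha)) x v j,
      add_zero]
    obtain ⟨c, h1, h2, h3, h4, h5⟩ := CC_GB B q hq δ φ (k + 1)
    rw [h1, tdx_cons, tdx_nil, tev_cons, tev_nil, add_zero, adx_ev]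
    have h6 : c.a 0 = δ * (k + 1).factorial * (-(-(1 / (2 * Real.pi))) ^ (k + 1 + 1)) := by
      rw [h4]
      simp only
      rw [hB1]
    have h7 : pin c.F v = ((dot q v)⁻¹) ^ (k + 1 + 1) := by
      rw [h3, pin, List.map_replicate, List.prod_replicate]
    have h8 : phs c x = 2 * Real.pi * dot q x + φ - (k + 2) * (Real.pi / 2) := by
      rw [phs, h2, h5]
      push_cast
      ring
    rw [h6, h7, h8, h2]
    have hqv : dot q v ≠ 0 := hNR q hq ⟨0, 1, fun i => by rw [Pi.zero_apply, abs_zero]; positivity,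
      by rw [abs_one]; exact_mod_cast hKρ1,
      by funext i; simp⟩
    have hp : (Real.pi : ℝ) ≠ 0 := Real.pi_ne_zero
    have h9 : (-(1 / (2 * Real.pi))) ^ (k + 1 + 1) = (-1) ^ (k + 2) * (1 / (2 * Real.pi)) ^ (k + 2) := by
      rw [show k + 1 + 1 = k + 2 by ring, neg_eq_neg_one_mul, mul_pow]
    rw [h9, show k + 1 + 1 = k + 2 by ring, mul_pow (2 * Real.pi) (dot q v), one_div, inv_pow, inv_pow]
    have h10 : ((-1 : ℝ)) ^ (k + 2) = -(-1) ^ (k + 1) := by rw [pow_succ]; ring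
    rw [h10]
    field_simp

end Pool.Agent.K9h32.SP.HJT
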