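import Pool.Agent.K9h32.SP.StmS

/-!
# Leaf QQ: a nonresonant integer direction
-/

set_option autoImplicit false

noncomputable section

namespace Pool.Agent.K9h32.SP

open Pool.Agent.N980.TL

namespace QQ

theorem low {n : ℕ} {Q R : ℤ} (hQ : R < Q) (hQ0 : 0 < Q) (g : Fin n → ℤ) (hg : ∀ i, |g i| ≤ R) (h0 : g ≠ 0) :
    ∑ i, g i * Q ^ ((i : ℕ) + 1) ≠ 0 := by
  classical
  intro hs
  have hex : ∃ m : ℕ, ∃ h : m < n, g ⟨m, h⟩ ≠ 0 := by
    by_contra hc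
    push Not at hc
    exact h0 (funext fun i => hc i.1 i.2)
  obtain ⟨h1, h2⟩ := Nat.find_spec hex
  set m := Nat.find hex with hm
  have h3 : ∀ i : Fin n, (i : ℕ) < m → g i = 0 := by
    intro i hi
    have := Nat.find_min hex hi
    push Not at this
    exact this i.2
  have h4 : Q ^ (m + 2) ∣ ∑ i ∈ Finset.univ.erase (⟨m, h1⟩ : Fin n), g i * Q ^ ((i : ℕ) + 1) := by
    refine Finset.dvd_sum fun i hi => ?_
    have hne : i ≠ ⟨m, h1⟩ := (Finset.mem_erase.1 hi).1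
    rcases lt_trichotomy (i : ℕ) m with h | h | h
    · rw [h3 i h, zero_mul]
      exact dvd_zero _
    · exact absurd (Fin.ext h) hne
    · exact Dvd.dvd.mul_left (pow_dvd_pow _ (by omega)) _
  have h5 := Finset.add_sum_erase Finset.univ (fun i : Fin n => g i * Q ^ ((i : ℕ) + 1))
    (Finset.mem_univ (⟨m, h1⟩ : Fin n))
  rw [hs] at h5
  have h6 : Q ^ (m + 2) ∣ g ⟨m, h1⟩ * Q ^ (m + 1) := by
    have h7 : g ⟨m, h1⟩ * Q ^ (m + 1) =
        -(∑ i ∈ Finset.univ.erase (⟨m, h1⟩ : Fin n), g i * Q ^ ((i : ℕ) + 1)) := by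
      simp only at h5
      linarith
    rw [h7]
    exact (dvd_neg).2 h4
  have h7 : Q ∣ g ⟨m, h1⟩ := by
    obtain ⟨c, hc⟩ := h6
    refine ⟨c, ?_⟩
    have hp : (0 : ℤ) < Q ^ (m + 1) := pow_pos hQ0 _
    have : Q ^ (m + 1) * g ⟨m, h1⟩ = Q ^ (m + 1) * (Q * c) := by
      rw [mul_comm, hc]; ring
    exact mul_left_cancel₀ hp.ne' this
  exact h2 (Int.eq_zero_of_abs_lt_dvd h7 (lt_of_le_of_lt (hg _) hQ))

theorem t : S_QQ := by
  intro n R hn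
  obtain ⟨Q, hQ⟩ : ∃ Q : ℤ, Q = (R : ℤ) + 2 := ⟨_, rfl⟩
  have hQ0 : 0 < Q := by rw [hQ]; positivity
  have hQ1 : (1 : ℤ) ≤ Q := hQ0
  have hqpos : ∀ i : Fin n, (0 : ℤ) < Q ^ ((i : ℕ) + 1) := fun i => pow_pos hQ0 _
  have hqge : ∀ i : Fin n, Q ≤ Q ^ ((i : ℕ) + 1) := fun i => by
    calc Q = Q ^ 1 := (pow_one Q).symm
      _ ≤ Q ^ ((i : ℕ) + 1) := pow_le_pow_right₀ hQ1 (by omega)
  refine ⟨fun i => Q ^ ((i : ℕ) + 1), ?_, ?_⟩
  · intro h
    have := congrFun h ⟨0, hn⟩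
    exact (hqpos _).ne' this
  · rintro f hf ⟨g, l, hg, hl, rfl⟩
    simp only
    rcases eq_or_ne l 0 with h | h
    · subst h
      simp only [zero_mul, add_zero]
      refine low (R := R) (by rw [hQ]; linarith) hQ0 g hg ?_
      intro h0
      apply hf
      funext i
      simp [h0]
    · intro hs
      have e : ∑ i : Fin n, (g i + l * Q ^ ((i : ℕ) + 1)) * Q ^ ((i : ℕ) + 1) =
          (∑ i : Fin n, g i * Q ^ ((i : ℕ) + 1)) + l * ∑ i : Fin n, (Q ^ ((i : ℕ) + 1)) ^ 2 := by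
        rw [Finset.mul_sum, ← Finset.sum_add_distrib]
        exact Finset.sum_congr rfl fun i _ => by ring
      rw [e] at hs
      have h1 : |∑ i : Fin n, g i * Q ^ ((i : ℕ) + 1)| ≤ R * ∑ i : Fin n, Q ^ ((i : ℕ) + 1) := by
        rw [Finset.mul_sum]
        refine (Finset.abs_sum_le_sum_abs _ _).trans (Finset.sum_le_sum fun i _ => ?_)
        rw [abs_mul, abs_of_pos (hqpos i)]
        exact mul_le_mul_of_nonneg_right (hg i) (hqpos i).le
      have h2 : Q * ∑ i : Fin n, Q ^ ((i : ℕ) + 1) ≤ ∑ i : Fin n, (Q ^ ((i : ℕ) + 1)) ^ 2 := by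
        rw [Finset.mul_sum]
        refine Finset.sum_le_sum fun i _ => ?_
        rw [sq]
        exact mul_le_mul_of_nonneg_right (hqge i) (hqpos i).le
      have h3 : 0 < ∑ i : Fin n, Q ^ ((i : ℕ) + 1) :=
        Finset.sum_pos (fun i _ => hqpos i) ⟨⟨0, hn⟩, Finset.mem_univ _⟩
      have h4 : |l * ∑ i : Fin n, (Q ^ ((i : ℕ) + 1)) ^ 2| = |∑ i : Fin n, g i * Q ^ ((i : ℕ) + 1)| := by
        have : l * ∑ i : Fin n, (Q ^ ((i : ℕ) + 1)) ^ 2 = -(∑ i : Fin n, g i * Q ^ ((i : ℕ) + 1)) := by linarith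
        rw [this, abs_neg]
      have h5 : 0 ≤ ∑ i : Fin n, (Q ^ ((i : ℕ) + 1)) ^ 2 := Finset.sum_nonneg fun i _ => sq_nonneg _
      rw [abs_mul, abs_of_nonneg h5] at h4
      have h6 : (1 : ℤ) ≤ |l| := Int.one_le_abs h
      have h7 : (R : ℤ) * ∑ i : Fin n, Q ^ ((i : ℕ) + 1) < Q * ∑ i : Fin n, Q ^ ((i : ℕ) + 1) :=
        mul_lt_mul_of_pos_right (by rw [hQ]; linarith) h3
      nlinarith

end QQ

end Pool.Agent.K9h32.SP
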