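import Pool.Agent.K9h32.SP.Step4
import Pool.Agent.K9h32.SP.QQ
import Pool.Agent.K9h32.SP.HJT
import Pool.Agent.K9h32.SP.HJK
import Pool.Agent.K9h32.SP.Gate
import Pool.Agent.K9h32.SP.Pass

/-!
# Leaf STEP
-/

set_option autoImplicit false

open Set Filter Topology
open scoped ContDiff NNReal

noncomputable section

namespace Pool.Agent.K9h32.SP

open Pool.Agent.N980.TL

theorem Step.mono {n N : ℕ} {k : ℕ} {D : Trig n N} {p q : Fin n → ℤ} {w0 : List (TA n)} {A : ℝ → ℝ → ℝ}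
    {χ : Fin 3 → ℝ → ℝ} {b' : ℝ → ℝ} {δ : ℝ} {sg mu κ a b κf : ℝ} {T : ℕ} {c1 lam0 lam1 c' C : ℝ}
    (h : Step k D p q w0 A χ b' δ sg mu κ a b κf T c1 lam0 c' C) (h0 : 0 ≤ lam0) (h1 : lam0 ≤ lam1) :
    Step k D p q w0 A χ b' δ sg mu κ a b κf T c1 lam1 c' C :=
  fun m Λ hΛ => h m Λ ((pow_le_pow_left₀ h0 h1 _).trans hΛ)

theorem Stp.t : S_STEP := by
  intro n N D k B hn hB
  obtain ⟨R1, w0, hw0, hG⟩ := Gate.t HJT.t n N D k B hB
  obtain ⟨R2, hP⟩ := Pass.t HJK.t n N D w0 (k + 3) hw0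
  obtain ⟨q, hq0, hqn⟩ := QQ.t n (R1 + R2 + 1) (by omega)
  have hNR : NonRes R1 q := by
    rintro f hf ⟨g, l, hg, hl, e⟩
    refine hqn f hf ⟨g, l, fun i => (hg i).trans ?_, hl.trans ?_, e⟩
    · push_cast; omega
    · push_cast; omega
  have hNR2 : ∀ f : Fin n → ℤ, f ≠ 0 → (∀ i, |f i| ≤ ((R2 + 1 : ℕ) : ℤ)) → ∑ i, f i * q i ≠ 0 := by
    intro f hf h
    refine hqn f hf ⟨f, 0, fun i => (h i).trans ?_, by simp; positivity, by funext i; simp⟩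
    push_cast; omega
  have hR2 : ∀ f : Fin n → ℤ, f ≠ 0 → (∀ i, |f i| ≤ R2) → ∑ i, f i * q i ≠ 0 := by
    intro f hf h
    refine hNR2 f hf fun i => (h i).trans ?_
    push_cast; omega
  -- the vector `p`
  obtain ⟨i0, hi0⟩ : ∃ i0 : Fin n, i0 = ⟨0, by omega⟩ := ⟨_, rfl⟩
  obtain ⟨i1, hi1⟩ : ∃ i1 : Fin n, i1 = ⟨1, by omega⟩ := ⟨_, rfl⟩
  have hi01 : i0 ≠ i1 := by
    rw [hi0, hi1]
    intro h
    have := congrArg Fin.val h
    simp at this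
  have hqi : q i0 ≠ 0 := by
    have := hNR2 (Pi.single i0 1) (by
      intro h
      have := congrFun h i0
      simp at this) (fun i => by
        rcases eq_or_ne i i0 with h | h
        · rw [h, Pi.single_eq_same]
          push_cast
          rw [abs_one]
          omega
        · rw [Pi.single_eq_of_ne h, abs_zero]
          positivity)
    simpa [Pi.single_apply] using this
  obtain ⟨p, hpd⟩ : ∃ p : Fin n → ℤ, p = Pi.single i0 (-q i1) + Pi.single i1 (q i0) := ⟨_, rfl⟩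
  have hp : p ≠ 0 := by
    intro h
    have h1 := congrFun h i1
    rw [hpd, Pi.add_apply, Pi.single_eq_of_ne hi01.symm, Pi.single_eq_same, zero_add] at h1
    exact hqi h1
  have hpq : dot p (rv q) = 0 := by
    have e : ∑ i, p i * q i = 0 := by
      rw [hpd]
      simp only [Pi.add_apply, add_mul, Finset.sum_add_distrib, Pi.single_apply, ite_mul, zero_mul,
        Finset.sum_ite_eq', Finset.mem_univ, if_true]
      ring
    have e2 : dot p (rv q) = ((∑ i, p i * q i : ℤ) : ℝ) := by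
      unfold dot rv
      push_cast
      rfl
    rw [e2, e]
    simp
  obtain ⟨𝓕, e0, hq𝓕, hWE, hF, hδ⟩ := hG q hq0 hNR
  refine ⟨p, q, w0, hp, hq0, hpq, fun ε A χ T sg mu κ ρ a b aj bj G hU hgf => ?_⟩
  obtain ⟨Cf, hCf, hgfc⟩ := hgf
  obtain ⟨hT, hsg, hsg1, hmu, hmu1, hκ, hκ1, hρ, hρ1, ha, hb, hab, hAs, hAp, -, hχs, hχp, hA0, -⟩ := id hU
  have hA : SP2 A := ⟨hAs, hAp⟩
  have hpp := pp_pos hp
  have hT1 : (1 : ℝ) ≤ T := by
    have : 1 ≤ T := by omega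
    exact_mod_cast this
  -- the constants
  obtain ⟨K𝓕, hK𝓕0, hK𝓕⟩ := l1_bd 𝓕
  obtain ⟨K1, hK1⟩ : ∃ K1 : ℝ, K1 = K𝓕 + n * R2 := ⟨_, rfl⟩
  have hn0 : (0 : ℝ) ≤ n := Nat.cast_nonneg n
  have hR0 : (0 : ℝ) ≤ R2 := Nat.cast_nonneg R2
  have hK10 : 0 ≤ K1 := by rw [hK1]; positivity
  have hK𝓕' : ∀ f ∈ 𝓕, l1 f ≤ K1 := fun f hf => (hK𝓕 f hf).trans (by rw [hK1]; nlinarith)
  have hKR : ∀ f : Fin n → ℤ, (∀ i, |f i| ≤ R2) → l1 f ≤ K1 := by
    intro f hf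
    have h1 : l1 f ≤ ∑ _i : Fin n, (R2 : ℝ) := by
      unfold l1
      refine Finset.sum_le_sum fun i _ => ?_
      have := hf i
      have h2 : ((|f i| : ℤ) : ℝ) ≤ ((R2 : ℤ) : ℝ) := by exact_mod_cast this
      rw [Int.cast_abs] at h2
      exact_mod_cast h2
    rw [Finset.sum_const, Finset.card_univ, Fintype.card_fin, nsmul_eq_mul] at h1
    rw [hK1]
    linarith
  obtain ⟨c1, hc1⟩ : ∃ c1 : ℝ, c1 = 1 / (8 * (K1 + 1)) := ⟨_, rfl⟩
  have hc10 : 0 < c1 := by rw [hc1]; positivity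
  have hc1K : c1 * K1 ≤ 1 / 8 := by
    rw [hc1, div_mul_eq_mul_div, div_le_div_iff₀ (by positivity) (by norm_num)]
    linarith
  have hl1q := l1_nonneg q
  have hpi := Real.pi_gt_three
  obtain ⟨κf, hκf⟩ : ∃ κf : ℝ, κf = 1 / (8 * Real.pi * (l1 q + 1)) := ⟨_, rfl⟩
  have hκf0 : 0 < κf := by rw [hκf]; positivity
  have hκf1 : κf ≤ 1 := by
    rw [hκf, div_le_one (by positivity)]
    nlinarith
  have hκf2 : 2 * Real.pi * (l1 q * κf) ≤ 1 / 4 := by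
    have e : 2 * Real.pi * (l1 q * κf) = l1 q / (l1 q + 1) * (1 / 4) := by
      rw [hκf]; field_simp; ring
    rw [e]
    have : l1 q / (l1 q + 1) ≤ 1 := by rw [div_le_one (by positivity)]; linarith
    linarith
  obtain ⟨δ1, hδ10, hst⟩ := stage hw0 hWE hB hp hpq hq0 hF hc10 hc1K hK10 hK𝓕' hU hCf hgfc hκf0 hκf1 hκf2
  refine ⟨δ1, hδ10, fun δ hδp hδ1 => ?_⟩
  have hPD : PassD D w0 (k + 3) 𝓕 R2 p (fun s t => A s t / dot p (rv p)) T := fun K =>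
    hP 𝓕 e0 hWE p (fun s t => A s t / dot p (rv p)) T K hp hT1 (hAs.div_const _)
      (fun s t m l => by simp only [hAp])
  obtain ⟨lamw, c', hlamw, hc', hgrow⟩ := grow hw0 hWE hB hp hq0 hpq hF hR2 (hδ δ hδp) hA hA0 hT hPD hc10 hc1K hK𝓕' hKR
  obtain ⟨lam0, C, hlam0, hC, hstep⟩ := hst δ hδp hδ1 lamw c' hlamw hc' hgrow
  have hab0 := hab 0
  obtain ⟨lami, hlami, hinit⟩ := initial hw0 hWE hp hq0 hpq hF hc10 hc1K hK10 hK𝓕' (T := T) (a := a) (b := b)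
    hsg hsg1 hmu hκ hκf0 (by linarith [hab0.1, hab0.2.1, hab0.2.2])
  refine ⟨κf, c1, lam0 + lami, c', C, by linarith, hc', hC, fun lam hlam => hinit lam (by linarith),
    hstep.mono (by linarith) (by linarith)⟩

end Pool.Agent.K9h32.SP
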