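import Pool.Agent.K9h32.SP.AllSP
import Pool.Agent.K9h32.SP.UH
import Pool.Agent.K9h32.SP.Tim
import Pool.Agent.K9h32.SP.PRT
import Pool.Agent.K9h32.SP.Step

/-!
# The final theorem
-/

set_option autoImplicit false

open Set Filter Topology
open scoped ContDiff

noncomputable section

namespace Pool.Agent.K9h32.SP

open Pool.Agent.N980.TL

theorem fin_all : ∀ (n k : ℕ), 2 ≤ n → 2 ≤ k → ∀ (R : ℝ) (L : (Fin n → ℝ) → (Fin n → ℝ) → ℝ → ℝ)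
    (f₀ : (Fin n → ℝ) → ℝ → ℝ), HJ.PotK k f₀ → (∀ x v t, R ≤ ‖v‖ → L x v t = (∑ i, v i ^ 2) / 2 + f₀ x t) →
    ∀ f₁ : (Fin n → ℝ) → ℝ → ℝ, HJ.PotK k f₁ → ∀ ε : ℝ, 0 < ε →
    ∃ (f : (Fin n → ℝ) → ℝ → ℝ) (γ : ℝ → Fin n → ℝ) (c : ℝ), HJ.PotK k f ∧ HJ.CloseK k ε f₁ f ∧ 0 < c ∧
      (∀ t, 0 ≤ t → c * t ^ (1 / ((k : ℝ) + 3)) ≤ ‖deriv γ t‖) ∧ (∀ t, 0 ≤ t → R < ‖deriv γ t‖) ∧
      ∀ t, 0 < t → EulerLagrange (fun x v t => L x v t + f x t) γ t :=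
  all_of UH.t Tim.t PRT.t Stp.t

end Pool.Agent.K9h32.SP
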