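import Pool.Agent.K9h32.SP.Gate1

/-!
# Leaf GATE: the jump of the invariant at the time of the kick
-/

set_option autoImplicit false

open Set Filter Topology
open scoped ContDiff

noncomputable section

namespace Pool.Agent.K9h32.SP.Gate

open Pool.Agent.N980.TL Pool.Agent.K9h32.SP

variable {n : ℕ} {𝓕 : List (Fin n → ℤ)}

theorem gw_bnd {m : ℕ} (w : List (TA n)) (hL : Good 𝓕 w) (hm : ∀ a ∈ w, m ≤ a.F.length) (T0 T : ℝ) :
    ∃ C : ℝ, 0 ≤ C ∧ ∀ lam : ℝ, 1 ≤ lam → ∀ v : E n, Reg 𝓕 lam v → ∀ (x : E n), ∀ t ∈ Icc T0 T,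
      ‖gw w x v t‖ ≤ C / lam ^ m := by
  obtain ⟨C, hC0, hC⟩ := bnd_fam (fun i => tdx i w) (fun i => good_tdx hL i) (fun i => len_tdx hm i) T0 T
  refine ⟨C, hC0, fun lam hl v hv x t ht => ?_⟩
  rw [pi_norm_le_iff_of_nonneg (by positivity)]
  exact fun i => hC lam hl v hv x t ht i

theorem gw_lip {m : ℕ} (w : List (TA n)) (hL : Good 𝓕 w) (hm : ∀ a ∈ w, m ≤ a.F.length) (T0 T : ℝ) :
    ∃ C : ℝ, 0 ≤ C ∧ ∀ lam : ℝ, 1 ≤ lam → ∀ v v' : E n, Reg 𝓕 lam v → Reg 𝓕 lam v' → ∀ (x : E n),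
      ∀ t ∈ Icc T0 T, ‖gw w x v t - gw w x v' t‖ ≤ C / lam ^ (m + 1) * ‖v - v'‖ := by
  obtain ⟨C, hC0, hC⟩ := lip_fam (fun i => tdx i w) (fun i => good_tdx hL i) (fun i => len_tdx hm i) T0 T
  refine ⟨C, hC0, fun lam hl v v' hv hv' x t ht => ?_⟩
  rw [pi_norm_le_iff_of_nonneg (by positivity)]
  exact fun i => hC lam hl v v' hv hv' x t ht i

theorem exists_fp {G : E n → E n} {v0 P : E n} (hb : ∀ Q, ‖Q - P‖ ≤ 1 → ‖v0 - G Q - P‖ ≤ 1)
    (hl : ∀ Q Q', ‖Q - P‖ ≤ 1 → ‖Q' - P‖ ≤ 1 → ‖G Q - G Q'‖ ≤ 1 / 2 * ‖Q - Q'‖) :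
    ∃ Q, ‖Q - P‖ ≤ 1 ∧ v0 = Q + G Q := by
  obtain ⟨F, hF⟩ : ∃ F : E n → E n, ∀ v, F v = v0 - G v := ⟨fun v => v0 - G v, fun _ => rfl⟩
  have hball : ∀ v : E n, v ∈ Metric.closedBall P 1 ↔ ‖v - P‖ ≤ 1 := by
    intro v
    rw [Metric.mem_closedBall, dist_eq_norm]
  have hmaps : MapsTo F (Metric.closedBall P 1) (Metric.closedBall P 1) := by
    intro v hv
    rw [hball, hF]
    exact hb v ((hball v).1 hv)
  have hcontr : ContractingWith (1 / 2 : NNReal) (hmaps.restrict F _ _) := by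
    refine ⟨?_, LipschitzWith.of_dist_le_mul fun x y => ?_⟩
    · rw [← NNReal.coe_lt_coe]; norm_num
    · rw [Subtype.dist_eq, Subtype.dist_eq, dist_eq_norm, dist_eq_norm]
      have e : ((hmaps.restrict F _ _ x : Metric.closedBall P 1) : E n) -
          ((hmaps.restrict F _ _ y : Metric.closedBall P 1) : E n) = G y.1 - G x.1 := by
        rw [MapsTo.val_restrict_apply, MapsTo.val_restrict_apply, hF, hF]
        abel
      rw [e, norm_sub_rev x.1 y.1]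
      have h1 := hl y.1 x.1 ((hball y.1).1 y.2) ((hball x.1).1 x.2)
      have e2 : ((1 / 2 : NNReal) : ℝ) = 1 / 2 := by norm_num
      rw [e2]
      exact h1
  have hcomp : IsComplete (Metric.closedBall P (1 : ℝ)) := Metric.isClosed_closedBall.isComplete
  obtain ⟨y, hy1, hy2, -⟩ := ContractingWith.exists_fixedPoint' hcomp hmaps hcontr
    (Metric.mem_closedBall_self (by norm_num : (0 : ℝ) ≤ 1)) (edist_ne_top _ _)
  refine ⟨y, (hball y).1 hy1, ?_⟩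
  have h1 : F y = y := hy2
  rw [hF] at h1
  exact (sub_eq_iff_eq_add.1 h1)

theorem norm_rv (q : Fin n → ℤ) : ‖rv q‖ ≤ l1 q := by
  rw [pi_norm_le_iff_of_nonneg (l1_nonneg q)]
  intro i
  rw [Real.norm_eq_abs]
  exact Finset.single_le_sum (f := fun i => |(q i : ℝ)|) (fun _ _ => abs_nonneg _) (Finset.mem_univ i)

theorem dot_rv_pos {q : Fin n → ℤ} (hq : q ≠ 0) : 0 < dot q (rv q) := by
  obtain ⟨i, hi⟩ : ∃ i, q i ≠ 0 := by
    by_contra h
    push Not at h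
    exact hq (funext h)
  unfold dot rv
  refine Finset.sum_pos' (fun j _ => mul_self_nonneg _) ⟨i, Finset.mem_univ i, ?_⟩
  have : (q i : ℝ) ≠ 0 := by exact_mod_cast hi
  exact mul_self_pos.2 this

theorem reg_mono {lam lam' : ℝ} (h : lam' ≤ lam) {P : E n} (hP : Reg 𝓕 lam P) : Reg 𝓕 lam' P :=
  fun f hf => by have := hP f hf; linarith

theorem kick {N : ℕ} (D : Trig n N) (k : ℕ) (B : ℝ → ℝ) (q : Fin n → ℤ) (w0 w1 e1 r : List (TA n)) (δ φ : ℝ)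
    (hδ : 0 < δ) (hq : q ∈ 𝓕) (hq0 : q ≠ 0)
    (g0 : Good 𝓕 w0) (g1 : Good 𝓕 w1) (ge : Good 𝓕 e1) (gr : Good 𝓕 r) (o0 : ∀ a ∈ w0, 1 ≤ a.F.length)
    (o1 : ∀ a ∈ w1, 1 ≤ a.F.length) (oe : ∀ a ∈ e1, k + 3 ≤ a.F.length) (or : ∀ a ∈ r, k + 3 ≤ a.F.length)
    (hI : ∀ v : E n, (∀ f ∈ 𝓕, dot f v ≠ 0) → ∀ (x : E n) (j : Fin n),
      (∀ t : ℝ, tev (tdt (tdx j w1)) x v t +
        ∑ i, (v i + tev (tdx i w1) x v t) * tev (tdx i (tdx j w1)) x v t =
        D.grad x t j - δ * B t * (2 * Real.pi * q j) * Real.sin (2 * Real.pi * dot q x + φ) +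
          tev (tdx j e1) x v t) ∧
      (∀ t : ℝ, 1 / 100 ≤ t → tev (tdx j w1) x v t = tev (tdx j w0) x v t) ∧
      tev (tdx j w1) x v 0 - tev (tdx j w0) x v 0 =
        -((-1) ^ (k + 1) * (k + 1).factorial * δ * (2 * Real.pi * q j) *
          Real.sin (2 * Real.pi * dot q x + φ - (k + 2) * (Real.pi / 2)) / (2 * Real.pi * dot q v) ^ (k + 2)) +
        tev (tdx j r) x v 0) :
    ∃ c C lam0 : ℝ, 0 < c ∧ 0 ≤ C ∧ 1 ≤ lam0 ∧ ∀ lam : ℝ, lam0 ≤ lam → ∀ P : E n, Reg 𝓕 lam P →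
      0 < dot q P → dot q P ≤ 2 * lam * dot q (rv q) →
      ∀ (x v : ℝ → E n), (∀ t ∈ Icc (0 : ℝ) (1 / 100), HasDerivAt x (v t) t ∧
        HasDerivAt v (fun i => D.grad (x t) t i -
          δ * B t * (2 * Real.pi * q i) * Real.sin (2 * Real.pi * dot q (x t) + φ)) t) →
        v 0 = P + gw w0 (x 0) P 0 →
        1 / 4 ≤ (-1) ^ (k + 1) * Real.sin (2 * Real.pi * dot q (x 0) + φ - (k + 2) * (Real.pi / 2)) →
        ∃ (P' : E n) (κ : ℝ), c / lam ^ (k + 2) ≤ κ ∧ ‖P' - P - κ • rv q‖ ≤ C / lam ^ (k + 3) ∧ ‖P' - P‖ ≤ 1 ∧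
          ‖v (1 / 100) - P' - gw w0 (x (1 / 100)) P' (1 / 100)‖ ≤ C / lam ^ (k + 3) := by
  obtain ⟨K, hK0, hK⟩ := exists_l1 𝓕
  obtain ⟨Ca, hCa0, hCa⟩ := gw_bnd w1 g1 o1 0 (1 / 100)
  obtain ⟨Cb, hCb0, hCb⟩ := gw_bnd w0 g0 o0 0 (1 / 100)
  obtain ⟨Cc, hCc0, hCc⟩ := gw_lip w1 g1 o1 0 (1 / 100)
  obtain ⟨Cd, hCd0, hCd⟩ := gw_lip w0 g0 o0 0 (1 / 100)
  obtain ⟨Cr, hCr0, hCr⟩ := gw_bnd r gr or 0 (1 / 100)
  obtain ⟨Ce, hCe0, hCe⟩ := bnd_fam (fun j => tdx j e1) (fun j => good_tdx ge j) (fun j => len_tdx oe j) 0 (1 / 100)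
  obtain ⟨Cf, hCf0, hCf⟩ := bnd_fam (fun s : Fin n × Fin n => tdx s.2 (tdx s.1 w1))
    (fun s => good_tdx (good_tdx g1 s.1) s.2) (fun s => len_tdx (len_tdx o1 s.1) s.2) 0 (1 / 100)
  have h00 : (0 : ℝ) ∈ Icc (0 : ℝ) (1 / 100) := ⟨le_rfl, by norm_num⟩
  have hqq := dot_rv_pos hq0
  have hπ := Real.pi_pos
  set β0 : ℝ := (k + 1).factorial * δ * (2 * Real.pi) / (2 * Real.pi) ^ (k + 2) with hβ0
  have hβ0p : 0 < β0 := by positivity
  set C5 : ℝ := 2 * (β0 * 2 ^ (k + 2) * K + Cr) with hC5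
  have hC50 : 0 ≤ C5 := by positivity
  set C6 : ℝ := Cd * C5 + β0 * ((k + 2) * K * 2 ^ (k + 3)) * K + Cr with hC6
  have hC60 : 0 ≤ C6 := by positivity
  refine ⟨β0 / 4 / (2 * dot q (rv q)) ^ (k + 2), (C6 + 2 * Ce) * 2 ^ (k + 3),
    2 * (1 + 2 * K + Ca + Cb + 2 * Cc + 2 * Cd + n * Cf),
    div_pos (by linarith) (pow_pos (by linarith) _), mul_nonneg (by linarith) (by positivity), ?_, ?_⟩
  · have : 0 ≤ (n : ℝ) * Cf := by positivity
    linarith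
  intro lam hlam P hP hqP1 hqP2 x v hx hv0 hS
  obtain ⟨L, hL⟩ : ∃ L : ℝ, L = lam / 2 := ⟨_, rfl⟩
  have hnCf : 0 ≤ (n : ℝ) * Cf := by positivity
  have hL1 : 1 ≤ L := by rw [hL]; linarith
  have hlamL : lam = 2 * L := by rw [hL]; ring
  have hL0 : 0 < L := by linarith
  have hL2 : L ≤ L ^ 2 := by nlinarith
  have hlam0 : 0 < lam := by linarith
  have hPL : Reg 𝓕 L P := reg_mono (by rw [hL]; linarith) hP
  have hnear : ∀ Q : E n, ‖Q - P‖ ≤ 1 → Reg 𝓕 L Q := fun Q hQ => by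
    rw [hL]; exact reg_near hK (by linarith) hP hQ
  have hx1 : Ca / L ^ 1 + Cb / L ^ 1 ≤ 1 := by
    rw [pow_one, ← add_div, div_le_one hL0]; rw [hL]; linarith
  have hx2 : Cc / L ^ 2 ≤ 1 / 2 := by
    rw [div_le_div_iff₀ (by positivity) (by norm_num)]
    have : 2 * Cc ≤ L := by rw [hL]; linarith
    linarith
  have hx3 : Cd / L ^ 2 ≤ 1 / 2 := by
    rw [div_le_div_iff₀ (by positivity) (by norm_num)]
    have : 2 * Cd ≤ L := by rw [hL]; linarith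
    linarith
  -- the fixed point
  obtain ⟨P', hP'1, hP'2⟩ := exists_fp (G := fun Q => gw w1 (x 0) Q 0) (v0 := v 0) (P := P)
    (fun Q hQ => by
      have e : v 0 - gw w1 (x 0) Q 0 - P = gw w0 (x 0) P 0 - gw w1 (x 0) Q 0 := by rw [hv0]; abel
      rw [e]
      refine (norm_sub_le _ _).trans ?_
      have a1 := hCb L hL1 P hPL (x 0) 0 h00
      have a2 := hCa L hL1 Q (hnear Q hQ) (x 0) 0 h00
      linarith)
    (fun Q Q' hQ hQ' => (hCc L hL1 Q Q' (hnear Q hQ) (hnear Q' hQ') (x 0) 0 h00).trans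
      (mul_le_mul_of_nonneg_right hx2 (norm_nonneg _)))
  have hRP' := hnear P' hP'1
  have hne : ∀ f ∈ 𝓕, dot f P' ≠ 0 := hRP'.ne hL0
  -- the jump
  set S : ℝ := Real.sin (2 * Real.pi * dot q (x 0) + φ - (k + 2) * (Real.pi / 2)) with hSdef
  set β : ℝ := (-1) ^ (k + 1) * S * β0 with hβ
  have hβ1 : |β| ≤ β0 := by
    rw [hβ, abs_mul, abs_mul, abs_pow, abs_neg, abs_one, one_pow, one_mul, abs_of_pos hβ0p]
    exact mul_le_of_le_one_left hβ0p.le (Real.abs_sin_le_one _)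
  have hβ2 : β0 / 4 ≤ β := by
    rw [hβ]
    have := mul_le_mul_of_nonneg_right hS hβ0p.le
    linarith
  set F : List (Fin n → ℤ) := List.replicate (k + 2) q with hF
  have hFF : ∀ f ∈ F, f ∈ 𝓕 := by
    intro f hf
    rw [hF, List.mem_replicate] at hf
    rw [hf.2]; exact hq
  have hFl : F.length = k + 2 := by rw [hF, List.length_replicate]
  have htp : ∀ Q : E n, tp F Q = ((dot q Q) ^ (k + 2))⁻¹ := by
    intro Q
    rw [tp, hF, List.map_replicate, List.prod_replicate, inv_pow]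
  have hjump : P' - P = (gw w0 (x 0) P 0 - gw w0 (x 0) P' 0) + (β * tp F P') • rv q - gw r (x 0) P' 0 := by
    have e : P' - P = gw w0 (x 0) P 0 - gw w1 (x 0) P' 0 := by
      have : P' = P + gw w0 (x 0) P 0 - gw w1 (x 0) P' 0 := by
        rw [← hv0, eq_sub_iff_add_eq]; exact hP'2.symm
      conv_lhs => rw [this]
      abel
    rw [e]
    funext j
    have h1 := (hI P' hne (x 0) j).2.2
    simp only [Pi.sub_apply, Pi.add_apply, Pi.smul_apply, smul_eq_mul, gw, rv, htp]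
    have h2 : (-1) ^ (k + 1) * (k + 1).factorial * δ * (2 * Real.pi * q j) * S /
        (2 * Real.pi * dot q P') ^ (k + 2) = β * ((dot q P') ^ (k + 2))⁻¹ * (q j : ℝ) := by
      have h3 : dot q P' ≠ 0 := hne q hq
      rw [hβ, hβ0, mul_pow (2 * Real.pi)]
      field_simp
    rw [h2] at h1
    linarith
  have hrv : ‖rv q‖ ≤ K := (norm_rv q).trans (hK q hq)
  have hκ' : |β * tp F P'| ≤ β0 * (2 / L) ^ (k + 2) := by
    rw [abs_mul]
    have := tp_le hL0 hRP' F hFF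
    rw [hFl] at this
    exact mul_le_mul hβ1 this (abs_nonneg _) hβ0p.le
  have hlipw := hCd L hL1 P P' hPL hRP' (x 0) 0 h00
  rw [norm_sub_rev P P', one_add_one_eq_two] at hlipw
  have hr := hCr L hL1 P' hRP' (x 0) 0 h00
  have hLk : L ^ (k + 2) ≤ L ^ (k + 3) := pow_le_pow_right₀ hL1 (by omega)
  have hLk0 : 0 < L ^ (k + 2) := by positivity
  have hr' : Cr / L ^ (k + 3) ≤ Cr / L ^ (k + 2) := div_le_div_of_nonneg_left hCr0 hLk0 hLk
  have hD : ‖P' - P‖ ≤ C5 / L ^ (k + 2) := by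
    have h1 : ‖P' - P‖ ≤ Cd / L ^ 2 * ‖P' - P‖ + β0 * (2 / L) ^ (k + 2) * K + Cr / L ^ (k + 2) := by
      conv_lhs => rw [hjump]
      refine (norm_sub_le _ _).trans (add_le_add ((norm_add_le _ _).trans (add_le_add hlipw ?_))
        (hr.trans hr'))
      rw [norm_smul, Real.norm_eq_abs]
      exact mul_le_mul hκ' hrv (norm_nonneg _) (by positivity)
    have h2 : Cd / L ^ 2 * ‖P' - P‖ ≤ 1 / 2 * ‖P' - P‖ := mul_le_mul_of_nonneg_right hx3 (norm_nonneg _)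
    have h3 : C5 / L ^ (k + 2) = 2 * (β0 * (2 / L) ^ (k + 2) * K + Cr / L ^ (k + 2)) := by
      rw [hC5, div_pow]; ring
    rw [h3]
    linarith
  refine ⟨P', β * tp F P, ?_, ?_, hP'1, ?_⟩
  · -- the lower bound
    rw [htp]
    have h1 : (dot q P) ^ (k + 2) ≤ (2 * lam * dot q (rv q)) ^ (k + 2) := pow_le_pow_left₀ hqP1.le hqP2 _
    have h2 : 0 < (dot q P) ^ (k + 2) := by positivity
    have h3 : ((2 * lam * dot q (rv q)) ^ (k + 2))⁻¹ ≤ ((dot q P) ^ (k + 2))⁻¹ := inv_anti₀ h2 h1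
    have h4 : β0 / 4 / (2 * dot q (rv q)) ^ (k + 2) / lam ^ (k + 2) =
        β0 / 4 * ((2 * lam * dot q (rv q)) ^ (k + 2))⁻¹ := by
      rw [show 2 * lam * dot q (rv q) = 2 * dot q (rv q) * lam by ring, mul_pow (2 * dot q (rv q)) lam]
      field_simp
    rw [h4]
    exact mul_le_mul hβ2 h3 (by positivity) (by linarith)
  · -- the error
    have e : P' - P - (β * tp F P) • rv q = (gw w0 (x 0) P 0 - gw w0 (x 0) P' 0) +
        (β * (tp F P' - tp F P)) • rv q - gw r (x 0) P' 0 := by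
      conv_lhs => rw [hjump]
      rw [mul_sub, sub_smul]
      abel
    rw [e]
    have h1 : Cd / L ^ 2 * ‖P' - P‖ ≤ Cd * C5 / L ^ (k + 3) := by
      calc Cd / L ^ 2 * ‖P' - P‖ ≤ Cd / L ^ 2 * (C5 / L ^ (k + 2)) :=
            mul_le_mul_of_nonneg_left hD (by positivity)
        _ = Cd * C5 / L ^ (k + 4) := by rw [div_mul_div_comm, ← pow_add]; congr 2; omega
        _ ≤ Cd * C5 / L ^ (k + 3) := div_le_div_of_nonneg_left (by positivity) (by positivity)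
            (pow_le_pow_right₀ hL1 (by omega))
    have h2 : |β * (tp F P' - tp F P)| ≤ β0 * ((k + 2) * K * 2 ^ (k + 3)) / L ^ (k + 3) := by
      rw [abs_mul]
      have h3 := tp_lip hL0 hRP' hPL hK hK0 F hFF
      rw [hFl] at h3
      have h4 : |tp F P' - tp F P| ≤ (k + 2) * K * 2 ^ (k + 3) / L ^ (k + 3) := by
        refine h3.trans ?_
        have h5 : ((k + 2 : ℕ) : ℝ) * K * (2 / L) ^ (k + 2 + 1) * ‖P' - P‖ ≤
            ((k + 2 : ℕ) : ℝ) * K * (2 / L) ^ (k + 2 + 1) * 1 :=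
          mul_le_mul_of_nonneg_left hP'1 (by positivity)
        refine h5.trans (le_of_eq ?_)
        rw [mul_one, div_pow]
        push_cast
        ring
      refine (mul_le_mul hβ1 h4 (abs_nonneg _) hβ0p.le).trans (le_of_eq ?_)
      ring
    refine (norm_sub_le _ _).trans ((add_le_add ((norm_add_le _ _).trans (add_le_add (hlipw.trans h1)
      (?_ : _ ≤ β0 * ((k + 2) * K * 2 ^ (k + 3)) * K / L ^ (k + 3)))) hr).trans ?_)
    · rw [norm_smul, Real.norm_eq_abs]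
      refine (mul_le_mul h2 hrv (norm_nonneg _) (by positivity)).trans (le_of_eq ?_)
      ring
    · rw [← add_div, ← add_div, ← hC6, hlamL, mul_pow 2 L]
      have h6 : (C6 + 2 * Ce) * 2 ^ (k + 3) / (2 ^ (k + 3) * L ^ (k + 3)) = (C6 + 2 * Ce) / L ^ (k + 3) := by
        field_simp
      rw [h6]
      exact div_le_div_of_nonneg_right (by linarith) (by positivity)
  · -- the evolution
    have h1 := evol (𝓕 := 𝓕) D w1 e1 q B δ φ g1 P' (fun x j t => (hI P' hne x j).1 t) hx hP'2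
      (ε := Ce / L ^ (k + 3)) (b := Cf / L ^ 1) (by positivity)
      (fun x t ht j => hCe L hL1 P' hRP' x t ht j) (fun x t ht j i => hCf L hL1 P' hRP' x t ht (j, i))
      (by
        rw [pow_one, ← mul_div_assoc, div_le_one hL0, hL]
        linarith)
    have h2 : gw w1 (x (1 / 100)) P' (1 / 100) = gw w0 (x (1 / 100)) P' (1 / 100) := by
      funext j
      exact (hI P' hne (x (1 / 100)) j).2.1 (1 / 100) le_rfl
    rw [h2] at h1
    refine h1.trans ?_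
    rw [hlamL, mul_pow 2 L]
    have h6 : (C6 + 2 * Ce) * 2 ^ (k + 3) / (2 ^ (k + 3) * L ^ (k + 3)) = (C6 + 2 * Ce) / L ^ (k + 3) := by
      field_simp
    rw [h6, ← mul_div_assoc]
    exact div_le_div_of_nonneg_right (by linarith) (by positivity)

end Pool.Agent.K9h32.SP.Gate
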