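import Pool.Agent.K9h32.SP.StmK

/-!
# Sums of atoms with slow coefficients: operations and their values
-/

set_option autoImplicit false

open Set Filter Topology
open scoped ContDiff

noncomputable section

namespace Pool.Agent.K9h32.SP.HJK

open Pool.Agent.N980.TL Pool.Agent.K9h32.SP

variable {n : ℕ} {p : Fin n → ℤ}

@[simp] theorem sev_nil (x P : E n) (t : ℝ) : sev p ([] : List (TS n)) x P t = 0 := rfl

@[simp] theorem sev_cons (a : TS n) (L : List (TS n)) (x P : E n) (t : ℝ) :
    sev p (a :: L) x P t = a.ev p x P t + sev p L x P t := by simp [sev]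

theorem sev_append (L L' : List (TS n)) (x P : E n) (t : ℝ) :
    sev p (L ++ L') x P t = sev p L x P t + sev p L' x P t := by simp [sev]

theorem sev_flatMap {ι : Type*} (S : List ι) (f : ι → List (TS n)) (x P : E n) (t : ℝ) :
    sev p (S.flatMap f) x P t = (S.map fun s => sev p (f s) x P t).sum := by
  induction S with
  | nil => rfl
  | cons s S ih => rw [List.flatMap_cons, sev_append, ih, List.map_cons, List.sum_cons]

theorem st_append (L L' : List (TS n)) : st (L ++ L') = st L ++ st L' := by simp [st]
theorem sx_append (i : Fin n) (L L' : List (TS n)) : sx p i (L ++ L') = sx p i L ++ sx p i L' := by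
  simp [sx]
theorem sp_append (L L' : List (TS n)) : sp p (L ++ L') = sp p L ++ sp p L' := by simp [sp]
theorem ss_append (L L' : List (TS n)) : ss (L ++ L') = ss L ++ ss L' := by simp [ss]

theorem ssit_append (j : ℕ) (L L' : List (TS n)) : ss^[j] (L ++ L') = ss^[j] L ++ ss^[j] L' := by
  induction j generalizing L L' with
  | zero => rfl
  | succ j ih => rw [Function.iterate_succ_apply, ss_append, ih]; rfl

/-! ## products -/

/-- the sum term -/
def amp (a b : TS n) : TS n where
  a := fun s r t => a.a s r t * b.a s r t * (1 / 2)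
  F := a.F ++ b.F
  k := a.k + b.k
  φ := a.φ + b.φ

/-- the difference term -/
def amm (a b : TS n) : TS n where
  a := fun s r t => a.a s r t * b.a s r t * (1 / 2)
  F := a.F ++ b.F
  k := a.k - b.k
  φ := a.φ - b.φ

/-- products -/
def mul (L L' : List (TS n)) : List (TS n) := L.flatMap fun a => L'.flatMap fun b => [amp a b, amm a b]

theorem dot_add (k k' : Fin n → ℤ) (x : E n) : dot (k + k') x = dot k x + dot k' x := by
  simp only [dot, Pi.add_apply, Int.cast_add, add_mul, Finset.sum_add_distrib]

theorem dot_sub (k k' : Fin n → ℤ) (x : E n) : dot (k - k') x = dot k x - dot k' x := by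
  simp only [dot, Pi.sub_apply, Int.cast_sub, sub_mul, Finset.sum_sub_distrib]

theorem amul_ev (a b : TS n) (x P : E n) (t : ℝ) :
    (amp a b).ev p x P t + (amm a b).ev p x P t = a.ev p x P t * b.ev p x P t := by
  simp only [TS.ev, amp, amm, List.map_append, List.prod_append, dot_add, dot_sub]
  have e1 : 2 * Real.pi * (dot a.k x + dot b.k x) + (a.φ + b.φ) =
      (2 * Real.pi * dot a.k x + a.φ) + (2 * Real.pi * dot b.k x + b.φ) := by ring
  have e2 : 2 * Real.pi * (dot a.k x - dot b.k x) + (a.φ - b.φ) =
      (2 * Real.pi * dot a.k x + a.φ) - (2 * Real.pi * dot b.k x + b.φ) := by ring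
  rw [e1, e2, Real.cos_add, Real.cos_sub]
  ring

theorem mul_ev (L L' : List (TS n)) (x P : E n) (t : ℝ) :
    sev p (mul L L') x P t = sev p L x P t * sev p L' x P t := by
  induction L with
  | nil => simp [mul]
  | cons a L ih =>
    have h1 : mul (a :: L) L' = (L'.flatMap fun b => [amp a b, amm a b]) ++ mul L L' := rfl
    have h2 : sev p (L'.flatMap fun b => [amp a b, amm a b]) x P t = a.ev p x P t * sev p L' x P t := by
      clear ih h1
      induction L' with
      | nil => simp
      | cons b L' ih' =>
        rw [List.flatMap_cons, sev_append, ih', sev_cons, sev_cons, sev_cons, sev_nil, add_zero, amul_ev]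
        ring
    rw [h1, sev_append, ih, h2, sev_cons]
    ring

/-- the constant `1` -/
def one : TS n := ⟨fun _ _ _ => 1, [], 0, 0⟩

theorem one_ev (x P : E n) (t : ℝ) : (one (n := n)).ev p x P t = 1 := by
  simp [TS.ev, one, dot]

/-- powers -/
def pw (L : List (TS n)) : ℕ → List (TS n)
  | 0 => [one]
  | j + 1 => mul (pw L j) L

theorem pw_ev (L : List (TS n)) (x P : E n) (t : ℝ) (j : ℕ) :
    sev p (pw L j) x P t = sev p L x P t ^ j := by
  induction j with
  | zero => simp [pw, one_ev]
  | succ j ih => rw [pw, mul_ev, ih, pow_succ]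

/-- the difference of the powers of `E + Z` and `E` -/
def Dp (E Z : List (TS n)) : ℕ → List (TS n)
  | 0 => []
  | j + 1 => mul (Dp E Z j) (E ++ Z) ++ mul (pw E j) Z

theorem Dp_ev (L Z : List (TS n)) (x P : E n) (t : ℝ) (j : ℕ) :
    sev p (Dp L Z j) x P t = (sev p L x P t + sev p Z x P t) ^ j - sev p L x P t ^ j := by
  induction j with
  | zero => simp [Dp]
  | succ j ih => rw [Dp, sev_append, mul_ev, mul_ev, ih, pw_ev, sev_append]; ring

/-- multiplication by a constant -/
def scal (c : ℝ) (L : List (TS n)) : List (TS n) := L.map fun a => { a with a := fun s r t => a.a s r t * c }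

theorem scal_ev (c : ℝ) (L : List (TS n)) (x P : E n) (t : ℝ) :
    sev p (scal c L) x P t = c * sev p L x P t := by
  induction L with
  | nil => simp [scal]
  | cons a L ih =>
    have h : scal c (a :: L) = { a with a := fun s r t => a.a s r t * c } :: scal c L := rfl
    rw [h, sev_cons, sev_cons, ih]
    simp only [TS.ev]
    ring

/-- `p·P` times the derivative in the slow position -/
def rds (L : List (TS n)) : List (TS n) := L.map fun a => { a with a := fun s r t => d1 a.a s r t * r }

/-- the resonant part -/
def sres (L : List (TS n)) : List (TS n) := by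
  classical exact L.filter fun a => a.k = 0

/-- the nonresonant part -/
def snon (L : List (TS n)) : List (TS n) := by
  classical exact L.filter fun a => a.k ≠ 0

theorem split_ev (L : List (TS n)) (x P : E n) (t : ℝ) :
    sev p (snon L) x P t + sev p (sres L) x P t = sev p L x P t := by
  classical
  induction L with
  | nil => simp [snon, sres]
  | cons a L ih =>
    by_cases h : a.k = 0
    · have h1 : snon (a :: L) = snon L := by simp [snon, h]
      have h2 : sres (a :: L) = a :: sres L := by simp [sres, h]
      rw [h1, h2, sev_cons, sev_cons, ← ih]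
      ring
    · have h1 : snon (a :: L) = a :: snon L := by simp [snon, h]
      have h2 : sres (a :: L) = sres L := by simp [sres, h]
      rw [h1, h2, sev_cons, sev_cons, ← ih]
      ring

/-- minus the inverse of `P·∂_x` on an atom, up to the slow derivative -/
def sinv (a : TS n) : TS n where
  a := fun s r t => a.a s r t * (-(1 / (2 * Real.pi)))
  F := a.k :: a.F
  k := a.k
  φ := a.φ - Real.pi / 2

/-- minus the inverse of `P·∂_x`, up to the slow derivative -/
def sninv (L : List (TS n)) : List (TS n) := (snon L).map sinv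

theorem mem_snon {a : TS n} {L : List (TS n)} (h : a ∈ snon L) : a ∈ L ∧ a.k ≠ 0 := by
  classical
  unfold snon at h
  rw [List.mem_filter] at h
  exact ⟨h.1, by simpa using h.2⟩

theorem mem_sres {a : TS n} {L : List (TS n)} (h : a ∈ sres L) : a ∈ L ∧ a.k = 0 := by
  classical
  unfold sres at h
  rw [List.mem_filter] at h
  exact ⟨h.1, by simpa using h.2⟩

theorem map_sinv_ev (L : List (TS n)) (x P : E n) (t : ℝ) (h : ∀ a ∈ L, dot a.k P ≠ 0) :
    ∑ i, P i * sev p (sx p i (L.map sinv)) x P t = -sev p L x P t + sev p (rds (L.map sinv)) x P t := by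
  induction L with
  | nil => simp [sx, rds]
  | cons a L ih =>
    have ih' := ih fun b hb => h b (List.mem_cons_of_mem _ hb)
    have hd := h a List.mem_cons_self
    set b := sinv a with hb
    have h2 : ∀ i, P i * sev p (sx p i ((a :: L).map sinv)) x P t =
        (d1 b.a (dot p x) (dot p P) t * (b.F.map fun f => (dot f P)⁻¹).prod *
          Real.cos (2 * Real.pi * dot b.k x + b.φ)) * ((p i : ℝ) * P i) +
        (-(a.a (dot p x) (dot p P) t * (a.F.map fun f => (dot f P)⁻¹).prod * (dot a.k P)⁻¹ *
          Real.cos (2 * Real.pi * dot a.k x + a.φ))) * ((a.k i : ℝ) * P i) +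
        P i * sev p (sx p i (L.map sinv)) x P t := by
      intro i
      have h3 : sx p i ((a :: L).map sinv) = [{ b with a := fun s r t => d1 b.a s r t * p i },
        { b with a := fun s r t => b.a s r t * (2 * Real.pi * b.k i), φ := b.φ + Real.pi / 2 }] ++
          sx p i (L.map sinv) := rfl
      rw [h3, sev_append, sev_cons, sev_cons, sev_nil, add_zero]
      have h4 : (2 * Real.pi * dot b.k x + (b.φ + Real.pi / 2)) = 2 * Real.pi * dot a.k x + a.φ := by
        simp only [hb, sinv]; ring
      have hp := Real.pi_ne_zero
      simp only [TS.ev]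
      rw [h4]
      simp only [hb, sinv, List.map_cons, List.prod_cons]
      field_simp
    rw [Finset.sum_congr rfl fun i _ => h2 i, Finset.sum_add_distrib, Finset.sum_add_distrib, ih',
      ← Finset.mul_sum, ← Finset.mul_sum]
    have h5 : rds ((a :: L).map sinv) = { b with a := fun s r t => d1 b.a s r t * r } ::
      rds (L.map sinv) := rfl
    rw [h5, sev_cons, sev_cons]
    change _ * dot p P + _ * dot a.k P + _ = _
    simp only [TS.ev]
    field_simp
    ring

theorem sninv_ev (L : List (TS n)) (x P : E n) (t : ℝ) (h : ∀ a ∈ L, a.k ≠ 0 → dot a.k P ≠ 0) :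
    ∑ i, P i * sev p (sx p i (sninv L)) x P t =
      -sev p (snon L) x P t + sev p (rds (sninv L)) x P t :=
  map_sinv_ev (snon L) x P t fun a ha => h a (mem_snon ha).1 (mem_snon ha).2

end Pool.Agent.K9h32.SP.HJK
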