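import Pool.Agent.K9h32.SP.HJK1

/-!
# Sums of atoms with slow coefficients: properties kept by the operations
-/

set_option autoImplicit false

open Set Filter Topology
open scoped ContDiff

noncomputable section

namespace Pool.Agent.K9h32.SP.HJK

open Pool.Agent.N980.TL Pool.Agent.K9h32.SP

variable {n : ℕ} {p : Fin n → ℤ}

/-! ## membership -/

theorem mem_st {a : TS n} {L : List (TS n)} (h : a ∈ st L) : ∃ b ∈ L, a = { b with a := d3 b.a } := by
  obtain ⟨b, hb, e⟩ := List.mem_map.1 h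
  exact ⟨b, hb, e.symm⟩

theorem mem_ss {a : TS n} {L : List (TS n)} (h : a ∈ ss L) : ∃ b ∈ L, a = { b with a := d1 b.a } := by
  obtain ⟨b, hb, e⟩ := List.mem_map.1 h
  exact ⟨b, hb, e.symm⟩

theorem mem_scal {c : ℝ} {a : TS n} {L : List (TS n)} (h : a ∈ scal c L) :
    ∃ b ∈ L, a = { b with a := fun s r t => b.a s r t * c } := by
  obtain ⟨b, hb, e⟩ := List.mem_map.1 h
  exact ⟨b, hb, e.symm⟩

theorem mem_rds {a : TS n} {L : List (TS n)} (h : a ∈ rds L) :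
    ∃ b ∈ L, a = { b with a := fun s r t => d1 b.a s r t * r } := by
  obtain ⟨b, hb, e⟩ := List.mem_map.1 h
  exact ⟨b, hb, e.symm⟩

theorem mem_sx {i : Fin n} {a : TS n} {L : List (TS n)} (h : a ∈ sx p i L) :
    ∃ b ∈ L, a = { b with a := fun s r t => d1 b.a s r t * p i } ∨
      a = { b with a := fun s r t => b.a s r t * (2 * Real.pi * b.k i), φ := b.φ + Real.pi / 2 } := by
  unfold sx at h
  rw [List.mem_flatMap] at h
  obtain ⟨b, hb, h⟩ := h
  refine ⟨b, hb, ?_⟩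
  simpa using h

theorem mem_sp {a : TS n} {L : List (TS n)} (h : a ∈ sp p L) :
    ∃ b ∈ L, a = { b with a := fun s r t => d2 b.a s r t * dot p (rv p) } ∨
      ∃ f ∈ b.F, a = { b with a := fun s r t => -dot f (rv p) * b.a s r t, F := f :: b.F } := by
  unfold sp at h
  rw [List.mem_flatMap] at h
  obtain ⟨b, hb, h⟩ := h
  refine ⟨b, hb, ?_⟩
  rcases List.mem_cons.1 h with h | h
  · exact Or.inl h
  · obtain ⟨f, hf, e⟩ := List.mem_map.1 h
    exact Or.inr ⟨f, hf, e.symm⟩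

theorem mem_mul {a : TS n} {L L' : List (TS n)} (h : a ∈ mul L L') :
    ∃ b ∈ L, ∃ c ∈ L', a = amp b c ∨ a = amm b c := by
  unfold mul at h
  rw [List.mem_flatMap] at h
  obtain ⟨b, hb, h⟩ := h
  rw [List.mem_flatMap] at h
  obtain ⟨c, hc, h⟩ := h
  refine ⟨b, hb, c, hc, ?_⟩
  simpa using h

theorem mem_sninv {a : TS n} {L : List (TS n)} (h : a ∈ sninv L) : ∃ b ∈ L, b.k ≠ 0 ∧ a = sinv b := by
  obtain ⟨b, hb, e⟩ := List.mem_map.1 h
  exact ⟨b, (mem_snon hb).1, (mem_snon hb).2, e.symm⟩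

/-! ## good coefficients -/

/-- smooth and periodic coefficients -/
def Cg (a : ℝ → ℝ → ℝ → ℝ) : Prop :=
  ContDiff ℝ ∞ (fun z : ℝ × ℝ × ℝ => a z.1 z.2.1 z.2.2) ∧ ∀ (s r t : ℝ) (m : ℤ), a (s + m) r t = a s r t

theorem Cg.hd1 {a : ℝ → ℝ → ℝ → ℝ} (h : Cg a) (s r t : ℝ) : HasDerivAt (fun s => a s r t)
    (fderiv ℝ (fun z : ℝ × ℝ × ℝ => a z.1 z.2.1 z.2.2) (s, r, t) (1, 0, 0)) s := by
  have h1 : HasFDerivAt (fun z : ℝ × ℝ × ℝ => a z.1 z.2.1 z.2.2) _ (s, r, t) :=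
    (h.1.differentiable (by simp) (s, r, t)).hasFDerivAt
  have h2 : HasDerivAt (fun s : ℝ => ((s, r, t) : ℝ × ℝ × ℝ)) (1, 0, 0) s :=
    (hasDerivAt_id s).prodMk ((hasDerivAt_const s r).prodMk (hasDerivAt_const s t))
  exact h1.comp_hasDerivAt s h2

theorem Cg.hd2 {a : ℝ → ℝ → ℝ → ℝ} (h : Cg a) (s r t : ℝ) : HasDerivAt (fun r => a s r t)
    (fderiv ℝ (fun z : ℝ × ℝ × ℝ => a z.1 z.2.1 z.2.2) (s, r, t) (0, 1, 0)) r := by
  have h1 : HasFDerivAt (fun z : ℝ × ℝ × ℝ => a z.1 z.2.1 z.2.2) _ (s, r, t) :=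
    (h.1.differentiable (by simp) (s, r, t)).hasFDerivAt
  have h2 : HasDerivAt (fun r : ℝ => ((s, r, t) : ℝ × ℝ × ℝ)) (0, 1, 0) r :=
    (hasDerivAt_const r s).prodMk ((hasDerivAt_id r).prodMk (hasDerivAt_const r t))
  exact h1.comp_hasDerivAt r h2

theorem Cg.hd3 {a : ℝ → ℝ → ℝ → ℝ} (h : Cg a) (s r t : ℝ) : HasDerivAt (fun t => a s r t)
    (fderiv ℝ (fun z : ℝ × ℝ × ℝ => a z.1 z.2.1 z.2.2) (s, r, t) (0, 0, 1)) t := by
  have h1 : HasFDerivAt (fun z : ℝ × ℝ × ℝ => a z.1 z.2.1 z.2.2) _ (s, r, t) :=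
    (h.1.differentiable (by simp) (s, r, t)).hasFDerivAt
  have h2 : HasDerivAt (fun t : ℝ => ((s, r, t) : ℝ × ℝ × ℝ)) (0, 0, 1) t :=
    (hasDerivAt_const t s).prodMk ((hasDerivAt_const t r).prodMk (hasDerivAt_id t))
  exact h1.comp_hasDerivAt t h2

theorem Cg.smd {a : ℝ → ℝ → ℝ → ℝ} (h : Cg a) (v : ℝ × ℝ × ℝ) :
    ContDiff ℝ ∞ fun z => fderiv ℝ (fun z : ℝ × ℝ × ℝ => a z.1 z.2.1 z.2.2) z v := by
  have h2 : ContDiff ℝ ∞ (fderiv ℝ (fun z : ℝ × ℝ × ℝ => a z.1 z.2.1 z.2.2)) :=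
    h.1.fderiv_right (m := ∞) (by simp)
  exact h2.clm_apply contDiff_const

theorem Cg.d1 {a : ℝ → ℝ → ℝ → ℝ} (h : Cg a) : Cg (d1 a) := by
  constructor
  · have h1 : (fun z : ℝ × ℝ × ℝ => SP.d1 a z.1 z.2.1 z.2.2) =
        fun z => fderiv ℝ (fun z : ℝ × ℝ × ℝ => a z.1 z.2.1 z.2.2) z (1, 0, 0) := by
      funext z
      exact (h.hd1 z.1 z.2.1 z.2.2).deriv
    rw [h1]
    exact h.smd _
  · intro s r t m
    change deriv (fun s => a s r t) (s + m) = deriv (fun s => a s r t) s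
    rw [← deriv_comp_add_const]
    congr 1
    funext s
    exact h.2 s r t m

theorem Cg.d2 {a : ℝ → ℝ → ℝ → ℝ} (h : Cg a) : Cg (d2 a) := by
  constructor
  · have h1 : (fun z : ℝ × ℝ × ℝ => SP.d2 a z.1 z.2.1 z.2.2) =
        fun z => fderiv ℝ (fun z : ℝ × ℝ × ℝ => a z.1 z.2.1 z.2.2) z (0, 1, 0) := by
      funext z
      exact (h.hd2 z.1 z.2.1 z.2.2).deriv
    rw [h1]
    exact h.smd _
  · intro s r t m
    change deriv (fun r => a (s + m) r t) r = deriv (fun r => a s r t) r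
    congr 1
    funext r
    exact h.2 s r t m

theorem Cg.d3 {a : ℝ → ℝ → ℝ → ℝ} (h : Cg a) : Cg (d3 a) := by
  constructor
  · have h1 : (fun z : ℝ × ℝ × ℝ => SP.d3 a z.1 z.2.1 z.2.2) =
        fun z => fderiv ℝ (fun z : ℝ × ℝ × ℝ => a z.1 z.2.1 z.2.2) z (0, 0, 1) := by
      funext z
      exact (h.hd3 z.1 z.2.1 z.2.2).deriv
    rw [h1]
    exact h.smd _
  · intro s r t m
    change deriv (fun t => a (s + m) r t) t = deriv (fun t => a s r t) t
    congr 1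
    funext t
    exact h.2 s r t m

theorem Cg.mul {a b : ℝ → ℝ → ℝ → ℝ} (h : Cg a) (h' : Cg b) (c : ℝ) :
    Cg fun s r t => a s r t * b s r t * c := by
  refine ⟨(ContDiff.mul h.1 h'.1).mul contDiff_const, fun s r t m => ?_⟩
  change a (s + m) r t * b (s + m) r t * c = _
  rw [h.2, h'.2]

theorem Cg.smul {a : ℝ → ℝ → ℝ → ℝ} (h : Cg a) (c : ℝ) : Cg fun s r t => a s r t * c := by
  refine ⟨ContDiff.mul h.1 contDiff_const, fun s r t m => ?_⟩
  change a (s + m) r t * c = _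
  rw [h.2]

theorem Cg.smul' {a : ℝ → ℝ → ℝ → ℝ} (h : Cg a) (c : ℝ) : Cg fun s r t => c * a s r t := by
  refine ⟨ContDiff.mul contDiff_const h.1, fun s r t m => ?_⟩
  change c * a (s + m) r t = _
  rw [h.2]

theorem Cg.mulr {a : ℝ → ℝ → ℝ → ℝ} (h : Cg a) : Cg fun s r t => a s r t * r := by
  refine ⟨ContDiff.mul h.1 (contDiff_fst.comp contDiff_snd), fun s r t m => ?_⟩
  change a (s + m) r t * r = _
  rw [h.2]

/-- good atoms in the box `r` of order `m` -/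
def G (r m : ℕ) (L : List (TS n)) : Prop := ∀ a ∈ L, Cg a.a ∧ (∀ i, |a.k i| ≤ r) ∧
  (∀ f ∈ a.F, f ≠ 0 ∧ ∀ i, |f i| ≤ r) ∧ m ≤ a.F.length

theorem G.mono {r m r' m' : ℕ} {L : List (TS n)} (h : G r m L) (hr : r ≤ r') (hm : m' ≤ m) : G r' m' L := by
  intro a ha
  obtain ⟨h1, h2, h3, h4⟩ := h a ha
  have hr' : (r : ℤ) ≤ r' := by exact_mod_cast hr
  exact ⟨h1, fun i => (h2 i).trans hr', fun f hf => ⟨(h3 f hf).1, fun i => ((h3 f hf).2 i).trans hr'⟩,
    hm.trans h4⟩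

theorem G.nil {r m : ℕ} : G r m ([] : List (TS n)) := fun a ha => by simp at ha

theorem G.append {r m : ℕ} {L L' : List (TS n)} (h : G r m L) (h' : G r m L') : G r m (L ++ L') := by
  intro a ha
  rcases List.mem_append.1 ha with ha | ha
  · exact h a ha
  · exact h' a ha

theorem G.flatMap {r m : ℕ} {ι : Type*} {S : List ι} {f : ι → List (TS n)} (h : ∀ s ∈ S, G r m (f s)) :
    G r m (S.flatMap f) := by
  intro a ha
  obtain ⟨s, hs, ha⟩ := List.mem_flatMap.1 ha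
  exact h s hs a ha

theorem G.st {r m : ℕ} {L : List (TS n)} (h : G r m L) : G r m (st L) := by
  intro a ha
  obtain ⟨b, hb, rfl⟩ := mem_st ha
  obtain ⟨h1, h2, h3, h4⟩ := h b hb
  exact ⟨h1.d3, h2, h3, h4⟩

theorem G.ss {r m : ℕ} {L : List (TS n)} (h : G r m L) : G r m (ss L) := by
  intro a ha
  obtain ⟨b, hb, rfl⟩ := mem_ss ha
  obtain ⟨h1, h2, h3, h4⟩ := h b hb
  exact ⟨h1.d1, h2, h3, h4⟩

theorem G.ssit {r m : ℕ} {L : List (TS n)} (h : G r m L) (j : ℕ) : G r m (SP.ss^[j] L) := by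
  induction j generalizing L with
  | zero => exact h
  | succ j ih => rw [Function.iterate_succ_apply]; exact ih h.ss

theorem G.scal {r m : ℕ} {L : List (TS n)} (h : G r m L) (c : ℝ) : G r m (scal c L) := by
  intro a ha
  obtain ⟨b, hb, rfl⟩ := mem_scal ha
  obtain ⟨h1, h2, h3, h4⟩ := h b hb
  exact ⟨h1.smul c, h2, h3, h4⟩

theorem G.rds {r m : ℕ} {L : List (TS n)} (h : G r m L) : G r m (rds L) := by
  intro a ha
  obtain ⟨b, hb, rfl⟩ := mem_rds ha
  obtain ⟨h1, h2, h3, h4⟩ := h b hb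
  exact ⟨h1.d1.mulr, h2, h3, h4⟩

theorem G.sx {r m : ℕ} {L : List (TS n)} (h : G r m L) (i : Fin n) : G r m (sx p i L) := by
  intro a ha
  obtain ⟨b, hb, rfl | rfl⟩ := mem_sx ha
  · obtain ⟨h1, h2, h3, h4⟩ := h b hb
    exact ⟨h1.d1.smul _, h2, h3, h4⟩
  · obtain ⟨h1, h2, h3, h4⟩ := h b hb
    exact ⟨h1.smul _, h2, h3, h4⟩

theorem G.sp {r m : ℕ} {L : List (TS n)} (h : G r m L) : G r m (sp p L) := by
  intro a ha
  obtain ⟨b, hb, rfl | ⟨f, hf, rfl⟩⟩ := mem_sp ha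
  · obtain ⟨h1, h2, h3, h4⟩ := h b hb
    exact ⟨h1.d2.smul _, h2, h3, h4⟩
  · obtain ⟨h1, h2, h3, h4⟩ := h b hb
    refine ⟨h1.smul' _, h2, fun g hg => ?_, ?_⟩
    · rcases List.mem_cons.1 hg with rfl | hg
      · exact h3 _ hf
      · exact h3 g hg
    · simp only [List.length_cons]
      omega

theorem G.sres {r m : ℕ} {L : List (TS n)} (h : G r m L) : G r m (sres L) := fun a ha => h a (mem_sres ha).1

theorem G.sninv {r m : ℕ} {L : List (TS n)} (h : G r m L) : G r (m + 1) (sninv L) := by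
  intro a ha
  obtain ⟨b, hb, hk, rfl⟩ := mem_sninv ha
  obtain ⟨h1, h2, h3, h4⟩ := h b hb
  refine ⟨h1.smul _, h2, fun g hg => ?_, ?_⟩
  · change g ∈ b.k :: b.F at hg
    rcases List.mem_cons.1 hg with rfl | hg
    · exact ⟨hk, h2⟩
    · exact h3 g hg
  · change m + 1 ≤ (b.k :: b.F).length
    simp only [List.length_cons]
    omega

theorem G.mul {r m r' m' : ℕ} {L L' : List (TS n)} (h : G r m L) (h' : G r' m' L') :
    G (r + r') (m + m') (mul L L') := by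
  intro a ha
  obtain ⟨b, hb, c, hc, e⟩ := mem_mul ha
  obtain ⟨h1, h2, h3, h4⟩ := h b hb
  obtain ⟨h1', h2', h3', h4'⟩ := h' c hc
  have ha1 : Cg a.a := by
    rcases e with rfl | rfl
    · exact h1.mul h1' _
    · exact h1.mul h1' _
  have haF : a.F = b.F ++ c.F := by
    rcases e with rfl | rfl
    · rfl
    · rfl
  refine ⟨ha1, fun i => ?_, ?_, ?_⟩
  · rcases e with rfl | rfl
    · have := abs_add_le (b.k i) (c.k i)
      have h5 := h2 i
      have h6 := h2' i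
      change |b.k i + c.k i| ≤ _
      push_cast
      linarith
    · have := abs_sub (b.k i) (c.k i)
      have h5 := h2 i
      have h6 := h2' i
      change |b.k i - c.k i| ≤ _
      push_cast
      linarith
  · rw [haF]
    intro f hf
    rcases List.mem_append.1 hf with hf | hf
    · refine ⟨(h3 f hf).1, fun i => ((h3 f hf).2 i).trans ?_⟩
      push_cast
      linarith [Int.natCast_nonneg r']
    · refine ⟨(h3' f hf).1, fun i => ((h3' f hf).2 i).trans ?_⟩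
      push_cast
      linarith [Int.natCast_nonneg r]
  · rw [haF, List.length_append]
    omega

theorem G.one : G 0 0 [one (n := n)] := by
  intro a ha
  rw [List.mem_singleton] at ha
  subst ha
  refine ⟨⟨contDiff_const, fun _ _ _ _ => rfl⟩, fun i => ?_, fun f hf => ?_, Nat.zero_le _⟩
  · simp [HJK.one]
  · simp [HJK.one] at hf

theorem G.pw {r m : ℕ} {L : List (TS n)} (h : G r m L) (j : ℕ) : G (j * r) (j * m) (pw L j) := by
  induction j with
  | zero => exact G.one.mono (by omega) (by omega)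
  | succ j ih =>
    rw [HJK.pw, Nat.succ_mul, Nat.succ_mul]
    exact ih.mul h

theorem G.Dp {r m : ℕ} {E Z : List (TS n)} (h : G r 0 E) (h' : G r m Z) (j : ℕ) : G (j * r) m (Dp E Z j) := by
  induction j with
  | zero => exact G.nil
  | succ j ih =>
    rw [HJK.Dp, Nat.succ_mul]
    refine G.append ?_ ?_
    · exact (ih.mul (h.append (h'.mono le_rfl (Nat.zero_le _)))).mono le_rfl (by omega)
    · exact ((h.pw j).mul h').mono le_rfl (by omega)

theorem G.good {r m : ℕ} {𝓕 : List (Fin n → ℤ)} (hF : ∀ f, f ∈ 𝓕 ↔ f ≠ 0 ∧ ∀ i, |f i| ≤ r)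
    {L : List (TS n)} (h : G r m L) : SGood 𝓕 L :=
  fun a ha => ⟨(h a ha).1.1, (h a ha).1.2, fun f hf => (hF f).2 ((h a ha).2.2.1 f hf)⟩

/-! ## locality -/

variable {A : ℝ → ℝ → ℝ}

theorem Loc.nil : Loc A ([] : List (TS n)) := fun a ha => by simp at ha

theorem Loc.append {L L' : List (TS n)} (h : Loc A L) (h' : Loc A L') : Loc A (L ++ L') := by
  intro a ha
  rcases List.mem_append.1 ha with ha | ha
  · exact h a ha
  · exact h' a ha

theorem Loc.flatMap {ι : Type*} {S : List ι} {f : ι → List (TS n)} (h : ∀ s ∈ S, Loc A (f s)) :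
    Loc A (S.flatMap f) := by
  intro a ha
  obtain ⟨s, hs, ha⟩ := List.mem_flatMap.1 ha
  exact h s hs a ha

theorem loc_d1 {a : ℝ → ℝ → ℝ → ℝ} (h : ∀ s t : ℝ, (∀ᶠ z in 𝓝 (s, t), A z.1 z.2 = 0) → ∀ r, a s r t = 0)
    (s t : ℝ) (hA : ∀ᶠ z in 𝓝 (s, t), A z.1 z.2 = 0) (r : ℝ) : d1 a s r t = 0 := by
  have h1 : ∀ᶠ z : ℝ × ℝ in 𝓝 (s, t), ∀ᶠ z' in 𝓝 z, A z'.1 z'.2 = 0 := eventually_eventually_nhds.2 hA
  have h2 : Tendsto (fun s' : ℝ => (s', t)) (𝓝 s) (𝓝 (s, t)) :=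
    (Continuous.prodMk continuous_id continuous_const).continuousAt
  have h3 : (fun s' => a s' r t) =ᶠ[𝓝 s] fun _ => 0 := (h2.eventually h1).mono fun s' h' => h s' t h' r
  have h4 := h3.deriv_eq
  change deriv (fun s' => a s' r t) s = 0
  rw [h4]
  simp

theorem loc_d3 {a : ℝ → ℝ → ℝ → ℝ} (h : ∀ s t : ℝ, (∀ᶠ z in 𝓝 (s, t), A z.1 z.2 = 0) → ∀ r, a s r t = 0)
    (s t : ℝ) (hA : ∀ᶠ z in 𝓝 (s, t), A z.1 z.2 = 0) (r : ℝ) : d3 a s r t = 0 := by
  have h1 : ∀ᶠ z : ℝ × ℝ in 𝓝 (s, t), ∀ᶠ z' in 𝓝 z, A z'.1 z'.2 = 0 := eventually_eventually_nhds.2 hA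
  have h2 : Tendsto (fun t' : ℝ => (s, t')) (𝓝 t) (𝓝 (s, t)) :=
    (Continuous.prodMk continuous_const continuous_id).continuousAt
  have h3 : (fun t' => a s r t') =ᶠ[𝓝 t] fun _ => 0 := (h2.eventually h1).mono fun t' h' => h s t' h' r
  have h4 := h3.deriv_eq
  change deriv (fun t' => a s r t') t = 0
  rw [h4]
  simp

theorem loc_d2 {a : ℝ → ℝ → ℝ → ℝ} (h : ∀ s t : ℝ, (∀ᶠ z in 𝓝 (s, t), A z.1 z.2 = 0) → ∀ r, a s r t = 0)
    (s t : ℝ) (hA : ∀ᶠ z in 𝓝 (s, t), A z.1 z.2 = 0) (r : ℝ) : d2 a s r t = 0 := by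
  have h3 : (fun r => a s r t) = fun _ => 0 := funext fun r => h s t hA r
  change deriv (fun r => a s r t) r = 0
  rw [h3]
  simp

theorem Loc.st {L : List (TS n)} (h : Loc A L) : Loc A (st L) := by
  intro a ha
  obtain ⟨b, hb, rfl⟩ := mem_st ha
  exact loc_d3 (h b hb)

theorem Loc.ss {L : List (TS n)} (h : Loc A L) : Loc A (ss L) := by
  intro a ha
  obtain ⟨b, hb, rfl⟩ := mem_ss ha
  exact loc_d1 (h b hb)

theorem Loc.ssit {L : List (TS n)} (h : Loc A L) (j : ℕ) : Loc A (SP.ss^[j] L) := by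
  induction j generalizing L with
  | zero => exact h
  | succ j ih => rw [Function.iterate_succ_apply]; exact ih (Loc.ss h)

theorem Loc.scal {L : List (TS n)} (h : Loc A L) (c : ℝ) : Loc A (scal c L) := by
  intro a ha
  obtain ⟨b, hb, rfl⟩ := mem_scal ha
  intro s t hA r
  change b.a s r t * c = 0
  rw [h b hb s t hA r, zero_mul]

theorem Loc.rds {L : List (TS n)} (h : Loc A L) : Loc A (rds L) := by
  intro a ha
  obtain ⟨b, hb, rfl⟩ := mem_rds ha
  intro s t hA r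
  change d1 b.a s r t * r = 0
  rw [loc_d1 (h b hb) s t hA r, zero_mul]

theorem Loc.sx {L : List (TS n)} (h : Loc A L) (i : Fin n) : Loc A (sx p i L) := by
  intro a ha
  obtain ⟨b, hb, rfl | rfl⟩ := mem_sx ha
  · intro s t hA r
    change d1 b.a s r t * p i = 0
    rw [loc_d1 (h b hb) s t hA r, zero_mul]
  · intro s t hA r
    change b.a s r t * _ = 0
    rw [h b hb s t hA r, zero_mul]

theorem Loc.sp {L : List (TS n)} (h : Loc A L) : Loc A (sp p L) := by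
  intro a ha
  obtain ⟨b, hb, rfl | ⟨f, hf, rfl⟩⟩ := mem_sp ha
  · intro s t hA r
    change d2 b.a s r t * _ = 0
    rw [loc_d2 (h b hb) s t hA r, zero_mul]
  · intro s t hA r
    change _ * b.a s r t = 0
    rw [h b hb s t hA r, mul_zero]

theorem Loc.sres {L : List (TS n)} (h : Loc A L) : Loc A (sres L) := fun a ha => h a (mem_sres ha).1

theorem Loc.sninv {L : List (TS n)} (h : Loc A L) : Loc A (sninv L) := by
  intro a ha
  obtain ⟨b, hb, hk, rfl⟩ := mem_sninv ha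
  intro s t hA r
  change b.a s r t * _ = 0
  rw [h b hb s t hA r, zero_mul]

theorem Loc.mul_left {L L' : List (TS n)} (h : Loc A L) : Loc A (mul L L') := by
  intro a ha
  obtain ⟨b, hb, c, hc, rfl | rfl⟩ := mem_mul ha
  · intro s t hA r
    change b.a s r t * c.a s r t * _ = 0
    rw [h b hb s t hA r, zero_mul, zero_mul]
  · intro s t hA r
    change b.a s r t * c.a s r t * _ = 0
    rw [h b hb s t hA r, zero_mul, zero_mul]

theorem Loc.mul_right {L L' : List (TS n)} (h : Loc A L') : Loc A (mul L L') := by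
  intro a ha
  obtain ⟨b, hb, c, hc, rfl | rfl⟩ := mem_mul ha
  · intro s t hA r
    change b.a s r t * c.a s r t * _ = 0
    rw [h c hc s t hA r, mul_zero, zero_mul]
  · intro s t hA r
    change b.a s r t * c.a s r t * _ = 0
    rw [h c hc s t hA r, mul_zero, zero_mul]

theorem loc_slowAt : Loc A [slowAt (n := n) A] := by
  intro a ha
  rw [List.mem_singleton] at ha
  subst ha
  intro s t hA r
  exact hA.self_of_nhds

end Pool.Agent.K9h32.SP.HJK
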