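import Pool.Agent.K9h32.SP.HJT2

/-!
# Formal perturbation series with smooth coefficients in time: the recursion
-/

set_option autoImplicit false

open Set Filter Topology
open scoped ContDiff

noncomputable section

namespace Pool.Agent.K9h32.SP.HJT

open Pool.Agent.N980.TL Pool.Agent.K9h32.SP

variable {n : ℕ}

/-- the series for the potential `Φ` -/
def VV (Φ : List (TA n)) : ℕ → List (TA n)
  | 0 => ninv (neg Φ)
  | l + 1 => ninv (tdt (VV Φ l) ++
      (List.finRange l).flatMap fun a => tP (VV Φ a.1) (VV Φ (l - 1 - a.1)))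
termination_by l => l
decreasing_by all_goals (first | omega | (have := a.2; omega))

theorem VV_zero (Φ : List (TA n)) : VV Φ 0 = ninv (neg Φ) := by rw [VV]

theorem VV_succ (Φ : List (TA n)) (l : ℕ) : VV Φ (l + 1) = ninv (tdt (VV Φ l) ++
    (List.finRange l).flatMap fun a => tP (VV Φ a.1) (VV Φ (l - 1 - a.1))) := by rw [VV]

/-- the chain -/
def CC (G : List (TA n)) : ℕ → List (TA n)
  | 0 => ninv (neg G)
  | l + 1 => ninv (tdt (CC G l))

/-- the rest of the difference -/
def XX (Φ G : List (TA n)) : ℕ → List (TA n)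
  | 0 => []
  | l + 1 => ninv (tdt (XX Φ G l) ++ (List.finRange l).flatMap fun a =>
      tP (VV Φ a.1) (CC G (l - 1 - a.1) ++ XX Φ G (l - 1 - a.1)) ++
      (tP (CC G a.1 ++ XX Φ G a.1) (VV Φ (l - 1 - a.1)) ++
        tP (CC G a.1 ++ XX Φ G a.1) (CC G (l - 1 - a.1) ++ XX Φ G (l - 1 - a.1))))
termination_by l => l
decreasing_by all_goals (first | omega | (have := a.2; omega))

/-- the difference -/
def RR (Φ G : List (TA n)) (l : ℕ) : List (TA n) := CC G l ++ XX Φ G l

theorem XX_zero (Φ G : List (TA n)) : XX Φ G 0 = [] := by rw [XX]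

theorem XX_succ (Φ G : List (TA n)) (l : ℕ) : XX Φ G (l + 1) = ninv (tdt (XX Φ G l) ++
    (List.finRange l).flatMap fun a => tP (VV Φ a.1) (RR Φ G (l - 1 - a.1)) ++
      (tP (RR Φ G a.1) (VV Φ (l - 1 - a.1)) ++ tP (RR Φ G a.1) (RR Φ G (l - 1 - a.1)))) := by
  rw [XX]; rfl

/-- the series for the sum -/
def UU (Φ G : List (TA n)) (l : ℕ) : List (TA n) := VV Φ l ++ RR Φ G l

/-! ## properties -/

/-- two-step induction principle for properties of the coefficients of `VV` -/
theorem VV_CP {p : (ℝ → ℝ) → Prop} (hs : ∀ (f : ℝ → ℝ) (c : ℝ), p f → p fun t => f t * c)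
    (hd : ∀ f : ℝ → ℝ, p f → p (deriv f))
    (hm : ∀ (f g : ℝ → ℝ) (c : ℝ), p f → p g → p fun t => f t * g t * c)
    {Φ : List (TA n)} (h : CP p Φ) (l : ℕ) : CP p (VV Φ l) := by
  induction l using Nat.strong_induction_on with
  | _ l ih =>
    cases l with
    | zero => rw [VV_zero]; exact (h.neg hs).ninv hs
    | succ l =>
      rw [VV_succ]
      refine CP.ninv (CP.append ((ih l (by omega)).tdt hd) (CP.flatMap fun a _ => ?_)) hs
      exact CP.tP (ih a.1 (by have := a.2; omega)) (ih (l - 1 - a.1) (by have := a.2; omega)) hm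

theorem VV_Sm {Φ : List (TA n)} (h : CP Sm Φ) (l : ℕ) : CP Sm (VV Φ l) :=
  VV_CP (fun _ c h => h.smul c) (fun _ h => h.deriv) (fun _ _ c h h' => h.mul3 h' c) h l

theorem VV_Pr {Φ : List (TA n)} (h : CP Pr Φ) (l : ℕ) : CP Pr (VV Φ l) :=
  VV_CP (fun _ c h => h.smul c) (fun _ h => h.deriv) (fun _ _ c h h' => h.mul3 h' c) h l

theorem VV_Ln (Φ : List (TA n)) (l : ℕ) : Ln (l + 1) (VV Φ l) := by
  induction l using Nat.strong_induction_on with
  | _ l ih =>
    cases l with
    | zero => rw [VV_zero]; exact Ln.ninv (m := 0) fun a _ => Nat.zero_le _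
    | succ l =>
      rw [VV_succ]
      refine Ln.ninv (Ln.append (ih l (by omega)).tdt (Ln.flatMap fun a _ => ?_))
      have ha := a.2
      exact ((ih a.1 (by omega)).tP (ih (l - 1 - a.1) (by omega))).mono (by omega)

theorem VV_Ms {Φ : List (TA n)} {ρ : ℕ} {q : Fin n → ℤ} (h : Ms ρ q Φ) (l : ℕ) :
    Ms ((l + 1) * ρ) q (VV Φ l) := by
  induction l using Nat.strong_induction_on with
  | _ l ih =>
    cases l with
    | zero => rw [VV_zero]; exact (h.neg.ninv).mono (by omega)
    | succ l =>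
      rw [VV_succ]
      refine Ms.ninv (Ms.append ((ih l (by omega)).tdt.mono (by nlinarith)) (Ms.flatMap fun a _ => ?_))
      have ha := a.2
      refine ((ih a.1 (by omega)).tP (ih (l - 1 - a.1) (by omega))).mono ?_
      rw [← add_mul]
      exact Nat.mul_le_mul_right _ (by omega)

theorem CC_CP {p : (ℝ → ℝ) → Prop} (hs : ∀ (f : ℝ → ℝ) (c : ℝ), p f → p fun t => f t * c)
    (hd : ∀ f : ℝ → ℝ, p f → p (deriv f)) {G : List (TA n)} (h : CP p G) (l : ℕ) : CP p (CC G l) := by
  induction l with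
  | zero => exact (h.neg hs).ninv hs
  | succ l ih => exact (ih.tdt hd).ninv hs

theorem CC_Ln (G : List (TA n)) (l : ℕ) : Ln (l + 1) (CC G l) := by
  induction l with
  | zero => exact Ln.ninv (m := 0) fun a _ => Nat.zero_le _
  | succ l ih => exact ih.tdt.ninv

theorem CC_Ms {G : List (TA n)} {ρ : ℕ} {q : Fin n → ℤ} (h : Ms ρ q G) (l : ℕ) : Ms ρ q (CC G l) := by
  induction l with
  | zero => exact h.neg.ninv
  | succ l ih => exact ih.tdt.ninv

theorem CC_Vn {G : List (TA n)} {m : ℕ} (h : CP (Vn m) G) (l : ℕ) : CP (Vn (m - l)) (CC G l) := by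
  induction l with
  | zero => exact (h.neg fun _ c h => h.smul c).ninv fun _ c h => h.smul c
  | succ l ih =>
    refine CP.ninv (CP.mono (ih.tdt (p' := Vn (m - l - 1)) fun f h => h.deriv') fun f hf => ?_)
      fun _ c h => h.smul c
    rwa [show m - (l + 1) = m - l - 1 by omega]

/-- `R` has the properties of both -/
theorem XX_Sm {Φ G : List (TA n)} (h : CP Sm Φ) (hG : CP Sm G) (l : ℕ) : CP Sm (XX Φ G l) := by
  induction l using Nat.strong_induction_on with
  | _ l ih =>
    cases l with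
    | zero => rw [XX_zero]; intro a ha; simp at ha
    | succ l =>
      rw [XX_succ]
      have hC := CC_CP (p := Sm) (fun _ c h => h.smul c) (fun _ h => h.deriv) hG
      have hR : ∀ b, b < l + 1 → CP Sm (RR Φ G b) := fun b hb => (hC b).append (ih b hb)
      have hV := VV_Sm h
      refine CP.ninv (CP.append ((ih l (by omega)).tdt fun _ h => h.deriv) (CP.flatMap fun a _ => ?_))
        fun _ c h => h.smul c
      have ha := a.2
      refine (CP.tP (hV _) (hR _ (by omega)) fun _ _ c h h' => h.mul3 h' c).append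
        ((CP.tP (hR _ (by omega)) (hV _) fun _ _ c h h' => h.mul3 h' c).append
          (CP.tP (hR _ (by omega)) (hR _ (by omega)) fun _ _ c h h' => h.mul3 h' c))

theorem RR_Sm {Φ G : List (TA n)} (h : CP Sm Φ) (hG : CP Sm G) (l : ℕ) : CP Sm (RR Φ G l) :=
  (CC_CP (p := Sm) (fun _ c h => h.smul c) (fun _ h => h.deriv) hG l).append (XX_Sm h hG l)

theorem XX_Zr {Φ G : List (TA n)} (h : CP Sm Φ) (hG : CP Zr G) (l : ℕ) : CP Zr (XX Φ G l) := by
  induction l using Nat.strong_induction_on with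
  | _ l ih =>
    cases l with
    | zero => rw [XX_zero]; intro a ha; simp at ha
    | succ l =>
      rw [XX_succ]
      have hC := CC_CP (p := Zr) (fun _ c h => h.smul c) (fun _ h => h.deriv) hG
      have hR : ∀ b, b < l + 1 → CP Zr (RR Φ G b) := fun b hb => (hC b).append (ih b hb)
      have hV := VV_Sm h
      refine CP.ninv (CP.append ((ih l (by omega)).tdt fun _ h => h.deriv) (CP.flatMap fun a _ => ?_))
        fun _ c h => h.smul c
      have ha := a.2
      refine (CP.tP (hV _) (hR _ (by omega)) fun _ _ c h h' => Zr.mul3' h h' c).append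
        ((CP.tP (hR _ (by omega)) (hV _) fun _ _ c h h' => h.mul3 h' c).append
          (CP.tP (hR _ (by omega)) (hR _ (by omega)) fun _ _ c h h' => h.mul3 h'.1 c))

theorem RR_Zr {Φ G : List (TA n)} (h : CP Sm Φ) (hG : CP Zr G) (l : ℕ) : CP Zr (RR Φ G l) :=
  (CC_CP (p := Zr) (fun _ c h => h.smul c) (fun _ h => h.deriv) hG l).append (XX_Zr h hG l)

theorem XX_Vn {Φ G : List (TA n)} {m : ℕ} (h : CP Sm Φ) (hG : CP (Vn m) G) (l : ℕ) :
    CP (Vn (m + 2 - l)) (XX Φ G l) := by
  induction l using Nat.strong_induction_on with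
  | _ l ih =>
    cases l with
    | zero => rw [XX_zero]; intro a ha; simp at ha
    | succ l =>
      rw [XX_succ]
      have hR : ∀ b, b < l + 1 → CP (Vn (m - b)) (RR Φ G b) := fun b hb =>
        (CC_Vn hG b).append ((ih b hb).mono fun f hf => hf.mono (by omega))
      have hV := VV_Sm h
      refine CP.ninv (CP.append (CP.mono ((ih l (by omega)).tdt (p' := Vn (m + 2 - l - 1))
        fun _ h => h.deriv') fun f hf => ?_) (CP.flatMap fun a _ => ?_)) fun _ c h => h.smul c
      · rwa [show m + 2 - (l + 1) = m + 2 - l - 1 by omega]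
      have ha := a.2
      have key : ∀ b, b < l → m + 2 - (l + 1) ≤ m - b := fun b hb => by omega
      refine (CP.mono (CP.tP (hV _) (hR _ (by omega)) fun _ _ c h h' => Vn.mul3' h h' c)
          fun f hf => hf.mono (key _ (by omega))).append
        ((CP.mono (CP.tP (hR _ (by omega)) (hV _) fun _ _ c h h' => h.mul3 h' c)
          fun f hf => hf.mono (key _ (by omega))).append
          (CP.mono (CP.tP (hR _ (by omega)) (hR _ (by omega)) fun _ _ c h h' => h.mul3 h'.sm c)
          fun f hf => hf.mono (key _ (by omega))))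

theorem XX_Ln (Φ G : List (TA n)) (l : ℕ) : Ln (l + 1) (XX Φ G l) := by
  induction l using Nat.strong_induction_on with
  | _ l ih =>
    cases l with
    | zero => rw [XX_zero]; intro a ha; simp at ha
    | succ l =>
      rw [XX_succ]
      have hR : ∀ b, b < l + 1 → Ln (b + 1) (RR Φ G b) := fun b hb => (CC_Ln G b).append (ih b hb)
      have hV := VV_Ln Φ
      refine Ln.ninv (Ln.append (ih l (by omega)).tdt (Ln.flatMap fun a _ => ?_))
      have ha := a.2
      exact (((hV _).tP (hR _ (by omega))).mono (by omega)).append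
        ((((hR _ (by omega)).tP (hV _)).mono (by omega)).append
          (((hR _ (by omega)).tP (hR _ (by omega))).mono (by omega)))

theorem RR_Ln (Φ G : List (TA n)) (l : ℕ) : Ln (l + 1) (RR Φ G l) := (CC_Ln G l).append (XX_Ln Φ G l)

theorem XX_Ms {Φ G : List (TA n)} {ρ : ℕ} {q : Fin n → ℤ} (h : Ms ρ q Φ) (hG : Ms ρ q G) (l : ℕ) :
    Ms ((l + 1) * ρ) q (XX Φ G l) := by
  induction l using Nat.strong_induction_on with
  | _ l ih =>
    cases l with
    | zero => rw [XX_zero]; intro a ha; simp at ha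
    | succ l =>
      rw [XX_succ]
      have hR : ∀ b, b < l + 1 → Ms ((b + 1) * ρ) q (RR Φ G b) := fun b hb =>
        ((CC_Ms hG b).mono (Nat.le_mul_of_pos_left _ (Nat.succ_pos b))).append (ih b hb)
      have hV := VV_Ms h
      refine Ms.ninv (Ms.append ((ih l (by omega)).tdt.mono (by nlinarith)) (Ms.flatMap fun a _ => ?_))
      have ha := a.2
      have key : (a.1 + 1) * ρ + (l - 1 - a.1 + 1) * ρ ≤ (l + 1 + 1) * ρ := by
        rw [← add_mul]
        exact Nat.mul_le_mul_right _ (by omega)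
      exact (((hV _).tP (hR _ (by omega))).mono key).append
        ((((hR _ (by omega)).tP (hV _)).mono key).append
          (((hR _ (by omega)).tP (hR _ (by omega))).mono key))

theorem RR_Ms {Φ G : List (TA n)} {ρ : ℕ} {q : Fin n → ℤ} (h : Ms ρ q Φ) (hG : Ms ρ q G) (l : ℕ) :
    Ms ((l + 1) * ρ) q (RR Φ G l) :=
  ((CC_Ms hG l).mono (Nat.le_mul_of_pos_left _ (Nat.succ_pos l))).append (XX_Ms h hG l)

/-! ## the equation -/

/-- `v` is not resonant -/
def NRv (r : ℕ) (q : Fin n → ℤ) (v : E n) : Prop := ∀ f : Fin n → ℤ, f ≠ 0 → Md r q f → dot f v ≠ 0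

/-- the second derivative -/
def s2 (L : List (TA n)) (x v : E n) (t : ℝ) (j i : Fin n) : ℝ := tev (tdx i (tdx j L)) x v t

/-- the gradient -/
def g1 (L : List (TA n)) (x v : E n) (t : ℝ) (i : Fin n) : ℝ := tev (tdx i L) x v t

/-- the derivative of one half of the product of the gradients -/
def q2 (L L' : List (TA n)) (x v : E n) (t : ℝ) (j : Fin n) : ℝ :=
  (∑ i, (s2 L x v t j i * g1 L' x v t i + g1 L x v t i * s2 L' x v t j i)) / 2

theorem tdx_tP' (L L' : List (TA n)) (x v : E n) (t : ℝ) (j : Fin n) :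
    tev (tdx j (tP L L')) x v t = q2 L L' x v t j := tdx_tP L L' x v t j

theorem s2_append (L L' : List (TA n)) (x v : E n) (t : ℝ) (j i : Fin n) :
    s2 (L ++ L') x v t j i = s2 L x v t j i + s2 L' x v t j i := by
  simp only [s2, tdx_append, tev_append]

theorem g1_append (L L' : List (TA n)) (x v : E n) (t : ℝ) (i : Fin n) :
    g1 (L ++ L') x v t i = g1 L x v t i + g1 L' x v t i := by
  simp only [g1, tdx_append, tev_append]

theorem q2_append (L L' M M' : List (TA n)) (x v : E n) (t : ℝ) (j : Fin n) :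
    q2 (L ++ L') (M ++ M') x v t j = q2 L M x v t j + q2 L M' x v t j + q2 L' M x v t j +
      q2 L' M' x v t j := by
  simp only [q2, s2_append, g1_append, ← add_div, ← Finset.sum_add_distrib]
  congr 1
  refine Finset.sum_congr rfl fun i _ => ?_
  ring

theorem finRange_sum (l : ℕ) (f : ℕ → ℝ) : ((List.finRange l).map fun a => f a.1).sum =
    ∑ a ∈ Finset.range l, f a := by
  rw [← List.ofFn_eq_map, List.sum_ofFn, Finset.sum_range]

/-- a solution of the recursion for `Φ`, `l < K` -/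
def Rec (Φ : List (TA n)) (U : ℕ → List (TA n)) (K : ℕ) (x v : E n) (t : ℝ) (j : Fin n) : Prop :=
  (∑ i, v i * s2 (U 0) x v t j i = tev (tdx j Φ) x v t) ∧
  ∀ l, l + 1 < K → ∑ i, v i * s2 (U (l + 1)) x v t j i =
    -(tev (tdx j (tdt (U l))) x v t + ∑ a ∈ Finset.range l, q2 (U a) (U (l - 1 - a)) x v t j)

theorem ninv_s2 {L : List (TA n)} {r : ℕ} {q : Fin n → ℤ} (h : Ms r q L) {v : E n} (hv : NRv r q v)
    (x : E n) (t : ℝ) (j : Fin n) : ∑ i, v i * s2 (ninv L) x v t j i = -tev (tdx j L) x v t :=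
  ninv_ev L x v t j fun a ha hk => hv _ hk (h a ha).1

theorem NRv.mono {r r' : ℕ} {q : Fin n → ℤ} {v : E n} (h : NRv r' q v) (hr : r ≤ r') : NRv r q v :=
  fun f hf hm => h f hf (hm.mono hr)

theorem VV_rec {Φ : List (TA n)} {ρ K : ℕ} {q : Fin n → ℤ} (h : Ms ρ q Φ) {v : E n}
    (hv : NRv (K * ρ) q v) (hK : 1 ≤ K) (x : E n) (t : ℝ) (j : Fin n) : Rec Φ (VV Φ) K x v t j := by
  constructor
  · rw [VV_zero, ninv_s2 h.neg (hv.mono (Nat.le_mul_of_pos_left _ hK)), neg_ev, neg_neg]
  · intro l hl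
    have hm : Ms (K * ρ) q (tdt (VV Φ l) ++
        (List.finRange l).flatMap fun a => tP (VV Φ a.1) (VV Φ (l - 1 - a.1))) := by
      refine Ms.append ((VV_Ms h l).tdt.mono (Nat.mul_le_mul_right _ (by omega))) (Ms.flatMap fun a _ => ?_)
      have ha := a.2
      refine ((VV_Ms h a.1).tP (VV_Ms h (l - 1 - a.1))).mono ?_
      rw [← add_mul]
      exact Nat.mul_le_mul_right _ (by omega)
    rw [VV_succ, ninv_s2 hm hv, tdx_append, tev_append, tdx_flatMap, tev_flatMap]
    simp only [tdx_tP']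
    rw [finRange_sum l fun a => q2 (VV Φ a) (VV Φ (l - 1 - a)) x v t j]

theorem UU_rec {Φ G : List (TA n)} {ρ K : ℕ} {q : Fin n → ℤ} (h : Ms ρ q Φ) (hG : Ms ρ q G) {v : E n}
    (hv : NRv (K * ρ) q v) (hK : 1 ≤ K) (x : E n) (t : ℝ) (j : Fin n) :
    Rec (Φ ++ G) (UU Φ G) K x v t j := by
  have hV := VV_rec h hv hK x t j
  constructor
  · have e1 : ∑ i, v i * s2 (CC G 0) x v t j i = tev (tdx j G) x v t := by
      change ∑ i, v i * s2 (ninv (neg G)) x v t j i = _
      rw [ninv_s2 hG.neg (hv.mono (Nat.le_mul_of_pos_left _ hK)), neg_ev, neg_neg]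
    have e2 : ∀ i, v i * s2 (UU Φ G 0) x v t j i = v i * s2 (VV Φ 0) x v t j i +
        v i * s2 (CC G 0) x v t j i := by
      intro i
      simp only [UU, RR, XX_zero, List.append_nil, s2_append]
      ring
    rw [Finset.sum_congr rfl fun i _ => e2 i, Finset.sum_add_distrib, hV.1, e1, tdx_append, tev_append]
  · intro l hl
    have hC : ∑ i, v i * s2 (CC G (l + 1)) x v t j i = -tev (tdx j (tdt (CC G l))) x v t := by
      change ∑ i, v i * s2 (ninv (tdt (CC G l))) x v t j i = _
      exact ninv_s2 (CC_Ms hG l).tdt (hv.mono (Nat.le_mul_of_pos_left _ hK)) x t j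
    have hm : Ms (K * ρ) q (tdt (XX Φ G l) ++
        (List.finRange l).flatMap fun a => tP (VV Φ a.1) (RR Φ G (l - 1 - a.1)) ++
          (tP (RR Φ G a.1) (VV Φ (l - 1 - a.1)) ++ tP (RR Φ G a.1) (RR Φ G (l - 1 - a.1)))) := by
      refine Ms.append ((XX_Ms h hG l).tdt.mono (Nat.mul_le_mul_right _ (by omega)))
        (Ms.flatMap fun a _ => ?_)
      have ha := a.2
      have key : (a.1 + 1) * ρ + (l - 1 - a.1 + 1) * ρ ≤ K * ρ := by
        rw [← add_mul]
        exact Nat.mul_le_mul_right _ (by omega)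
      exact (((VV_Ms h _).tP (RR_Ms h hG _)).mono key).append
        ((((RR_Ms h hG _).tP (VV_Ms h _)).mono key).append (((RR_Ms h hG _).tP (RR_Ms h hG _)).mono key))
    have hX : ∑ i, v i * s2 (XX Φ G (l + 1)) x v t j i = -(tev (tdx j (tdt (XX Φ G l))) x v t +
        ∑ a ∈ Finset.range l, (q2 (VV Φ a) (RR Φ G (l - 1 - a)) x v t j +
          (q2 (RR Φ G a) (VV Φ (l - 1 - a)) x v t j + q2 (RR Φ G a) (RR Φ G (l - 1 - a)) x v t j))) := by
      rw [XX_succ, ninv_s2 hm hv, tdx_append, tev_append, tdx_flatMap, tev_flatMap]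
      simp only [tdx_append, tev_append, tdx_tP']
      rw [finRange_sum l fun a => q2 (VV Φ a) (RR Φ G (l - 1 - a)) x v t j +
          (q2 (RR Φ G a) (VV Φ (l - 1 - a)) x v t j + q2 (RR Φ G a) (RR Φ G (l - 1 - a)) x v t j)]
    have e2 : ∀ i, v i * s2 (UU Φ G (l + 1)) x v t j i = v i * s2 (VV Φ (l + 1)) x v t j i +
        (v i * s2 (CC G (l + 1)) x v t j i + v i * s2 (XX Φ G (l + 1)) x v t j i) := by
      intro i
      simp only [UU, RR, s2_append]
      ring
    have e3 : ∀ a, q2 (UU Φ G a) (UU Φ G (l - 1 - a)) x v t j =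
        q2 (VV Φ a) (VV Φ (l - 1 - a)) x v t j + (q2 (VV Φ a) (RR Φ G (l - 1 - a)) x v t j +
          (q2 (RR Φ G a) (VV Φ (l - 1 - a)) x v t j + q2 (RR Φ G a) (RR Φ G (l - 1 - a)) x v t j)) := by
      intro a
      simp only [UU, q2_append]
      ring
    rw [Finset.sum_congr rfl fun i _ => e2 i, Finset.sum_add_distrib, Finset.sum_add_distrib, hV.2 l hl, hC, hX,
      Finset.sum_congr rfl fun a _ => e3 a]
    simp only [Finset.sum_add_distrib, UU, RR, tdt_append, tdx_append, tev_append]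
    ring

end Pool.Agent.K9h32.SP.HJT
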