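import Pool.Agent.K9h32.SP.Pass1

/-!
# Sums of atoms with slow coefficients: bounds, commutation, Taylor's formula
-/

set_option autoImplicit false

open Set Filter Topology
open scoped ContDiff

noncomputable section

namespace Pool.Agent.K9h32.SP

open Pool.Agent.N980.TL

variable {n : ℕ}

/-! ## Closure properties -/

theorem SGood.app {𝓕 : List (Fin n → ℤ)} {L L' : List (TS n)} (h : SGood 𝓕 L) (h' : SGood 𝓕 L') :
    SGood 𝓕 (L ++ L') := by
  intro a ha
  rcases List.mem_append.1 ha with h1 | h1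
  · exact h a h1
  · exact h' a h1

theorem SGood.cs {𝓕 : List (Fin n → ℤ)} {L : List (TS n)} (h : SGood 𝓕 L) : ∀ a ∈ L, CS a.a := fun a ha => (h a ha).1

theorem SGood.ss {𝓕 : List (Fin n → ℤ)} {L : List (TS n)} (h : SGood 𝓕 L) : SGood 𝓕 (ss L) := by
  intro b hb
  obtain ⟨a, ha, rfl⟩ := List.mem_map.1 hb
  exact ⟨CS.d1 (h a ha).1, Pr.d1 (h a ha).2.1, (h a ha).2.2⟩

theorem SGood.st {𝓕 : List (Fin n → ℤ)} {L : List (TS n)} (h : SGood 𝓕 L) : SGood 𝓕 (st L) := by
  intro b hb
  obtain ⟨a, ha, rfl⟩ := List.mem_map.1 hb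
  exact ⟨CS.d3 (h a ha).1, Pr.d3 (h a ha).2.1, (h a ha).2.2⟩

theorem SGood.kx {𝓕 : List (Fin n → ℤ)} {L : List (TS n)} (h : SGood 𝓕 L) (i : Fin n) : SGood 𝓕 (kx i L) := by
  intro b hb
  obtain ⟨a, ha, rfl⟩ := List.mem_map.1 hb
  refine ⟨CS.mulc (h a ha).1 _, fun s r t m => ?_, (h a ha).2.2⟩
  show a.a (s + m) r t * _ = a.a s r t * _
  rw [(h a ha).2.1]

theorem SGood.sx {𝓕 : List (Fin n → ℤ)} {L : List (TS n)} (h : SGood 𝓕 L) (p : Fin n → ℤ) (i : Fin n) :
    SGood 𝓕 (sx p i L) := by
  intro b hb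
  obtain ⟨a, ha, hb⟩ := List.mem_flatMap.1 hb
  rcases List.mem_cons.1 hb with rfl | hb
  · refine ⟨CS.mulc (CS.d1 (h a ha).1) _, fun s r t m => ?_, (h a ha).2.2⟩
    show SP.d1 a.a (s + m) r t * _ = SP.d1 a.a s r t * _
    rw [Pr.d1 (h a ha).2.1]
  · rcases List.mem_cons.1 hb with rfl | hb
    · refine ⟨CS.mulc (h a ha).1 _, fun s r t m => ?_, (h a ha).2.2⟩
      show a.a (s + m) r t * _ = a.a s r t * _
      rw [(h a ha).2.1]
    · simp at hb

theorem SGood.sp {𝓕 : List (Fin n → ℤ)} {L : List (TS n)} (h : SGood 𝓕 L) (p : Fin n → ℤ) :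
    SGood 𝓕 (sp p L) := by
  intro b hb
  obtain ⟨a, ha, hb⟩ := List.mem_flatMap.1 hb
  rcases List.mem_cons.1 hb with rfl | hb
  · refine ⟨CS.mulc (CS.d2 (h a ha).1) _, fun s r t m => ?_, (h a ha).2.2⟩
    show SP.d2 a.a (s + m) r t * _ = SP.d2 a.a s r t * _
    rw [Pr.d2 (h a ha).2.1]
  · obtain ⟨f, hf, rfl⟩ := List.mem_map.1 hb
    refine ⟨CS.cmul (h a ha).1 _, fun s r t m => ?_, fun g hg => ?_⟩
    · show _ * a.a (s + m) r t = _ * a.a s r t
      rw [(h a ha).2.1]
    · rcases List.mem_cons.1 hg with rfl | hg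
      · exact (h a ha).2.2 _ hf
      · exact (h a ha).2.2 _ hg

theorem SGood.ssi {𝓕 : List (Fin n → ℤ)} {L : List (TS n)} (h : SGood 𝓕 L) (i : ℕ) : SGood 𝓕 (SP.ss^[i] L) := by
  induction i with
  | zero => exact h
  | succ i ih => rw [Function.iterate_succ_apply']; exact ih.ss

/-- the least number of factors -/
def Len (m : ℕ) (L : List (TS n)) : Prop := ∀ a ∈ L, m ≤ a.F.length

theorem Len.app {m : ℕ} {L L' : List (TS n)} (h : Len m L) (h' : Len m L') : Len m (L ++ L') := by
  intro a ha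
  rcases List.mem_append.1 ha with h1 | h1
  · exact h a h1
  · exact h' a h1

theorem Len.ss {m : ℕ} {L : List (TS n)} (h : Len m L) : Len m (SP.ss L) := by
  intro b hb
  obtain ⟨a, ha, rfl⟩ := List.mem_map.1 hb
  exact h a ha

theorem Len.st {m : ℕ} {L : List (TS n)} (h : Len m L) : Len m (SP.st L) := by
  intro b hb
  obtain ⟨a, ha, rfl⟩ := List.mem_map.1 hb
  exact h a ha

theorem Len.kx {m : ℕ} {L : List (TS n)} (h : Len m L) (i : Fin n) : Len m (SP.kx i L) := by
  intro b hb
  obtain ⟨a, ha, rfl⟩ := List.mem_map.1 hb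
  exact h a ha

theorem Len.sx {m : ℕ} {L : List (TS n)} (h : Len m L) (p : Fin n → ℤ) (i : Fin n) : Len m (SP.sx p i L) := by
  intro b hb
  obtain ⟨a, ha, hb⟩ := List.mem_flatMap.1 hb
  rcases List.mem_cons.1 hb with rfl | hb
  · exact h a ha
  · rcases List.mem_cons.1 hb with rfl | hb
    · exact h a ha
    · simp at hb

theorem Len.sp {m : ℕ} {L : List (TS n)} (h : Len m L) (p : Fin n → ℤ) : Len m (SP.sp p L) := by
  intro b hb
  obtain ⟨a, ha, hb⟩ := List.mem_flatMap.1 hb
  rcases List.mem_cons.1 hb with rfl | hb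
  · exact h a ha
  · obtain ⟨f, hf, rfl⟩ := List.mem_map.1 hb
    exact (h a ha).trans (Nat.le_succ _)

theorem Len.zero (L : List (TS n)) : Len 0 L := fun _ _ => Nat.zero_le _

/-- the bound of the values -/
theorem gev_bnd {𝓕 : List (Fin n → ℤ)} {m : ℕ} (p : Fin n → ℤ) (L : List (TS n)) (hL : SGood 𝓕 L)
    (hm : Len m L) (K T0 T : ℝ) : ∃ C : ℝ, 0 ≤ C ∧ ∀ lam : ℝ, 1 ≤ lam → ∀ P : E n, Reg 𝓕 lam P →
      |dot p P| ≤ K → ∀ (S : ℝ) (x : E n), ∀ t ∈ Icc T0 T, |gev p L S x P t| ≤ C / lam ^ m := by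
  induction L with
  | nil => exact ⟨0, le_refl _, fun lam hl P hP hK S x t ht => by simp⟩
  | cons a L ih =>
    have ha := hL a List.mem_cons_self
    obtain ⟨C1, hC1, h1⟩ := ih (fun b hb => hL b (List.mem_cons_of_mem _ hb))
      (fun b hb => hm b (List.mem_cons_of_mem _ hb))
    obtain ⟨A, hA, hA'⟩ := coefS_bdd ha.1 ha.2.1 K T0 T
    refine ⟨A * 2 ^ a.F.length + C1, by positivity, fun lam hl P hP hK S x t ht => ?_⟩
    rw [gev_cons, add_div]
    refine (abs_add_le _ _).trans (add_le_add ?_ (h1 lam hl P hP hK S x t ht))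
    rw [gv, abs_mul, abs_mul]
    have h2 := tp_le (by linarith) hP a.F ha.2.2
    have h3 := (h2.trans (pow_bnd hl (hm a List.mem_cons_self)))
    have h4 : |Real.cos (2 * Real.pi * dot a.k x + a.φ)| ≤ 1 := Real.abs_cos_le_one _
    calc |a.a S (dot p P) t| * |tp a.F P| * |Real.cos (2 * Real.pi * dot a.k x + a.φ)|
        ≤ A * (2 ^ a.F.length / lam ^ m) * 1 :=
          mul_le_mul (mul_le_mul (hA' S _ hK t ht) h3 (abs_nonneg _) hA) h4 (abs_nonneg _) (by positivity)
      _ = A * 2 ^ a.F.length / lam ^ m := by ring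

/-! ## Commutation -/

theorem ss_append (L L' : List (TS n)) : ss (L ++ L') = ss L ++ ss L' := by simp [ss]
theorem kx_append (i : Fin n) (L L' : List (TS n)) : kx i (L ++ L') = kx i L ++ kx i L' := by simp [kx]

theorem ss_sp (p : Fin n → ℤ) (L : List (TS n)) (hL : ∀ a ∈ L, CS a.a) : ss (sp p L) = sp p (ss L) := by
  induction L with
  | nil => rfl
  | cons a L ih =>
    rw [sp_cons, ss_append, ss_cons, sp_cons, ih fun b hb => hL b (List.mem_cons_of_mem _ hb)]
    congr 1
    have ha := hL a List.mem_cons_self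
    rw [sp1, ss_cons, sp1]
    congr 1
    · simp only [d1_mulc, d12 ha]
    · simp only [ss, List.map_map]
      refine List.map_congr_left fun f _ => ?_
      simp only [Function.comp, d1_cmul]

theorem kx_sp (p : Fin n → ℤ) (i : Fin n) (L : List (TS n)) : kx i (sp p L) = sp p (kx i L) := by
  induction L with
  | nil => rfl
  | cons a L ih =>
    rw [sp_cons, kx_append, kx_cons, sp_cons, ih]
    congr 1
    rw [sp1, kx_cons, sp1]
    congr 1
    · simp only [d2_mulc]
      congr 1
      funext s r t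
      ring
    · simp only [kx, List.map_map]
      refine List.map_congr_left fun f _ => ?_
      simp only [Function.comp]
      congr 1
      funext s r t
      ring

/-- `p·∂_P` and `∂/∂x_j` commute -/
theorem gev_sx_sp (p : Fin n → ℤ) (j : Fin n) (L : List (TS n)) (hL : ∀ a ∈ L, CS a.a) (S : ℝ) (x P : E n) (t : ℝ) :
    gev p (sx p j (sp p L)) S x P t = p j * gev p (sp p (ss L)) S x P t + gev p (sp p (kx j L)) S x P t := by
  rw [gev_sx, ss_sp p L hL, kx_sp]

theorem gev_map_mul (p : Fin n → ℤ) (c : ℝ) (L : List (TS n)) (S : ℝ) (x P : E n) (t : ℝ) :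
    gev p (L.map fun a => { a with a := fun s r t => a.a s r t * c }) S x P t = c * gev p L S x P t := by
  induction L with
  | nil => simp
  | cons a L ih =>
    rw [List.map_cons, gev_cons, gev_cons, ih]
    simp only [gv]
    ring

theorem gev_sp_sx (p : Fin n → ℤ) (j : Fin n) (L : List (TS n)) (S : ℝ) (x P : E n) (t : ℝ) :
    gev p (sp p (sx p j L)) S x P t = p j * gev p (sp p (ss L)) S x P t + gev p (sp p (kx j L)) S x P t := by
  induction L with
  | nil => simp [sx, ss, kx, sp]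
  | cons a L ih =>
    rw [sx_cons, sp_cons, sp_cons, ss_cons, kx_cons, sp_cons, sp_cons, gev_append, gev_append, gev_append,
      gev_append, ih]
    have e : gev p (sp1 p { a with a := fun s r t => SP.d1 a.a s r t * p j }) S x P t =
        p j * gev p (sp1 p { a with a := SP.d1 a.a }) S x P t := by
      simp only [sp1, gev_cons, gev_spF (a := { a with a := fun s r t => SP.d1 a.a s r t * p j }),
        gev_spF (a := { a with a := SP.d1 a.a }), d2_mulc, gv]
      ring
    rw [e]
    ring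

/-- `p·∂_P` and `∂/∂x_j` commute -/
theorem sp_sx (p : Fin n → ℤ) (j : Fin n) (L : List (TS n)) (hL : ∀ a ∈ L, CS a.a) (S : ℝ) (x P : E n) (t : ℝ) :
    gev p (sp p (sx p j L)) S x P t = gev p (sx p j (sp p L)) S x P t := by
  rw [gev_sx_sp p j L hL, gev_sp_sx]

/-- `∂_t` and `∂/∂x_j` commute -/
theorem st_sx (p : Fin n → ℤ) (j : Fin n) (L : List (TS n)) (hL : ∀ a ∈ L, CS a.a) :
    st (sx p j L) = sx p j (st L) := by
  induction L with
  | nil => rfl
  | cons a L ih =>
    rw [sx_cons, st_cons, st_cons, st_cons, sx_cons, ih fun b hb => hL b (List.mem_cons_of_mem _ hb)]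
    have ha := hL a List.mem_cons_self
    simp only [d3_mulc, d13 ha]

theorem ss_sx (p : Fin n → ℤ) (j : Fin n) (L : List (TS n)) : ss (sx p j L) = sx p j (ss L) := by
  induction L with
  | nil => rfl
  | cons a L ih =>
    rw [sx_cons, ss_cons, ss_cons, ss_cons, sx_cons, ih]
    simp only [d1_mulc]

theorem kx_ss (j : Fin n) (L : List (TS n)) : kx j (ss L) = ss (kx j L) := by
  induction L with
  | nil => rfl
  | cons a L ih =>
    rw [kx_cons, ss_cons, ss_cons, kx_cons, ih]
    simp only [d1_mulc]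

theorem kx_sx (p : Fin n → ℤ) (i j : Fin n) (L : List (TS n)) : kx i (sx p j L) = sx p j (kx i L) := by
  induction L with
  | nil => rfl
  | cons a L ih =>
    rw [sx_cons, kx_cons, kx_cons, kx_cons, sx_cons, ih]
    congr 1
    · simp only [d1_mulc]
      congr 1
      funext s r t
      ring
    · congr 2
      funext s r t
      ring

theorem kx_kx (i j : Fin n) (L : List (TS n)) : kx i (kx j L) = kx j (kx i L) := by
  induction L with
  | nil => rfl
  | cons a L ih =>
    rw [kx_cons, kx_cons, kx_cons, kx_cons, ih]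
    congr 2
    funext s r t
    ring

/-- the second derivatives commute -/
theorem sx_sx (p : Fin n → ℤ) (i j : Fin n) (L : List (TS n)) (S : ℝ) (x P : E n) (t : ℝ) :
    gev p (sx p i (sx p j L)) S x P t = gev p (sx p j (sx p i L)) S x P t := by
  rw [gev_sx, ss_sx, kx_sx, gev_sx, gev_sx, kx_ss, gev_sx p j (sx p i L), ss_sx, kx_sx, gev_sx, gev_sx, kx_ss,
    kx_kx i j]
  ring

/-! ## Atoms with coefficients depending on time -/

theorem tp_eq_prod (F : List (Fin n → ℤ)) (v : E n) : (F.map fun f => (dot f v)⁻¹).prod = tp F v := rfl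

theorem emb_ev (p : Fin n → ℤ) (L : List (TA n)) (S : ℝ) (x P : E n) (t : ℝ) :
    gev p (emb L) S x P t = tev L x P t := by
  induction L with
  | nil => rfl
  | cons a L ih =>
    have e : emb (a :: L) = { a := fun _ _ t => a.a t, F := a.F, k := a.k, φ := a.φ } :: emb L := rfl
    rw [e, gev_cons, tev_cons, ih]
    rfl

theorem emb_kx (p : Fin n → ℤ) (i : Fin n) (L : List (TA n)) : kx i (emb L) = emb (tdx i L) := by
  induction L with
  | nil => rfl
  | cons a L ih =>
    have e : emb (a :: L) = { a := fun _ _ t => a.a t, F := a.F, k := a.k, φ := a.φ } :: emb L := rfl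
    rw [e, kx_cons, ih]
    rfl

theorem emb_st (L : List (TA n)) : st (emb L) = emb (tdt L) := by
  induction L with
  | nil => rfl
  | cons a L ih =>
    have e : emb (a :: L) = { a := fun _ _ t => a.a t, F := a.F, k := a.k, φ := a.φ } :: emb L := rfl
    rw [e, st_cons, ih]
    rfl

theorem emb_ss (p : Fin n → ℤ) (L : List (TA n)) (S : ℝ) (x P : E n) (t : ℝ) :
    gev p (ss (emb L)) S x P t = 0 := by
  induction L with
  | nil => rfl
  | cons a L ih =>
    have e : emb (a :: L) = { a := fun _ _ t => a.a t, F := a.F, k := a.k, φ := a.φ } :: emb L := rfl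
    rw [e, ss_cons, gev_cons, ih]
    simp [gv, SP.d1]

theorem emb_sx (p : Fin n → ℤ) (i : Fin n) (L : List (TA n)) (S : ℝ) (x P : E n) (t : ℝ) :
    gev p (sx p i (emb L)) S x P t = tev (tdx i L) x P t := by
  rw [gev_sx, emb_ss, emb_kx p, emb_ev]
  ring

theorem emb_sx_sx (p : Fin n → ℤ) (i j : Fin n) (L : List (TA n)) (S : ℝ) (x P : E n) (t : ℝ) :
    gev p (sx p i (sx p j (emb L))) S x P t = tev (tdx i (tdx j L)) x P t := by
  rw [gev_sx, ss_sx, kx_sx, gev_sx, gev_sx, emb_kx p, emb_kx p, emb_ev, kx_ss, emb_kx p, emb_ss, emb_ss]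
  have e : gev p (ss (ss (emb L))) S x P t = 0 := by
    clear i j
    induction L with
    | nil => rfl
    | cons a L ih =>
      have e : emb (a :: L) = { a := fun _ _ t => a.a t, F := a.F, k := a.k, φ := a.φ } :: emb L := rfl
      rw [e, ss_cons, ss_cons, gev_cons, ih]
      simp [gv, SP.d1]
  rw [e]
  have e2 : tdx j (tdx i L) = tdx j (tdx i L) := rfl
  have e3 : tev (tdx j (tdx i L)) x P t = tev (tdx i (tdx j L)) x P t := by
    clear e e2
    induction L with
    | nil => rfl
    | cons a L ih =>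
      simp only [tdx_cons, tev_cons, ih]
      congr 1
      simp only [TA.ev, ax]
      ring
  rw [e3]
  ring

theorem emb_st_sx (p : Fin n → ℤ) (j : Fin n) (L : List (TA n)) (hL : ∀ a ∈ L, ContDiff ℝ ∞ a.a)
    (S : ℝ) (x P : E n) (t : ℝ) :
    gev p (st (sx p j (emb L))) S x P t = tev (tdt (tdx j L)) x P t := by
  have hc : ∀ a ∈ emb L, CS a.a := by
    intro b hb
    obtain ⟨a, ha, rfl⟩ := List.mem_map.1 hb
    exact (hL a ha).comp (contDiff_snd.comp contDiff_snd)
  rw [st_sx p j _ hc, emb_st, emb_sx]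
  induction L with
  | nil => rfl
  | cons a L ih =>
    have ih' := ih (fun b hb => hL b (List.mem_cons_of_mem _ hb)) (by
      intro b hb
      obtain ⟨a, ha, rfl⟩ := List.mem_map.1 hb
      exact (hL a (List.mem_cons_of_mem _ ha)).comp (contDiff_snd.comp contDiff_snd))
    simp only [tdx_cons, tdt_cons, tev_cons, ih']
    congr 1
    simp only [TA.ev, ax, at']
    rw [deriv_mul_const_field]

/-! ## Averaged sums -/

/-- no dependence on the fast position -/
def K0 (L : List (TS n)) : Prop := ∀ a ∈ L, a.k = 0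

theorem K0.ss {L : List (TS n)} (h : K0 L) : K0 (SP.ss L) := by
  intro b hb
  obtain ⟨a, ha, rfl⟩ := List.mem_map.1 hb
  exact h a ha

theorem K0.ssi {L : List (TS n)} (h : K0 L) (i : ℕ) : K0 (SP.ss^[i] L) := by
  induction i with
  | zero => exact h
  | succ i ih => rw [Function.iterate_succ_apply']; exact ih.ss

theorem dot_zero_left (x : E n) : dot (0 : Fin n → ℤ) x = 0 := by simp [dot]

theorem K0.indep {L : List (TS n)} (h : K0 L) (p : Fin n → ℤ) (S : ℝ) (x y P : E n) (t : ℝ) :
    gev p L S x P t = gev p L S y P t := by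
  induction L with
  | nil => rfl
  | cons a L ih =>
    rw [gev_cons, gev_cons, ih fun b hb => h b (List.mem_cons_of_mem _ hb)]
    simp only [gv, h a List.mem_cons_self, dot_zero_left]

theorem K0.kx {L : List (TS n)} (h : K0 L) (p : Fin n → ℤ) (i : Fin n) (S : ℝ) (x P : E n) (t : ℝ) :
    gev p (kx i L) S x P t = 0 := by
  induction L with
  | nil => rfl
  | cons a L ih =>
    rw [kx_cons, gev_cons, ih fun b hb => h b (List.mem_cons_of_mem _ hb)]
    simp [gv, h a List.mem_cons_self]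

/-! ## Taylor's formula -/

theorem taylor_seq (m : ℕ) : ∀ (F : ℕ → ℝ → ℝ), (∀ i S, HasDerivAt (F i) (F (i + 1) S) S) → ∀ C : ℝ, 0 ≤ C →
    (∀ S, |F m S| ≤ C) → ∀ s η : ℝ,
      |F 0 (s + η) - ∑ i ∈ Finset.range m, F i s * η ^ i / (i.factorial : ℝ)| ≤ C * |η| ^ m := by
  induction m with
  | zero => intro F _ C _ hC s η; simpa using hC (s + η)
  | succ m ih =>
    intro F hF C hC0 hC s η
    have ih' := ih (fun i => F (i + 1)) (fun i S => hF (i + 1) S) C hC0 hC s
    set g : ℝ → ℝ := fun u => F 0 (s + u) - ∑ i ∈ Finset.range (m + 1), F i s * u ^ i / (i.factorial : ℝ) with hg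
    have hd : ∀ u, HasDerivAt g (F 1 (s + u) - ∑ i ∈ Finset.range m, F (i + 1) s * u ^ i / (i.factorial : ℝ)) u := by
      intro u
      have h1 : HasDerivAt (fun u => F 0 (s + u)) (F 1 (s + u)) u := by
        have := (hF 0 (s + u)).comp_const_add s u
        simpa using this
      have h2 : HasDerivAt (fun u => ∑ i ∈ Finset.range (m + 1), F i s * u ^ i / (i.factorial : ℝ))
          (∑ i ∈ Finset.range (m + 1), F i s * ((i : ℝ) * u ^ (i - 1)) / (i.factorial : ℝ)) u := by
        refine HasDerivAt.fun_sum fun i _ => ?_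
        exact ((hasDerivAt_pow i u).const_mul (F i s)).div_const _
      refine (h1.sub h2).congr_deriv ?_
      congr 1
      rw [Finset.sum_range_succ']
      simp only [Nat.cast_zero, zero_mul, mul_zero, zero_div, add_zero]
      refine Finset.sum_congr rfl fun i _ => ?_
      rw [Nat.add_sub_cancel, Nat.factorial_succ]
      have : ((i : ℝ) + 1) ≠ 0 := by positivity
      have h3 : (i.factorial : ℝ) ≠ 0 := by positivity
      push_cast
      field_simp
    have h0 : g 0 = 0 := by
      simp only [hg, add_zero]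
      rw [Finset.sum_range_succ']
      simp
    have h4 := Convex.norm_image_sub_le_of_norm_hasDerivWithin_le (f := g) (s := Icc (-|η|) |η|) (C := C * |η| ^ m)
      (f' := fun u => F 1 (s + u) - ∑ i ∈ Finset.range m, F (i + 1) s * u ^ i / (i.factorial : ℝ))
      (fun u _ => (hd u).hasDerivWithinAt) (fun u hu => by
        rw [Real.norm_eq_abs]
        refine (ih' u).trans ?_
        have : |u| ≤ |η| := abs_le.2 ⟨hu.1, hu.2⟩
        gcongr) (convex_Icc _ _)
      (x := 0) (y := η) ⟨by simpa using abs_nonneg η, abs_nonneg η⟩ ⟨neg_abs_le η, le_abs_self η⟩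
    rw [h0, sub_zero, sub_zero, Real.norm_eq_abs, Real.norm_eq_abs] at h4
    calc _ = |g η| := rfl
      _ ≤ C * |η| ^ m * |η| := h4
      _ = C * |η| ^ (m + 1) := by ring

end Pool.Agent.K9h32.SP
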