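import Pool.Agent.K9h32.SP.Pass2

/-!
# The differentiated Hamilton-Jacobi identity, the scalar equation of the transversal velocity
-/

set_option autoImplicit false

open Set Filter Topology
open scoped ContDiff NNReal

noncomputable section

namespace Pool.Agent.K9h32.SP

open Pool.Agent.N980.TL

variable {n : ℕ}

theorem dot_single (p : Fin n → ℤ) (j : Fin n) : dot p (Pi.single j 1 : E n) = p j := by
  simp [dot, Pi.single_apply]

/-- the derivative in the direction of a coordinate -/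
theorem sev_line {𝓕 : List (Fin n → ℤ)} (p : Fin n → ℤ) (L : List (TS n)) (hL : SGood 𝓕 L) (P : E n)
    (hP : ∀ f ∈ 𝓕, dot f P ≠ 0) (x : E n) (t : ℝ) (j : Fin n) :
    HasDerivAt (fun u : ℝ => sev p L (x + u • (Pi.single j 1 : E n)) P t) (sev p (sx p j L) x P t) 0 := by
  have hz : ∀ i, HasDerivWithinAt (fun u : ℝ => (x + u • (Pi.single j 1 : E n)) i)
      ((Pi.single j 1 : E n) i) univ 0 := by
    intro i
    have h1 : HasDerivAt (fun u : ℝ => x i + u * (Pi.single j 1 : E n) i) ((Pi.single j 1 : E n) i) 0 := by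
      simpa using ((hasDerivAt_id (0 : ℝ)).mul_const ((Pi.single j 1 : E n) i)).const_add (x i)
    exact h1.hasDerivWithinAt
  have hS : HasDerivWithinAt (fun u : ℝ => dot p (x + u • (Pi.single j 1 : E n))) (p j : ℝ) univ 0 := by
    have h1 : HasDerivAt (fun u : ℝ => dot p x + u * dot p (Pi.single j 1 : E n)) (dot p (Pi.single j 1 : E n)) 0 := by
      simpa using ((hasDerivAt_id (0 : ℝ)).mul_const (dot p (Pi.single j 1 : E n))).const_add (dot p x)
    have e : (fun u : ℝ => dot p (x + u • (Pi.single j 1 : E n))) =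
        fun u => dot p x + u * dot p (Pi.single j 1 : E n) := by
      funext u; rw [dot_add, dot_smul]
    rw [e, ← dot_single p j]
    exact h1.hasDerivWithinAt
  have h := gev_chain p L hL P hS (hasDerivWithinAt_const (0 : ℝ) univ (0 : ℝ))
    (hasDerivWithinAt_const (0 : ℝ) univ t) hz (by simpa using hP)
  simp only [zero_smul, add_zero, zero_mul] at h
  rw [hasDerivWithinAt_univ] at h
  refine h.congr_deriv ?_
  rw [sev_eq, gev_sx]
  congr 1
  simp [Pi.single_apply]

theorem slow_ev (p : Fin n → ℤ) (A : ℝ → ℝ → ℝ) (S : ℝ) (x P : E n) (t : ℝ) :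
    gv p (slowAt A : TS n) S x P t = A S t := by
  simp [gv, slowAt, tp_nil, dot_zero_left]

theorem slow_good {𝓕 : List (Fin n → ℤ)} {A : ℝ → ℝ → ℝ} (hA : ContDiff ℝ ∞ (fun q : ℝ × ℝ => A q.1 q.2))
    (hper : ∀ (s t : ℝ) (m : ℤ), A (s + m) t = A s t) {al : List (TS n)} (hal : SGood 𝓕 al) :
    SGood 𝓕 (slowAt A :: al) := by
  intro a ha
  rcases List.mem_cons.1 ha with rfl | ha
  · refine ⟨?_, fun s r t m => hper s t m, fun f hf => by simp [slowAt] at hf⟩
    have h2 : ContDiff ℝ ∞ (fun z : ℝ × ℝ × ℝ => ((z.1, z.2.2) : ℝ × ℝ)) :=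
      contDiff_fst.prodMk (contDiff_snd.comp contDiff_snd)
    exact hA.comp h2
  · exact hal a ha

theorem slow_k0 {A : ℝ → ℝ → ℝ} {al : List (TS n)} (hal : K0 al) : K0 (slowAt A :: al) := by
  intro a ha
  rcases List.mem_cons.1 ha with rfl | ha
  · rfl
  · exact hal a ha

/-- the differentiated identity -/
theorem hjk_dx {𝓕 : List (Fin n → ℤ)} (p : Fin n → ℤ) (w0 : List (TA n)) (w al e : List (TS n)) (A : ℝ → ℝ → ℝ) (M : ℕ)
    (h0 : SGood 𝓕 (emb w0)) (hw : SGood 𝓕 w) (hal : SGood 𝓕 al) (he : SGood 𝓕 e) (halk : K0 al)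
    (hA : ContDiff ℝ ∞ (fun q : ℝ × ℝ => A q.1 q.2)) (hper : ∀ (s t : ℝ) (m : ℤ), A (s + m) t = A s t)
    (P : E n) (hP : ∀ f ∈ 𝓕, dot f P ≠ 0) (t : ℝ)
    (hid : ∀ x : E n,
          sev p (st w) x P t + ∑ i, P i * sev p (sx p i w) x P t +
            ∑ i, sev p (sx p i (emb w0)) x P t * sev p (sx p i w) x P t +
            (∑ i, sev p (sx p i w) x P t ^ 2) / 2 - A (dot p x) t +
            ∑ j ∈ Finset.range (M + 1), sev p (ss^[j] (slowAt A :: al)) x P t *
              (sev p (sp p (emb w0)) x P t + sev p (sp p w) x P t) ^ j / (j.factorial : ℝ) =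
          sev p e x P t) (x : E n) (j : Fin n) :
    sev p (sx p j (st w)) x P t + ∑ i, P i * sev p (sx p j (sx p i w)) x P t +
      ∑ i, (sev p (sx p j (sx p i (emb w0))) x P t * sev p (sx p i w) x P t +
        sev p (sx p i (emb w0)) x P t * sev p (sx p j (sx p i w)) x P t) +
      ∑ i, sev p (sx p i w) x P t * sev p (sx p j (sx p i w)) x P t - deriv (fun u => A u t) (dot p x) * p j +
      ∑ i ∈ Finset.range (M + 1), (p j * gev p (ss^[i + 1] (slowAt A :: al)) (dot p x) 0 P t *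
          (sev p (sp p (emb w0 ++ w)) x P t) ^ i / (i.factorial : ℝ) +
        gev p (ss^[i] (slowAt A :: al)) (dot p x) 0 P t *
          (i * (sev p (sp p (emb w0 ++ w)) x P t) ^ (i - 1) * sev p (sx p j (sp p (emb w0 ++ w))) x P t) /
            (i.factorial : ℝ)) =
      sev p (sx p j e) x P t := by
  have hAA : SGood 𝓕 (slowAt A :: al) := slow_good hA hper hal
  have hAk : K0 (slowAt A :: al) := slow_k0 halk
  have line := fun (L : List (TS n)) (hL : SGood 𝓕 L) => sev_line p L hL P hP x t j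
  have a1 := line _ hw.st
  have a2 : HasDerivAt (fun u : ℝ => ∑ i, P i * sev p (sx p i w) (x + u • (Pi.single j 1 : E n)) P t)
      (∑ i, P i * sev p (sx p j (sx p i w)) x P t) 0 :=
    HasDerivAt.fun_sum fun i _ => (line _ (hw.sx p i)).const_mul (P i)
  have z0 : x + (0 : ℝ) • (Pi.single j 1 : E n) = x := by simp
  have a3 : HasDerivAt (fun u : ℝ => ∑ i, sev p (sx p i (emb w0)) (x + u • (Pi.single j 1 : E n)) P t *
      sev p (sx p i w) (x + u • (Pi.single j 1 : E n)) P t)
      (∑ i, (sev p (sx p j (sx p i (emb w0))) x P t * sev p (sx p i w) x P t +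
        sev p (sx p i (emb w0)) x P t * sev p (sx p j (sx p i w)) x P t)) 0 := by
    refine HasDerivAt.fun_sum fun i _ => ?_
    have := (line _ (h0.sx p i)).mul (line _ (hw.sx p i))
    rw [z0] at this
    exact this
  have a4 : HasDerivAt (fun u : ℝ => (∑ i, sev p (sx p i w) (x + u • (Pi.single j 1 : E n)) P t ^ 2) / 2)
      (∑ i, sev p (sx p i w) x P t * sev p (sx p j (sx p i w)) x P t) 0 := by
    have h1 : HasDerivAt (fun u : ℝ => (∑ i, sev p (sx p i w) (x + u • (Pi.single j 1 : E n)) P t ^ 2))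
        (∑ i, 2 * (sev p (sx p i w) x P t * sev p (sx p j (sx p i w)) x P t)) 0 := by
      refine HasDerivAt.fun_sum fun i _ => ?_
      have := (line _ (hw.sx p i)).pow 2
      rw [z0] at this
      refine this.congr_deriv ?_
      push_cast
      ring
    refine (h1.div_const 2).congr_deriv ?_
    rw [← Finset.mul_sum]
    ring
  have a5 : HasDerivAt (fun u : ℝ => A (dot p (x + u • (Pi.single j 1 : E n))) t)
      (deriv (fun u => A u t) (dot p x) * p j) 0 := by
    have hd : HasDerivAt (fun u => A u t) (deriv (fun u => A u t) (dot p x)) (dot p x) := by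
      have h2 : ContDiff ℝ ∞ (fun u : ℝ => A u t) := hA.comp (contDiff_id.prodMk contDiff_const)
      exact ((h2.differentiable (by simp)) _).hasDerivAt
    have e : (fun u : ℝ => dot p (x + u • (Pi.single j 1 : E n))) =
        fun u => dot p x + u * dot p (Pi.single j 1 : E n) := by
      funext u; rw [dot_add, dot_smul]
    have h1 : HasDerivAt (fun u : ℝ => dot p (x + u • (Pi.single j 1 : E n))) (p j : ℝ) 0 := by
      rw [e, ← dot_single p j]
      simpa using ((hasDerivAt_id (0 : ℝ)).mul_const (dot p (Pi.single j 1 : E n))).const_add (dot p x)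
    have h3 : HasDerivAt (fun u => A u t) (deriv (fun u => A u t) (dot p x))
        (dot p (x + (0 : ℝ) • (Pi.single j 1 : E n))) := by rw [z0]; exact hd
    exact h3.comp (0 : ℝ) h1
  have a6 : HasDerivAt (fun u : ℝ => ∑ i ∈ Finset.range (M + 1),
      sev p (ss^[i] (slowAt A :: al)) (x + u • (Pi.single j 1 : E n)) P t *
        (sev p (sp p (emb w0)) (x + u • (Pi.single j 1 : E n)) P t +
          sev p (sp p w) (x + u • (Pi.single j 1 : E n)) P t) ^ i / (i.factorial : ℝ))
      (∑ i ∈ Finset.range (M + 1), (p j * gev p (ss^[i + 1] (slowAt A :: al)) (dot p x) 0 P t *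
          (sev p (sp p (emb w0 ++ w)) x P t) ^ i / (i.factorial : ℝ) +
        gev p (ss^[i] (slowAt A :: al)) (dot p x) 0 P t *
          (i * (sev p (sp p (emb w0 ++ w)) x P t) ^ (i - 1) * sev p (sx p j (sp p (emb w0 ++ w))) x P t) /
            (i.factorial : ℝ))) 0 := by
    refine HasDerivAt.fun_sum fun i _ => ?_
    have b1 := line _ (hAA.ssi i)
    have b2 := ((line _ (h0.sp p)).add (line _ (hw.sp p))).pow i
    have b3 := (b1.mul b2).div_const (i.factorial : ℝ)
    simp only [Pi.add_apply, Pi.pow_apply, z0] at b3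
    refine b3.congr_deriv ?_
    have c1 : sev p (sp p (emb w0)) x P t + sev p (sp p w) x P t = sev p (sp p (emb w0 ++ w)) x P t := by
      rw [sp_append, sev_eq, sev_eq, sev_eq, gev_append]
    have c2 : sev p (sx p j (sp p (emb w0))) x P t + sev p (sx p j (sp p w)) x P t =
        sev p (sx p j (sp p (emb w0 ++ w))) x P t := by
      rw [sp_append, sx_append, sev_eq, sev_eq, sev_eq, gev_append]
    have c3 : sev p (sx p j (ss^[i] (slowAt A :: al))) x P t =
        p j * gev p (ss^[i + 1] (slowAt A :: al)) (dot p x) 0 P t := by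
      rw [sev_eq, gev_sx, (hAk.ssi i).kx, add_zero, Function.iterate_succ_apply',
        ((hAk.ssi i).ss).indep p (dot p x) x 0]
    have c4 : sev p (ss^[i] (slowAt A :: al)) x P t = gev p (ss^[i] (slowAt A :: al)) (dot p x) 0 P t := by
      rw [sev_eq, (hAk.ssi i).indep p (dot p x) x 0]
    rw [c1, c2, c3, c4]
    ring
  have a7 := line _ he
  have hL := ((((a1.add a2).add a3).add a4).sub a5).add a6
  have hE : (fun u : ℝ => sev p e (x + u • (Pi.single j 1 : E n)) P t) =
      ((((((fun u : ℝ => sev p (st w) (x + u • (Pi.single j 1 : E n)) P t) +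
        fun u : ℝ => ∑ i, P i * sev p (sx p i w) (x + u • (Pi.single j 1 : E n)) P t) +
        fun u : ℝ => ∑ i, sev p (sx p i (emb w0)) (x + u • (Pi.single j 1 : E n)) P t *
          sev p (sx p i w) (x + u • (Pi.single j 1 : E n)) P t) +
        fun u : ℝ => (∑ i, sev p (sx p i w) (x + u • (Pi.single j 1 : E n)) P t ^ 2) / 2) -
        fun u : ℝ => A (dot p (x + u • (Pi.single j 1 : E n))) t) +
        fun u : ℝ => ∑ i ∈ Finset.range (M + 1),
          sev p (ss^[i] (slowAt A :: al)) (x + u • (Pi.single j 1 : E n)) P t *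
            (sev p (sp p (emb w0)) (x + u • (Pi.single j 1 : E n)) P t +
              sev p (sp p w) (x + u • (Pi.single j 1 : E n)) P t) ^ i / (i.factorial : ℝ)) := by
    funext u
    simp only [Pi.add_apply, Pi.sub_apply]
    exact (hid _).symm
  rw [← hE] at hL
  exact hL.unique a7

/-- a scalar differential equation, with the bound of the solution -/
theorem ode_rho (f : ℝ → ℝ → ℝ) (T0 T1 ρm B L : ℝ) (hT : T0 ≤ T1) (hρ : 0 ≤ ρm) (hB0 : 0 ≤ B) (hL0 : 0 ≤ L)
    (hb : ∀ t ∈ Icc T0 T1, ∀ ρ, |ρ| ≤ ρm → |f t ρ| ≤ B) (hB : B * (T1 - T0) ≤ ρm)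
    (hlip : ∀ t ∈ Icc T0 T1, ∀ ρ ρ', |ρ| ≤ ρm → |ρ'| ≤ ρm → |f t ρ - f t ρ'| ≤ L * |ρ - ρ'|)
    (hc : ∀ ρ, |ρ| ≤ ρm → ContinuousOn (fun t => f t ρ) (Icc T0 T1)) :
    ∃ ρ : ℝ → ℝ, ρ T0 = 0 ∧ ∀ t ∈ Icc T0 T1, HasDerivWithinAt ρ (f t (ρ t)) (Icc T0 T1) t ∧ |ρ t| ≤ ρm := by
  have hmem : ∀ y : ℝ, y ∈ Metric.closedBall (0 : ℝ) (Real.toNNReal ρm) ↔ |y| ≤ ρm := by
    intro y
    rw [mem_closedBall_zero_iff, Real.norm_eq_abs, Real.coe_toNNReal _ hρ]
  have hpl : IsPicardLindelof f (⟨T0, left_mem_Icc.2 hT⟩ : Icc T0 T1) (0 : ℝ) (Real.toNNReal ρm) 0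
      (Real.toNNReal B) (Real.toNNReal L) := by
    refine ⟨fun t ht => ?_, fun y hy => hc y ((hmem y).1 hy), fun t ht y hy => ?_, ?_⟩
    · refine LipschitzOnWith.of_dist_le_mul fun y hy y' hy' => ?_
      rw [Real.dist_eq, Real.dist_eq, Real.coe_toNNReal _ hL0]
      exact hlip t ht y y' ((hmem y).1 hy) ((hmem y').1 hy')
    · rw [Real.norm_eq_abs, Real.coe_toNNReal _ hB0]
      exact hb t ht y ((hmem y).1 hy)
    · rw [Real.coe_toNNReal _ hB0, Real.coe_toNNReal _ hρ]
      simp only [sub_self, NNReal.coe_zero, sub_zero]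
      rw [max_eq_left (by linarith)]
      exact hB
  obtain ⟨α, hα⟩ := ODE.FunSpace.exists_isFixedPt_next hpl (Metric.mem_closedBall_self le_rfl)
  refine ⟨α.compProj, ?_, fun t ht => ⟨?_, ?_⟩⟩
  · have h1 := ODE.FunSpace.compProj_val (α := α) (t := (⟨T0, left_mem_Icc.2 hT⟩ : Icc T0 T1))
    rw [show α.compProj T0 = α.compProj ((⟨T0, left_mem_Icc.2 hT⟩ : Icc T0 T1) : ℝ) from rfl, h1, ← hα,
      ODE.FunSpace.next_apply₀]
  · apply ODE.hasDerivWithinAt_picard_Icc (⟨T0, left_mem_Icc.2 hT⟩ : Icc T0 T1).2 hpl.continuousOn_uncurry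
      α.continuous_compProj.continuousOn (fun _ ht' => α.compProj_mem_closedBall hpl.mul_max_le)
      (0 : ℝ) ht |>.congr_of_mem _ ht
    intro t' ht'
    nth_rw 1 [← hα]
    rw [ODE.FunSpace.compProj_of_mem ht', ODE.FunSpace.next_apply]
  · exact (hmem _).1 (α.compProj_mem_closedBall hpl.mul_max_le)

/-- the sums of atoms which are local in `A` vanish where `A` vanishes -/
theorem loc_zero {A : ℝ → ℝ → ℝ} (p : Fin n → ℤ) (L : List (TS n)) (hL : Loc A L) {s t : ℝ}
    (h : ∀ᶠ z in 𝓝 (s, t), A z.1 z.2 = 0) (j : Fin n) (x P : E n) : gev p (sx p j L) s x P t = 0 := by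
  induction L with
  | nil => rfl
  | cons a L ih =>
    have ih' := ih fun b hb => hL b (List.mem_cons_of_mem _ hb)
    have ha := hL a List.mem_cons_self
    rw [sx_cons, gev_cons, gev_cons, ih']
    have h1 : ∀ r, a.a s r t = 0 := ha s t h
    have h2 : ∀ r, SP.d1 a.a s r t = 0 := by
      intro r
      have h3 : ∀ᶠ s' in 𝓝 s, a.a s' r t = 0 := by
        have h4 : ∀ᶠ z in 𝓝 (s, t), ∀ᶠ w in 𝓝 z, A w.1 w.2 = 0 := eventually_eventually_nhds.2 h
        have h5 : Tendsto (fun s' : ℝ => (s', t)) (𝓝 s) (𝓝 (s, t)) :=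
          (continuous_id.prodMk continuous_const).tendsto s
        exact (h5.eventually h4).mono fun s' hs' => ha s' t hs' r
      have h6 : (fun s' => a.a s' r t) =ᶠ[𝓝 s] fun _ => (0 : ℝ) := h3
      show deriv (fun s' => a.a s' r t) s = 0
      rw [h6.deriv_eq]
      simp
    simp only [gv, h1, h2, zero_mul, mul_zero, add_zero]

end Pool.Agent.K9h32.SP
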