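import Pool.Agent.K9h32.SP.Pert1
import Pool.Agent.K9h32.SP.StmU

/-!
# Gronwall, bounds of the slow force, and the closeness of the slow motion to the unperturbed one
-/

set_option autoImplicit false

open Set Filter Topology
open scoped ContDiff

noncomputable section

namespace Pool.Agent.K9h32.SP

open Pool.Agent.N980.TL

variable {n N : ℕ}

theorem gb_le {δ K ε x : ℝ} (hK : 0 ≤ K) (hε : 0 ≤ ε) (hx : 0 ≤ x) :
    gronwallBound δ K ε x ≤ (δ + ε * x) * Real.exp (K * x) := by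
  rcases eq_or_lt_of_le hK with h | h
  · rw [← h, gronwallBound_K0]
    simp
  · rw [gronwallBound_of_K_ne_0 h.ne']
    have h1 : Real.exp (K * x) - 1 ≤ K * x * Real.exp (K * x) := by
      have h2 := Real.add_one_le_exp (-(K * x))
      have h3 : Real.exp (K * x) * Real.exp (-(K * x)) = 1 := by rw [← Real.exp_add]; simp
      have h4 := Real.exp_pos (K * x)
      nlinarith
    have h2 : ε / K * (Real.exp (K * x) - 1) ≤ ε / K * (K * x * Real.exp (K * x)) :=
      mul_le_mul_of_nonneg_left h1 (by positivity)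
    have h3 : ε / K * (K * x * Real.exp (K * x)) = ε * x * Real.exp (K * x) := by
      field_simp
    rw [add_mul]
    linarith

/-- Gronwall's inequality in the form used here -/
theorem gron {F : Type*} [NormedAddCommGroup F] [NormedSpace ℝ F] {f f' : ℝ → F} {T δ K ε : ℝ} (hK : 0 ≤ K)
    (hδ : 0 ≤ δ) (hε : 0 ≤ ε) (hf : ∀ t ∈ Icc (0 : ℝ) T, HasDerivAt f (f' t) t) (h0 : ‖f 0‖ ≤ δ)
    (hb : ∀ t ∈ Icc (0 : ℝ) T, ‖f' t‖ ≤ K * ‖f t‖ + ε) :
    ∀ t ∈ Icc (0 : ℝ) T, ‖f t‖ ≤ (δ + ε * T) * Real.exp (K * T) := by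
  intro t ht
  have h1 := norm_le_gronwallBound_of_norm_deriv_right_le (f := f) (f' := f') (δ := δ) (K := K) (ε := ε) (a := 0)
    (b := T) (fun s hs => (hf s hs).continuousAt.continuousWithinAt)
    (fun s hs => (hf s ⟨hs.1, hs.2.le⟩).hasDerivWithinAt) h0 (fun s hs => hb s ⟨hs.1, hs.2.le⟩) t ht
  refine h1.trans ?_
  rw [sub_zero]
  refine (gb_le hK hε ht.1).trans ?_
  have h2 : Real.exp (K * t) ≤ Real.exp (K * T) := Real.exp_le_exp.2 (mul_le_mul_of_nonneg_left ht.2 hK)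
  have h3 : δ + ε * t ≤ δ + ε * T := by nlinarith [ht.2]
  exact mul_le_mul h3 h2 (Real.exp_pos _).le (by nlinarith [ht.1, ht.2])

/-! ## smooth periodic functions of `(s,t)` -/

/-- smooth and periodic -/
def SP2 (A : ℝ → ℝ → ℝ) : Prop :=
  ContDiff ℝ ∞ (fun q : ℝ × ℝ => A q.1 q.2) ∧ ∀ (s t : ℝ) (m l : ℤ), A (s + m) (t + l) = A s t

/-- the slow derivative -/
def ds (A : ℝ → ℝ → ℝ) : ℝ → ℝ → ℝ := fun s t => deriv (fun u => A u t) s

theorem ds_aux {A : ℝ → ℝ → ℝ} (h : ContDiff ℝ ∞ (fun q : ℝ × ℝ => A q.1 q.2)) (s t : ℝ) :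
    HasDerivAt (fun u => A u t) (fderiv ℝ (fun q : ℝ × ℝ => A q.1 q.2) (s, t) (1, 0)) s := by
  have h1 : Differentiable ℝ (fun q : ℝ × ℝ => A q.1 q.2) := h.differentiable (by simp)
  have h2 : HasDerivAt (fun u : ℝ => (u, t)) ((1 : ℝ), (0 : ℝ)) s := (hasDerivAt_id s).prodMk (hasDerivAt_const s t)
  exact (h1 (s, t)).hasFDerivAt.comp_hasDerivAt s h2

theorem ds_eq {A : ℝ → ℝ → ℝ} (h : ContDiff ℝ ∞ (fun q : ℝ × ℝ => A q.1 q.2)) (s t : ℝ) :
    ds A s t = fderiv ℝ (fun q : ℝ × ℝ => A q.1 q.2) (s, t) (1, 0) := (ds_aux h s t).deriv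

theorem ds_hasDeriv {A : ℝ → ℝ → ℝ} (h : ContDiff ℝ ∞ (fun q : ℝ × ℝ => A q.1 q.2)) (s t : ℝ) :
    HasDerivAt (fun u => A u t) (ds A s t) s := by
  rw [ds_eq h]
  exact ds_aux h s t

theorem SP2.ds {A : ℝ → ℝ → ℝ} (h : SP2 A) : SP2 (ds A) := by
  refine ⟨?_, fun s t m l => ?_⟩
  · have e : (fun q : ℝ × ℝ => SP.ds A q.1 q.2) =
        fun q : ℝ × ℝ => fderiv ℝ (fun q : ℝ × ℝ => A q.1 q.2) q (1, 0) := by
      funext q
      exact ds_eq h.1 q.1 q.2
    rw [e]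
    exact (h.1.fderiv_right (m := ∞) (by simp)).clm_apply contDiff_const
  · have h1 : (fun u => A u t) = fun u => A (u + m) (t + l) := by
      funext u
      exact (h.2 u t m l).symm
    have h2 := (ds_hasDeriv h.1 (s + m) (t + l)).comp_add_const s (m : ℝ)
    rw [← h1] at h2
    exact h2.deriv.symm

theorem SP2.bdd {A : ℝ → ℝ → ℝ} (h : SP2 A) : ∃ C : ℝ, 0 ≤ C ∧ ∀ s t, |A s t| ≤ C := by
  obtain ⟨C, hC⟩ := ((isCompact_Icc (a := (0 : ℝ)) (b := 1)).prod
    (isCompact_Icc (a := (0 : ℝ)) (b := 1))).exists_bound_of_continuousOn h.1.continuous.continuousOn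
  refine ⟨max C 0, le_max_right _ _, fun s t => ?_⟩
  have h1 := h.2 (Int.fract s) (Int.fract t) ⌊s⌋ ⌊t⌋
  rw [Int.fract_add_floor, Int.fract_add_floor] at h1
  rw [h1]
  refine le_trans (hC (Int.fract s, Int.fract t) ⟨⟨Int.fract_nonneg _, (Int.fract_lt_one _).le⟩,
    ⟨Int.fract_nonneg _, (Int.fract_lt_one _).le⟩⟩) (le_max_left _ _)

theorem lip_of_deriv {g g' : ℝ → ℝ} {C : ℝ} (h : ∀ u, HasDerivAt g (g' u) u) (hC : ∀ u, |g' u| ≤ C) (a b : ℝ) :
    |g a - g b| ≤ C * |a - b| := by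
  have := Convex.norm_image_sub_le_of_norm_hasDerivWithin_le (f := g) (f' := g') (C := C) (s := univ)
    (fun u _ => (h u).hasDerivWithinAt) (fun u _ => hC u) convex_univ (mem_univ b) (mem_univ a)
  exact this

/-- the bounds for the slow force -/
theorem AU_bounds {A : ℝ → ℝ → ℝ} (h : SP2 A) : ∃ L : ℝ, 0 ≤ L ∧ (∀ s t, |ds A s t| ≤ L) ∧
    (∀ s s' t, |ds A s t - ds A s' t| ≤ L * |s - s'|) ∧
    (∀ s s' c t, |(ds A (s + c) t - ds A s t) - (ds A (s' + c) t - ds A s' t)| ≤ L * |c| * |s - s'|) := by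
  obtain ⟨L0, hL0, h0⟩ := h.ds.bdd
  obtain ⟨L1, hL1, h1⟩ := h.ds.ds.bdd
  obtain ⟨L2, hL2, h2⟩ := h.ds.ds.ds.bdd
  refine ⟨L0 + L1 + L2, by positivity, fun s t => (h0 s t).trans (by linarith), fun s s' t => ?_, fun s s' c t => ?_⟩
  · have := lip_of_deriv (fun u => ds_hasDeriv h.ds.1 u t) (fun u => h1 u t) s s'
    refine this.trans (mul_le_mul_of_nonneg_right (by linarith) (abs_nonneg _))
  · have hd : ∀ u, HasDerivAt (fun u => ds A (u + c) t - ds A u t) (ds (ds A) (u + c) t - ds (ds A) u t) u := by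
      intro u
      exact ((ds_hasDeriv h.ds.1 (u + c) t).comp_add_const u c).sub (ds_hasDeriv h.ds.1 u t)
    have hb : ∀ u, |ds (ds A) (u + c) t - ds (ds A) u t| ≤ L2 * |c| := by
      intro u
      have := lip_of_deriv (fun u => ds_hasDeriv h.ds.ds.1 u t) (fun u => h2 u t) (u + c) u
      rwa [add_sub_cancel_left] at this
    have := lip_of_deriv hd hb s s'
    refine this.trans (mul_le_mul_of_nonneg_right (mul_le_mul_of_nonneg_right (by linarith) (abs_nonneg _))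
      (abs_nonneg _))

/-! ## closeness -/

/-- the slow force on the fast-slow system -/
def sF (p : Fin n → ℤ) (AU : ℝ → ℝ → ℝ) (x : E n) (t : ℝ) : E n :=
  (ds AU (dot p x) t / dot p (rv p)) • rv p

theorem norm_rv_le (p : Fin n → ℤ) : ‖rv p‖ ≤ dot p (rv p) := by
  refine (pi_norm_le_iff_of_nonneg ?_).2 fun i => ?_
  · unfold dot rv
    exact Finset.sum_nonneg fun i _ => mul_self_nonneg _
  · have h1 : |(p i : ℝ)| ≤ (p i : ℝ) * (p i : ℝ) := by
      rcases eq_or_ne (p i) 0 with h | h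
      · rw [h]; simp
      · have h2 : (1 : ℝ) ≤ |(p i : ℝ)| := by
          have := Int.one_le_abs h
          exact_mod_cast this
        have h3 : (p i : ℝ) * (p i : ℝ) = |(p i : ℝ)| * |(p i : ℝ)| := (abs_mul_abs_self _).symm
        rw [h3]
        nlinarith
    refine h1.trans ?_
    unfold dot rv
    exact Finset.single_le_sum (f := fun i => (p i : ℝ) * (p i : ℝ)) (fun i _ => mul_self_nonneg _) (Finset.mem_univ i)

theorem pp_pos {p : Fin n → ℤ} (hp : p ≠ 0) : 1 ≤ dot p (rv p) := by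
  obtain ⟨i, hi⟩ := Function.ne_iff.1 hp
  have h2 : (1 : ℝ) ≤ |(p i : ℝ)| := by
    have := Int.one_le_abs hi
    exact_mod_cast this
  have h3 : |(p i : ℝ)| ≤ ‖rv p‖ := norm_le_pi_norm (rv p) i
  exact (h2.trans h3).trans (norm_rv_le p)

theorem dot_smul_rv (p q : Fin n → ℤ) (c : ℝ) : dot p (c • rv q) = c * dot p (rv q) := dot_smul p c (rv q)

/-- a priori bound -/
theorem apriori {D : Trig n N} {w0 e0 : List (TA n)} {𝓕 : List (Fin n → ℤ)} {M : ℕ} (hM : 1 ≤ M) (hw : W0 w0)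
    (hW : WE D w0 M 𝓕 e0) (T CW : ℝ) (hT : 0 ≤ T) (hCW : 0 ≤ CW) : ∃ C : ℝ, 0 ≤ C ∧ ∀ lam : ℝ, 1 ≤ lam → ∀ P0 : E n,
      Reg 𝓕 lam P0 → ∀ x v W : ℝ → E n, (∀ t ∈ Icc (0 : ℝ) T, HasDerivAt x (v t) t ∧
        HasDerivAt v (fun i => D.grad (x t) t i + W t i) t ∧ ‖W t‖ ≤ CW) → ‖v 0 - P0‖ ≤ 1 →
        ∀ t ∈ Icc (0 : ℝ) T, ‖(v t - gw w0 (x t) P0 t) - P0‖ ≤ C := by
  obtain ⟨Cg, hCg, hg⟩ := gw_bounds hw hW T
  obtain ⟨CH, hCH, hH⟩ := HH_bounds hM hw hW T
  refine ⟨((1 + Cg) + (CW + CH) * T) * Real.exp (CH * T), by positivity, fun lam hl P0 hP x v W hx h0 => ?_⟩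
  have hl0 : (0 : ℝ) < lam := by linarith
  have hd : ∀ C : ℝ, 0 ≤ C → C / lam ≤ C := fun C hC => div_le_self hC hl
  have h00 : (0 : ℝ) ∈ Icc (0 : ℝ) T := ⟨le_refl _, hT⟩
  refine gron (f := fun t => (v t - gw w0 (x t) P0 t) - P0)
    (f' := fun t => fun i => W t i + HH w0 e0 P0 (x t) (v t - gw w0 (x t) P0 t) t i) hCH (by positivity)
    (by positivity) ?_ ?_ ?_
  · intro t ht
    exact (Q_deriv hW (hP.ne hl0) ht.1 (hx t ht).1 (hx t ht).2.1).sub_const P0
  · have h1 := (hg lam hl P0 hP 0 h00).1 (x 0)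
    have e : v 0 - gw w0 (x 0) P0 0 - P0 = (v 0 - P0) - gw w0 (x 0) P0 0 := by abel
    rw [e]
    refine (norm_sub_le _ _).trans ?_
    linarith [hd Cg hCg]
  · intro t ht
    have h1 := (hH lam hl P0 hP t ht).1 (x t) (v t - gw w0 (x t) P0 t)
    have e : (fun i => W t i + HH w0 e0 P0 (x t) (v t - gw w0 (x t) P0 t) t i) =
        W t + HH w0 e0 P0 (x t) (v t - gw w0 (x t) P0 t) t := rfl
    rw [e]
    refine (norm_add_le _ _).trans ?_
    have h2 := (hx t ht).2.2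
    have h3 : CH / lam * (1 + ‖v t - gw w0 (x t) P0 t - P0‖) ≤ CH * (1 + ‖v t - gw w0 (x t) P0 t - P0‖) :=
      mul_le_mul_of_nonneg_right (hd CH hCH) (by positivity)
    linarith

/-- Closeness of the slow motion to the unperturbed one. -/
theorem close {D : Trig n N} {w0 e0 : List (TA n)} {𝓕 : List (Fin n → ℤ)} {M : ℕ} (hM : 1 ≤ M) (hw : W0 w0)
    (hW : WE D w0 M 𝓕 e0) {p : Fin n → ℤ} (hp : p ≠ 0) {AU : ℝ → ℝ → ℝ} (hA : SP2 AU) (T CG : ℝ) (hT : 0 ≤ T)
    (hCG : 0 ≤ CG) : ∃ C : ℝ, 0 ≤ C ∧ ∀ lam : ℝ, 1 ≤ lam → ∀ P0 : E n, Reg 𝓕 lam P0 →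
      ∀ δ : ℝ, 0 ≤ δ → δ ≤ 1 → ∀ x v G : ℝ → E n, (∀ t ∈ Icc (0 : ℝ) T, HasDerivAt x (v t) t ∧
        HasDerivAt v (fun i => D.grad (x t) t i + (sF p AU (x t) t + G t) i) t ∧ ‖G t‖ ≤ CG * δ) → ‖v 0 - P0‖ ≤ 1 →
        ∀ s r : ℝ → ℝ, Sol AU s r → s 0 = dot p (x 0) → r 0 = dot p (v 0) →
        ∀ t ∈ Icc (0 : ℝ) T, |dot p (x t) - s t| ≤ C * (δ + 1 / lam) ∧ |dot p (v t) - r t| ≤ C * (δ + 1 / lam) ∧
          ‖(v t - gw w0 (x t) P0 t) - P0‖ ≤ C := by
  obtain ⟨L, hL, hL0, hL1, -⟩ := AU_bounds hA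
  have hpp := pp_pos hp
  have hpp0 : 0 < dot p (rv p) := by linarith
  have hsF : ∀ (x : E n) (t : ℝ), ‖sF p AU x t‖ ≤ L := by
    intro x t
    unfold sF
    rw [norm_smul, Real.norm_eq_abs, abs_div, abs_of_pos hpp0]
    calc |ds AU (dot p x) t| / dot p (rv p) * ‖rv p‖ ≤ L / dot p (rv p) * dot p (rv p) :=
          mul_le_mul (div_le_div_of_nonneg_right (hL0 _ _) hpp0.le) (norm_rv_le p) (norm_nonneg _) (by positivity)
      _ = L := by field_simp
  obtain ⟨Cg, hCg, hg⟩ := gw_bounds hw hW T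
  obtain ⟨CH, hCH, hH⟩ := HH_bounds hM hw hW T
  obtain ⟨CQ, hCQ, hQ⟩ := apriori hM hw hW T (L + CG) hT (by positivity)
  have hl1 := l1_nonneg p
  -- the error terms
  obtain ⟨Ce, hCe⟩ : ∃ Ce : ℝ, Ce = l1 p * (Cg + CG + CH * (1 + CQ)) := ⟨_, rfl⟩
  have hCe0 : 0 ≤ Ce := by rw [hCe]; positivity
  obtain ⟨K, hK⟩ : ∃ K : ℝ, K = 1 + L := ⟨_, rfl⟩
  have hK0 : 0 ≤ K := by rw [hK]; positivity
  obtain ⟨C1, hC1⟩ : ∃ C1 : ℝ, C1 = (Ce + Ce * T) * Real.exp (K * T) := ⟨_, rfl⟩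
  have hC10 : 0 ≤ C1 := by rw [hC1]; positivity
  refine ⟨C1 + l1 p * Cg + CQ, by positivity, ?_⟩
  intro lam hl P0 hP δ hδ0 hδ1 x v G hx h0 s r hS hs hr
  have hl0 : (0 : ℝ) < lam := by linarith
  have hη : 0 ≤ δ + 1 / lam := by positivity
  have h00 : (0 : ℝ) ∈ Icc (0 : ℝ) T := ⟨le_refl _, hT⟩
  obtain ⟨Q, hQd⟩ : ∃ Q : ℝ → E n, Q = fun t => v t - gw w0 (x t) P0 t := ⟨_, rfl⟩
  have hQv : ∀ t, Q t = v t - gw w0 (x t) P0 t := fun t => by rw [hQd]
  have hQb : ∀ t ∈ Icc (0 : ℝ) T, ‖Q t - P0‖ ≤ CQ := by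
    intro t ht
    rw [hQv]
    refine hQ lam hl P0 hP x v (fun t => sF p AU (x t) t + G t) (fun t ht => ⟨(hx t ht).1, (hx t ht).2.1, ?_⟩) h0 t ht
    refine (norm_add_le _ _).trans (add_le_add (hsF _ _) ((hx t ht).2.2.trans ?_))
    nlinarith
  -- Gronwall for the difference
  have hgr : ∀ t ∈ Icc (0 : ℝ) T, ‖((dot p (x t) - s t, dot p (Q t) - r t) : ℝ × ℝ)‖ ≤
      (Ce * (δ + 1 / lam) + Ce * (δ + 1 / lam) * T) * Real.exp (K * T) := by
    refine gron (f := fun t => ((dot p (x t) - s t, dot p (Q t) - r t) : ℝ × ℝ))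
      (f' := fun t => ((dot p (v t) - r t,
        dot p (fun i => (sF p AU (x t) t + G t) i + HH w0 e0 P0 (x t) (Q t) t i) - ds AU (s t) t) : ℝ × ℝ))
      hK0 (by positivity) (by positivity) ?_ ?_ ?_
    · intro t ht
      have d1 := (dot_hasDerivAt p (hasDerivAt_pi.1 (hx t ht).1)).sub (hS t).1
      have d2 := Q_deriv hW (hP.ne hl0) ht.1 (hx t ht).1 (hx t ht).2.1
      rw [← hQd] at d2
      have d3 := (dot_hasDerivAt p (hasDerivAt_pi.1 d2)).sub (hS t).2
      have e : (v t - gw w0 (x t) P0 t) = Q t := (hQv t).symm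
      rw [e] at d3
      exact d1.prodMk d3
    · rw [Prod.norm_def]
      simp only [hs, sub_self, norm_zero]
      have e : dot p (Q 0) - r 0 = -dot p (gw w0 (x 0) P0 0) := by
        rw [hr, hQv, dot_sub]; ring
      rw [e, norm_neg, Real.norm_eq_abs]
      refine max_le (by positivity) ?_
      refine (dot_le _ _).trans ?_
      have h1 := (hg lam hl P0 hP 0 h00).1 (x 0)
      calc l1 p * ‖gw w0 (x 0) P0 0‖ ≤ l1 p * (Cg / lam) := mul_le_mul_of_nonneg_left h1 hl1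
        _ = l1 p * Cg * (1 / lam) := by ring
        _ ≤ Ce * (δ + 1 / lam) := by
            rw [hCe]
            refine mul_le_mul ?_ (by linarith) (by positivity) (by positivity)
            refine mul_le_mul_of_nonneg_left ?_ hl1
            have : 0 ≤ CH * (1 + CQ) := by positivity
            linarith
    · intro t ht
      have hgt := (hg lam hl P0 hP t ht).1 (x t)
      have hHt := (hH lam hl P0 hP t ht).1 (x t) (Q t)
      have hQt := hQb t ht
      have hy1 : |dot p (x t) - s t| ≤ ‖((dot p (x t) - s t, dot p (Q t) - r t) : ℝ × ℝ)‖ := norm_fst_le (dot p (x t) - s t, dot p (Q t) - r t)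
      have hy2 : |dot p (Q t) - r t| ≤ ‖((dot p (x t) - s t, dot p (Q t) - r t) : ℝ × ℝ)‖ := norm_snd_le (dot p (x t) - s t, dot p (Q t) - r t)
      have hyn : 0 ≤ ‖((dot p (x t) - s t, dot p (Q t) - r t) : ℝ × ℝ)‖ := norm_nonneg _
      rw [Prod.norm_def]
      refine max_le ?_ ?_
      · have e : dot p (v t) - r t = (dot p (Q t) - r t) + dot p (gw w0 (x t) P0 t) := by
          rw [hQv, dot_sub]; ring
        simp only [e, Real.norm_eq_abs]
        refine (abs_add_le _ _).trans ?_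
        have h1 : |dot p (gw w0 (x t) P0 t)| ≤ Ce * (δ + 1 / lam) := by
          refine (dot_le _ _).trans ?_
          calc l1 p * ‖gw w0 (x t) P0 t‖ ≤ l1 p * (Cg / lam) := mul_le_mul_of_nonneg_left hgt hl1
            _ = l1 p * Cg * (1 / lam) := by ring
            _ ≤ Ce * (δ + 1 / lam) := by
                rw [hCe]
                refine mul_le_mul ?_ (by linarith) (by positivity) (by positivity)
                refine mul_le_mul_of_nonneg_left ?_ hl1
                have : 0 ≤ CH * (1 + CQ) := by positivity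
                linarith
        have h2 : 1 * ‖((dot p (x t) - s t, dot p (Q t) - r t) : ℝ × ℝ)‖ ≤
            K * ‖((dot p (x t) - s t, dot p (Q t) - r t) : ℝ × ℝ)‖ :=
          mul_le_mul_of_nonneg_right (by rw [hK]; linarith) hyn
        linarith
      · have e : dot p (fun i => (sF p AU (x t) t + G t) i + HH w0 e0 P0 (x t) (Q t) t i) - ds AU (s t) t =
            (ds AU (dot p (x t)) t - ds AU (s t) t) + dot p (G t + HH w0 e0 P0 (x t) (Q t) t) := by
          have e1 : (fun i => (sF p AU (x t) t + G t) i + HH w0 e0 P0 (x t) (Q t) t i) =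
              sF p AU (x t) t + (G t + HH w0 e0 P0 (x t) (Q t) t) := by
            funext i
            simp only [Pi.add_apply]
            ring
          rw [e1, dot_add]
          have e2 : dot p (sF p AU (x t) t) = ds AU (dot p (x t)) t := by
            unfold sF
            rw [dot_smul_rv]
            field_simp
          rw [e2]; ring
        simp only [e, Real.norm_eq_abs]
        refine (abs_add_le _ _).trans ?_
        have h1 : |ds AU (dot p (x t)) t - ds AU (s t) t| ≤ K * ‖((dot p (x t) - s t, dot p (Q t) - r t) : ℝ × ℝ)‖ := by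
          refine (hL1 _ _ _).trans ?_
          exact mul_le_mul (by rw [hK]; linarith) hy1 (abs_nonneg _) hK0
        have h2 : |dot p (G t + HH w0 e0 P0 (x t) (Q t) t)| ≤ Ce * (δ + 1 / lam) := by
          refine (dot_le _ _).trans ?_
          rw [hCe, mul_assoc]
          refine mul_le_mul_of_nonneg_left ?_ hl1
          refine (norm_add_le _ _).trans ?_
          have h3 := (hx t ht).2.2
          have h4 : CH / lam * (1 + ‖Q t - P0‖) ≤ CH / lam * (1 + CQ) :=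
            mul_le_mul_of_nonneg_left (by linarith) (by positivity)
          have h5 : (Cg + CG + CH * (1 + CQ)) * (δ + 1 / lam) =
              CG * δ + CH / lam * (1 + CQ) + (Cg * (δ + 1 / lam) + CG * (1 / lam) + CH * (1 + CQ) * δ) := by ring
          have h6 : 0 ≤ Cg * (δ + 1 / lam) + CG * (1 / lam) + CH * (1 + CQ) * δ := by positivity
          linarith
        linarith
  intro t ht
  have h1 := hgr t ht
  have e1 : (Ce * (δ + 1 / lam) + Ce * (δ + 1 / lam) * T) * Real.exp (K * T) = C1 * (δ + 1 / lam) := by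
    rw [hC1]; ring
  rw [e1] at h1
  have hy1 : |dot p (x t) - s t| ≤ ‖((dot p (x t) - s t, dot p (Q t) - r t) : ℝ × ℝ)‖ :=
    norm_fst_le (dot p (x t) - s t, dot p (Q t) - r t)
  have hy2 : |dot p (Q t) - r t| ≤ ‖((dot p (x t) - s t, dot p (Q t) - r t) : ℝ × ℝ)‖ :=
    norm_snd_le (dot p (x t) - s t, dot p (Q t) - r t)
  have hc : C1 * (δ + 1 / lam) ≤ (C1 + l1 p * Cg + CQ) * (δ + 1 / lam) :=
    mul_le_mul_of_nonneg_right (by nlinarith) hη
  refine ⟨(hy1.trans h1).trans hc, ?_, ?_⟩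
  · have e : dot p (v t) - r t = (dot p (Q t) - r t) + dot p (gw w0 (x t) P0 t) := by
      rw [hQv, dot_sub]; ring
    rw [e]
    refine (abs_add_le _ _).trans ?_
    have h2 : |dot p (gw w0 (x t) P0 t)| ≤ l1 p * Cg * (δ + 1 / lam) := by
      refine (dot_le _ _).trans ?_
      have hgt := (hg lam hl P0 hP t ht).1 (x t)
      calc l1 p * ‖gw w0 (x t) P0 t‖ ≤ l1 p * (Cg / lam) := mul_le_mul_of_nonneg_left hgt hl1
        _ = l1 p * Cg * (1 / lam) := by ring
        _ ≤ l1 p * Cg * (δ + 1 / lam) := mul_le_mul_of_nonneg_left (by linarith) (by positivity)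
    have h3 : (C1 + l1 p * Cg + CQ) * (δ + 1 / lam) = C1 * (δ + 1 / lam) + l1 p * Cg * (δ + 1 / lam) +
        CQ * (δ + 1 / lam) := by ring
    have h4 : 0 ≤ CQ * (δ + 1 / lam) := by positivity
    linarith [hy2.trans h1]
  · have := hQb t ht
    rw [hQv] at this
    refine this.trans ?_
    have : 0 ≤ l1 p * Cg := by positivity
    linarith

end Pool.Agent.K9h32.SP
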