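import Pool.Agent.K9h32.SP.Pert2

/-!
# Differences of two orbits in the same gate
-/

set_option autoImplicit false

open Set Filter Topology
open scoped ContDiff

noncomputable section

namespace Pool.Agent.K9h32.SP

open Pool.Agent.N980.TL

variable {n N : ℕ}

/-- the projection along `p` onto the orthogonal complement of `p` -/
def pj (p : Fin n → ℤ) (x : E n) : E n := x - (dot p x / dot p (rv p)) • rv p

theorem pj_add (p : Fin n → ℤ) (x y : E n) : pj p (x + y) = pj p x + pj p y := by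
  unfold pj
  rw [dot_add, add_div, add_smul]
  abel

theorem pj_sub (p : Fin n → ℤ) (x y : E n) : pj p (x - y) = pj p x - pj p y := by
  unfold pj
  rw [dot_sub, sub_div, sub_smul]
  abel

theorem pj_smul_p {p : Fin n → ℤ} (hp : p ≠ 0) (c : ℝ) : pj p (c • rv p) = 0 := by
  have hpp := pp_pos hp
  unfold pj
  rw [dot_smul_rv]
  have e : c * dot p (rv p) / dot p (rv p) = c := by field_simp
  rw [e, sub_self]

theorem pj_smul_q {p q : Fin n → ℤ} (h : dot p (rv q) = 0) (c : ℝ) : pj p (c • rv q) = c • rv q := by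
  unfold pj
  rw [dot_smul_rv, h]
  simp

theorem pj_norm {p : Fin n → ℤ} (hp : p ≠ 0) (x : E n) : ‖pj p x‖ ≤ (1 + l1 p) * ‖x‖ := by
  have hpp := pp_pos hp
  have hpp0 : 0 < dot p (rv p) := by linarith
  unfold pj
  refine (norm_sub_le _ _).trans ?_
  rw [norm_smul, Real.norm_eq_abs, abs_div, abs_of_pos hpp0, add_mul, one_mul]
  refine add_le_add_right ?_ _
  calc |dot p x| / dot p (rv p) * ‖rv p‖ ≤ l1 p * ‖x‖ / dot p (rv p) * dot p (rv p) :=
        mul_le_mul (div_le_div_of_nonneg_right (dot_le _ _) hpp0.le) (norm_rv_le p) (norm_nonneg _)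
          (by have := l1_nonneg p; positivity)
    _ = l1 p * ‖x‖ := by field_simp

theorem norm_le_pj {p : Fin n → ℤ} (hp : p ≠ 0) (x : E n) : ‖x‖ ≤ ‖pj p x‖ + |dot p x| := by
  have hpp := pp_pos hp
  have hpp0 : 0 < dot p (rv p) := by linarith
  have e : x = pj p x + (dot p x / dot p (rv p)) • rv p := by
    unfold pj; abel
  calc ‖x‖ = ‖pj p x + (dot p x / dot p (rv p)) • rv p‖ := by rw [← e]
    _ ≤ ‖pj p x‖ + ‖(dot p x / dot p (rv p)) • rv p‖ := norm_add_le _ _
    _ ≤ ‖pj p x‖ + |dot p x| := by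
        refine add_le_add_right ?_ _
        rw [norm_smul, Real.norm_eq_abs, abs_div, abs_of_pos hpp0]
        calc |dot p x| / dot p (rv p) * ‖rv p‖ ≤ |dot p x| / dot p (rv p) * dot p (rv p) :=
              mul_le_mul_of_nonneg_left (norm_rv_le p) (by positivity)
          _ = |dot p x| := by field_simp

theorem dot_comm_rv (p q : Fin n → ℤ) : dot p (rv q) = dot q (rv p) := by
  unfold dot rv
  exact Finset.sum_congr rfl fun i _ => mul_comm _ _

theorem dot_pj {p q : Fin n → ℤ} (h : dot p (rv q) = 0) (x : E n) : dot q (pj p x) = dot q x := by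
  unfold pj
  rw [dot_sub, dot_smul, ← dot_comm_rv p q, h]
  ring

theorem pj_hasDerivAt {p : Fin n → ℤ} {z : ℝ → E n} {z' : E n} {t : ℝ} (h : HasDerivAt z z' t) :
    HasDerivAt (fun t => pj p (z t)) (pj p z') t := by
  unfold pj
  have h1 := (dot_hasDerivAt p (hasDerivAt_pi.1 h)).div_const (dot p (rv p))
  exact h.sub (h1.smul_const (rv p))

/-- the force of the gate -/
def gq (q : Fin n → ℤ) (B : ℝ → ℝ) (δ : ℝ) (j : Fin 3) (x : E n) (t : ℝ) : E n :=
  (-(δ * B t * (2 * Real.pi)) * Real.sin (2 * Real.pi * dot q x + 2 * Real.pi * ((j : ℕ) : ℝ) / 3)) • rv q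

/-- Differences of two orbits in the same gate. -/
theorem pair {D : Trig n N} {w0 e0 : List (TA n)} {𝓕 : List (Fin n → ℤ)} {M : ℕ} (hM : 1 ≤ M) (hw : W0 w0)
    (hW : WE D w0 M 𝓕 e0) {p q : Fin n → ℤ} (hp : p ≠ 0) (hpq : dot p (rv q) = 0) {AU : ℝ → ℝ → ℝ} (hA : SP2 AU)
    (T CB : ℝ) (hT : 1 ≤ T) (hCB : 0 ≤ CB) (B : ℝ → ℝ) (hB : ∀ t ∈ Icc (0 : ℝ) T, |B t| ≤ CB) :
    ∃ C δ0 : ℝ, 0 ≤ C ∧ 0 < δ0 ∧ δ0 ≤ 1 ∧ ∀ lam : ℝ, 1 ≤ lam → ∀ P0 : E n, Reg 𝓕 lam P0 →
      ∀ δ : ℝ, 0 ≤ δ → δ ≤ δ0 → ∀ (j : Fin 3) (x v y u : ℝ → E n),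
        (∀ t ∈ Icc (0 : ℝ) T, HasDerivAt x (v t) t ∧
          HasDerivAt v (fun i => D.grad (x t) t i + (sF p AU (x t) t + gq q B δ j (x t) t) i) t) →
        (∀ t ∈ Icc (0 : ℝ) T, HasDerivAt y (u t) t ∧
          HasDerivAt u (fun i => D.grad (y t) t i + (sF p AU (y t) t + gq q B δ j (y t) t) i) t) →
        ‖v 0 - P0‖ ≤ 1 → ‖u 0 - P0‖ ≤ 1 → ∀ s r s' r' : ℝ → ℝ, Sol AU s r → Sol AU s' r' →
        s 0 = dot p (x 0) → r 0 = dot p (v 0) → s' 0 = dot p (y 0) → r' 0 = dot p (u 0) →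
        max ‖pj p (y T - x T)‖ (T * ‖pj p (u T - v T)‖) ≤
          3 * max ‖pj p (y 0 - x 0)‖ (T * ‖pj p (u 0 - v 0)‖) + C / lam * (‖y 0 - x 0‖ + ‖u 0 - v 0‖) ∧
        |dot p (y T - x T) - (s' T - s T)| ≤ C * (δ + 1 / lam) * (‖y 0 - x 0‖ + ‖u 0 - v 0‖) ∧
        |dot p (u T - v T) - (r' T - r T)| ≤ C * (δ + 1 / lam) * (‖y 0 - x 0‖ + ‖u 0 - v 0‖) := by
  have hT0 : (0 : ℝ) ≤ T := by linarith
  obtain ⟨L, hL, hL0, hL1, hL2⟩ := AU_bounds hA
  have hpp := pp_pos hp
  have hpp0 : 0 < dot p (rv p) := by linarith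
  have hpi := Real.pi_pos
  obtain ⟨Cg, hCg, hg⟩ := gw_bounds hw hW T
  obtain ⟨CH, hCH, hH⟩ := HH_bounds hM hw hW T
  have hl1 := l1_nonneg p
  have hl1q := l1_nonneg q
  -- the Lipschitz constant of the gate
  obtain ⟨Cq, hCqd⟩ : ∃ Cq : ℝ, Cq = CB * (2 * Real.pi) * (2 * Real.pi * l1 q) * ‖rv q‖ := ⟨_, rfl⟩
  have hCq : 0 ≤ Cq := by rw [hCqd]; positivity
  have hCG : 0 ≤ CB * (2 * Real.pi) * ‖rv q‖ := by positivity
  obtain ⟨Cc, hCc, hc⟩ := close hM hw hW hp hA T (CB * (2 * Real.pi) * ‖rv q‖) hT0 hCG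
  have hgqn : ∀ (δ : ℝ) (j : Fin 3) (x : E n), 0 ≤ δ → ∀ t ∈ Icc (0 : ℝ) T,
      ‖gq q B δ j x t‖ ≤ CB * (2 * Real.pi) * ‖rv q‖ * δ := by
    intro δ j x hδ t ht
    unfold gq
    rw [norm_smul, Real.norm_eq_abs, abs_mul, abs_neg, abs_mul, abs_mul, abs_of_nonneg hδ,
      abs_of_pos (by positivity : (0 : ℝ) < 2 * Real.pi)]
    have h1 := Real.abs_sin_le_one (2 * Real.pi * dot q x + 2 * Real.pi * ((j : ℕ) : ℝ) / 3)
    calc δ * |B t| * (2 * Real.pi) * |Real.sin (2 * Real.pi * dot q x + 2 * Real.pi * ((j : ℕ) : ℝ) / 3)| * ‖rv q‖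
        ≤ δ * CB * (2 * Real.pi) * 1 * ‖rv q‖ := by
          refine mul_le_mul_of_nonneg_right ?_ (norm_nonneg _)
          refine mul_le_mul ?_ h1 (abs_nonneg _) (by positivity)
          refine mul_le_mul_of_nonneg_right ?_ (by positivity)
          exact mul_le_mul_of_nonneg_left (hB t ht) hδ
      _ = CB * (2 * Real.pi) * ‖rv q‖ * δ := by ring
  have hgql : ∀ (δ : ℝ) (j : Fin 3) (x y : E n), 0 ≤ δ → ∀ t ∈ Icc (0 : ℝ) T,
      ‖gq q B δ j y t - gq q B δ j x t‖ ≤ δ * Cq * ‖pj p (y - x)‖ := by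
    intro δ j x y hδ t ht
    unfold gq
    rw [← sub_smul, ← mul_sub, norm_smul, Real.norm_eq_abs, abs_mul, abs_neg, abs_mul, abs_mul, abs_of_nonneg hδ,
      abs_of_pos (by positivity : (0 : ℝ) < 2 * Real.pi)]
    have h1 : |Real.sin (2 * Real.pi * dot q y + 2 * Real.pi * ((j : ℕ) : ℝ) / 3) -
        Real.sin (2 * Real.pi * dot q x + 2 * Real.pi * ((j : ℕ) : ℝ) / 3)| ≤
        2 * Real.pi * l1 q * ‖pj p (y - x)‖ := by
      refine (Real.abs_sin_sub_sin_le _ _).trans ?_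
      have e : 2 * Real.pi * dot q y + 2 * Real.pi * ((j : ℕ) : ℝ) / 3 -
          (2 * Real.pi * dot q x + 2 * Real.pi * ((j : ℕ) : ℝ) / 3) = 2 * Real.pi * dot q (pj p (y - x)) := by
        rw [dot_pj hpq, dot_sub]; ring
      rw [e, abs_mul, abs_of_pos (by positivity : (0 : ℝ) < 2 * Real.pi), mul_assoc (2 * Real.pi)]
      exact mul_le_mul_of_nonneg_left (dot_le _ _) (by positivity)
    calc δ * |B t| * (2 * Real.pi) * |Real.sin (2 * Real.pi * dot q y + 2 * Real.pi * ((j : ℕ) : ℝ) / 3) -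
          Real.sin (2 * Real.pi * dot q x + 2 * Real.pi * ((j : ℕ) : ℝ) / 3)| * ‖rv q‖
        ≤ δ * CB * (2 * Real.pi) * (2 * Real.pi * l1 q * ‖pj p (y - x)‖) * ‖rv q‖ := by
          refine mul_le_mul_of_nonneg_right ?_ (norm_nonneg _)
          refine mul_le_mul ?_ h1 (abs_nonneg _) (by positivity)
          refine mul_le_mul_of_nonneg_right ?_ (by positivity)
          exact mul_le_mul_of_nonneg_left (hB t ht) hδ
      _ = δ * Cq * ‖pj p (y - x)‖ := by rw [hCqd]; ring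
  have hsFl : ∀ (x y : E n) (t : ℝ), ‖sF p AU y t - sF p AU x t‖ ≤ L * l1 p * ‖y - x‖ := by
    intro x y t
    unfold sF
    rw [← sub_smul, ← sub_div, norm_smul, Real.norm_eq_abs, abs_div, abs_of_pos hpp0]
    calc |ds AU (dot p y) t - ds AU (dot p x) t| / dot p (rv p) * ‖rv p‖
        ≤ (L * (l1 p * ‖y - x‖)) / dot p (rv p) * dot p (rv p) := by
          refine mul_le_mul (div_le_div_of_nonneg_right ?_ hpp0.le) (norm_rv_le p) (norm_nonneg _) (by positivity)
          refine (hL1 _ _ _).trans (mul_le_mul_of_nonneg_left ?_ hL)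
          rw [← dot_sub]
          exact dot_le _ _
      _ = L * l1 p * ‖y - x‖ := by field_simp
  -- constants
  obtain ⟨K1, hK1⟩ : ∃ K1 : ℝ, K1 = 1 + Cg + L * l1 p + Cq * (1 + l1 p) + 2 * (CH * (1 + Cc)) := ⟨_, rfl⟩
  have hK10 : 0 ≤ K1 := by rw [hK1]; positivity
  obtain ⟨C1, hC1⟩ : ∃ C1 : ℝ, C1 = ((1 + Cg) + 0 * T) * Real.exp (K1 * T) := ⟨_, rfl⟩
  have hC10 : 0 ≤ C1 := by rw [hC1]; positivity
  obtain ⟨C2, hC2⟩ : ∃ C2 : ℝ, C2 = (1 + T) * (1 + l1 p) * (Cg + 2 * (CH * (1 + Cc))) * (C1 + 1) := ⟨_, rfl⟩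
  have hC20 : 0 ≤ C2 := by rw [hC2]; positivity
  obtain ⟨K3, hK3⟩ : ∃ K3 : ℝ, K3 = 1 + L := ⟨_, rfl⟩
  have hK30 : 0 ≤ K3 := by rw [hK3]; positivity
  obtain ⟨C3, hC3⟩ : ∃ C3 : ℝ, C3 = (l1 p + 0 * T) * Real.exp (K3 * T) := ⟨_, rfl⟩
  have hC30 : 0 ≤ C3 := by rw [hC3]; positivity
  obtain ⟨C4, hC4⟩ : ∃ C4 : ℝ, C4 = l1 p * (Cg + 2 * (CH * (1 + Cc))) * (C1 + 1) + L * Cc * C3 := ⟨_, rfl⟩
  have hC40 : 0 ≤ C4 := by rw [hC4]; positivity
  obtain ⟨C5, hC5⟩ : ∃ C5 : ℝ, C5 = (C4 + C4 * T) * Real.exp (K3 * T) := ⟨_, rfl⟩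
  have hC50 : 0 ≤ C5 := by rw [hC5]; positivity
  refine ⟨3 * (C2 + C2 * T) + C2 + C5 + C4, 1 / (T * T * Cq + 1), by positivity, by positivity, ?_, ?_⟩
  · rw [div_le_one (by positivity)]
    have : 0 ≤ T * T * Cq := by positivity
    linarith
  intro lam hl P0 hP δ hδ0 hδ1 j x v y u hx hy hv0 hu0 s r s' r' hS hS' hs hr hs' hr'
  have hl0 : (0 : ℝ) < lam := by linarith
  have h00 : (0 : ℝ) ∈ Icc (0 : ℝ) T := ⟨le_refl _, hT0⟩
  have hTT : T ∈ Icc (0 : ℝ) T := ⟨hT0, le_refl _⟩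
  have hη : 0 ≤ δ + 1 / lam := by positivity
  have hδ2 : δ ≤ 1 := by
    refine hδ1.trans ?_
    rw [div_le_one (by positivity)]
    have : 0 ≤ T * T * Cq := by positivity
    linarith
  have hd : ∀ C : ℝ, 0 ≤ C → C / lam ≤ C := fun C hC => div_le_self hC hl
  have hcx := hc lam hl P0 hP δ hδ0 hδ2 x v (fun t => gq q B δ j (x t) t)
    (fun t ht => ⟨(hx t ht).1, (hx t ht).2, hgqn δ j (x t) hδ0 t ht⟩) hv0 s r hS hs hr
  have hcy := hc lam hl P0 hP δ hδ0 hδ2 y u (fun t => gq q B δ j (y t) t)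
    (fun t ht => ⟨(hy t ht).1, (hy t ht).2, hgqn δ j (y t) hδ0 t ht⟩) hu0 s' r' hS' hs' hr'
  obtain ⟨Q, hQd⟩ : ∃ Q : ℝ → E n, Q = fun t => v t - gw w0 (x t) P0 t := ⟨_, rfl⟩
  obtain ⟨R, hRd⟩ : ∃ R : ℝ → E n, R = fun t => u t - gw w0 (y t) P0 t := ⟨_, rfl⟩
  have hQv : ∀ t, Q t = v t - gw w0 (x t) P0 t := fun t => by rw [hQd]
  have hRv : ∀ t, R t = u t - gw w0 (y t) P0 t := fun t => by rw [hRd]
  have hQder : ∀ t ∈ Icc (0 : ℝ) T, HasDerivAt Q (sF p AU (x t) t + gq q B δ j (x t) t + HH w0 e0 P0 (x t) (Q t) t) t := by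
    intro t ht
    have d2 := Q_deriv hW (hP.ne hl0) ht.1 (hx t ht).1 (hx t ht).2
    rw [← hQd, ← hQv] at d2
    exact d2
  have hRder : ∀ t ∈ Icc (0 : ℝ) T, HasDerivAt R (sF p AU (y t) t + gq q B δ j (y t) t + HH w0 e0 P0 (y t) (R t) t) t := by
    intro t ht
    have d2 := Q_deriv hW (hP.ne hl0) ht.1 (hy t ht).1 (hy t ht).2
    rw [← hRd, ← hRv] at d2
    exact d2
  -- differences
  obtain ⟨Wn, hWn⟩ : ∃ Wn : ℝ, Wn = ‖y 0 - x 0‖ + ‖u 0 - v 0‖ := ⟨_, rfl⟩
  have hWn0 : 0 ≤ Wn := by rw [hWn]; positivity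
  rw [← hWn]
  have hgl : ∀ t ∈ Icc (0 : ℝ) T, ‖gw w0 (y t) P0 t - gw w0 (x t) P0 t‖ ≤ Cg / lam * ‖y t - x t‖ :=
    fun t ht => (hg lam hl P0 hP t ht).2 (y t) (x t)
  have hHl : ∀ t ∈ Icc (0 : ℝ) T, ‖HH w0 e0 P0 (y t) (R t) t - HH w0 e0 P0 (x t) (Q t) t‖ ≤
      CH * (1 + Cc) / lam * (‖y t - x t‖ + ‖R t - Q t‖) := by
    intro t ht
    have h1 := (hH lam hl P0 hP t ht).2 (y t) (R t) (x t) (Q t)
    refine h1.trans (mul_le_mul_of_nonneg_right ?_ (by positivity))
    have h2 := (hcy t ht).2.2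
    rw [← hRv] at h2
    calc CH / lam * (1 + ‖R t - P0‖) ≤ CH / lam * (1 + Cc) := mul_le_mul_of_nonneg_left (by linarith) (by positivity)
      _ = CH * (1 + Cc) / lam := by ring
  have hvu : ∀ t, u t - v t = (R t - Q t) + (gw w0 (y t) P0 t - gw w0 (x t) P0 t) := by
    intro t; rw [hRv, hQv]; abel
  -- step 1: the crude bound
  have hcr : ∀ t ∈ Icc (0 : ℝ) T, ‖((y t - x t, R t - Q t) : E n × E n)‖ ≤ C1 * Wn := by
    have h1 : ∀ t ∈ Icc (0 : ℝ) T, ‖((y t - x t, R t - Q t) : E n × E n)‖ ≤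
        ((1 + Cg) * Wn + 0 * T) * Real.exp (K1 * T) := by
      refine gron (f := fun t => ((y t - x t, R t - Q t) : E n × E n))
        (f' := fun t => ((u t - v t, (sF p AU (y t) t + gq q B δ j (y t) t + HH w0 e0 P0 (y t) (R t) t) -
          (sF p AU (x t) t + gq q B δ j (x t) t + HH w0 e0 P0 (x t) (Q t) t)) : E n × E n))
        hK10 (by positivity) (le_refl _) ?_ ?_ ?_
      · intro t ht
        exact ((hy t ht).1.sub (hx t ht).1).prodMk ((hRder t ht).sub (hQder t ht))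
      · rw [Prod.norm_def]
        refine max_le ?_ ?_
        · simp only
          have : ‖y 0 - x 0‖ ≤ Wn := by rw [hWn]; linarith [norm_nonneg (u 0 - v 0)]
          nlinarith
        · simp only
          have e : R 0 - Q 0 = (u 0 - v 0) - (gw w0 (y 0) P0 0 - gw w0 (x 0) P0 0) := by
            rw [hRv, hQv]; abel
          rw [e]
          refine (norm_sub_le _ _).trans ?_
          have h2 := hgl 0 h00
          have h3 : Cg / lam * ‖y 0 - x 0‖ ≤ Cg * ‖y 0 - x 0‖ :=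
            mul_le_mul_of_nonneg_right (hd Cg hCg) (norm_nonneg _)
          have h4 : ‖y 0 - x 0‖ ≤ Wn := by rw [hWn]; linarith [norm_nonneg (u 0 - v 0)]
          have h5 : ‖u 0 - v 0‖ ≤ Wn := by rw [hWn]; linarith [norm_nonneg (y 0 - x 0)]
          nlinarith
      · intro t ht
        have ha : ‖y t - x t‖ ≤ ‖((y t - x t, R t - Q t) : E n × E n)‖ := norm_fst_le (y t - x t, R t - Q t)
        have hb : ‖R t - Q t‖ ≤ ‖((y t - x t, R t - Q t) : E n × E n)‖ := norm_snd_le (y t - x t, R t - Q t)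
        obtain ⟨Z, hZ⟩ : ∃ Z : ℝ, Z = ‖((y t - x t, R t - Q t) : E n × E n)‖ := ⟨_, rfl⟩
        have hZ0 : 0 ≤ Z := by rw [hZ]; exact norm_nonneg _
        rw [← hZ] at ha hb ⊢
        have h2 := hgl t ht
        have h3 := hHl t ht
        have h4 := hgql δ j (x t) (y t) hδ0 t ht
        have h5 := hsFl (x t) (y t) t
        have g1 : Cg / lam * ‖y t - x t‖ ≤ Cg * Z := mul_le_mul (hd Cg hCg) ha (norm_nonneg _) hCg
        have g2 : CH * (1 + Cc) / lam * (‖y t - x t‖ + ‖R t - Q t‖) ≤ CH * (1 + Cc) * (Z + Z) :=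
          mul_le_mul (hd _ (by positivity)) (add_le_add ha hb) (by positivity) (by positivity)
        have g3 : δ * Cq * ‖pj p (y t - x t)‖ ≤ 1 * Cq * ((1 + l1 p) * Z) := by
          refine mul_le_mul (mul_le_mul_of_nonneg_right hδ2 hCq) ?_ (norm_nonneg _) (by positivity)
          exact (pj_norm hp _).trans (mul_le_mul_of_nonneg_left ha (by positivity))
        have g4 : L * l1 p * ‖y t - x t‖ ≤ L * l1 p * Z := mul_le_mul_of_nonneg_left ha (by positivity)
        have eK : K1 * Z + 0 = Z + Cg * Z + L * l1 p * Z + 1 * Cq * ((1 + l1 p) * Z) + CH * (1 + Cc) * (Z + Z) := by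
          rw [hK1]; ring
        rw [eK, Prod.norm_def]
        have p1 : 0 ≤ L * l1 p * Z := by positivity
        have p2 : 0 ≤ 1 * Cq * ((1 + l1 p) * Z) := by positivity
        have p3 : 0 ≤ CH * (1 + Cc) * (Z + Z) := by positivity
        have p4 : 0 ≤ Cg * Z := by positivity
        refine max_le ?_ ?_
        · simp only
          rw [hvu]
          refine (norm_add_le _ _).trans ?_
          linarith
        · simp only
          have e : (sF p AU (y t) t + gq q B δ j (y t) t + HH w0 e0 P0 (y t) (R t) t) -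
              (sF p AU (x t) t + gq q B δ j (x t) t + HH w0 e0 P0 (x t) (Q t) t) =
              (sF p AU (y t) t - sF p AU (x t) t) + (gq q B δ j (y t) t - gq q B δ j (x t) t) +
              (HH w0 e0 P0 (y t) (R t) t - HH w0 e0 P0 (x t) (Q t) t) := by abel
          rw [e]
          refine (norm_add₃_le).trans ?_
          linarith
    intro t ht
    refine (h1 t ht).trans (le_of_eq ?_)
    rw [hC1]; ring
  have hcx1 : ∀ t ∈ Icc (0 : ℝ) T, ‖y t - x t‖ ≤ C1 * Wn := fun t ht =>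
    (norm_fst_le (y t - x t, R t - Q t)).trans (hcr t ht)
  have hcQ1 : ∀ t ∈ Icc (0 : ℝ) T, ‖R t - Q t‖ ≤ C1 * Wn := fun t ht =>
    (norm_snd_le (y t - x t, R t - Q t)).trans (hcr t ht)
  have hgl2 : ∀ t ∈ Icc (0 : ℝ) T, ‖gw w0 (y t) P0 t - gw w0 (x t) P0 t‖ ≤ Cg * C1 * Wn / lam := by
    intro t ht
    refine (hgl t ht).trans ?_
    calc Cg / lam * ‖y t - x t‖ ≤ Cg / lam * (C1 * Wn) := mul_le_mul_of_nonneg_left (hcx1 t ht) (by positivity)
      _ = Cg * C1 * Wn / lam := by ring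
  have hHl2 : ∀ t ∈ Icc (0 : ℝ) T, ‖HH w0 e0 P0 (y t) (R t) t - HH w0 e0 P0 (x t) (Q t) t‖ ≤
      2 * (CH * (1 + Cc)) * C1 * Wn / lam := by
    intro t ht
    refine (hHl t ht).trans ?_
    calc CH * (1 + Cc) / lam * (‖y t - x t‖ + ‖R t - Q t‖) ≤ CH * (1 + Cc) / lam * (C1 * Wn + C1 * Wn) :=
          mul_le_mul_of_nonneg_left (add_le_add (hcx1 t ht) (hcQ1 t ht)) (by positivity)
      _ = 2 * (CH * (1 + Cc)) * C1 * Wn / lam := by ring
  -- step 2: the fast part
  have hfast : ∀ t ∈ Icc (0 : ℝ) T, ‖((pj p (y t - x t), T • pj p (R t - Q t)) : E n × E n)‖ ≤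
      ((max ‖pj p (y 0 - x 0)‖ (T * ‖pj p (u 0 - v 0)‖) + C2 * Wn / lam) + (C2 * Wn / lam) * T) *
        Real.exp (1 / T * T) := by
    refine gron (f := fun t => ((pj p (y t - x t), T • pj p (R t - Q t)) : E n × E n))
      (f' := fun t => ((pj p (u t - v t), T • pj p ((sF p AU (y t) t + gq q B δ j (y t) t + HH w0 e0 P0 (y t) (R t) t) -
          (sF p AU (x t) t + gq q B δ j (x t) t + HH w0 e0 P0 (x t) (Q t) t))) : E n × E n))
      (by positivity) (by positivity) (by positivity) ?_ ?_ ?_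
    · intro t ht
      exact (pj_hasDerivAt ((hy t ht).1.sub (hx t ht).1)).prodMk
        ((pj_hasDerivAt ((hRder t ht).sub (hQder t ht))).const_smul T)
    · rw [Prod.norm_def]
      have p1 : 0 ≤ C2 * Wn / lam := by positivity
      refine max_le ?_ ?_
      · simp only
        exact (le_max_left _ _).trans (by linarith)
      · simp only
        rw [norm_smul, Real.norm_eq_abs, abs_of_nonneg hT0]
        have e : R 0 - Q 0 = (u 0 - v 0) - (gw w0 (y 0) P0 0 - gw w0 (x 0) P0 0) := by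
          rw [hRv, hQv]; abel
        rw [e, pj_sub p (u 0 - v 0)]
        have h1 : ‖pj p (u 0 - v 0) - pj p (gw w0 (y 0) P0 0 - gw w0 (x 0) P0 0)‖ ≤
            ‖pj p (u 0 - v 0)‖ + (1 + l1 p) * (Cg * C1 * Wn / lam) := by
          refine (norm_sub_le _ _).trans (add_le_add_right ?_ _)
          exact (pj_norm hp _).trans (mul_le_mul_of_nonneg_left (hgl2 0 h00) (by positivity))
        have h2 : T * (‖pj p (u 0 - v 0)‖ + (1 + l1 p) * (Cg * C1 * Wn / lam)) ≤
            max ‖pj p (y 0 - x 0)‖ (T * ‖pj p (u 0 - v 0)‖) + C2 * Wn / lam := by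
          rw [mul_add]
          refine add_le_add (le_max_right _ _) ?_
          have e2 : C2 * Wn / lam - T * ((1 + l1 p) * (Cg * C1 * Wn / lam)) =
              (1 + l1 p) * (Cg * (1 + T + C1) + (1 + T) * (2 * (CH * (1 + Cc))) * (C1 + 1)) * Wn / lam := by
            rw [hC2]; ring
          have e3 : 0 ≤ (1 + l1 p) * (Cg * (1 + T + C1) + (1 + T) * (2 * (CH * (1 + Cc))) * (C1 + 1)) * Wn / lam := by
            positivity
          linarith
        exact (mul_le_mul_of_nonneg_left h1 hT0).trans h2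
    · intro t ht
      obtain ⟨Z, hZ⟩ : ∃ Z : ℝ, Z = ‖((pj p (y t - x t), T • pj p (R t - Q t)) : E n × E n)‖ := ⟨_, rfl⟩
      have ha : ‖pj p (y t - x t)‖ ≤ Z := by
        rw [hZ]; exact norm_fst_le (pj p (y t - x t), T • pj p (R t - Q t))
      have hb : T * ‖pj p (R t - Q t)‖ ≤ Z := by
        have := norm_snd_le (pj p (y t - x t), T • pj p (R t - Q t))
        rw [← hZ] at this
        simp only at this
        rwa [norm_smul, Real.norm_eq_abs, abs_of_nonneg hT0] at this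
      have hZ0 : 0 ≤ Z := (norm_nonneg _).trans ha
      have hTpos : 0 < T := by linarith
      have hb' : ‖pj p (R t - Q t)‖ ≤ 1 / T * Z := by
        rw [div_mul_eq_mul_div, one_mul, le_div_iff₀ hTpos, mul_comm]
        exact hb
      rw [← hZ, Prod.norm_def]
      have p0 : 0 ≤ Wn / lam := by positivity
      refine max_le ?_ ?_
      · simp only
        rw [hvu, pj_add]
        refine (norm_add_le _ _).trans (add_le_add hb' ?_)
        refine (pj_norm hp _).trans ?_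
        refine (mul_le_mul_of_nonneg_left (hgl2 t ht) (by positivity)).trans ?_
        have e2 : C2 * Wn / lam - (1 + l1 p) * (Cg * C1 * Wn / lam) =
            (1 + l1 p) * (Cg * (1 + T + T * C1) + (1 + T) * (2 * (CH * (1 + Cc))) * (C1 + 1)) * (Wn / lam) := by
          rw [hC2]; ring
        have e3 : 0 ≤ (1 + l1 p) * (Cg * (1 + T + T * C1) + (1 + T) * (2 * (CH * (1 + Cc))) * (C1 + 1)) * (Wn / lam) := by
          positivity
        linarith
      · simp only
        have e : (sF p AU (y t) t + gq q B δ j (y t) t + HH w0 e0 P0 (y t) (R t) t) -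
            (sF p AU (x t) t + gq q B δ j (x t) t + HH w0 e0 P0 (x t) (Q t) t) =
            (sF p AU (y t) t - sF p AU (x t) t) + (gq q B δ j (y t) t - gq q B δ j (x t) t) +
            (HH w0 e0 P0 (y t) (R t) t - HH w0 e0 P0 (x t) (Q t) t) := by abel
        have e1 : pj p (sF p AU (y t) t - sF p AU (x t) t) = 0 := by
          unfold sF
          rw [← sub_smul, pj_smul_p hp]
        have e2 : pj p (gq q B δ j (y t) t - gq q B δ j (x t) t) = gq q B δ j (y t) t - gq q B δ j (x t) t := by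
          unfold gq
          rw [← sub_smul, pj_smul_q hpq]
        rw [e, pj_add, pj_add, e1, e2, zero_add, norm_smul, Real.norm_eq_abs, abs_of_nonneg hT0]
        have h4 := hgql δ j (x t) (y t) hδ0 t ht
        have h5 : ‖pj p (HH w0 e0 P0 (y t) (R t) t - HH w0 e0 P0 (x t) (Q t) t)‖ ≤
            (1 + l1 p) * (2 * (CH * (1 + Cc)) * C1 * Wn / lam) :=
          (pj_norm hp _).trans (mul_le_mul_of_nonneg_left (hHl2 t ht) (by positivity))
        have h6 : T * (δ * Cq * ‖pj p (y t - x t)‖) ≤ 1 / T * Z := by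
          have h7 : T * (δ * Cq) ≤ 1 / T := by
            rw [le_div_iff₀ hTpos]
            have h8 : δ * (T * T * Cq + 1) ≤ 1 := by
              have := (le_div_iff₀ (by positivity : (0 : ℝ) < T * T * Cq + 1)).1 hδ1
              linarith
            nlinarith
          calc T * (δ * Cq * ‖pj p (y t - x t)‖) = T * (δ * Cq) * ‖pj p (y t - x t)‖ := by ring
            _ ≤ 1 / T * Z := mul_le_mul h7 ha (norm_nonneg _) (by positivity)
        have h7 : T * ((1 + l1 p) * (2 * (CH * (1 + Cc)) * C1 * Wn / lam)) ≤ C2 * Wn / lam := by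
          have e2 : C2 * Wn / lam - T * ((1 + l1 p) * (2 * (CH * (1 + Cc)) * C1 * Wn / lam)) =
              (1 + l1 p) * ((1 + T) * Cg * (C1 + 1) + (2 * (CH * (1 + Cc))) * (1 + T + C1)) * (Wn / lam) := by
            rw [hC2]; ring
          have e3 : 0 ≤ (1 + l1 p) * ((1 + T) * Cg * (C1 + 1) + (2 * (CH * (1 + Cc))) * (1 + T + C1)) * (Wn / lam) := by
            positivity
          linarith
        calc T * ‖gq q B δ j (y t) t - gq q B δ j (x t) t +
              pj p (HH w0 e0 P0 (y t) (R t) t - HH w0 e0 P0 (x t) (Q t) t)‖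
            ≤ T * (δ * Cq * ‖pj p (y t - x t)‖ + (1 + l1 p) * (2 * (CH * (1 + Cc)) * C1 * Wn / lam)) :=
              mul_le_mul_of_nonneg_left ((norm_add_le _ _).trans (add_le_add h4 h5)) hT0
          _ ≤ 1 / T * Z + C2 * Wn / lam := by rw [mul_add]; exact add_le_add h6 h7
  -- step 3: the unperturbed differences
  have hun : ∀ t ∈ Icc (0 : ℝ) T, |s' t - s t| ≤ C3 * Wn := by
    have h1 : ∀ t ∈ Icc (0 : ℝ) T, ‖((s' t - s t, r' t - r t) : ℝ × ℝ)‖ ≤
        (l1 p * Wn + 0 * T) * Real.exp (K3 * T) := by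
      refine gron (f := fun t => ((s' t - s t, r' t - r t) : ℝ × ℝ))
        (f' := fun t => ((r' t - r t, ds AU (s' t) t - ds AU (s t) t) : ℝ × ℝ)) hK30 (by positivity) (le_refl _) ?_ ?_ ?_
      · intro t ht
        exact ((hS' t).1.sub (hS t).1).prodMk ((hS' t).2.sub (hS t).2)
      · rw [Prod.norm_def]
        refine max_le ?_ ?_
        · simp only [hs, hs', Real.norm_eq_abs]
          rw [← dot_sub]
          refine (dot_le _ _).trans (mul_le_mul_of_nonneg_left ?_ hl1)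
          rw [hWn]; linarith [norm_nonneg (u 0 - v 0)]
        · simp only [hr, hr', Real.norm_eq_abs]
          rw [← dot_sub]
          refine (dot_le _ _).trans (mul_le_mul_of_nonneg_left ?_ hl1)
          rw [hWn]; linarith [norm_nonneg (y 0 - x 0)]
      · intro t ht
        have ha : |s' t - s t| ≤ ‖((s' t - s t, r' t - r t) : ℝ × ℝ)‖ := norm_fst_le (s' t - s t, r' t - r t)
        have hb : |r' t - r t| ≤ ‖((s' t - s t, r' t - r t) : ℝ × ℝ)‖ := norm_snd_le (s' t - s t, r' t - r t)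
        obtain ⟨Z, hZ⟩ : ∃ Z : ℝ, Z = ‖((s' t - s t, r' t - r t) : ℝ × ℝ)‖ := ⟨_, rfl⟩
        have hZ0 : 0 ≤ Z := by rw [hZ]; exact norm_nonneg _
        rw [← hZ] at ha hb ⊢
        rw [Prod.norm_def]
        refine max_le ?_ ?_
        · simp only [Real.norm_eq_abs]
          rw [hK3]; nlinarith
        · simp only [Real.norm_eq_abs]
          refine (hL1 _ _ _).trans ?_
          rw [hK3]; nlinarith [mul_le_mul_of_nonneg_left ha hL]
    intro t ht
    refine ((norm_fst_le (s' t - s t, r' t - r t)).trans (h1 t ht)).trans (le_of_eq ?_)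
    rw [hC3]; ring
  -- step 4: the difference of the differences
  have hdd : ∀ t ∈ Icc (0 : ℝ) T, ‖((dot p (y t - x t) - (s' t - s t), dot p (R t - Q t) - (r' t - r t)) : ℝ × ℝ)‖ ≤
      (C4 * (δ + 1 / lam) * Wn + C4 * (δ + 1 / lam) * Wn * T) * Real.exp (K3 * T) := by
    refine gron (f := fun t => ((dot p (y t - x t) - (s' t - s t), dot p (R t - Q t) - (r' t - r t)) : ℝ × ℝ))
      (f' := fun t => ((dot p (u t - v t) - (r' t - r t),
        dot p ((sF p AU (y t) t + gq q B δ j (y t) t + HH w0 e0 P0 (y t) (R t) t) -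
          (sF p AU (x t) t + gq q B δ j (x t) t + HH w0 e0 P0 (x t) (Q t) t)) -
          (ds AU (s' t) t - ds AU (s t) t)) : ℝ × ℝ)) hK30 (by positivity) (by positivity) ?_ ?_ ?_
    · intro t ht
      have d1 := (dot_hasDerivAt p (hasDerivAt_pi.1 ((hy t ht).1.sub (hx t ht).1))).sub ((hS' t).1.sub (hS t).1)
      have d2 := (dot_hasDerivAt p (hasDerivAt_pi.1 ((hRder t ht).sub (hQder t ht)))).sub ((hS' t).2.sub (hS t).2)
      exact d1.prodMk d2
    · rw [Prod.norm_def]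
      refine max_le ?_ ?_
      · have e : dot p (y 0 - x 0) - (s' 0 - s 0) = 0 := by rw [hs, hs', dot_sub]; ring
        simp only [e, norm_zero]
        positivity
      · have e : dot p (R 0 - Q 0) - (r' 0 - r 0) = -dot p (gw w0 (y 0) P0 0 - gw w0 (x 0) P0 0) := by
          rw [hr, hr', hRv, hQv, dot_sub, dot_sub, dot_sub, dot_sub]; ring
        simp only [e, norm_neg, Real.norm_eq_abs]
        refine (dot_le _ _).trans ?_
        refine (mul_le_mul_of_nonneg_left (hgl2 0 h00) hl1).trans ?_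
        have e2 : C4 * (δ + 1 / lam) * Wn - l1 p * (Cg * C1 * Wn / lam) =
            C4 * δ * Wn + (l1 p * Cg + l1 p * (2 * (CH * (1 + Cc))) * (C1 + 1) + L * Cc * C3) * Wn * (1 / lam) := by
          rw [hC4]; ring
        have e3 : 0 ≤ C4 * δ * Wn + (l1 p * Cg + l1 p * (2 * (CH * (1 + Cc))) * (C1 + 1) + L * Cc * C3) * Wn * (1 / lam) := by
          positivity
        linarith
    · intro t ht
      obtain ⟨Z, hZ⟩ : ∃ Z : ℝ, Z = ‖((dot p (y t - x t) - (s' t - s t), dot p (R t - Q t) - (r' t - r t)) : ℝ × ℝ)‖ :=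
        ⟨_, rfl⟩
      have ha : |dot p (y t - x t) - (s' t - s t)| ≤ Z := by
        rw [hZ]; exact norm_fst_le (dot p (y t - x t) - (s' t - s t), dot p (R t - Q t) - (r' t - r t))
      have hb : |dot p (R t - Q t) - (r' t - r t)| ≤ Z := by
        rw [hZ]; exact norm_snd_le (dot p (y t - x t) - (s' t - s t), dot p (R t - Q t) - (r' t - r t))
      have hZ0 : 0 ≤ Z := (abs_nonneg _).trans ha
      rw [← hZ, Prod.norm_def]
      have hlam1 : (0 : ℝ) ≤ 1 / lam := by positivity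
      refine max_le ?_ ?_
      · have e : dot p (u t - v t) - (r' t - r t) = (dot p (R t - Q t) - (r' t - r t)) +
            dot p (gw w0 (y t) P0 t - gw w0 (x t) P0 t) := by
          rw [hvu, dot_add]; ring
        simp only [e, Real.norm_eq_abs]
        refine (abs_add_le _ _).trans ?_
        have h1 : |dot p (gw w0 (y t) P0 t - gw w0 (x t) P0 t)| ≤ C4 * (δ + 1 / lam) * Wn := by
          refine (dot_le _ _).trans ?_
          refine (mul_le_mul_of_nonneg_left (hgl2 t ht) hl1).trans ?_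
          have e2 : C4 * (δ + 1 / lam) * Wn - l1 p * (Cg * C1 * Wn / lam) =
              C4 * δ * Wn + (l1 p * Cg + l1 p * (2 * (CH * (1 + Cc))) * (C1 + 1) + L * Cc * C3) * Wn * (1 / lam) := by
            rw [hC4]; ring
          have e3 : 0 ≤ C4 * δ * Wn + (l1 p * Cg + l1 p * (2 * (CH * (1 + Cc))) * (C1 + 1) + L * Cc * C3) * Wn * (1 / lam) := by
            positivity
          linarith
        have h2 : Z ≤ K3 * Z := by rw [hK3]; nlinarith
        linarith
      · have e : dot p ((sF p AU (y t) t + gq q B δ j (y t) t + HH w0 e0 P0 (y t) (R t) t) -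
            (sF p AU (x t) t + gq q B δ j (x t) t + HH w0 e0 P0 (x t) (Q t) t)) - (ds AU (s' t) t - ds AU (s t) t) =
            (ds AU (dot p (y t)) t - ds AU (s' t + (dot p (x t) - s t)) t) +
            ((ds AU (s' t + (dot p (x t) - s t)) t - ds AU (s' t) t) -
              (ds AU (s t + (dot p (x t) - s t)) t - ds AU (s t) t)) +
            dot p (HH w0 e0 P0 (y t) (R t) t - HH w0 e0 P0 (x t) (Q t) t) := by
          have e1 : ∀ x : E n, dot p (sF p AU x t) = ds AU (dot p x) t := by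
            intro x
            unfold sF
            rw [dot_smul_rv]
            field_simp
          have e2 : ∀ x : E n, dot p (gq q B δ j x t) = 0 := by
            intro x
            unfold gq
            rw [dot_smul_rv, hpq, mul_zero]
          have e3 : s t + (dot p (x t) - s t) = dot p (x t) := by ring
          rw [e3]
          simp only [dot_sub, dot_add, e1, e2]
          ring
        simp only [e, Real.norm_eq_abs]
        refine (abs_add_three _ _ _).trans ?_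
        have h1 : |ds AU (dot p (y t)) t - ds AU (s' t + (dot p (x t) - s t)) t| ≤ L * Z := by
          refine (hL1 _ _ _).trans (mul_le_mul_of_nonneg_left ?_ hL)
          have e5 : dot p (y t) - (s' t + (dot p (x t) - s t)) = dot p (y t - x t) - (s' t - s t) := by
            rw [dot_sub]; ring
          rw [e5]; exact ha
        have h2 : |(ds AU (s' t + (dot p (x t) - s t)) t - ds AU (s' t) t) -
              (ds AU (s t + (dot p (x t) - s t)) t - ds AU (s t) t)| ≤ L * Cc * C3 * (δ + 1 / lam) * Wn := by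
          refine (hL2 _ _ _ _).trans ?_
          calc L * |dot p (x t) - s t| * |s' t - s t| ≤ L * (Cc * (δ + 1 / lam)) * (C3 * Wn) :=
                mul_le_mul (mul_le_mul_of_nonneg_left (hcx t ht).1 hL) (hun t ht) (abs_nonneg _) (by positivity)
            _ = L * Cc * C3 * (δ + 1 / lam) * Wn := by ring
        have h3 : |dot p (HH w0 e0 P0 (y t) (R t) t - HH w0 e0 P0 (x t) (Q t) t)| ≤
            l1 p * (2 * (CH * (1 + Cc)) * C1 * Wn / lam) :=
          (dot_le _ _).trans (mul_le_mul_of_nonneg_left (hHl2 t ht) hl1)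
        have e2 : C4 * (δ + 1 / lam) * Wn - (L * Cc * C3 * (δ + 1 / lam) * Wn + l1 p * (2 * (CH * (1 + Cc)) * C1 * Wn / lam)) =
            l1 p * (Cg + 2 * (CH * (1 + Cc))) * (C1 + 1) * δ * Wn +
            (l1 p * Cg * (C1 + 1) + l1 p * (2 * (CH * (1 + Cc)))) * Wn * (1 / lam) := by
          rw [hC4]; ring
        have e3 : 0 ≤ l1 p * (Cg + 2 * (CH * (1 + Cc))) * (C1 + 1) * δ * Wn +
            (l1 p * Cg * (C1 + 1) + l1 p * (2 * (CH * (1 + Cc)))) * Wn * (1 / lam) := by positivity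
        have h4 : L * Z ≤ K3 * Z := by rw [hK3]; nlinarith
        linarith
  -- conclusions
  have hexp : Real.exp (1 / T * T) ≤ 3 := by
    have hTpos : 0 < T := by linarith
    have e : 1 / T * T = 1 := by field_simp
    rw [e]
    linarith [Real.exp_one_lt_d9]
  have hdT := hdd T hTT
  have e5 : (C4 * (δ + 1 / lam) * Wn + C4 * (δ + 1 / lam) * Wn * T) * Real.exp (K3 * T) = C5 * (δ + 1 / lam) * Wn := by
    rw [hC5]; ring
  rw [e5] at hdT
  have hbig : C5 * (δ + 1 / lam) * Wn + C4 * (δ + 1 / lam) * Wn ≤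
      (3 * (C2 + C2 * T) + C2 + C5 + C4) * (δ + 1 / lam) * Wn := by
    have : (3 * (C2 + C2 * T) + C2 + C5 + C4) * (δ + 1 / lam) * Wn - (C5 * (δ + 1 / lam) * Wn + C4 * (δ + 1 / lam) * Wn) =
      (3 * (C2 + C2 * T) + C2) * (δ + 1 / lam) * Wn := by ring
    have h2 : 0 ≤ (3 * (C2 + C2 * T) + C2) * (δ + 1 / lam) * Wn := by positivity
    linarith
  have hp4 : 0 ≤ C4 * (δ + 1 / lam) * Wn := by positivity
  refine ⟨?_, ?_, ?_⟩
  · have h1 := hfast T hTT
    have ha : ‖pj p (y T - x T)‖ ≤ ‖((pj p (y T - x T), T • pj p (R T - Q T)) : E n × E n)‖ :=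
      norm_fst_le (pj p (y T - x T), T • pj p (R T - Q T))
    have hb : T * ‖pj p (R T - Q T)‖ ≤ ‖((pj p (y T - x T), T • pj p (R T - Q T)) : E n × E n)‖ := by
      have := norm_snd_le (pj p (y T - x T), T • pj p (R T - Q T))
      simp only at this
      rwa [norm_smul, Real.norm_eq_abs, abs_of_nonneg hT0] at this
    have hm0 : 0 ≤ max ‖pj p (y 0 - x 0)‖ (T * ‖pj p (u 0 - v 0)‖) := le_max_of_le_left (norm_nonneg _)
    have h2 : ((max ‖pj p (y 0 - x 0)‖ (T * ‖pj p (u 0 - v 0)‖) + C2 * Wn / lam) + (C2 * Wn / lam) * T) *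
        Real.exp (1 / T * T) ≤ ((max ‖pj p (y 0 - x 0)‖ (T * ‖pj p (u 0 - v 0)‖) + C2 * Wn / lam) +
          (C2 * Wn / lam) * T) * 3 := mul_le_mul_of_nonneg_left hexp (by positivity)
    have h3 : ‖pj p (u T - v T)‖ ≤ ‖pj p (R T - Q T)‖ + (1 + l1 p) * (Cg * C1 * Wn / lam) := by
      rw [hvu, pj_add]
      refine (norm_add_le _ _).trans (add_le_add_right ?_ _)
      exact (pj_norm hp _).trans (mul_le_mul_of_nonneg_left (hgl2 T hTT) (by positivity))
    have h4 : T * ((1 + l1 p) * (Cg * C1 * Wn / lam)) ≤ C2 * Wn / lam := by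
      have e2 : C2 * Wn / lam - T * ((1 + l1 p) * (Cg * C1 * Wn / lam)) =
          (1 + l1 p) * (Cg * (1 + T + C1) + (1 + T) * (2 * (CH * (1 + Cc))) * (C1 + 1)) * (Wn / lam) := by
        rw [hC2]; ring
      have e3 : 0 ≤ (1 + l1 p) * (Cg * (1 + T + C1) + (1 + T) * (2 * (CH * (1 + Cc))) * (C1 + 1)) * (Wn / lam) := by
        positivity
      linarith
    have hfin : ((max ‖pj p (y 0 - x 0)‖ (T * ‖pj p (u 0 - v 0)‖) + C2 * Wn / lam) + (C2 * Wn / lam) * T) * 3 +
        C2 * Wn / lam ≤ 3 * max ‖pj p (y 0 - x 0)‖ (T * ‖pj p (u 0 - v 0)‖) +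
          (3 * (C2 + C2 * T) + C2 + C5 + C4) / lam * Wn := by
      have e2 : 3 * max ‖pj p (y 0 - x 0)‖ (T * ‖pj p (u 0 - v 0)‖) +
          (3 * (C2 + C2 * T) + C2 + C5 + C4) / lam * Wn -
          (((max ‖pj p (y 0 - x 0)‖ (T * ‖pj p (u 0 - v 0)‖) + C2 * Wn / lam) + (C2 * Wn / lam) * T) * 3 +
          C2 * Wn / lam) = (C5 + C4) * Wn / lam := by ring
      have e3 : 0 ≤ (C5 + C4) * Wn / lam := by positivity
      linarith
    have hq0 : 0 ≤ C2 * Wn / lam := by positivity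
    refine max_le ?_ ?_
    · linarith
    · have h5 := mul_le_mul_of_nonneg_left h3 hT0
      rw [mul_add] at h5
      linarith
  · have ha : |dot p (y T - x T) - (s' T - s T)| ≤
        ‖((dot p (y T - x T) - (s' T - s T), dot p (R T - Q T) - (r' T - r T)) : ℝ × ℝ)‖ :=
      norm_fst_le (dot p (y T - x T) - (s' T - s T), dot p (R T - Q T) - (r' T - r T))
    linarith
  · have hb : |dot p (R T - Q T) - (r' T - r T)| ≤
        ‖((dot p (y T - x T) - (s' T - s T), dot p (R T - Q T) - (r' T - r T)) : ℝ × ℝ)‖ :=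
      norm_snd_le (dot p (y T - x T) - (s' T - s T), dot p (R T - Q T) - (r' T - r T))
    have e : dot p (u T - v T) - (r' T - r T) = (dot p (R T - Q T) - (r' T - r T)) +
        dot p (gw w0 (y T) P0 T - gw w0 (x T) P0 T) := by
      rw [hvu, dot_add]; ring
    rw [e]
    refine (abs_add_le _ _).trans ?_
    have h1 : |dot p (gw w0 (y T) P0 T - gw w0 (x T) P0 T)| ≤ C4 * (δ + 1 / lam) * Wn := by
      refine (dot_le _ _).trans ?_
      refine (mul_le_mul_of_nonneg_left (hgl2 T hTT) hl1).trans ?_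
      have e2 : C4 * (δ + 1 / lam) * Wn - l1 p * (Cg * C1 * Wn / lam) =
          C4 * δ * Wn + (l1 p * Cg + l1 p * (2 * (CH * (1 + Cc))) * (C1 + 1) + L * Cc * C3) * Wn * (1 / lam) := by
        rw [hC4]; ring
      have e3 : 0 ≤ C4 * δ * Wn + (l1 p * Cg + l1 p * (2 * (CH * (1 + Cc))) * (C1 + 1) + L * Cc * C3) * Wn * (1 / lam) := by
        positivity
      linarith
    linarith

end Pool.Agent.K9h32.SP
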