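import Pool.Agent.K9h32.HJ.StmF

/-!
# Escaping orbits for `C^k`-small perturbations of potentials independent of one coordinate, all `k`:
definitions and statements of the leaves
-/

set_option autoImplicit false

open Set Filter Topology
open scoped ContDiff

noncomputable section

namespace Pool.Agent.K9h32.SP

open Pool.Agent.N980.TL

/-- Leaf GLOB: global solutions of `x'' = F(x,t)`, their uniqueness and continuous dependence -/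
def S_GLOB : Prop :=
  ∀ (n : ℕ) (F : E n → ℝ → E n) (B L : ℝ), 0 ≤ B → 0 ≤ L →
    Continuous (fun q : E n × ℝ => F q.1 q.2) → (∀ x t, ‖F x t‖ ≤ B) →
    (∀ x y t, ‖F x t - F y t‖ ≤ L * ‖x - y‖) → ∃ Φ : ℝ → E n → E n → ℝ → E n × E n,
      (∀ t0 x0 v0, Φ t0 x0 v0 t0 = (x0, v0)) ∧
      (∀ t0 x0 v0 t, HasDerivAt (fun s => (Φ t0 x0 v0 s).1) (Φ t0 x0 v0 t).2 t ∧
        HasDerivAt (fun s => (Φ t0 x0 v0 s).2) (F (Φ t0 x0 v0 t).1 t) t) ∧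
      (∀ (t0 t1 : ℝ) (x v : ℝ → E n), t0 ≤ t1 → (∀ t ∈ Icc t0 t1, HasDerivWithinAt x (v t) (Icc t0 t1) t ∧
        HasDerivWithinAt v (F (x t) t) (Icc t0 t1) t) → ∀ t ∈ Icc t0 t1, Φ t0 (x t0) (v t0) t = (x t, v t)) ∧
      (∀ (t0 t1 : ℝ) (x v : ℝ → E n), t0 ≤ t1 → (∀ t ∈ Icc t0 t1, HasDerivWithinAt x (v t) (Icc t0 t1) t ∧
        HasDerivWithinAt v (F (x t) t) (Icc t0 t1) t) → ∀ t ∈ Icc t0 t1, Φ t1 (x t1) (v t1) t = (x t, v t)) ∧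
      (∀ t0 t, Continuous (fun z : E n × E n => Φ t0 z.1 z.2 t))

/-- Leaf SLOW: a `C^k`-small potential `A(s,t)` on `𝕋 × 𝕋` and three gates `χ_j`. For every sequence of gates there
is an orbit which at the times `t ∈ [l, l + 1/100]`, `l ∈ ℕ`, is in the gate `σ_m` if `l = T m`, and outside of
the gates if `l` is not divisible by `T`. -/
def S_SLOW : Prop :=
  ∀ (k : ℕ) (ε : ℝ), 0 < ε → ∃ (A : ℝ → ℝ → ℝ) (χ : Fin 3 → ℝ → ℝ) (T : ℕ), 1 ≤ T ∧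
    ContDiff ℝ ∞ (fun q : ℝ × ℝ => A q.1 q.2) ∧ (∀ (s t : ℝ) (a b : ℤ), A (s + a) (t + b) = A s t) ∧
    (∀ i ≤ k, ∀ q, ‖iteratedFDeriv ℝ i (fun q : ℝ × ℝ => A q.1 q.2) q‖ ≤ ε) ∧
    (∀ j, ContDiff ℝ ∞ (χ j)) ∧ (∀ (j : Fin 3) (s : ℝ) (a : ℤ), χ j (s + a) = χ j s) ∧
    ∀ σ : ℕ → Fin 3, ∃ s s' : ℝ → ℝ,
      (∀ t, HasDerivAt s (s' t) t ∧ HasDerivAt s' (deriv (fun u => A u t) (s t)) t) ∧
      ∀ (l : ℕ) (t : ℝ), (l : ℝ) ≤ t → t ≤ l + 1 / 100 → ∀ j : Fin 3,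
        deriv (χ j) (s t) = 0 ∧ χ j (s t) = if T ∣ l ∧ j = σ (l / T) then 1 else 0

/-! ## Atoms with smooth coefficients in time -/

/-- the atom `a(t) ∏_f (f·v)⁻¹ cos (2π k·x + φ)` -/
structure TA (n : ℕ) where
  a : ℝ → ℝ
  F : List (Fin n → ℤ)
  k : Fin n → ℤ
  φ : ℝ

/-- `f·v` -/
def dot {n : ℕ} (f : Fin n → ℤ) (v : E n) : ℝ := ∑ i, (f i : ℝ) * v i

/-- the value of an atom -/
def TA.ev {n : ℕ} (a : TA n) (x v : E n) (t : ℝ) : ℝ :=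
  a.a t * (a.F.map fun f => (dot f v)⁻¹).prod * Real.cos (2 * Real.pi * dot a.k x + a.φ)

/-- the value of a sum of atoms -/
def tev {n : ℕ} (L : List (TA n)) (x v : E n) (t : ℝ) : ℝ := (L.map fun a => a.ev x v t).sum

/-- `∂/∂x_i` -/
def tdx {n : ℕ} (i : Fin n) (L : List (TA n)) : List (TA n) :=
  L.map fun a => { a with a := fun t => a.a t * (2 * Real.pi * a.k i), φ := a.φ + Real.pi / 2 }

/-- `∂/∂t` -/
def tdt {n : ℕ} (L : List (TA n)) : List (TA n) := L.map fun a => { a with a := deriv a.a }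

/-- smooth coefficients, and factors in `𝓕` -/
def Good {n : ℕ} (𝓕 : List (Fin n → ℤ)) (L : List (TA n)) : Prop :=
  ∀ a ∈ L, ContDiff ℝ ∞ a.a ∧ ∀ f ∈ a.F, f ∈ 𝓕

/-- Leaf HJT: approximate solutions `w1` of the Hamilton-Jacobi equation (differentiated in `x_j`)
`∂_t w + v·∂_x w + |∂_x w|²/2 = D + δ B(t) cos (2π q·x + φ) + …` where `B` vanishes to the order `k + 1` at `0` and
is `0` for `t ≥ 1/100`. `w0` is the solution for `D`. The last line is the jump of `∂_x w` at the time `0`. -/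
def S_HJT : Prop :=
  ∀ (n N : ℕ) (D : Trig n N) (k M : ℕ) (B : ℝ → ℝ), ContDiff ℝ ∞ B → (∀ i ≤ k, iteratedDeriv i B 0 = 0) →
    iteratedDeriv (k + 1) B 0 = (k + 1).factorial → (∀ t, 1 / 100 ≤ t → B t = 0) →
    ∃ (R : ℕ) (w0 : List (TA n)), (∀ a ∈ w0, 1 ≤ a.F.length) ∧
      (∀ (x v : E n) (t : ℝ) (i : Fin n), tev (tdx i w0) x v (t + 1) = tev (tdx i w0) x v t) ∧
      ∀ q : Fin n → ℤ, q ≠ 0 → ∃ 𝓕 : List (Fin n → ℤ), q ∈ 𝓕 ∧ Good 𝓕 w0 ∧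
        (∀ f ∈ 𝓕, f ≠ 0 ∧ ∃ (g : Fin n → ℤ) (l : ℤ), (∀ i, |g i| ≤ R) ∧ |l| ≤ R ∧ f = fun i => g i + l * q i) ∧
        ∀ δ φ : ℝ, ∃ w1 e1 r : List (TA n), Good 𝓕 w1 ∧ Good 𝓕 e1 ∧ Good 𝓕 r ∧
          (∀ a ∈ w1, 1 ≤ a.F.length) ∧ (∀ a ∈ e1, M ≤ a.F.length) ∧ (∀ a ∈ r, k + 3 ≤ a.F.length) ∧
          ∀ v : E n, (∀ f ∈ 𝓕, dot f v ≠ 0) → ∀ (x : E n) (j : Fin n),
            (∀ t : ℝ, tev (tdt (tdx j w1)) x v t +
              ∑ i, (v i + tev (tdx i w1) x v t) * tev (tdx i (tdx j w1)) x v t =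
              D.grad x t j - δ * B t * (2 * Real.pi * q j) * Real.sin (2 * Real.pi * dot q x + φ) +
                tev (tdx j e1) x v t) ∧
            (∀ t : ℝ, 1 / 100 ≤ t → tev (tdx j w1) x v t = tev (tdx j w0) x v t) ∧
            tev (tdx j w1) x v 0 - tev (tdx j w0) x v 0 =
              -((-1) ^ (k + 1) * (k + 1).factorial * δ * (2 * Real.pi * q j) *
                Real.sin (2 * Real.pi * dot q x + φ - (k + 2) * (Real.pi / 2)) / (2 * Real.pi * dot q v) ^ (k + 2)) +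
              tev (tdx j r) x v 0

/-- Leaf QQ: a nonresonant integer direction -/
def S_QQ : Prop :=
  ∀ (n R : ℕ), 1 ≤ n → ∃ q : Fin n → ℤ, q ≠ 0 ∧ ∀ f : Fin n → ℤ, f ≠ 0 →
    (∃ (g : Fin n → ℤ) (l : ℤ), (∀ i, |g i| ≤ R) ∧ |l| ≤ R ∧ f = fun i => g i + l * q i) → ∑ i, f i * q i ≠ 0

/-- Leaf FAST: with suitable gates `σ_m` the velocity of the fast variables grows. -/
def S_FAST : Prop :=
  ∀ (n N : ℕ), 1 ≤ n → ∀ (D : Trig n N) (k : ℕ) (B : ℝ → ℝ), ContDiff ℝ ∞ B → (∀ i ≤ k, iteratedDeriv i B 0 = 0) →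
    iteratedDeriv (k + 1) B 0 = (k + 1).factorial → (∀ t, 1 / 100 ≤ t → B t = 0) →
    ∃ q : Fin n → ℤ, ∀ (T : ℕ), 1 ≤ T → ∀ δ : ℝ, 0 < δ → ∀ R : ℝ, ∃ (σ : ℕ → Fin 3) (y y' : ℝ → E n) (c : ℝ), 0 < c ∧
      (∀ t, 0 < t → HasDerivAt y (y' t) t ∧ HasDerivAt y' (fun i => D.grad (y t) t i -
        δ * B (t - (T * (⌊t / T⌋₊ : ℕ) : ℝ)) * (2 * Real.pi * q i) *
          Real.sin (2 * Real.pi * dot q (y t) + 2 * Real.pi * ((σ ⌊t / T⌋₊ : ℕ) : ℝ) / 3)) t) ∧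
      (∀ t, 0 ≤ t → R ≤ ‖y' t‖ ∧ c * t ^ (1 / ((k : ℝ) + 3)) ≤ ‖y' t‖)

end Pool.Agent.K9h32.SP
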