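import Pool.Agent.K9h32.SP.SlowE
import Pool.Agent.K9h32.SP.StmS

/-!
# Leaf SLOW
-/

set_option autoImplicit false

open Set Filter Topology
open scoped ContDiff

noncomputable section

namespace Pool.Agent.K9h32.SP.Slow

/-- the gates -/
def gate (h : ℝ) (j : Fin 3) : ℝ → ℝ := pb (z h j - h / 2) (h / 10) (11 / 200 * h)

theorem gate_plateau {h : ℝ} (h0 : 0 < h) (h1 : h ≤ 1 / 10) {j : Fin 3} {s : ℝ}
    (hs1 : z h j - 11 / 20 * h ≤ s) (hs2 : s ≤ z h j - 9 / 20 * h) (i : Fin 3) :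
    gate h i s = if i = j then 1 else 0 := by
  unfold gate
  split_ifs with hij
  · subst hij
    exact pb_one (by positivity) (by linarith) (by linarith) (by rw [abs_le]; constructor <;> linarith)
  · obtain ⟨z1, z2⟩ := z_bd h0 i
    obtain ⟨z3, z4⟩ := z_bd h0 j
    rcases lt_or_gt_of_ne hij with hlt | hgt
    · have h2 : ((i : ℕ) : ℝ) + 1 ≤ ((j : ℕ) : ℝ) := by exact_mod_cast hlt
      have h3 : z h i + h / 4 ≤ z h j := by
        unfold z
        nlinarith
      exact pb_zero (by positivity) (by linarith) (by linarith) (by linarith) (by linarith)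
    · have h2 : ((j : ℕ) : ℝ) + 1 ≤ ((i : ℕ) : ℝ) := by exact_mod_cast hgt
      have h3 : z h j + h / 4 ≤ z h i := by
        unfold z
        nlinarith
      have e := pb_per (z h i - h / 2) (h / 10) (11 / 200 * h) s 1
      rw [← e]
      push_cast
      exact pb_zero (by positivity) (by linarith) (by linarith) (by linarith) (by linarith)

theorem gate_off {h : ℝ} (h0 : 0 < h) (h1 : h ≤ 1 / 10) {s : ℝ}
    (hs1 : 1 / 2 + h / 10 ≤ s) (hs2 : s ≤ 3 / 2 - 3 / 5 * h) (i : Fin 3) : gate h i s = 0 := by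
  obtain ⟨z1, z2⟩ := z_bd h0 i
  exact pb_zero (by positivity) (by linarith) (by linarith) (by linarith) (by linarith)

theorem deriv_per {g : ℝ → ℝ} (hg : ∀ (s : ℝ) (n : ℤ), g (s + n) = g s) (s : ℝ) (n : ℤ) :
    deriv g (s + n) = deriv g s := by
  rw [← deriv_comp_add_const]
  congr 1
  funext y
  exact hg y n

/-- the potential -/
def AA (N : ℕ) (β s t : ℝ) : ℝ := -((1 / N) ^ 2 / 2) * u0 s + β * (bb (t - 1 / 2) * R N s)

theorem exists_sys (k : ℕ) {ε : ℝ} (hε : 0 < ε) : ∃ (N : ℕ) (β μ : ℝ) (T : ℕ) (L : NNReal), 10 ≤ N ∧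
    Sys (1 / N) β μ T (fun s => (1 / N) ^ 2 / 2 * u0 s) (fun s => (1 / N) ^ 2 / 2 * deriv u0 s) bb
      (deriv (R N)) L ∧
    ∀ i ≤ k, ∀ q, ‖iteratedFDeriv ℝ i (fun q : ℝ × ℝ => AA N β q.1 q.2) q‖ ≤ ε := by
  -- bounds
  have F1c : ContDiff ℝ ∞ (fun q : ℝ × ℝ => u0 q.1) := u0_contDiff.comp contDiff_fst
  obtain ⟨M1, M1p, hM1⟩ := bd_per F1c (fun q a c => u0_per q.1 a) k
  have up : ∀ s, deriv u0 (s + 1) = deriv u0 s := fun s => by
    have := deriv_per u0_per s 1
    push_cast at this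
    exact this
  obtain ⟨C1, C1p, hC1⟩ := per_bd (u0_contDiff.continuous_deriv (by norm_cast)) up
  have u1c : ContDiff ℝ ∞ (deriv u0) := by
    have := (contDiff_infty_iff_deriv (𝕜 := ℝ) (f := u0)).1 u0_contDiff
    exact this.2
  obtain ⟨C2, C2p, hC2⟩ := per_lip u1c up
  obtain ⟨N, hN⟩ := exists_nat_ge (10 + 2 * M1 / ε + 2 * C1)
  have hN10 : (10 : ℝ) ≤ N := by
    have : 0 ≤ 2 * M1 / ε := by positivity
    linarith
  have hN10' : 10 ≤ N := by exact_mod_cast hN10
  have hN0 : (0 : ℝ) < N := by linarith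
  obtain ⟨h, hh⟩ : ∃ h : ℝ, h = 1 / N := ⟨_, rfl⟩
  have h0 : 0 < h := by rw [hh]; positivity
  have h1 : h ≤ 1 / 10 := by rw [hh]; exact one_div_le_one_div_of_le (by norm_num) hN10
  have hNh : h * N = 1 := by rw [hh]; field_simp
  have hM1' : h ^ 2 / 2 * M1 ≤ ε / 2 := by
    have e1 : 2 * M1 / ε ≤ N := by linarith
    rw [div_le_iff₀ hε] at e1
    have e2 : h * (2 * M1) ≤ ε := by
      calc h * (2 * M1) ≤ h * (N * ε) := mul_le_mul_of_nonneg_left e1 h0.le
        _ = (h * N) * ε := by ring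
        _ = ε := by rw [hNh, one_mul]
    nlinarith
  have hC1' : h ^ 2 / 2 * C1 ≤ h / 2 := by
    have e1 : C1 ≤ N := by
      have : 0 ≤ 2 * M1 / ε := by positivity
      linarith
    have e2 : h * C1 ≤ 1 := by
      calc h * C1 ≤ h * N := mul_le_mul_of_nonneg_left e1 h0.le
        _ = 1 := hNh
    nlinarith
  -- the kick
  have F2c : ContDiff ℝ ∞ (fun q : ℝ × ℝ => bb (q.2 - 1 / 2) * R N q.1) := by
    refine ContDiff.mul ?_ ((R_contDiff N).comp contDiff_fst)
    exact (pb_contDiff _ _ _).comp (contDiff_snd.sub contDiff_const)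
  have bper : ∀ (t : ℝ) (n : ℤ), bb (t + n) = bb t := fun t n => pb_per _ _ _ _ _
  obtain ⟨M2, M2p, hM2⟩ := bd_per F2c (fun q a c => by
    have e : q.2 + (c : ℝ) - 1 / 2 = (q.2 - 1 / 2) + c := by ring
    simp only
    rw [e, bper, R_per]) k
  have Rp' : ∀ s, deriv (R N) (s + 1) = deriv (R N) s := fun s => by
    have := deriv_per (R_per N) s 1
    push_cast at this
    exact this
  have R1c : ContDiff ℝ ∞ (deriv (R N)) := by
    have := (contDiff_infty_iff_deriv (𝕜 := ℝ) (f := R N)).1 (R_contDiff N)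
    exact this.2
  obtain ⟨C3, C3p, hC3⟩ := per_bd R1c.continuous Rp'
  obtain ⟨C4, C4p, hC4⟩ := per_lip R1c Rp'
  obtain ⟨β, hβ⟩ : ∃ β : ℝ, β = min (ε / (2 * M2)) (h / (2 * C3)) := ⟨_, rfl⟩
  have β0 : 0 < β := by rw [hβ]; exact lt_min (by positivity) (by positivity)
  have βM : β * M2 ≤ ε / 2 := by
    have : β ≤ ε / (2 * M2) := by rw [hβ]; exact min_le_left _ _
    calc β * M2 ≤ ε / (2 * M2) * M2 := mul_le_mul_of_nonneg_right this M2p.le
      _ = ε / 2 := by field_simp
  have βC : β * C3 ≤ h / 2 := by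
    have : β ≤ h / (2 * C3) := by rw [hβ]; exact min_le_right _ _
    calc β * C3 ≤ h / (2 * C3) * C3 := mul_le_mul_of_nonneg_right this C3p.le
      _ = h / 2 := by field_simp
  obtain ⟨I0, hI0⟩ : ∃ I0 : ℝ, I0 = ∫ t in (0:ℝ)..1 / 100, bb t := ⟨_, rfl⟩
  have I0p : 0 < I0 := by rw [hI0]; exact bb_int
  obtain ⟨μ, hμ⟩ : ∃ μ : ℝ, μ = min (h / 10000) (β * I0 / 5) := ⟨_, rfl⟩
  have μ0 : 0 < μ := by rw [hμ]; exact lt_min (by positivity) (by positivity)
  have μ1 : μ ≤ h / 10000 := by rw [hμ]; exact min_le_left _ _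
  have μ2 : μ ≤ β * I0 / 5 := by rw [hμ]; exact min_le_right _ _
  obtain ⟨w, hw⟩ : ∃ w : ℝ, w = Real.sqrt ((h + μ) ^ 2 - h ^ 2) := ⟨_, rfl⟩
  have w0 : 0 < w := by
    rw [hw]
    refine Real.sqrt_pos.2 ?_
    nlinarith
  obtain ⟨T, hT⟩ := exists_nat_ge (3 + 2 / w)
  have hT3 : (3 : ℝ) ≤ T := by
    have : 0 ≤ 2 / w := by positivity
    linarith
  have hTw : 2 ≤ ((T : ℝ) - 1) * w := by
    have : 2 / w ≤ (T : ℝ) - 1 := by linarith
    rwa [div_le_iff₀ w0] at this
  have bc : Continuous bb := (pb_contDiff _ _ _).continuous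
  have b1 : ∀ t, |bb t| ≤ 1 := by
    intro t
    have e1 : 0 ≤ bb t := pb_nonneg _ _ _ _
    rw [abs_of_nonneg e1]
    exact pb_le_one _ _ _ _
  have LA : ∀ x y, |h ^ 2 / 2 * deriv u0 x - h ^ 2 / 2 * deriv u0 y| ≤ (h ^ 2 / 2 * C2) * |x - y| := by
    intro x y
    rw [← mul_sub, abs_mul, abs_of_pos (by positivity : 0 < h ^ 2 / 2), mul_assoc]
    exact mul_le_mul_of_nonneg_left (hC2 x y) (by positivity)
  have L0 : 0 ≤ h ^ 2 / 2 * C2 + β * C4 := by positivity
  refine ⟨N, β, μ, T, Real.toNNReal (h ^ 2 / 2 * C2 + β * C4), hN10', ?_, ?_⟩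
  · rw [← hh]
    refine ⟨h0, h1, β0, μ0, μ1, by exact_mod_cast hT3, ?_, ?_, ?_, ?_, ?_, ?_, ?_, ?_, bper, ?_, ?_, bc, ?_, ?_,
      ?_, ?_, ?_, ?_, ?_, ?_⟩
    · intro s
      exact ((u0_contDiff.differentiable (by norm_cast)) s).hasDerivAt.const_mul _
    · intro s
      have := u0_le_one s
      nlinarith [sq_nonneg h]
    · intro s hs1 hs2
      rw [u0_zero hs1 hs2, mul_zero]
    · intro s hs1 hs2
      rw [u0_zero' hs1 hs2, mul_zero]
    · rw [u0_one, mul_one]
    · intro s hs1 hs2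
      rw [deriv_of_ext u0_nonneg u0_le_one (Or.inl (u0_zero hs1 hs2)), mul_zero]
    · intro s hs1 hs2
      rw [deriv_of_ext u0_nonneg u0_le_one (Or.inl (u0_zero' hs1 hs2)), mul_zero]
    · rw [deriv_of_ext u0_nonneg u0_le_one (Or.inr u0_one), mul_zero]
    · intro t ht1 ht2
      exact bb_zero ht1 ht2
    · intro t
      exact pb_nonneg _ _ _ _
    · intro s hs1 hs2
      rw [hh] at hs1 hs2
      exact R_zero hN10' hs1 hs2
    · intro j s hs1 hs2
      rw [hh] at hs1 hs2
      have hz := z_bd (by rw [← hh]; exact h0 : (0:ℝ) < 1 / N) j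
      rw [← hh] at hz
      rw [R_deriv hN10' (by rw [← hh] at *; linarith) (by rw [← hh] at *; linarith)]
      exact sin_pos_z hN10' j hs1 hs2
    · intro j s hs1 hs2
      rw [hh] at hs1 hs2
      have hz := z_bd (by rw [← hh]; exact h0 : (0:ℝ) < 1 / N) j
      rw [← hh] at hz
      rw [R_deriv hN10' (by rw [← hh] at *; linarith) (by rw [← hh] at *; linarith)]
      exact sin_neg_z hN10' j hs1 hs2
    · intro s t
      unfold fF
      have e1 : |-(h ^ 2 / 2 * deriv u0 s)| ≤ h / 2 := by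
        rw [abs_neg, abs_mul, abs_of_pos (by positivity : 0 < h ^ 2 / 2)]
        exact (mul_le_mul_of_nonneg_left (hC1 s) (by positivity)).trans hC1'
      have e2 : |β * bb t * deriv (R N) s| ≤ h / 2 := by
        rw [abs_mul, abs_mul, abs_of_pos β0]
        calc β * |bb t| * |deriv (R N) s| ≤ β * 1 * C3 :=
              mul_le_mul (mul_le_mul_of_nonneg_left (b1 t) β0.le) (hC3 s) (abs_nonneg _) (by positivity)
          _ ≤ h / 2 := by rw [mul_one]; exact βC
      calc |-(h ^ 2 / 2 * deriv u0 s) + β * bb t * deriv (R N) s| ≤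
            |-(h ^ 2 / 2 * deriv u0 s)| + |β * bb t * deriv (R N) s| := abs_add_le _ _
        _ ≤ h := by linarith
    · rw [← hI0]
      have : 0 < β * I0 := by positivity
      linarith
    · rw [← hw]; exact hTw
    · constructor
      · intro t
        refine LipschitzWith.of_dist_le_mul fun x y => ?_
        rw [Real.coe_toNNReal _ L0, Real.dist_eq, Real.dist_eq]
        unfold fF
        have e1 := LA x y
        have e2 : |β * bb t * deriv (R N) x - β * bb t * deriv (R N) y| ≤ β * C4 * |x - y| := by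
          rw [← mul_sub, abs_mul, abs_mul, abs_of_pos β0]
          calc β * |bb t| * |deriv (R N) x - deriv (R N) y| ≤ β * 1 * (C4 * |x - y|) :=
                mul_le_mul (mul_le_mul_of_nonneg_left (b1 t) β0.le) (hC4 x y) (abs_nonneg _)
                  (by positivity)
            _ = β * C4 * |x - y| := by ring
        have e3 : -(h ^ 2 / 2 * deriv u0 x) + β * bb t * deriv (R N) x -
            (-(h ^ 2 / 2 * deriv u0 y) + β * bb t * deriv (R N) y) =
            -(h ^ 2 / 2 * deriv u0 x - h ^ 2 / 2 * deriv u0 y) +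
            (β * bb t * deriv (R N) x - β * bb t * deriv (R N) y) := by ring
        rw [e3]
        refine (abs_add_le _ _).trans ?_
        rw [abs_neg, add_mul]
        exact add_le_add e1 e2
      · unfold fF
        have c1 : Continuous fun q : ℝ × ℝ => deriv u0 q.1 := u1c.continuous.comp continuous_fst
        have c2 : Continuous fun q : ℝ × ℝ => deriv (R N) q.1 := R1c.continuous.comp continuous_fst
        have c3 : Continuous fun q : ℝ × ℝ => bb q.2 := bc.comp continuous_snd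
        exact ((continuous_const.mul c1).neg).add ((continuous_const.mul c3).mul c2)
    · constructor
      · intro t
        refine LipschitzWith.of_dist_le_mul fun x y => ?_
        rw [Real.coe_toNNReal _ L0, Real.dist_eq, Real.dist_eq]
        unfold fA
        have e3 : -(h ^ 2 / 2 * deriv u0 x) - -(h ^ 2 / 2 * deriv u0 y) =
            -(h ^ 2 / 2 * deriv u0 x - h ^ 2 / 2 * deriv u0 y) := by ring
        rw [e3, abs_neg]
        refine (LA x y).trans ?_
        refine mul_le_mul_of_nonneg_right ?_ (abs_nonneg _)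
        have : 0 ≤ β * C4 := by positivity
        linarith
      · unfold fA
        have c1 : Continuous fun q : ℝ × ℝ => deriv u0 q.1 := u1c.continuous.comp continuous_fst
        exact (continuous_const.mul c1).neg
  · intro i hi q
    have e : (fun q : ℝ × ℝ => AA N β q.1 q.2) = (fun q : ℝ × ℝ => (-(h ^ 2 / 2)) • u0 q.1) +
        fun q : ℝ × ℝ => β • (bb (q.2 - 1 / 2) * R N q.1) := by
      funext q
      unfold AA
      simp only [Pi.add_apply, smul_eq_mul]
      rw [hh]
    have hi' : (i : WithTop ℕ∞) ≤ ∞ := by norm_cast; exact le_top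
    have c1 : ContDiffAt ℝ i (fun q : ℝ × ℝ => u0 q.1) q := (F1c.of_le hi').contDiffAt
    have c2 : ContDiffAt ℝ i (fun q : ℝ × ℝ => bb (q.2 - 1 / 2) * R N q.1) q :=
      (F2c.of_le hi').contDiffAt
    rw [e, iteratedFDeriv_add_apply (c1.const_smul _) (c2.const_smul _),
      iteratedFDeriv_const_smul_apply' c1, iteratedFDeriv_const_smul_apply' c2]
    refine (norm_add_le _ _).trans ?_
    rw [norm_smul, norm_smul, Real.norm_eq_abs, Real.norm_eq_abs, abs_neg,
      abs_of_pos (by positivity : 0 < h ^ 2 / 2), abs_of_pos β0]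
    have n1 : h ^ 2 / 2 * ‖iteratedFDeriv ℝ i (fun q : ℝ × ℝ => u0 q.1) q‖ ≤ h ^ 2 / 2 * M1 :=
      mul_le_mul_of_nonneg_left (hM1 i hi q) (by positivity)
    have n2 : β * ‖iteratedFDeriv ℝ i (fun q : ℝ × ℝ => bb (q.2 - 1 / 2) * R N q.1) q‖ ≤ β * M2 :=
      mul_le_mul_of_nonneg_left (hM2 i hi q) β0.le
    linarith

/-- Leaf SLOW -/
theorem t : S_GLOB → S_SLOW := by
  intro _ k ε hε
  obtain ⟨N, β, μ, T, L, hN, S, hsmall⟩ := exists_sys k hε
  obtain ⟨h, hh⟩ : ∃ h : ℝ, h = 1 / N := ⟨_, rfl⟩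
  have hT3 := S.T3
  have pU : ∀ s, (1 / (N : ℝ)) ^ 2 / 2 * deriv u0 (s - 1) = (1 / (N : ℝ)) ^ 2 / 2 * deriv u0 s := by
    intro s
    have := deriv_per u0_per (s - 1) 1
    push_cast at this
    rw [sub_add_cancel] at this
    rw [this]
  have pR : ∀ s, deriv (R N) (s - 1) = deriv (R N) s := by
    intro s
    have := deriv_per (R_per N) (s - 1) 1
    push_cast at this
    rw [sub_add_cancel] at this
    rw [this]
  refine ⟨AA N β, gate (1 / N), T, by omega, ?_, ?_, hsmall, fun j => pb_contDiff _ _ _,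
    fun j s a => pb_per _ _ _ _ _, fun σ => ?_⟩
  · unfold AA
    refine ContDiff.add ?_ ?_
    · exact contDiff_const.mul (u0_contDiff.comp contDiff_fst)
    · refine contDiff_const.mul (ContDiff.mul ?_ ((R_contDiff N).comp contDiff_fst))
      exact (pb_contDiff _ _ _).comp (contDiff_snd.sub contDiff_const)
  · intro s t a c
    unfold AA
    have e : t + (c : ℝ) - 1 / 2 = (t - 1 / 2) + c := by ring
    have e2 : bb ((t - 1 / 2) + c) = bb (t - 1 / 2) := pb_per _ _ _ _ _
    rw [e, e2, u0_per, R_per]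
  obtain ⟨Φ, Φ0, Φ1, Φ2⟩ := S.niceF.flow
  obtain ⟨w, hw⟩ := itinerary S Φ0 Φ1 Φ2 σ
  refine ⟨fun t => (Φ w (t - 1 / 2)).1, fun t => (Φ w (t - 1 / 2)).2, fun t => ⟨?_, ?_⟩, ?_⟩
  · exact ((Φ1 w).fst (t - 1 / 2)).comp_sub_const t (1 / 2)
  · have h1 := ((Φ1 w).snd (t - 1 / 2)).comp_sub_const t (1 / 2)
    refine h1.congr_deriv ?_
    have h2 : HasDerivAt (fun u => AA N β u t) (-((1 / (N : ℝ)) ^ 2 / 2) * deriv u0 (Φ w (t - 1 / 2)).1 +
        β * (bb (t - 1 / 2) * deriv (R N) (Φ w (t - 1 / 2)).1)) (Φ w (t - 1 / 2)).1 := by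
      unfold AA
      refine HasDerivAt.add ?_ ?_
      · exact ((u0_contDiff.differentiable (by norm_cast)) _).hasDerivAt.const_mul _
      · exact ((((R_contDiff N).differentiable (by norm_cast)) _).hasDerivAt.const_mul _).const_mul _
    rw [h2.deriv]
    unfold fF
    ring
  · intro l t ht1 ht2 j
    have h0 := S.h0
    have h1 := S.h1
    -- it is enough to know the values
    suffices hval : gate (1 / N) j (Φ w (t - 1 / 2)).1 = if T ∣ l ∧ j = σ (l / T) then 1 else 0 by
      refine ⟨?_, hval⟩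
      refine deriv_of_ext (pb_nonneg _ _ _) (pb_le_one _ _ _) ?_
      have e : pb (z (1 / (N:ℝ)) j - 1 / (N:ℝ) / 2) (1 / (N:ℝ) / 10) (11 / 200 * (1 / (N:ℝ))) (Φ w (t - 1 / 2)).1 =
        gate (1 / N) j (Φ w (t - 1 / 2)).1 := rfl
      rw [e, hval]
      split_ifs
      · right; rfl
      · left; rfl
    rcases Nat.eq_zero_or_pos l with hl | hl
    · subst hl
      -- the first gate
      have k1 := (hw 0).1
      simp only [Function.iterate_zero, id_eq] at k1
      obtain ⟨k2, k3, k4, k5⟩ := k1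
      obtain ⟨z1, z2⟩ := z_bd h0 (σ 0)
      push_cast at ht1 ht2
      have hμ1 := S.μ1
      have hfree := S.niceF.free (a := -(3 / 5)) (b := 1 / 1000) (t0 := 0) ⟨by norm_num, by norm_num⟩
        (ξ := Φ w) (fun t _ => Φ1 w t) (fun t ht => by
          rw [Φ0, sub_zero]
          have m1 : w.2 * (-(3 / 5)) ≤ w.2 * t := mul_le_mul_of_nonneg_left ht.1.le (by linarith)
          have m2 : w.2 * t ≤ w.2 * (1 / 1000) := mul_le_mul_of_nonneg_left ht.2.le (by linarith)
          rw [force_free S (by linarith) (by linarith)]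
          have e1 := S.bper t 1
          push_cast at e1
          rw [← e1, S.b0 _ (by linarith [ht.1]) (by linarith [ht.2])]
          ring) (t - 1 / 2) ⟨by linarith, by linarith⟩
      rw [Φ0, sub_zero] at hfree
      rw [hfree]
      simp only
      have m1 : w.2 * (-(1 / 2)) ≤ w.2 * (t - 1 / 2) :=
        mul_le_mul_of_nonneg_left (by linarith) (by linarith)
      have m2 : w.2 * (t - 1 / 2) ≤ w.2 * (-(49 / 100)) :=
        mul_le_mul_of_nonneg_left (by linarith) (by linarith)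
      rw [gate_plateau h0 h1 (j := σ 0) (by linarith) (by linarith) j]
      simp
    · -- `l = m T + r`, `1 ≤ r ≤ T`
      obtain ⟨m, r, hr1, hr2, hlr⟩ : ∃ m r : ℕ, 1 ≤ r ∧ r ≤ T ∧ l = m * T + r := by
        refine ⟨(l - 1) / T, (l - 1) % T + 1, by omega, ?_, ?_⟩
        · have := Nat.mod_lt (l - 1) (show 0 < T by omega)
          omega
        · have := Nat.div_add_mod (l - 1) T
          have e : (l - 1) / T * T = T * ((l - 1) / T) := mul_comm _ _
          omega
      have hl' : (l : ℝ) = m * T + r := by rw [hlr]; push_cast; ring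
      have g1 := (hw m).2 r hr1 hr2 (t - 1 / 2 - m * T) (by linarith) (by linarith)
      have g2 := retm S Φ0 Φ1 pU pR w m (t - 1 / 2 - m * T)
      rw [sub_add_cancel] at g2
      rw [g2]
      have g3 : gate (1 / N) j ((Φ ((P T Φ)^[m] w) (t - 1 / 2 - m * T)).1 + m) =
          gate (1 / N) j ((Φ ((P T Φ)^[m] w) (t - 1 / 2 - m * T)).1) := by
        have := pb_per (z (1 / (N:ℝ)) j - 1 / (N:ℝ) / 2) (1 / (N:ℝ) / 10) (11 / 200 * (1 / (N:ℝ)))
          (Φ ((P T Φ)^[m] w) (t - 1 / 2 - m * T)).1 (m : ℤ)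
        push_cast at this
        exact this
      rw [g3]
      rcases Nat.lt_or_ge r T with hrT | hrT
      · obtain ⟨p1, p2⟩ := g1.2 hrT
        rw [gate_off h0 h1 p1 p2]
        have hnd : ¬ T ∣ l := by
          rw [hlr]
          intro hd
          have h3 : T ∣ r := (Nat.dvd_add_right (Dvd.intro_left m rfl)).1 hd
          have := Nat.le_of_dvd (by omega) h3
          omega
        rw [if_neg (fun hc => hnd hc.1)]
      · have hrT' : r = T := le_antisymm hr2 hrT
        obtain ⟨p1, p2⟩ := g1.1 hrT'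
        have g4 : gate (1 / N) j ((Φ ((P T Φ)^[m] w) (t - 1 / 2 - m * T)).1) =
            gate (1 / N) j ((Φ ((P T Φ)^[m] w) (t - 1 / 2 - m * T)).1 - 1) := by
          have := pb_per (z (1 / (N:ℝ)) j - 1 / (N:ℝ) / 2) (1 / (N:ℝ) / 10) (11 / 200 * (1 / (N:ℝ)))
            ((Φ ((P T Φ)^[m] w) (t - 1 / 2 - m * T)).1 - 1) 1
          push_cast at this
          rw [sub_add_cancel] at this
          exact this
        rw [g4, gate_plateau h0 h1 (j := σ (m + 1)) (by linarith) (by linarith) j]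
        have e1 : l = (m + 1) * T := by rw [hlr, hrT']; ring
        have e2 : l / T = m + 1 := by rw [e1]; exact Nat.mul_div_cancel _ (by omega)
        have e3 : T ∣ l := by rw [e1]; exact Dvd.intro_left _ rfl
        rw [e2]
        simp [e3]

end Pool.Agent.K9h32.SP.Slow
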