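import Pool.Agent.Helper27.Har.P_global_ode

/-!
# Leaf SLOW, part A: flows of `s'' = f(s,t)`
-/

set_option autoImplicit false

open Set Filter Topology

namespace Pool.Agent.K9h32.SP.Slow

/-- the right-hand side -/
def rhs (f : ℝ → ℝ → ℝ) (t : ℝ) (w : ℝ × ℝ) : ℝ × ℝ := (w.2, f w.1 t)

/-- Lipschitz in `s`, continuous -/
structure Nice (f : ℝ → ℝ → ℝ) (L : NNReal) : Prop where
  lip : ∀ t, LipschitzWith L (fun x => f x t)
  cont : Continuous (fun q : ℝ × ℝ => f q.1 q.2)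

theorem Nice.rhs_lip {f : ℝ → ℝ → ℝ} {L : NNReal} (h : Nice f L) (t : ℝ) :
    LipschitzWith (max 1 L) (rhs f t) := by
  have h1 : LipschitzWith 1 (fun w : ℝ × ℝ => w.2) := LipschitzWith.prod_snd
  have h2 : LipschitzWith L (fun w : ℝ × ℝ => f w.1 t) := by
    have := (h.lip t).comp (LipschitzWith.prod_fst (α := ℝ) (β := ℝ))
    rw [mul_one] at this
    exact this
  exact h1.prodMk h2

theorem Nice.rhs_cont {f : ℝ → ℝ → ℝ} {L : NNReal} (h : Nice f L) :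
    Continuous (Function.uncurry (rhs f)) := by
  have h1 : Continuous (fun q : ℝ × (ℝ × ℝ) => (q.2.2, f q.2.1 q.1)) := by
    refine Continuous.prodMk (by fun_prop) ?_
    have h2 : Continuous (fun q : ℝ × (ℝ × ℝ) => (q.2.1, q.1)) := by fun_prop
    exact h.cont.comp h2
  exact h1

/-- solutions -/
def Sol (f : ℝ → ℝ → ℝ) (ξ : ℝ → ℝ × ℝ) : Prop := ∀ t, HasDerivAt ξ (rhs f t (ξ t)) t

theorem Sol.fst {f : ℝ → ℝ → ℝ} {ξ : ℝ → ℝ × ℝ} (h : Sol f ξ) (t : ℝ) :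
    HasDerivAt (fun t => (ξ t).1) (ξ t).2 t := by
  have := (ContinuousLinearMap.fst ℝ ℝ ℝ).hasFDerivAt.comp_hasDerivAt t (h t)
  exact this

theorem Sol.snd {f : ℝ → ℝ → ℝ} {ξ : ℝ → ℝ × ℝ} (h : Sol f ξ) (t : ℝ) :
    HasDerivAt (fun t => (ξ t).2) (f (ξ t).1 t) t := by
  have := (ContinuousLinearMap.snd ℝ ℝ ℝ).hasFDerivAt.comp_hasDerivAt t (h t)
  exact this

theorem Sol.cont {f : ℝ → ℝ → ℝ} {ξ : ℝ → ℝ × ℝ} (h : Sol f ξ) : Continuous ξ :=
  continuous_iff_continuousAt.2 fun t => (h t).continuousAt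

theorem Nice.uniq {f : ℝ → ℝ → ℝ} {L : NNReal} (h : Nice f L) {a b t0 : ℝ} (ht0 : t0 ∈ Ioo a b)
    {ξ η : ℝ → ℝ × ℝ} (h1 : ∀ t ∈ Ioo a b, HasDerivAt ξ (rhs f t (ξ t)) t)
    (h2 : ∀ t ∈ Ioo a b, HasDerivAt η (rhs f t (η t)) t) (h0 : ξ t0 = η t0) :
    ∀ t ∈ Ioo a b, ξ t = η t := by
  have := ODE_solution_unique_of_mem_Ioo (v := rhs f) (s := fun _ => univ) (K := max 1 L) (t₀ := t0)
    (a := a) (b := b) (f := ξ) (g := η)
    (fun t _ => (h.rhs_lip t).lipschitzOnWith) ht0 (fun t ht => ⟨h1 t ht, trivial⟩)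
    (fun t ht => ⟨h2 t ht, trivial⟩) h0
  exact this

theorem Nice.uniq' {f : ℝ → ℝ → ℝ} {L : NNReal} (h : Nice f L) {t0 : ℝ}
    {ξ η : ℝ → ℝ × ℝ} (h1 : Sol f ξ) (h2 : Sol f η) (h0 : ξ t0 = η t0) (t : ℝ) : ξ t = η t := by
  refine h.uniq (a := min t t0 - 1) (b := max t t0 + 1) (t0 := t0) ⟨?_, ?_⟩
    (fun t _ => h1 t) (fun t _ => h2 t) h0 t ⟨?_, ?_⟩
  · linarith [min_le_right t t0]
  · linarith [le_max_right t t0]
  · linarith [min_le_left t t0]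
  · linarith [le_max_left t t0]

theorem Nice.flow {f : ℝ → ℝ → ℝ} {L : NNReal} (h : Nice f L) :
    ∃ Φ : ℝ × ℝ → ℝ → ℝ × ℝ, (∀ w, Φ w 0 = w) ∧ (∀ w, Sol f (Φ w)) ∧
      ∀ t, 0 ≤ t → Continuous (fun w => Φ w t) := by
  have hex := fun w : ℝ × ℝ => Haraux.global_ode (rhs f) (max 1 L) h.rhs_lip h.rhs_cont w
  choose Φ h0 h1 using hex
  refine ⟨Φ, h0, h1, fun t ht => ?_⟩
  have hL : LipschitzWith (Real.toNNReal (Real.exp ((max 1 L : NNReal) * t))) (fun w => Φ w t) := by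
    refine LipschitzWith.of_dist_le_mul fun w w' => ?_
    have h2 := dist_le_of_trajectories_ODE (v := rhs f) (K := max 1 L) (f := Φ w) (g := Φ w')
      (a := 0) (b := t) (δ := dist w w') h.rhs_lip
      (fun t _ => (h1 w t).continuousAt.continuousWithinAt)
      (fun t _ => (h1 w t).hasDerivWithinAt)
      (fun t _ => (h1 w' t).continuousAt.continuousWithinAt)
      (fun t _ => (h1 w' t).hasDerivWithinAt) (by rw [h0, h0]) t ⟨ht, le_rfl⟩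
    rw [sub_zero, mul_comm] at h2
    rw [Real.coe_toNNReal _ (Real.exp_pos _).le]
    exact h2
  exact hL.continuous

/-- free motion -/
theorem Nice.free {f : ℝ → ℝ → ℝ} {L : NNReal} (h : Nice f L) {a b t0 : ℝ} (ht0 : t0 ∈ Ioo a b)
    {ξ : ℝ → ℝ × ℝ} (h1 : ∀ t ∈ Ioo a b, HasDerivAt ξ (rhs f t (ξ t)) t)
    (h2 : ∀ t ∈ Ioo a b, f ((ξ t0).1 + (ξ t0).2 * (t - t0)) t = 0) :
    ∀ t ∈ Ioo a b, ξ t = ((ξ t0).1 + (ξ t0).2 * (t - t0), (ξ t0).2) := by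
  refine h.uniq ht0 h1 (fun t ht => ?_) ?_
  · have e : rhs f t ((ξ t0).1 + (ξ t0).2 * (t - t0), (ξ t0).2) = ((ξ t0).2, 0) := by
      unfold rhs
      simp only
      rw [h2 t ht]
    rw [e]
    refine HasDerivAt.prodMk ?_ (hasDerivAt_const _ _)
    have h3 : HasDerivAt (fun t : ℝ => (ξ t0).1 + (ξ t0).2 * (t - t0)) ((ξ t0).2 * 1) t :=
      (((hasDerivAt_id t).sub_const t0).const_mul _).const_add _
    rwa [mul_one] at h3
  · rw [sub_self, mul_zero, add_zero]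

/-- intermediate values with control in between -/
theorem ivt_sub {g : ℝ → ℝ} {a b c d : ℝ} (hab : a ≤ b) (hcd : c ≤ d) (hg : ContinuousOn g (Icc a b))
    (ha : g a ≤ c) (hb : d ≤ g b) : ∃ a' b', a ≤ a' ∧ a' ≤ b' ∧ b' ≤ b ∧ g a' = c ∧ g b' = d ∧
      ∀ t ∈ Icc a' b', c ≤ g t ∧ g t ≤ d := by
  -- the first point with `d ≤ g`
  have hS : IsCompact (Icc a b ∩ g ⁻¹' (Ici d)) := by
    refine IsCompact.of_isClosed_subset isCompact_Icc ?_ inter_subset_left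
    exact hg.preimage_isClosed_of_isClosed isClosed_Icc isClosed_Ici
  obtain ⟨b', hb', hbm⟩ := hS.exists_isLeast ⟨b, ⟨hab, le_rfl⟩, hb⟩
  have hb1 : a ≤ b' := hb'.1.1
  have hb2 : b' ≤ b := hb'.1.2
  have hg1 : ContinuousOn g (Icc a b') := hg.mono (Icc_subset_Icc_right hb2)
  have hgb' : g b' = d := by
    refine le_antisymm ?_ hb'.2
    by_contra hc
    push Not at hc
    obtain ⟨x, hx, hxe⟩ := intermediate_value_Icc hb1 hg1 (show d ∈ Icc (g a) (g b') from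
      ⟨ha.trans hcd, hc.le⟩)
    have h1 : b' ≤ x := hbm ⟨⟨hx.1, hx.2.trans hb2⟩, hxe.ge⟩
    have h2 : x = b' := le_antisymm hx.2 h1
    rw [h2] at hxe
    linarith
  have hlt : ∀ t ∈ Icc a b', g t ≤ d := by
    intro t ht
    by_contra hc
    push Not at hc
    have h1 : b' ≤ t := hbm ⟨⟨ht.1, ht.2.trans hb2⟩, hc.le⟩
    have h2 : t = b' := le_antisymm ht.2 h1
    rw [h2, hgb'] at hc
    exact lt_irrefl _ hc
  have hS2 : IsCompact (Icc a b' ∩ g ⁻¹' (Iic c)) := by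
    refine IsCompact.of_isClosed_subset isCompact_Icc ?_ inter_subset_left
    exact hg1.preimage_isClosed_of_isClosed isClosed_Icc isClosed_Iic
  obtain ⟨a', ha', ham⟩ := hS2.exists_isGreatest ⟨a, ⟨le_rfl, hb1⟩, ha⟩
  have ha1 : a ≤ a' := ha'.1.1
  have ha2 : a' ≤ b' := ha'.1.2
  have hg2 : ContinuousOn g (Icc a' b') := hg1.mono (Icc_subset_Icc_left ha1)
  have hga' : g a' = c := by
    refine le_antisymm ha'.2 ?_
    by_contra hc
    push Not at hc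
    obtain ⟨x, hx, hxe⟩ := intermediate_value_Icc ha2 hg2 (show c ∈ Icc (g a') (g b') from
      ⟨hc.le, by rw [hgb']; exact hcd⟩)
    have h1 : x ≤ a' := ham ⟨⟨ha1.trans hx.1, hx.2⟩, hxe.le⟩
    have h2 : x = a' := le_antisymm h1 hx.1
    rw [h2] at hxe
    linarith
  refine ⟨a', b', ha1, ha2, hb2, hga', hgb', fun t ht => ⟨?_, hlt t ⟨ha1.trans ht.1, ht.2⟩⟩⟩
  by_contra hc
  push Not at hc
  have h1 : t ≤ a' := ham ⟨⟨ha1.trans ht.1, ht.2⟩, hc.le⟩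
  have h2 : t = a' := le_antisymm h1 ht.1
  rw [h2, hga'] at hc
  exact lt_irrefl _ hc

end Pool.Agent.K9h32.SP.Slow
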