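import Pool.Agent.K9h32.SP.SlowA

/-!
# Leaf SLOW, part B: one passage
-/

set_option autoImplicit false

open Set Filter Topology

noncomputable section

namespace Pool.Agent.K9h32.SP.Slow

/-- the positions of the gates -/
def z (h : ℝ) (j : Fin 3) : ℝ := 1 / 2 + (j : ℕ) * h / 4

/-- the full force -/
def fF (dU b Rd : ℝ → ℝ) (β : ℝ) (s t : ℝ) : ℝ := -dU s + β * b t * Rd s

/-- the autonomous force -/
def fA (dU : ℝ → ℝ) (s _t : ℝ) : ℝ := -dU s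

/-- the data of the construction -/
structure Sys (h β μ : ℝ) (T : ℕ) (U dU b Rd : ℝ → ℝ) (L : NNReal) : Prop where
  h0 : 0 < h
  h1 : h ≤ 1 / 10
  β0 : 0 < β
  μ0 : 0 < μ
  μ1 : μ ≤ h / 10000
  T3 : 3 ≤ T
  hdU : ∀ s, HasDerivAt U (dU s) s
  Ule : ∀ s, U s ≤ h ^ 2 / 2
  U0 : ∀ s, 1 / 4 ≤ s → s ≤ 3 / 4 → U s = 0
  U1 : ∀ s, 5 / 4 ≤ s → s ≤ 7 / 4 → U s = 0
  U2 : U 1 = h ^ 2 / 2
  dU0 : ∀ s, 1 / 4 ≤ s → s ≤ 3 / 4 → dU s = 0
  dU1 : ∀ s, 5 / 4 ≤ s → s ≤ 7 / 4 → dU s = 0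
  dU2 : dU 1 = 0
  bper : ∀ (t : ℝ) (n : ℤ), b (t + n) = b t
  b0 : ∀ t, 9 / 1000 ≤ t → t ≤ 1001 / 1000 → b t = 0
  bnn : ∀ t, 0 ≤ b t
  bcont : Continuous b
  R0 : ∀ s, 1 / 2 + 13 / 20 * h ≤ s → s ≤ 3 / 2 - 3 / 20 * h → Rd s = 0
  Rp : ∀ (j : Fin 3) (s : ℝ), z h j + h / 25 ≤ s → s ≤ z h j + 51 / 1000 * h → 2 / 5 ≤ Rd s
  Rn : ∀ (j : Fin 3) (s : ℝ), z h j - h / 25 ≤ s → s ≤ z h j - 29 / 1000 * h → Rd s ≤ -(2 / 5)
  fb : ∀ s t, |fF dU b Rd β s t| ≤ h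
  int : μ < 2 / 5 * β * ∫ t in (0:ℝ)..1 / 100, b t
  Tl : 2 ≤ ((T : ℝ) - 1) * Real.sqrt ((h + μ) ^ 2 - h ^ 2)
  niceF : Nice (fF dU b Rd β) L
  niceA : Nice (fA dU) L

/-- the windows -/
def K (h μ : ℝ) (j : Fin 3) : Set (ℝ × ℝ) :=
  {w | z h j - h / 25 ≤ w.1 ∧ w.1 ≤ z h j + h / 25 ∧ h ≤ w.2 ∧ w.2 ≤ h + μ}

theorem z_bd {h : ℝ} (h0 : 0 < h) (j : Fin 3) : 1 / 2 ≤ z h j ∧ z h j ≤ 1 / 2 + h / 2 := by
  have h1 : ((j : ℕ) : ℝ) ≤ 2 := by exact_mod_cast Nat.le_of_lt_succ j.2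
  have h2 : (0 : ℝ) ≤ ((j : ℕ) : ℝ) := by positivity
  unfold z
  constructor
  · have : 0 ≤ ((j : ℕ) : ℝ) * h / 4 := by positivity
    linarith
  · have : ((j : ℕ) : ℝ) * h ≤ 2 * h := mul_le_mul_of_nonneg_right h1 h0.le
    linarith

theorem mono_bd {x v : ℝ → ℝ} {a b c d : ℝ} (hx : ∀ t, HasDerivAt x (v t) t)
    (hv : ∀ t ∈ Icc a b, c ≤ v t ∧ v t ≤ d) {s t : ℝ} (hs : s ∈ Icc a b) (ht : t ∈ Icc a b) (hst : s ≤ t) :
    x s + c * (t - s) ≤ x t ∧ x t ≤ x s + d * (t - s) := by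
  have hc : ContinuousOn x (Icc a b) := fun t _ => (hx t).continuousAt.continuousWithinAt
  have hd : DifferentiableOn ℝ x (interior (Icc a b)) :=
    fun t _ => (hx t).differentiableAt.differentiableWithinAt
  have h1 := (convex_Icc a b).mul_sub_le_image_sub_of_le_deriv hc hd (C := c)
    (fun y hy => by rw [(hx y).deriv]; exact (hv y (interior_subset hy)).1) s hs t ht hst
  have h2 := (convex_Icc a b).image_sub_le_mul_sub_of_deriv_le hc hd (C := d)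
    (fun y hy => by rw [(hx y).deriv]; exact (hv y (interior_subset hy)).2) s hs t ht hst
  constructor <;> linarith

variable {h β μ : ℝ} {T : ℕ} {U dU b Rd : ℝ → ℝ} {L : NNReal}

/-- the kick -/
theorem kick1 (S : Sys h β μ T U dU b Rd L) {ξ : ℝ → ℝ × ℝ} (hξ : Sol (fF dU b Rd β) ξ) {j : Fin 3}
    (hw : ξ 0 ∈ K h μ j) : ∀ t ∈ Icc (0:ℝ) (1 / 100), (ξ 0).1 ≤ (ξ t).1 ∧
      (ξ t).1 ≤ (ξ 0).1 + 102 / 10000 * h := by
  obtain ⟨k1, k2, k3, k4⟩ := hw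
  have h0 := S.h0
  have hμ := S.μ1
  have hv : ∀ t ∈ Icc (0:ℝ) (1 / 100), 0 ≤ (ξ t).2 ∧ (ξ t).2 ≤ 102 / 100 * h := by
    intro t ht
    have h1 := mono_bd (x := fun t => (ξ t).2) (a := 0) (b := 1 / 100) (c := -h) (d := h) hξ.snd
      (fun t _ => abs_le.1 (S.fb _ _)) (s := 0) (t := t) ⟨le_rfl, by norm_num⟩ ht ht.1
    rw [sub_zero] at h1
    have h2 : h * t ≤ h * (1 / 100) := mul_le_mul_of_nonneg_left ht.2 h0.le
    constructor <;> linarith [h1.1, h1.2]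
  intro t ht
  have h1 := mono_bd (x := fun t => (ξ t).1) (a := 0) (b := 1 / 100) hξ.fst hv (s := 0) (t := t)
    ⟨le_rfl, by norm_num⟩ ht ht.1
  rw [sub_zero] at h1
  have h2 : 102 / 100 * h * t ≤ 102 / 100 * h * (1 / 100) :=
    mul_le_mul_of_nonneg_left ht.2 (by positivity)
  constructor <;> linarith [h1.1, h1.2]

theorem force_free (S : Sys h β μ T U dU b Rd L) {s t : ℝ} (h1 : 1 / 4 ≤ s) (h2 : s ≤ 3 / 4) :
    fF dU b Rd β s t = β * b t * Rd s := by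
  unfold fF
  rw [S.dU0 s h1 h2, neg_zero, zero_add]

theorem b_int (S : Sys h β μ T U dU b Rd L) (a b' : ℝ) : IntervalIntegrable b MeasureTheory.volume a b' :=
  S.bcont.intervalIntegrable _ _

theorem kick_int (S : Sys h β μ T U dU b Rd L) {ξ : ℝ → ℝ × ℝ} (hξ : Sol (fF dU b Rd β) ξ) :
    (∫ t in (0:ℝ)..1 / 100, fF dU b Rd β (ξ t).1 t) = (ξ (1 / 100)).2 - (ξ 0).2 ∧
    IntervalIntegrable (fun t => fF dU b Rd β (ξ t).1 t) MeasureTheory.volume 0 (1 / 100) := by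
  have hc : Continuous fun t => fF dU b Rd β (ξ t).1 t := by
    have h1 : Continuous fun t => ((ξ t).1, t) := (continuous_fst.comp hξ.cont).prodMk continuous_id
    exact S.niceF.cont.comp h1
  refine ⟨?_, hc.intervalIntegrable _ _⟩
  exact intervalIntegral.integral_eq_sub_of_hasDerivAt (f := fun t => (ξ t).2)
    (fun t _ => hξ.snd t) (hc.intervalIntegrable _ _)

theorem kick2 (S : Sys h β μ T U dU b Rd L) {ξ : ℝ → ℝ × ℝ} (hξ : Sol (fF dU b Rd β) ξ) {j : Fin 3}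
    (hw : ξ 0 ∈ K h μ j) (he : (ξ 0).1 = z h j - h / 25) : (ξ (1 / 100)).2 < h := by
  have k1 := kick1 S hξ hw
  obtain ⟨i1, i2⟩ := kick_int S hξ
  have h0 := S.h0
  have hh := S.h1
  obtain ⟨z1, z2⟩ := z_bd S.h0 j
  have i3 : (∫ t in (0:ℝ)..1 / 100, fF dU b Rd β (ξ t).1 t) ≤
      ∫ t in (0:ℝ)..1 / 100, (-(2 / 5) * β) * b t := by
    refine intervalIntegral.integral_mono_on (by norm_num) i2 ((b_int S _ _).const_mul _) ?_
    intro t ht
    obtain ⟨k2, k3⟩ := k1 t ht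
    rw [force_free S (by linarith) (by linarith)]
    have k4 := S.Rn j (ξ t).1 (by linarith) (by linarith)
    have k5 : 0 ≤ β * b t := mul_nonneg S.β0.le (S.bnn t)
    nlinarith
  rw [i1, intervalIntegral.integral_const_mul] at i3
  have i4 := S.int
  have k6 : (ξ 0).2 ≤ h + μ := hw.2.2.2
  linarith

theorem kick3 (S : Sys h β μ T U dU b Rd L) {ξ : ℝ → ℝ × ℝ} (hξ : Sol (fF dU b Rd β) ξ) {j : Fin 3}
    (hw : ξ 0 ∈ K h μ j) (he : (ξ 0).1 = z h j + h / 25) : h + μ < (ξ (1 / 100)).2 := by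
  have k1 := kick1 S hξ hw
  obtain ⟨i1, i2⟩ := kick_int S hξ
  have h0 := S.h0
  have hh := S.h1
  obtain ⟨z1, z2⟩ := z_bd S.h0 j
  have i3 : (∫ t in (0:ℝ)..1 / 100, (2 / 5 * β) * b t) ≤
      ∫ t in (0:ℝ)..1 / 100, fF dU b Rd β (ξ t).1 t := by
    refine intervalIntegral.integral_mono_on (by norm_num) ((b_int S _ _).const_mul _) i2 ?_
    intro t ht
    obtain ⟨k2, k3⟩ := k1 t ht
    rw [force_free S (by linarith) (by linarith)]
    have k4 := S.Rp j (ξ t).1 (by linarith) (by linarith)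
    have k5 : 0 ≤ β * b t := mul_nonneg S.β0.le (S.bnn t)
    nlinarith
  rw [i1, intervalIntegral.integral_const_mul] at i3
  have i4 := S.int
  have k6 : h ≤ (ξ 0).2 := hw.2.2.1
  linarith

/-! ## The autonomous system -/

theorem energy (S : Sys h β μ T U dU b Rd L) {η : ℝ → ℝ × ℝ} (hη : Sol (fA dU) η) (t t0 : ℝ) :
    (η t).2 ^ 2 + 2 * U (η t).1 = (η t0).2 ^ 2 + 2 * U (η t0).1 := by
  have hd : ∀ t, HasDerivAt (fun t => (η t).2 ^ 2 + 2 * U (η t).1) 0 t := by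
    intro t
    have h1 := (hη.snd t).pow 2
    have h2 := ((S.hdU (η t).1).comp t (hη.fst t)).const_mul 2
    have h3 := h1.add h2
    refine HasDerivAt.congr_deriv h3 ?_
    unfold fA
    push_cast
    ring
  exact is_const_of_deriv_eq_zero (fun t => (hd t).differentiableAt) (fun t => (hd t).deriv) t t0

theorem slow (S : Sys h β μ T U dU b Rd L) {η : ℝ → ℝ × ℝ} (hη : Sol (fA dU) η) {t0 : ℝ}
    (x1 : 1 / 4 ≤ (η t0).1) (x2 : (η t0).1 ≤ 3 / 4) (hv : (η t0).2 = h) {t : ℝ} (ht : t0 ≤ t) :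
    (η t).1 < 1 := by
  have hne : ∀ t, (η t).1 ≠ 1 := by
    intro t h1
    have h2 := energy S hη t t0
    rw [h1, S.U2, hv, S.U0 _ x1 x2] at h2
    have h3 : (η t).2 = 0 := by
      have : (η t).2 ^ 2 = 0 := by linarith
      exact pow_eq_zero_iff (two_ne_zero) |>.1 this
    have h4 : Sol (fA dU) (fun _ => ((1:ℝ), (0:ℝ))) := by
      intro t
      have e : rhs (fA dU) t ((1:ℝ), (0:ℝ)) = (0, 0) := by
        unfold rhs fA
        simp only
        rw [S.dU2, neg_zero]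
      rw [e]
      exact hasDerivAt_const _ _
    have h5 := S.niceA.uniq' hη h4 (t0 := t) (Prod.ext h1 h3) t0
    rw [h5] at x2
    norm_num at x2
  by_contra hc
  push Not at hc
  have hcont : ContinuousOn (fun t => (η t).1) (Icc t0 t) := (continuous_fst.comp hη.cont).continuousOn
  obtain ⟨y, _, hy⟩ := intermediate_value_Icc ht hcont (show (1:ℝ) ∈ Icc (η t0).1 (η t).1 from
    ⟨by linarith, hc⟩)
  exact hne y hy

theorem fast (S : Sys h β μ T U dU b Rd L) {η : ℝ → ℝ × ℝ} (hη : Sol (fA dU) η) {t0 : ℝ}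
    (x1 : 1 / 4 ≤ (η t0).1) (x2 : (η t0).1 ≤ 3 / 4) (hv : h < (η t0).2) (t : ℝ) :
    0 < (η t).2 ∧ Real.sqrt ((η t0).2 ^ 2 - h ^ 2) ≤ (η t).2 := by
  have h0 := S.h0
  have hsq : ∀ t, (η t0).2 ^ 2 - h ^ 2 ≤ (η t).2 ^ 2 := by
    intro t
    have h2 := energy S hη t t0
    rw [S.U0 _ x1 x2] at h2
    have := S.Ule (η t).1
    linarith
  have hpos : 0 < (η t0).2 ^ 2 - h ^ 2 := by nlinarith
  have hne : ∀ t, (η t).2 ≠ 0 := by
    intro t h1
    have := hsq t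
    rw [h1] at this
    nlinarith
  have hcont : Continuous (fun t => (η t).2) := continuous_snd.comp hη.cont
  have hp : 0 < (η t).2 := by
    by_contra hc
    push Not at hc
    have h3 := intermediate_value_univ t t0 hcont (show (0:ℝ) ∈ Icc (η t).2 (η t0).2 from
      ⟨hc, by linarith⟩)
    obtain ⟨y, hy⟩ := h3
    exact hne y hy
  exact ⟨hp, Real.sqrt_le_iff.2 ⟨hp.le, hsq t⟩⟩

/-- the passage of an orbit of the autonomous system -/
theorem pass_auto (S : Sys h β μ T U dU b Rd L) {η : ℝ → ℝ × ℝ} (hη : Sol (fA dU) η) {j j' : Fin 3}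
    (x1 : z h j - h / 25 ≤ (η (1 / 100)).1) (x2 : (η (1 / 100)).1 ≤ z h j + 51 / 1000 * h)
    (v1 : h ≤ (η (1 / 100)).2) (v2 : (η (1 / 100)).2 ≤ h + μ)
    (X1 : 1 + z h j' - h / 25 ≤ (η T).1) (X2 : (η T).1 ≤ 1 + z h j' + h / 25) :
    (η T).2 = (η (1 / 100)).2 ∧ (∀ t, 0 < (η t).2) ∧
    (∀ t ∈ Icc (1 / 100 : ℝ) (3 / 2), (η t).1 = (η (1 / 100)).1 + (η (1 / 100)).2 * (t - 1 / 100)) ∧
    (∀ t ∈ Icc ((T:ℝ) - 3 / 2) T, (η t).1 = (η T).1 + (η (1 / 100)).2 * (t - T)) := by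
  have h0 := S.h0
  have hh := S.h1
  have hμ := S.μ1
  obtain ⟨z1, z2⟩ := z_bd S.h0 j
  obtain ⟨z3, z4⟩ := z_bd S.h0 j'
  have hT : (3 : ℝ) ≤ T := by exact_mod_cast S.T3
  have p1 : 1 / 4 ≤ (η (1 / 100)).1 := by linarith
  have p2 : (η (1 / 100)).1 ≤ 3 / 4 := by linarith
  have hv : h < (η (1 / 100)).2 := by
    refine lt_of_le_of_ne v1 fun he => ?_
    have := slow S hη p1 p2 he.symm (t := T) (by linarith)
    linarith
  have hpos := fun t => (fast S hη p1 p2 hv t).1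
  have hvT : (η T).2 = (η (1 / 100)).2 := by
    have h1 := energy S hη T (1 / 100)
    rw [S.U0 _ p1 p2, S.U1 (η T).1 (by linarith) (by linarith)] at h1
    have h2 : (η T).2 ^ 2 = (η (1 / 100)).2 ^ 2 := by linarith
    exact (sq_eq_sq₀ (hpos T).le (hpos _).le).1 h2
  have hv2 : (η (1 / 100)).2 ≤ 101 / 100 * h := by linarith
  refine ⟨hvT, hpos, ?_, ?_⟩
  · intro t ht
    have h1 := S.niceA.free (a := 0) (b := 8 / 5) (t0 := 1 / 100) ⟨by norm_num, by norm_num⟩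
      (fun t _ => hη t) (fun t ht => by
        have h2 : (η (1 / 100)).2 * (t - 1 / 100) ≤ 101 / 100 * h * (8 / 5) := by
          have h3 : t - 1 / 100 ≤ 8 / 5 := by linarith [ht.2]
          have h4 : (η (1 / 100)).2 * (t - 1 / 100) ≤ (η (1 / 100)).2 * (8 / 5) :=
            mul_le_mul_of_nonneg_left h3 (hpos _).le
          linarith
        have h5 : -(101 / 100 * h * (1 / 100)) ≤ (η (1 / 100)).2 * (t - 1 / 100) := by
          have h3 : -(1 / 100) ≤ t - 1 / 100 := by linarith [ht.1]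
          have h4 : (η (1 / 100)).2 * (-(1 / 100)) ≤ (η (1 / 100)).2 * (t - 1 / 100) :=
            mul_le_mul_of_nonneg_left h3 (hpos _).le
          linarith
        unfold fA
        rw [S.dU0 _ (by linarith) (by linarith), neg_zero]) t ⟨by linarith [ht.1], by linarith [ht.2]⟩
    exact congrArg Prod.fst h1
  · intro t ht
    have h1 := S.niceA.free (a := T - 8 / 5) (b := T + 1 / 100) (t0 := T) ⟨by linarith, by linarith⟩
      (fun t _ => hη t) (fun t ht => by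
        rw [hvT]
        have h2 : (η (1 / 100)).2 * (t - T) ≤ 101 / 100 * h * (1 / 100) := by
          have h3 : t - T ≤ 1 / 100 := by linarith [ht.2]
          have h4 : (η (1 / 100)).2 * (t - T) ≤ (η (1 / 100)).2 * (1 / 100) :=
            mul_le_mul_of_nonneg_left h3 (hpos _).le
          linarith
        have h5 : -(101 / 100 * h * (8 / 5)) ≤ (η (1 / 100)).2 * (t - T) := by
          have h3 : -(8 / 5) ≤ t - T := by linarith [ht.1]
          have h4 : (η (1 / 100)).2 * (-(8 / 5)) ≤ (η (1 / 100)).2 * (t - T) :=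
            mul_le_mul_of_nonneg_left h3 (hpos _).le
          linarith
        unfold fA
        rw [S.dU1 _ (by linarith) (by linarith), neg_zero]) t ⟨by linarith [ht.1], by linarith [ht.2]⟩
    rw [h1, hvT]

end Pool.Agent.K9h32.SP.Slow
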