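import Pool.Agent.K9h32.SP.SlowB

/-!
# Leaf SLOW, part C: the covering relation and the orbits
-/

set_option autoImplicit false

open Set Filter Topology

noncomputable section

namespace Pool.Agent.K9h32.SP.Slow

variable {h β μ : ℝ} {T : ℕ} {U dU b Rd : ℝ → ℝ} {L : NNReal}

theorem sm_of_pos {η : ℝ → ℝ × ℝ} {f : ℝ → ℝ → ℝ} (hη : Sol f η) (hp : ∀ t, 0 < (η t).2) :
    StrictMono (fun t => (η t).1) :=
  strictMono_of_deriv_pos fun t => by rw [(hη.fst t).deriv]; exact hp t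

/-- the real orbit is the autonomous one -/
theorem pass_full (S : Sys h β μ T U dU b Rd L) {η ξ : ℝ → ℝ × ℝ} (hη : Sol (fA dU) η)
    (hξ : Sol (fF dU b Rd β) ξ) (he : ξ (1 / 100) = η (1 / 100)) {j j' : Fin 3}
    (x1 : z h j - h / 25 ≤ (η (1 / 100)).1) (x2 : (η (1 / 100)).1 ≤ z h j + 51 / 1000 * h)
    (v1 : h ≤ (η (1 / 100)).2) (v2 : (η (1 / 100)).2 ≤ h + μ)
    (X1 : 1 + z h j' - h / 25 ≤ (η T).1) (X2 : (η T).1 ≤ 1 + z h j' + h / 25) :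
    ∀ t ∈ Icc (1 / 100 : ℝ) T, ξ t = η t := by
  have h0 := S.h0
  have hh := S.h1
  have hμ := S.μ1
  obtain ⟨z1, z2⟩ := z_bd S.h0 j
  obtain ⟨z3, z4⟩ := z_bd S.h0 j'
  have hT : (3 : ℝ) ≤ T := by exact_mod_cast S.T3
  obtain ⟨_, hpos, f1, f2⟩ := pass_auto S hη x1 x2 v1 v2 X1 X2
  have hm := (sm_of_pos hη hpos).monotone
  intro t ht
  refine S.niceF.uniq (a := 9 / 1000) (b := T + 1 / 1000) (t0 := 1 / 100) ⟨by norm_num, by linarith⟩
    (fun t _ => hξ t) (fun t ht => ?_) he t ⟨by linarith [ht.1], by linarith [ht.2]⟩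
  have hz : β * b t * Rd (η t).1 = 0 := by
    by_cases c1 : t ≤ 1
    · rw [S.b0 t ht.1.le (by linarith)]
      ring
    · push Not at c1
      by_cases c2 : t ≤ T - 99 / 100
      · have e1 := f1 1 ⟨by norm_num, by norm_num⟩
        have e2 := f2 (T - 99 / 100) ⟨by linarith, by linarith⟩
        have m1 : (η 1).1 ≤ (η t).1 := hm c1.le
        have m2 : (η t).1 ≤ (η (T - 99 / 100)).1 := hm c2
        rw [S.R0 (η t).1 (by linarith) (by linarith), mul_zero]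
      · push Not at c2
        have e1 := S.bper t (1 - (T : ℤ))
        push_cast at e1
        rw [← e1, S.b0 _ (by linarith) (by linarith [ht.2])]
        ring
  have e : rhs (fF dU b Rd β) t (η t) = rhs (fA dU) t (η t) := by
    unfold rhs fF fA
    rw [hz, add_zero]
  rw [e]
  exact hη t

/-- the position of an orbit at the times of the gates -/
def GateP (h : ℝ) (T : ℕ) (ξ : ℝ → ℝ × ℝ) (j' : Fin 3) : Prop :=
  ∀ l : ℕ, 1 ≤ l → l ≤ T → ∀ t : ℝ, (l:ℝ) - 1 / 2 ≤ t → t ≤ l - 1 / 2 + 1 / 100 →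
    (l = T → 1 + z h j' - 11 / 20 * h ≤ (ξ t).1 ∧ (ξ t).1 ≤ 1 + z h j' - 9 / 20 * h) ∧
    (l < T → 1 / 2 + h / 10 ≤ (ξ t).1 ∧ (ξ t).1 ≤ 3 / 2 - 3 / 5 * h)

theorem pass_gate (S : Sys h β μ T U dU b Rd L) {η ξ : ℝ → ℝ × ℝ} (hη : Sol (fA dU) η)
    (hξ : Sol (fF dU b Rd β) ξ) (he : ξ (1 / 100) = η (1 / 100)) {j j' : Fin 3}
    (x1 : z h j - h / 25 ≤ (η (1 / 100)).1) (x2 : (η (1 / 100)).1 ≤ z h j + 51 / 1000 * h)
    (v1 : h ≤ (η (1 / 100)).2) (v2 : (η (1 / 100)).2 ≤ h + μ)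
    (X1 : 1 + z h j' - h / 25 ≤ (η T).1) (X2 : (η T).1 ≤ 1 + z h j' + h / 25) :
    GateP h T ξ j' := by
  have h0 := S.h0
  have hh := S.h1
  have hμ := S.μ1
  obtain ⟨z1, z2⟩ := z_bd S.h0 j
  obtain ⟨z3, z4⟩ := z_bd S.h0 j'
  have hT : (3 : ℝ) ≤ T := by exact_mod_cast S.T3
  have hfull := pass_full S hη hξ he x1 x2 v1 v2 X1 X2
  obtain ⟨_, hpos, f1, f2⟩ := pass_auto S hη x1 x2 v1 v2 X1 X2
  have hm := (sm_of_pos hη hpos).monotone
  intro l hl1 hl2 t ht1 ht2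
  have hl1' : (1 : ℝ) ≤ l := by exact_mod_cast hl1
  have hl2' : (l : ℝ) ≤ T := by exact_mod_cast hl2
  rw [hfull t ⟨by linarith, by linarith⟩]
  refine ⟨fun hl => ?_, fun hl => ?_⟩
  · subst hl
    have e := f2 t ⟨by linarith, by linarith⟩
    have p1 : 49 / 100 * h ≤ (η (1 / 100)).2 * (l - t) := by
      have : (η (1 / 100)).2 * (49 / 100) ≤ (η (1 / 100)).2 * (l - t) :=
        mul_le_mul_of_nonneg_left (by linarith) (hpos _).le
      linarith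
    have p2 : (η (1 / 100)).2 * (l - t) ≤ 51 / 100 * h := by
      have : (η (1 / 100)).2 * (l - t) ≤ (η (1 / 100)).2 * (1 / 2) :=
        mul_le_mul_of_nonneg_left (by linarith) (hpos _).le
      linarith
    have p3 : (η t).1 = (η l).1 - (η (1 / 100)).2 * (l - t) := by
      rw [e]; ring
    constructor <;> linarith
  · have hl' : (l : ℝ) + 1 ≤ T := by exact_mod_cast hl
    have e1 := f1 (1 / 2) ⟨by norm_num, by norm_num⟩
    have e2 := f2 (T - 149 / 100) ⟨by linarith, by linarith⟩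
    have m1 : (η (1 / 2)).1 ≤ (η t).1 := hm (by linarith)
    have m2 : (η t).1 ≤ (η (T - 149 / 100)).1 := hm (by linarith)
    constructor <;> linarith

/-- the return map -/
def P (T : ℕ) (Φ : ℝ × ℝ → ℝ → ℝ × ℝ) (w : ℝ × ℝ) : ℝ × ℝ := ((Φ w T).1 - 1, (Φ w T).2)

theorem Sol.shift_auto {η : ℝ → ℝ × ℝ} (hη : Sol (fA dU) η) (c : ℝ) :
    Sol (fA dU) (fun t => η (t - c)) := fun t => (hη (t - c)).comp_sub_const t c

/-- the covering relation -/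
theorem cover (S : Sys h β μ T U dU b Rd L) {Φ : ℝ × ℝ → ℝ → ℝ × ℝ} (Φ0 : ∀ w, Φ w 0 = w)
    (Φ1 : ∀ w, Sol (fF dU b Rd β) (Φ w)) (Φ2 : ∀ t, 0 ≤ t → Continuous (fun w => Φ w t))
    {j j' : Fin 3} {γ : ℝ → ℝ × ℝ} (hγ : Continuous γ) {a c : ℝ} (hac : a ≤ c)
    (ha : (γ a).1 = z h j - h / 25) (hc : (γ c).1 = z h j + h / 25)
    (hK : ∀ p ∈ Icc a c, γ p ∈ K h μ j) :
    ∃ a' c', a ≤ a' ∧ a' ≤ c' ∧ c' ≤ c ∧ (P T Φ (γ a')).1 = z h j' - h / 25 ∧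
      (P T Φ (γ c')).1 = z h j' + h / 25 ∧
      ∀ p ∈ Icc a' c', P T Φ (γ p) ∈ K h μ j' ∧ GateP h T (Φ (γ p)) j' := by
  have h0 := S.h0
  have hh := S.h1
  have hμ := S.μ1
  have hμ0 := S.μ0
  obtain ⟨z1, z2⟩ := z_bd S.h0 j
  obtain ⟨z3, z4⟩ := z_bd S.h0 j'
  have hT : (3 : ℝ) ≤ T := by exact_mod_cast S.T3
  obtain ⟨Ψ, Ψ0, Ψ1, Ψ2⟩ := S.niceA.flow
  -- the velocity after the kick
  have hg1 : Continuous fun p => Φ (γ p) (1 / 100) := (Φ2 (1 / 100) (by norm_num)).comp hγ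
  have hK0 : ∀ p ∈ Icc a c, Φ (γ p) 0 ∈ K h μ j := fun p hp => by rw [Φ0]; exact hK p hp
  have ka : (Φ (γ a) (1 / 100)).2 < h := by
    refine kick2 S (Φ1 _) (hK0 a ⟨le_rfl, hac⟩) ?_
    rw [Φ0]; exact ha
  have kc : h + μ < (Φ (γ c) (1 / 100)).2 := by
    refine kick3 S (Φ1 _) (hK0 c ⟨hac, le_rfl⟩) ?_
    rw [Φ0]; exact hc
  obtain ⟨a1, c1, i1, i2, i3, i4, i5, i6⟩ := ivt_sub (g := fun p => (Φ (γ p) (1 / 100)).2) hac
    (show h ≤ h + μ by linarith) (continuous_snd.comp hg1).continuousOn ka.le kc.le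
  -- positions after the kick
  have hpos : ∀ p ∈ Icc a1 c1, z h j - h / 25 ≤ (Φ (γ p) (1 / 100)).1 ∧
      (Φ (γ p) (1 / 100)).1 ≤ z h j + 51 / 1000 * h := by
    intro p hp
    have hp' : p ∈ Icc a c := ⟨i1.trans hp.1, hp.2.trans i3⟩
    have k1 := kick1 S (Φ1 _) (hK0 p hp') (1 / 100) ⟨by norm_num, le_rfl⟩
    have k2 := hK0 p hp'
    have k3 : z h j - h / 25 ≤ (Φ (γ p) 0).1 := k2.1
    have k4 : (Φ (γ p) 0).1 ≤ z h j + h / 25 := k2.2.1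
    constructor <;> linarith [k1.1, k1.2]
  -- the autonomous continuation
  have hη : ∀ p, Sol (fA dU) (fun t => Ψ (Φ (γ p) (1 / 100)) (t - 1 / 100)) := fun p =>
    (Ψ1 _).shift_auto (1 / 100)
  have hη0 : ∀ p, Ψ (Φ (γ p) (1 / 100)) (1 / 100 - 1 / 100) = Φ (γ p) (1 / 100) := by
    intro p
    rw [sub_self, Ψ0]
  have hcont : Continuous fun p => (Ψ (Φ (γ p) (1 / 100)) (T - 1 / 100)).1 :=
    continuous_fst.comp ((Ψ2 (T - 1 / 100) (by linarith)).comp hg1)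
  have ea : (Ψ (Φ (γ a1) (1 / 100)) (T - 1 / 100)).1 ≤ 1 + z h j' - h / 25 := by
    obtain ⟨q1, q2⟩ := hpos a1 ⟨le_rfl, i2⟩
    have := slow S (hη a1) (t0 := 1 / 100) (t := T) (by rw [hη0]; linarith) (by rw [hη0]; linarith)
      (by rw [hη0]; exact i4) (by linarith)
    linarith
  have ec : 1 + z h j' + h / 25 ≤ (Ψ (Φ (γ c1) (1 / 100)) (T - 1 / 100)).1 := by
    obtain ⟨q1, q2⟩ := hpos c1 ⟨i2, le_rfl⟩
    have q3 : (Φ (γ c1) (1 / 100)).2 = h + μ := i5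
    have q4 := fast S (hη c1) (t0 := 1 / 100) (by rw [hη0]; linarith) (by rw [hη0]; linarith)
      (by rw [hη0, q3]; linarith)
    have q5 : ∀ t, Real.sqrt ((h + μ) ^ 2 - h ^ 2) ≤ (Ψ (Φ (γ c1) (1 / 100)) (t - 1 / 100)).2 := by
      intro t
      have := (q4 t).2
      rw [hη0, q3] at this
      exact this
    have q6 := (convex_univ (𝕜 := ℝ) (E := ℝ)).mul_sub_le_image_sub_of_le_deriv
      (f := fun t => (Ψ (Φ (γ c1) (1 / 100)) (t - 1 / 100)).1)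
      (fun t _ => ((hη c1).fst t).continuousAt.continuousWithinAt)
      (fun t _ => ((hη c1).fst t).differentiableAt.differentiableWithinAt)
      (C := Real.sqrt ((h + μ) ^ 2 - h ^ 2))
      (fun t _ => by rw [((hη c1).fst t).deriv]; exact q5 t) (1 / 100) trivial T trivial (by linarith)
    rw [hη0] at q6
    have q7 := S.Tl
    have q8 : ((T : ℝ) - 1) * Real.sqrt ((h + μ) ^ 2 - h ^ 2) ≤
        Real.sqrt ((h + μ) ^ 2 - h ^ 2) * (T - 1 / 100) := by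
      rw [mul_comm]
      exact mul_le_mul_of_nonneg_left (by linarith) (Real.sqrt_nonneg _)
    linarith
  obtain ⟨a2, c2, l1, l2, l3, l4, l5, l6⟩ := ivt_sub
    (g := fun p => (Ψ (Φ (γ p) (1 / 100)) (T - 1 / 100)).1) i2
    (show 1 + z h j' - h / 25 ≤ 1 + z h j' + h / 25 by linarith) hcont.continuousOn ea ec
  -- the conclusion for the parameters in `[a2, c2]`
  have key : ∀ p ∈ Icc a2 c2, Φ (γ p) T = Ψ (Φ (γ p) (1 / 100)) (T - 1 / 100) ∧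
      (Ψ (Φ (γ p) (1 / 100)) (T - 1 / 100)).2 = (Φ (γ p) (1 / 100)).2 ∧
      GateP h T (Φ (γ p)) j' := by
    intro p hp
    have hp' : p ∈ Icc a1 c1 := ⟨l1.trans hp.1, hp.2.trans l3⟩
    obtain ⟨q1, q2⟩ := hpos p hp'
    obtain ⟨q3, q4⟩ := i6 p hp'
    obtain ⟨q5, q6⟩ := l6 p hp
    have r1 := pass_auto S (hη p) (j := j) (j' := j') (by rw [hη0]; exact q1) (by rw [hη0]; exact q2)
      (by rw [hη0]; exact q3) (by rw [hη0]; exact q4) q5 q6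
    have r2 := pass_full S (hη p) (Φ1 (γ p)) (hη0 p).symm (j := j) (j' := j') (by rw [hη0]; exact q1)
      (by rw [hη0]; exact q2) (by rw [hη0]; exact q3) (by rw [hη0]; exact q4) q5 q6 T
      ⟨by linarith, le_rfl⟩
    have r3 := pass_gate S (hη p) (Φ1 (γ p)) (hη0 p).symm (j := j) (j' := j') (by rw [hη0]; exact q1)
      (by rw [hη0]; exact q2) (by rw [hη0]; exact q3) (by rw [hη0]; exact q4) q5 q6
    have r4 := r1.1
    rw [hη0] at r4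
    exact ⟨r2, r4, r3⟩
  refine ⟨a2, c2, i1.trans l1, l2, l3.trans i3, ?_, ?_, fun p hp => ?_⟩
  · unfold P
    simp only
    rw [(key a2 ⟨le_rfl, l2⟩).1]
    rw [l4]
    ring
  · unfold P
    simp only
    rw [(key c2 ⟨l2, le_rfl⟩).1]
    rw [l5]
    ring
  · obtain ⟨k1, k2, k3⟩ := key p hp
    refine ⟨?_, k3⟩
    obtain ⟨q5, q6⟩ := l6 p hp
    have hp' : p ∈ Icc a1 c1 := ⟨l1.trans hp.1, hp.2.trans l3⟩
    obtain ⟨q3, q4⟩ := i6 p hp'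
    unfold P K
    rw [k1]
    refine ⟨?_, ?_, ?_, ?_⟩
    · simp only; linarith
    · simp only; linarith
    · simp only; rw [k2]; exact q3
    · simp only; rw [k2]; exact q4

/-- a curve which crosses the window after `m` returns -/
def Cross (h μ : ℝ) (T : ℕ) (Φ : ℝ × ℝ → ℝ → ℝ × ℝ) (σ : ℕ → Fin 3) (γ : ℝ → ℝ × ℝ) (m : ℕ)
    (q : ℝ × ℝ) : Prop :=
  q.1 ≤ q.2 ∧ ((P T Φ)^[m] (γ q.1)).1 = z h (σ m) - h / 25 ∧
    ((P T Φ)^[m] (γ q.2)).1 = z h (σ m) + h / 25 ∧ ∀ p ∈ Icc q.1 q.2, (P T Φ)^[m] (γ p) ∈ K h μ (σ m)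

/-- orbits with an arbitrary itinerary -/
theorem itinerary (S : Sys h β μ T U dU b Rd L) {Φ : ℝ × ℝ → ℝ → ℝ × ℝ} (Φ0 : ∀ w, Φ w 0 = w)
    (Φ1 : ∀ w, Sol (fF dU b Rd β) (Φ w)) (Φ2 : ∀ t, 0 ≤ t → Continuous (fun w => Φ w t))
    (σ : ℕ → Fin 3) : ∃ w : ℝ × ℝ, ∀ m, (P T Φ)^[m] w ∈ K h μ (σ m) ∧
      GateP h T (Φ ((P T Φ)^[m] w)) (σ (m + 1)) := by
  have h0 := S.h0
  have hμ0 := S.μ0
  obtain ⟨γ, hγ⟩ : ∃ γ : ℝ → ℝ × ℝ, γ = fun p => (p, h) := ⟨_, rfl⟩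
  have hγc : Continuous γ := by
    rw [hγ]
    exact continuous_id.prodMk continuous_const
  have hPc : Continuous (P T Φ) := by
    have h1 := Φ2 T (by positivity)
    exact ((continuous_fst.comp h1).sub continuous_const).prodMk (continuous_snd.comp h1)
  have step : ∀ (m : ℕ) (q : ℝ × ℝ), Cross h μ T Φ σ γ m q → ∃ q' : ℝ × ℝ,
      Cross h μ T Φ σ γ (m + 1) q' ∧ q.1 ≤ q'.1 ∧ q'.2 ≤ q.2 ∧
      ∀ p ∈ Icc q'.1 q'.2, GateP h T (Φ ((P T Φ)^[m] (γ p))) (σ (m + 1)) := by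
    rintro m ⟨a, c⟩ ⟨c1, c2, c3, c4⟩
    obtain ⟨a', c', e1, e2, e3, e4, e5, e6⟩ := cover S Φ0 Φ1 Φ2 (j := σ m) (j' := σ (m + 1))
      (γ := fun p => (P T Φ)^[m] (γ p)) ((hPc.iterate m).comp hγc) c1 c2 c3 c4
    refine ⟨(a', c'), ⟨e2, ?_, ?_, fun p hp => ?_⟩, e1, e3, fun p hp => (e6 p hp).2⟩
    · rw [Function.iterate_succ_apply']; exact e4
    · rw [Function.iterate_succ_apply']; exact e5
    · rw [Function.iterate_succ_apply']; exact (e6 p hp).1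
  have start : Cross h μ T Φ σ γ 0 (z h (σ 0) - h / 25, z h (σ 0) + h / 25) := by
    refine ⟨by simp only; linarith, ?_, ?_, fun p hp => ?_⟩
    · rw [hγ]; rfl
    · rw [hγ]; rfl
    · rw [hγ]
      exact ⟨hp.1, hp.2, le_rfl, by simp only [Function.iterate_zero, id_eq]; linarith⟩
  choose! nx n1 n2 n3 n4 using step
  obtain ⟨q, q0, q1⟩ : ∃ q : ℕ → ℝ × ℝ, q 0 = (z h (σ 0) - h / 25, z h (σ 0) + h / 25) ∧
      ∀ m, q (m + 1) = nx m (q m) :=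
    ⟨fun m => Nat.rec (z h (σ 0) - h / 25, z h (σ 0) + h / 25) (fun m y => nx m y) m, rfl, fun m => rfl⟩
  have hq : ∀ m, Cross h μ T Φ σ γ m (q m) := by
    intro m
    induction m with
    | zero => rw [q0]; exact start
    | succ m ih => rw [q1]; exact n1 m _ ih
  have hanti : Antitone fun m => Icc (q m).1 (q m).2 := by
    refine antitone_nat_of_succ_le fun m => ?_
    rw [q1]
    exact Icc_subset_Icc (n2 m _ (hq m)) (n3 m _ (hq m))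
  have hmem := ciSup_mem_iInter_Icc_of_antitone_Icc hanti (fun m => (hq m).1)
  rw [mem_iInter] at hmem
  refine ⟨γ (⨆ m, (q m).1), fun m => ⟨(hq m).2.2.2 _ (hmem m), n4 m _ (hq m) _ ?_⟩⟩
  rw [← q1]
  exact hmem (m + 1)

end Pool.Agent.K9h32.SP.Slow
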