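import Pool.Agent.K9h32.SP.SlowC

/-!
# Leaf SLOW, part D: periodicity, and the smooth periodic functions
-/

set_option autoImplicit false

open Set Filter Topology
open scoped ContDiff

noncomputable section

namespace Pool.Agent.K9h32.SP.Slow

variable {h β μ : ℝ} {T : ℕ} {U dU b Rd : ℝ → ℝ} {L : NNReal}

theorem ret1 (S : Sys h β μ T U dU b Rd L) {Φ : ℝ × ℝ → ℝ → ℝ × ℝ} (Φ0 : ∀ w, Φ w 0 = w)
    (Φ1 : ∀ w, Sol (fF dU b Rd β) (Φ w)) (pU : ∀ s, dU (s - 1) = dU s) (pR : ∀ s, Rd (s - 1) = Rd s)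
    (w : ℝ × ℝ) (t : ℝ) : Φ (P T Φ w) t = ((Φ w (t + T)).1 - 1, (Φ w (t + T)).2) := by
  have h1 : Sol (fF dU b Rd β) (fun t => ((Φ w (t + T)).1 - 1, (Φ w (t + T)).2)) := by
    intro t
    have h2 := ((Φ1 w).fst (t + T)).comp_add_const t T
    have h3 := ((Φ1 w).snd (t + T)).comp_add_const t T
    have h4 := (h2.sub_const 1).prodMk h3
    refine HasDerivAt.congr_deriv h4 ?_
    unfold rhs fF
    simp only
    rw [pU, pR]
    have e := S.bper t (T : ℤ)
    push_cast at e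
    rw [e]
  refine S.niceF.uniq' (Φ1 _) h1 (t0 := 0) ?_ t
  rw [Φ0, zero_add]
  rfl

theorem retm (S : Sys h β μ T U dU b Rd L) {Φ : ℝ × ℝ → ℝ → ℝ × ℝ} (Φ0 : ∀ w, Φ w 0 = w)
    (Φ1 : ∀ w, Sol (fF dU b Rd β) (Φ w)) (pU : ∀ s, dU (s - 1) = dU s) (pR : ∀ s, Rd (s - 1) = Rd s)
    (w : ℝ × ℝ) (m : ℕ) : ∀ t : ℝ, (Φ w (t + m * T)).1 = (Φ ((P T Φ)^[m] w) t).1 + m := by
  induction m with
  | zero => intro t; simp
  | succ m ih =>
    intro t
    rw [Function.iterate_succ_apply', ret1 S Φ0 Φ1 pU pR]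
    simp only
    have e : t + ((m + 1 : ℕ) : ℝ) * T = (t + T) + m * T := by push_cast; ring
    rw [e, ih]
    push_cast
    ring

/-! ## Smooth periodic functions -/

/-- a smooth periodic bump -/
def pb (c r1 r2 s : ℝ) : ℝ :=
  Real.smoothTransition ((Real.cos (2 * Real.pi * (s - c)) - Real.cos (2 * Real.pi * r1)) /
    (Real.cos (2 * Real.pi * r2) - Real.cos (2 * Real.pi * r1)))

theorem pb_contDiff (c r1 r2 : ℝ) : ContDiff ℝ ∞ (pb c r1 r2) := by
  unfold pb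
  refine Real.smoothTransition.contDiff.comp ?_
  refine ContDiff.div_const ?_ _
  refine ContDiff.sub ?_ contDiff_const
  exact Real.contDiff_cos.comp (contDiff_const.mul (contDiff_id.sub contDiff_const))

theorem pb_per (c r1 r2 s : ℝ) (n : ℤ) : pb c r1 r2 (s + n) = pb c r1 r2 s := by
  unfold pb
  have e : 2 * Real.pi * (s + n - c) = 2 * Real.pi * (s - c) + n * (2 * Real.pi) := by ring
  rw [e, Real.cos_add_int_mul_two_pi]

theorem pb_nonneg (c r1 r2 s : ℝ) : 0 ≤ pb c r1 r2 s := Real.smoothTransition.nonneg _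

theorem pb_le_one (c r1 r2 s : ℝ) : pb c r1 r2 s ≤ 1 := Real.smoothTransition.le_one _

theorem cos_lt {r1 r2 : ℝ} (h2 : 0 ≤ r2) (h12 : r2 < r1) (h1 : r1 ≤ 1 / 2) :
    Real.cos (2 * Real.pi * r1) < Real.cos (2 * Real.pi * r2) := by
  have hp := Real.pi_pos
  refine Real.cos_lt_cos_of_nonneg_of_le_pi (by positivity) ?_ ?_
  · nlinarith
  · exact mul_lt_mul_of_pos_left h12 (by positivity)

theorem pb_one {c r1 r2 s : ℝ} (h2 : 0 ≤ r2) (h12 : r2 < r1) (h1 : r1 ≤ 1 / 2) (hs : |s - c| ≤ r2) :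
    pb c r1 r2 s = 1 := by
  have hp := Real.pi_pos
  have h3 := cos_lt h2 h12 h1
  refine Real.smoothTransition.one_of_one_le ?_
  rw [le_div_iff₀ (by linarith), one_mul]
  have h4 : Real.cos (2 * Real.pi * r2) ≤ Real.cos (2 * Real.pi * (s - c)) := by
    rw [← Real.cos_abs (2 * Real.pi * (s - c)), abs_mul, abs_of_pos (by positivity : 0 < 2 * Real.pi)]
    refine Real.cos_le_cos_of_nonneg_of_le_pi (by positivity) ?_ ?_
    · nlinarith
    · exact mul_le_mul_of_nonneg_left hs (by positivity)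
  linarith

theorem pb_zero {c r1 r2 s : ℝ} (h2 : 0 ≤ r2) (h12 : r2 < r1) (h1 : r1 ≤ 1 / 2) (hs1 : c + r1 ≤ s)
    (hs2 : s ≤ c + 1 - r1) : pb c r1 r2 s = 0 := by
  have hp := Real.pi_pos
  have h3 := cos_lt h2 h12 h1
  refine Real.smoothTransition.zero_of_nonpos ?_
  refine div_nonpos_of_nonpos_of_nonneg ?_ (by linarith)
  rw [sub_nonpos]
  have hr1 : 0 ≤ r1 := by linarith
  by_cases hc : s - c ≤ 1 / 2
  · refine Real.cos_le_cos_of_nonneg_of_le_pi (by positivity) ?_ ?_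
    · nlinarith
    · exact mul_le_mul_of_nonneg_left (by linarith) (by positivity)
  · push Not at hc
    have e : Real.cos (2 * Real.pi * (s - c)) = Real.cos (2 * Real.pi * (1 - (s - c))) := by
      rw [← Real.cos_neg]
      have : -(2 * Real.pi * (s - c)) = 2 * Real.pi * (1 - (s - c)) + (-1 : ℤ) * (2 * Real.pi) := by
        push_cast; ring
      rw [this, Real.cos_add_int_mul_two_pi]
    rw [e]
    refine Real.cos_le_cos_of_nonneg_of_le_pi (by positivity) ?_ ?_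
    · nlinarith
    · exact mul_le_mul_of_nonneg_left (by linarith) (by positivity)

theorem deriv_of_ext {g : ℝ → ℝ} (h0 : ∀ s, 0 ≤ g s) (h1 : ∀ s, g s ≤ 1) {s : ℝ} (hs : g s = 0 ∨ g s = 1) :
    deriv g s = 0 := by
  rcases hs with hs | hs
  · exact IsLocalMin.deriv_eq_zero (Eventually.of_forall fun y => by rw [hs]; exact h0 y)
  · exact IsLocalMax.deriv_eq_zero (Eventually.of_forall fun y => by rw [hs]; exact h1 y)

theorem per_bd {g : ℝ → ℝ} (hg : Continuous g) (hp : ∀ s, g (s + 1) = g s) :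
    ∃ C : ℝ, 0 < C ∧ ∀ s, |g s| ≤ C := by
  have h1 : Bornology.IsBounded (range g) :=
    Function.Periodic.isBounded_of_continuous (c := 1) hp one_ne_zero hg
  obtain ⟨C, hC⟩ := h1.exists_norm_le
  refine ⟨max C 1, lt_of_lt_of_le one_pos (le_max_right _ _), fun s => ?_⟩
  exact (hC _ ⟨s, rfl⟩).trans (le_max_left _ _)

theorem per_lip {g : ℝ → ℝ} (hg : ContDiff ℝ ∞ g) (hp : ∀ s, g (s + 1) = g s) :
    ∃ C : ℝ, 0 < C ∧ ∀ x y, |g x - g y| ≤ C * |x - y| := by
  have hd : Continuous (deriv g) := hg.continuous_deriv (by norm_cast)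
  have hdp : ∀ s, deriv g (s + 1) = deriv g s := by
    intro s
    rw [← deriv_comp_add_const]
    congr 1
    funext y
    exact hp y
  obtain ⟨C, hC, h1⟩ := per_bd hd hdp
  refine ⟨C, hC, fun x y => ?_⟩
  exact Convex.norm_image_sub_le_of_norm_deriv_le (f := g) (s := univ) (C := C)
    (fun s _ => (hg.differentiable (by norm_cast)) s) (fun s _ => h1 s) convex_univ trivial trivial

theorem bd_per {F : ℝ × ℝ → ℝ} (hF : ContDiff ℝ ∞ F)
    (hp : ∀ (q : ℝ × ℝ) (a c : ℤ), F (q.1 + a, q.2 + c) = F q) (k : ℕ) :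
    ∃ M : ℝ, 0 < M ∧ ∀ i ≤ k, ∀ q, ‖iteratedFDeriv ℝ i F q‖ ≤ M := by
  have h1 : ∀ i : ℕ, ∃ M : ℝ, ∀ q, ‖iteratedFDeriv ℝ i F q‖ ≤ M := by
    intro i
    have hc : Continuous (iteratedFDeriv ℝ i F) :=
      hF.continuous_iteratedFDeriv (m := i) (by norm_cast; exact le_top)
    obtain ⟨M, hM⟩ := ((isCompact_Icc (a := (0:ℝ)) (b := 1)).prod
      (isCompact_Icc (a := (0:ℝ)) (b := 1))).exists_bound_of_continuousOn hc.continuousOn
    refine ⟨M, fun q => ?_⟩
    have e : F = fun z => F (z + (((-⌊q.1⌋ : ℤ) : ℝ), ((-⌊q.2⌋ : ℤ) : ℝ))) := by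
      funext z
      exact (hp z _ _).symm
    rw [e, iteratedFDeriv_comp_add_right]
    refine hM _ ⟨?_, ?_⟩
    · push_cast
      exact ⟨by simp only [Prod.fst_add]; linarith [Int.floor_le q.1],
        by simp only [Prod.fst_add]; linarith [Int.lt_floor_add_one q.1]⟩
    · push_cast
      exact ⟨by simp only [Prod.snd_add]; linarith [Int.floor_le q.2],
        by simp only [Prod.snd_add]; linarith [Int.lt_floor_add_one q.2]⟩
  choose M hM using h1
  have hM0 : ∀ i, 0 ≤ M i := fun i => (norm_nonneg _).trans (hM i 0)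
  refine ⟨∑ i ∈ Finset.range (k + 1), M i + 1, ?_, fun i hi q => (hM i q).trans ?_⟩
  · have : 0 ≤ ∑ i ∈ Finset.range (k + 1), M i := Finset.sum_nonneg fun i _ => hM0 i
    linarith
  · have := Finset.single_le_sum (f := M) (fun i _ => hM0 i)
      (Finset.mem_range.2 (Nat.lt_succ_of_le hi))
    linarith

end Pool.Agent.K9h32.SP.Slow
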