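import Pool.Agent.K9h32.SP.SlowD

/-!
# Leaf SLOW, part E: the potential
-/

set_option autoImplicit false

open Set Filter Topology
open scoped ContDiff

noncomputable section

namespace Pool.Agent.K9h32.SP.Slow

/-! ## The profile of the autonomous part -/

/-- `1` at integers, `0` on `[1/4, 3/4]` -/
def u0 (s : ℝ) : ℝ := Real.smoothTransition (Real.cos (2 * Real.pi * s))

theorem u0_contDiff : ContDiff ℝ ∞ u0 := by
  unfold u0
  exact Real.smoothTransition.contDiff.comp (Real.contDiff_cos.comp (contDiff_const.mul contDiff_id))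

theorem u0_per (s : ℝ) (n : ℤ) : u0 (s + n) = u0 s := by
  unfold u0
  have e : 2 * Real.pi * (s + n) = 2 * Real.pi * s + n * (2 * Real.pi) := by ring
  rw [e, Real.cos_add_int_mul_two_pi]

theorem u0_nonneg (s : ℝ) : 0 ≤ u0 s := Real.smoothTransition.nonneg _

theorem u0_le_one (s : ℝ) : u0 s ≤ 1 := Real.smoothTransition.le_one _

theorem u0_one : u0 1 = 1 := by
  unfold u0
  refine Real.smoothTransition.one_of_one_le ?_
  rw [mul_one, Real.cos_two_pi]

theorem u0_zero {s : ℝ} (h1 : 1 / 4 ≤ s) (h2 : s ≤ 3 / 4) : u0 s = 0 := by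
  unfold u0
  have hp := Real.pi_pos
  refine Real.smoothTransition.zero_of_nonpos ?_
  refine Real.cos_nonpos_of_pi_div_two_le_of_le ?_ ?_
  · nlinarith
  · nlinarith

theorem u0_zero' {s : ℝ} (h1 : 5 / 4 ≤ s) (h2 : s ≤ 7 / 4) : u0 s = 0 := by
  have := u0_per (s - 1) 1
  push_cast at this
  rw [sub_add_cancel] at this
  rw [this]
  exact u0_zero (by linarith) (by linarith)

/-! ## The kick -/

/-- the profile of the kick (`h = 1/N`) -/
def R (N : ℕ) (s : ℝ) : ℝ :=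
  -(1 / (8 * Real.pi * N)) * Real.cos (8 * Real.pi * N * (s - 1 / 2)) *
    pb (1 / 2 + (1 / N) / 4) (2 / 5 * (1 / N)) (7 / 20 * (1 / N)) s

theorem R_contDiff (N : ℕ) : ContDiff ℝ ∞ (R N) := by
  unfold R
  refine ContDiff.mul (ContDiff.mul contDiff_const ?_) (pb_contDiff _ _ _)
  exact Real.contDiff_cos.comp (contDiff_const.mul (contDiff_id.sub contDiff_const))

theorem R_per (N : ℕ) (s : ℝ) (n : ℤ) : R N (s + n) = R N s := by
  unfold R
  have e : 8 * Real.pi * N * (s + n - 1 / 2) = 8 * Real.pi * N * (s - 1 / 2) +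
      ((4 * N * n : ℤ) : ℝ) * (2 * Real.pi) := by push_cast; ring
  rw [e, Real.cos_add_int_mul_two_pi, pb_per]

/-- in the plateau -/
theorem R_deriv {N : ℕ} (hN : 10 ≤ N) {s : ℝ} (h1 : 1 / 2 - (1 / N) / 10 ≤ s)
    (h2 : s ≤ 1 / 2 + 3 / 5 * (1 / N)) : deriv (R N) s = Real.sin (8 * Real.pi * N * (s - 1 / 2)) := by
  have hN' : (10 : ℝ) ≤ N := by exact_mod_cast hN
  have hN0 : (0 : ℝ) < N := by linarith
  have hh : (1 : ℝ) / N ≤ 1 / 10 := one_div_le_one_div_of_le (by norm_num) hN'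
  have hh0 : (0 : ℝ) < 1 / N := by positivity
  have e1 : pb (1 / 2 + (1 / N) / 4) (2 / 5 * (1 / N)) (7 / 20 * (1 / N)) s = 1 :=
    pb_one (by positivity) (by linarith) (by linarith) (by rw [abs_le]; constructor <;> linarith)
  have e2 : deriv (pb (1 / 2 + (1 / N) / 4) (2 / 5 * (1 / N)) (7 / 20 * (1 / N))) s = 0 :=
    deriv_of_ext (pb_nonneg _ _ _) (pb_le_one _ _ _) (Or.inr e1)
  have d1 : HasDerivAt (pb (1 / 2 + (1 / N) / 4) (2 / 5 * (1 / N)) (7 / 20 * (1 / N))) 0 s := by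
    rw [← e2]
    exact ((pb_contDiff _ _ _).differentiable (by norm_cast) s).hasDerivAt
  have d2 : HasDerivAt (fun s : ℝ => 8 * Real.pi * N * (s - 1 / 2)) (8 * Real.pi * N * 1) s :=
    ((hasDerivAt_id s).sub_const _).const_mul _
  have d3 := ((d2.cos).const_mul (-(1 / (8 * Real.pi * N)))).mul d1
  have d4 : HasDerivAt (R N) _ s := d3
  rw [d4.deriv, e1]
  have hp := Real.pi_pos
  field_simp
  ring

theorem R_zero {N : ℕ} (hN : 10 ≤ N) {s : ℝ} (h1 : 1 / 2 + 13 / 20 * (1 / N) ≤ s)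
    (h2 : s ≤ 3 / 2 - 3 / 20 * (1 / N)) : deriv (R N) s = 0 := by
  have hN' : (10 : ℝ) ≤ N := by exact_mod_cast hN
  have hN0 : (0 : ℝ) < N := by linarith
  have hh : (1 : ℝ) / N ≤ 1 / 10 := one_div_le_one_div_of_le (by norm_num) hN'
  have hh0 : (0 : ℝ) < 1 / N := by positivity
  have e1 : pb (1 / 2 + (1 / N) / 4) (2 / 5 * (1 / N)) (7 / 20 * (1 / N)) s = 0 :=
    pb_zero (by positivity) (by linarith) (by linarith) (by linarith) (by linarith)
  have e2 : deriv (pb (1 / 2 + (1 / N) / 4) (2 / 5 * (1 / N)) (7 / 20 * (1 / N))) s = 0 :=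
    deriv_of_ext (pb_nonneg _ _ _) (pb_le_one _ _ _) (Or.inl e1)
  have d1 : HasDerivAt (pb (1 / 2 + (1 / N) / 4) (2 / 5 * (1 / N)) (7 / 20 * (1 / N))) 0 s := by
    rw [← e2]
    exact ((pb_contDiff _ _ _).differentiable (by norm_cast) s).hasDerivAt
  have d2 : HasDerivAt (fun s : ℝ => 8 * Real.pi * N * (s - 1 / 2)) (8 * Real.pi * N * 1) s :=
    ((hasDerivAt_id s).sub_const _).const_mul _
  have d3 := ((d2.cos).const_mul (-(1 / (8 * Real.pi * N)))).mul d1
  have d4 : HasDerivAt (R N) _ s := d3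
  rw [d4.deriv, e1]
  ring

theorem sin_ge {x : ℝ} (h1 : 29 / 125 * Real.pi ≤ x) (h2 : x ≤ Real.pi / 2) : 2 / 5 ≤ Real.sin x := by
  have hp := Real.pi_pos
  have h3 := Real.mul_le_sin (by nlinarith : 0 ≤ x) h2
  have h4 : 2 / Real.pi * (29 / 125 * Real.pi) ≤ 2 / Real.pi * x :=
    mul_le_mul_of_nonneg_left h1 (by positivity)
  have h5 : 2 / Real.pi * (29 / 125 * Real.pi) = 58 / 125 := by field_simp; norm_num
  linarith

theorem sin_pos_z {N : ℕ} (hN : 10 ≤ N) (j : Fin 3) {s : ℝ} (h1 : z (1 / N) j + (1 / N) / 25 ≤ s)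
    (h2 : s ≤ z (1 / N) j + 51 / 1000 * (1 / N)) : 2 / 5 ≤ Real.sin (8 * Real.pi * N * (s - 1 / 2)) := by
  have hN' : (10 : ℝ) ≤ N := by exact_mod_cast hN
  have hN0 : (0 : ℝ) < N := by linarith
  have hp := Real.pi_pos
  have e : 8 * Real.pi * N * (s - 1 / 2) = 8 * Real.pi * (N * (s - z (1 / N) j)) +
      ((j : ℕ) : ℤ) * (2 * Real.pi) := by
    unfold z
    push_cast
    field_simp
    ring
  rw [e, Real.sin_add_int_mul_two_pi]
  have k1 : 1 / 25 ≤ N * (s - z (1 / N) j) := by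
    have : N * ((1 / N) / 25) ≤ N * (s - z (1 / N) j) :=
      mul_le_mul_of_nonneg_left (by linarith) hN0.le
    have e2 : (N : ℝ) * ((1 / N) / 25) = 1 / 25 := by field_simp
    linarith
  have k2 : N * (s - z (1 / N) j) ≤ 51 / 1000 := by
    have : N * (s - z (1 / N) j) ≤ N * (51 / 1000 * (1 / N)) :=
      mul_le_mul_of_nonneg_left (by linarith) hN0.le
    have e2 : (N : ℝ) * (51 / 1000 * (1 / N)) = 51 / 1000 := by field_simp
    linarith
  refine sin_ge ?_ ?_
  · nlinarith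
  · nlinarith

theorem sin_neg_z {N : ℕ} (hN : 10 ≤ N) (j : Fin 3) {s : ℝ} (h1 : z (1 / N) j - (1 / N) / 25 ≤ s)
    (h2 : s ≤ z (1 / N) j - 29 / 1000 * (1 / N)) :
    Real.sin (8 * Real.pi * N * (s - 1 / 2)) ≤ -(2 / 5) := by
  have hN' : (10 : ℝ) ≤ N := by exact_mod_cast hN
  have hN0 : (0 : ℝ) < N := by linarith
  have hp := Real.pi_pos
  have e : 8 * Real.pi * N * (s - 1 / 2) = -(8 * Real.pi * (N * (z (1 / N) j - s))) +
      ((j : ℕ) : ℤ) * (2 * Real.pi) := by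
    unfold z
    push_cast
    field_simp
    ring
  rw [e, Real.sin_add_int_mul_two_pi, Real.sin_neg]
  have k1 : 29 / 1000 ≤ N * (z (1 / N) j - s) := by
    have : N * (29 / 1000 * (1 / N)) ≤ N * (z (1 / N) j - s) :=
      mul_le_mul_of_nonneg_left (by linarith) hN0.le
    have e2 : (N : ℝ) * (29 / 1000 * (1 / N)) = 29 / 1000 := by field_simp
    linarith
  have k2 : N * (z (1 / N) j - s) ≤ 1 / 25 := by
    have : N * (z (1 / N) j - s) ≤ N * ((1 / N) / 25) :=
      mul_le_mul_of_nonneg_left (by linarith) hN0.le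
    have e2 : (N : ℝ) * ((1 / N) / 25) = 1 / 25 := by field_simp
    linarith
  have := sin_ge (x := 8 * Real.pi * (N * (z (1 / N) j - s))) (by nlinarith) (by nlinarith)
  linarith

/-- the time profile of the kick -/
def bb (t : ℝ) : ℝ := pb (1 / 200) (1 / 250) (1 / 500) t

theorem bb_zero {t : ℝ} (h1 : 9 / 1000 ≤ t) (h2 : t ≤ 1001 / 1000) : bb t = 0 :=
  pb_zero (by norm_num) (by norm_num) (by norm_num) (by linarith) (by linarith)

theorem bb_int : 0 < ∫ t in (0:ℝ)..1 / 100, bb t := by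
  refine intervalIntegral.integral_pos (by norm_num) (pb_contDiff _ _ _).continuous.continuousOn
    (fun t _ => pb_nonneg _ _ _ _) ⟨1 / 200, ⟨by norm_num, by norm_num⟩, ?_⟩
  have : bb (1 / 200) = 1 := pb_one (by norm_num) (by norm_num) (by norm_num) (by norm_num)
  rw [this]
  exact one_pos

end Pool.Agent.K9h32.SP.Slow
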