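import Pool.Agent.K9h32.SP.StmS

/-!
# `C^k`-density for every `k`: the Hamilton-Jacobi equation with a slow resonant potential (statement)
-/

set_option autoImplicit false

open Set Filter Topology
open scoped ContDiff

noncomputable section

namespace Pool.Agent.K9h32.SP

open Pool.Agent.N980.TL

/-- the atom `a(p·x, p·P, t) ∏_f (f·P)⁻¹ cos (2π k·x + φ)`; the vector `p` is fixed -/
structure TS (n : ℕ) where
  a : ℝ → ℝ → ℝ → ℝ
  F : List (Fin n → ℤ)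
  k : Fin n → ℤ
  φ : ℝ

/-- the value of an atom -/
def TS.ev {n : ℕ} (p : Fin n → ℤ) (a : TS n) (x P : E n) (t : ℝ) : ℝ :=
  a.a (dot p x) (dot p P) t * (a.F.map fun f => (dot f P)⁻¹).prod * Real.cos (2 * Real.pi * dot a.k x + a.φ)

/-- the value of a sum of atoms -/
def sev {n : ℕ} (p : Fin n → ℤ) (L : List (TS n)) (x P : E n) (t : ℝ) : ℝ := (L.map fun a => a.ev p x P t).sum

/-- `∂a/∂s` -/
def d1 (a : ℝ → ℝ → ℝ → ℝ) : ℝ → ℝ → ℝ → ℝ := fun s r t => deriv (fun s => a s r t) s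
/-- `∂a/∂r` -/
def d2 (a : ℝ → ℝ → ℝ → ℝ) : ℝ → ℝ → ℝ → ℝ := fun s r t => deriv (fun r => a s r t) r
/-- `∂a/∂t` -/
def d3 (a : ℝ → ℝ → ℝ → ℝ) : ℝ → ℝ → ℝ → ℝ := fun s r t => deriv (fun t => a s r t) t

/-- the real vector -/
def rv {n : ℕ} (p : Fin n → ℤ) : E n := fun i => (p i : ℝ)

/-- `∂/∂x_i` -/
def sx {n : ℕ} (p : Fin n → ℤ) (i : Fin n) (L : List (TS n)) : List (TS n) :=
  L.flatMap fun a => [{ a with a := fun s r t => d1 a.a s r t * p i },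
    { a with a := fun s r t => a.a s r t * (2 * Real.pi * a.k i), φ := a.φ + Real.pi / 2 }]

/-- `∂/∂t` -/
def st {n : ℕ} (L : List (TS n)) : List (TS n) := L.map fun a => { a with a := d3 a.a }

/-- the derivative of the coefficients in the slow position -/
def ss {n : ℕ} (L : List (TS n)) : List (TS n) := L.map fun a => { a with a := d1 a.a }

/-- the derivative `p·∂/∂P` -/
def sp {n : ℕ} (p : Fin n → ℤ) (L : List (TS n)) : List (TS n) :=
  L.flatMap fun a => { a with a := fun s r t => d2 a.a s r t * dot p (rv p) } ::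
    a.F.map fun f => { a with a := fun s r t => -dot f (rv p) * a.a s r t, F := f :: a.F }

/-- smooth coefficients, 1-periodic in the slow position, and factors in `𝓕` -/
def SGood {n : ℕ} (𝓕 : List (Fin n → ℤ)) (L : List (TS n)) : Prop :=
  ∀ a ∈ L, ContDiff ℝ ∞ (fun z : ℝ × ℝ × ℝ => a.a z.1 z.2.1 z.2.2) ∧
    (∀ (s r t : ℝ) (m : ℤ), a.a (s + m) r t = a.a s r t) ∧ ∀ f ∈ a.F, f ∈ 𝓕

/-- the coefficients vanish where `A` vanishes locally -/
def Loc {n : ℕ} (A : ℝ → ℝ → ℝ) (L : List (TS n)) : Prop :=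
  ∀ a ∈ L, ∀ s t : ℝ, (∀ᶠ z in 𝓝 (s, t), A z.1 z.2 = 0) → ∀ r, a.a s r t = 0

/-- the sum of atoms as a sum of atoms with slow coefficients -/
def emb {n : ℕ} (L : List (TA n)) : List (TS n) :=
  L.map fun a => { a := fun _ _ t => a.a t, F := a.F, k := a.k, φ := a.φ }

/-- the slow potential -/
def slowAt {n : ℕ} (A : ℝ → ℝ → ℝ) : TS n := { a := fun s _ t => A s t, F := [], k := 0, φ := 0 }

/-- Leaf HJK: `w0` is given; `w = w0 + w'` and the averaged potential `𝒜 = A + al` are an approximate solution of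
`∂_t w + P·∂_x w + |∂_x w|²/2 = D + A(p·x,t) - 𝒜(p·x + p·∂_P w, P, t)`. -/
def S_HJK : Prop :=
  ∀ (n : ℕ) (w0 : List (TA n)) (M : ℕ), (∀ a ∈ w0, ContDiff ℝ ∞ a.a) → (∀ a ∈ w0, 1 ≤ a.F.length) →
    (∀ a ∈ w0, ∀ f ∈ a.F, f ≠ 0) → ∃ R : ℕ, ∀ (p : Fin n → ℤ) (A : ℝ → ℝ → ℝ),
      ContDiff ℝ ∞ (fun q : ℝ × ℝ => A q.1 q.2) → (∀ (s t : ℝ) (m : ℤ), A (s + m) t = A s t) →
      ∃ (w al e : List (TS n)) (𝓕 : List (Fin n → ℤ)),
        (∀ f ∈ 𝓕, f ≠ 0 ∧ ∀ i, |f i| ≤ R) ∧ SGood 𝓕 (emb w0) ∧ SGood 𝓕 w ∧ SGood 𝓕 al ∧ SGood 𝓕 e ∧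
        (∀ a ∈ w, 1 ≤ a.F.length) ∧ (∀ a ∈ al, a.k = 0 ∧ 1 ≤ a.F.length) ∧ (∀ a ∈ e, M ≤ a.F.length) ∧
        Loc A w ∧ Loc A al ∧
        ∀ P : E n, (∀ f ∈ 𝓕, dot f P ≠ 0) → ∀ (x : E n) (t : ℝ),
          sev p (st w) x P t + ∑ i, P i * sev p (sx p i w) x P t +
            ∑ i, sev p (sx p i (emb w0)) x P t * sev p (sx p i w) x P t +
            (∑ i, sev p (sx p i w) x P t ^ 2) / 2 - A (dot p x) t +
            ∑ j ∈ Finset.range (M + 1), sev p (ss^[j] (slowAt A :: al)) x P t *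
              (sev p (sp p (emb w0)) x P t + sev p (sp p w) x P t) ^ j / (j.factorial : ℝ) =
          sev p e x P t

end Pool.Agent.K9h32.SP
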