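import Pool.Agent.K9h32.SP.SlowE

/-!
# Leaf UH, part A: one passage (the time is shifted: the kick is in `[0, 1/100]`)
-/

set_option autoImplicit false

open Set Filter Topology

noncomputable section

namespace Pool.Agent.K9h32.SP.UH

open Pool.Agent.K9h32.SP.Slow

/-- the data of the construction. `K0 = β ∫ b` is the strength of the kick -/
structure Sys2 (h β m κ w : ℝ) (T : ℕ) (U dU b Rd : ℝ → ℝ) (L : NNReal) : Prop where
  h0 : 0 < h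
  h1 : h ≤ 1 / 100
  β0 : 0 < β
  m0 : 0 < m
  m1 : m ≤ h / 10000
  m2 : m ≤ (β * ∫ t in (0:ℝ)..1 / 100, b t) / 20
  κ0 : 0 < κ
  κ1 : κ ≤ 1 / 10
  κ2 : κ * h ≤ β * ∫ t in (0:ℝ)..1 / 100, b t
  w0 : 0 < w
  w1 : 11 / 10 ≤ ((T : ℝ) - 1) * w
  w2 : w ^ 3 ≤ h * (β * ∫ t in (0:ℝ)..1 / 100, b t) / 40
  w3 : w ^ 3 ≤ κ * h ^ 2 / 10
  w4 : w ^ 2 ≤ m * h
  T3 : 3 ≤ T
  hdU : ∀ s, HasDerivAt U (dU s) s
  Unn : ∀ s, 0 ≤ U s
  Ule : ∀ s, U s ≤ h ^ 2 / 2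
  U0 : ∀ s, 1 / 4 ≤ s → s ≤ 3 / 4 → U s = 0
  U1 : ∀ s, 5 / 4 ≤ s → s ≤ 7 / 4 → U s = 0
  U2 : ∀ s, 9 / 10 ≤ s → s ≤ 11 / 10 → U s = h ^ 2 / 2
  dU0 : ∀ s, 1 / 4 ≤ s → s ≤ 3 / 4 → dU s = 0
  dU2 : ∀ s, U s = h ^ 2 / 2 → dU s = 0
  bper : ∀ (t : ℝ) (n : ℤ), b (t + n) = b t
  b0 : ∀ t, 9 / 1000 ≤ t → t ≤ 1001 / 1000 → b t = 0
  bnn : ∀ t, 0 ≤ b t
  bcont : Continuous b
  R0 : ∀ s, 1 / 2 + 13 / 20 * h ≤ s → s ≤ 3 / 2 - 3 / 20 * h → Rd s = 0
  Rp : ∀ (j : Fin 3) (s : ℝ), z h j + 399 / 10000 * h ≤ s → s ≤ z h j + 51 / 1000 * h → 2 / 5 ≤ Rd s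
  Rn : ∀ (j : Fin 3) (s : ℝ), z h j - 401 / 10000 * h ≤ s → s ≤ z h j - 29 / 1000 * h → Rd s ≤ -(2 / 5)
  Rs : ∀ (j : Fin 3) (s s' : ℝ), z h j - 401 / 10000 * h ≤ s → s ≤ s' → s' ≤ z h j + 51 / 1000 * h →
    4 / h * (s' - s) ≤ Rd s' - Rd s
  fb : ∀ s t, |fF dU b Rd β s t| ≤ h
  Tl : 2 ≤ ((T : ℝ) - 1) *
    Real.sqrt ((h + (β * ∫ t in (0:ℝ)..1 / 100, b t) / 5) ^ 2 - h ^ 2)
  niceF : Nice (fF dU b Rd β) L
  niceA : Nice (fA dU) L

/-- the window -/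
def W (h m : ℝ) (j : Fin 3) : Set (ℝ × ℝ) :=
  {w | z h j - 401 / 10000 * h ≤ w.1 ∧ w.1 ≤ z h j + 401 / 10000 * h ∧ |w.2 - h| ≤ m}

variable {h β m κ w : ℝ} {T : ℕ} {U dU b Rd : ℝ → ℝ} {L : NNReal}

theorem kick1 (S : Sys2 h β m κ w T U dU b Rd L) {ξ : ℝ → ℝ × ℝ} (hξ : Sol (fF dU b Rd β) ξ) {j : Fin 3}
    (hw : ξ 0 ∈ W h m j) : ∀ t ∈ Icc (0:ℝ) (1 / 100), (ξ 0).1 ≤ (ξ t).1 ∧
      (ξ t).1 ≤ (ξ 0).1 + 102 / 10000 * h ∧ |(ξ t).2| ≤ 102 / 100 * h := by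
  obtain ⟨k1, k2, k3⟩ := hw
  rw [abs_le] at k3
  have h0 := S.h0
  have hμ := S.m1
  have hv : ∀ t ∈ Icc (0:ℝ) (1 / 100), 0 ≤ (ξ t).2 ∧ (ξ t).2 ≤ 102 / 100 * h := by
    intro t ht
    have h1 := mono_bd (x := fun t => (ξ t).2) (a := 0) (b := 1 / 100) (c := -h) (d := h) hξ.snd
      (fun t _ => abs_le.1 (S.fb _ _)) (s := 0) (t := t) ⟨le_rfl, by norm_num⟩ ht ht.1
    rw [sub_zero] at h1
    have h2 : h * t ≤ h * (1 / 100) := mul_le_mul_of_nonneg_left ht.2 h0.le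
    constructor <;> linarith [h1.1, h1.2]
  intro t ht
  have h1 := mono_bd (x := fun t => (ξ t).1) (a := 0) (b := 1 / 100) hξ.fst hv (s := 0) (t := t)
    ⟨le_rfl, by norm_num⟩ ht ht.1
  rw [sub_zero] at h1
  have h2 : 102 / 100 * h * t ≤ 102 / 100 * h * (1 / 100) :=
    mul_le_mul_of_nonneg_left ht.2 (by positivity)
  have h3 := hv t ht
  refine ⟨by linarith [h1.1], by linarith [h1.2], ?_⟩
  rw [abs_of_nonneg h3.1]
  exact h3.2

theorem force_free (S : Sys2 h β m κ w T U dU b Rd L) {s t : ℝ} (h1 : 1 / 4 ≤ s) (h2 : s ≤ 3 / 4) :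
    fF dU b Rd β s t = β * b t * Rd s := by
  unfold fF
  rw [S.dU0 s h1 h2, neg_zero, zero_add]

theorem b_int (S : Sys2 h β m κ w T U dU b Rd L) (a b' : ℝ) :
    IntervalIntegrable b MeasureTheory.volume a b' :=
  S.bcont.intervalIntegrable _ _

theorem force_cont (S : Sys2 h β m κ w T U dU b Rd L) {ξ : ℝ → ℝ × ℝ} (hξ : Sol (fF dU b Rd β) ξ) :
    Continuous fun t => fF dU b Rd β (ξ t).1 t := by
  have h1 : Continuous fun t => ((ξ t).1, t) := (continuous_fst.comp hξ.cont).prodMk continuous_id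
  exact S.niceF.cont.comp h1

theorem kick_int (S : Sys2 h β m κ w T U dU b Rd L) {ξ : ℝ → ℝ × ℝ} (hξ : Sol (fF dU b Rd β) ξ) :
    (∫ t in (0:ℝ)..1 / 100, fF dU b Rd β (ξ t).1 t) = (ξ (1 / 100)).2 - (ξ 0).2 :=
  intervalIntegral.integral_eq_sub_of_hasDerivAt (f := fun t => (ξ t).2)
    (fun t _ => hξ.snd t) ((force_cont S hξ).intervalIntegrable _ _)

theorem kick2 (S : Sys2 h β m κ w T U dU b Rd L) {ξ : ℝ → ℝ × ℝ} (hξ : Sol (fF dU b Rd β) ξ) {j : Fin 3}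
    (hw : ξ 0 ∈ W h m j) (he : (ξ 0).1 ≤ z h j - 399 / 10000 * h) : (ξ (1 / 100)).2 < h := by
  have k1 := kick1 S hξ hw
  have i1 := kick_int S hξ
  have h0 := S.h0
  have hh := S.h1
  obtain ⟨z1, z2⟩ := z_bd S.h0 j
  obtain ⟨w1, w2, w3⟩ := hw
  rw [abs_le] at w3
  have i3 : (∫ t in (0:ℝ)..1 / 100, fF dU b Rd β (ξ t).1 t) ≤
      ∫ t in (0:ℝ)..1 / 100, (-(2 / 5) * β) * b t := by
    refine intervalIntegral.integral_mono_on (by norm_num) ((force_cont S hξ).intervalIntegrable _ _)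
      ((b_int S _ _).const_mul _) ?_
    intro t ht
    obtain ⟨k2, k3, _⟩ := k1 t ht
    rw [force_free S (by linarith) (by linarith)]
    have k4 := S.Rn j (ξ t).1 (by linarith) (by linarith)
    have k5 : 0 ≤ β * b t := mul_nonneg S.β0.le (S.bnn t)
    nlinarith
  rw [i1, intervalIntegral.integral_const_mul] at i3
  have i4 := S.m2
  have i5 := S.m0
  linarith

theorem kick3 (S : Sys2 h β m κ w T U dU b Rd L) {ξ : ℝ → ℝ × ℝ} (hξ : Sol (fF dU b Rd β) ξ) {j : Fin 3}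
    (hw : ξ 0 ∈ W h m j) (he : z h j + 399 / 10000 * h ≤ (ξ 0).1) :
    h + (β * ∫ t in (0:ℝ)..1 / 100, b t) / 5 < (ξ (1 / 100)).2 := by
  have k1 := kick1 S hξ hw
  have i1 := kick_int S hξ
  have h0 := S.h0
  have hh := S.h1
  obtain ⟨z1, z2⟩ := z_bd S.h0 j
  obtain ⟨w1, w2, w3⟩ := hw
  rw [abs_le] at w3
  have i3 : (∫ t in (0:ℝ)..1 / 100, (2 / 5 * β) * b t) ≤
      ∫ t in (0:ℝ)..1 / 100, fF dU b Rd β (ξ t).1 t := by
    refine intervalIntegral.integral_mono_on (by norm_num) ((b_int S _ _).const_mul _)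
      ((force_cont S hξ).intervalIntegrable _ _) ?_
    intro t ht
    obtain ⟨k2, k3, _⟩ := k1 t ht
    rw [force_free S (by linarith) (by linarith)]
    have k4 := S.Rp j (ξ t).1 (by linarith) (by linarith)
    have k5 : 0 ≤ β * b t := mul_nonneg S.β0.le (S.bnn t)
    nlinarith
  rw [i1, intervalIntegral.integral_const_mul] at i3
  have i4 := S.m2
  have i5 := S.m0
  linarith

/-- the kick increases the difference of the velocities -/
theorem kick4 (S : Sys2 h β m κ w T U dU b Rd L) {ξ ξ' : ℝ → ℝ × ℝ} (hξ : Sol (fF dU b Rd β) ξ)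
    (hξ' : Sol (fF dU b Rd β) ξ') {j : Fin 3} (hw : ξ 0 ∈ W h m j) (hw' : ξ' 0 ∈ W h m j) {D : ℝ} (hD : 0 < D)
    (h1 : 19 / 20 * D ≤ (ξ' 0).1 - (ξ 0).1) (h2 : -(κ * D) ≤ (ξ' 0).2 - (ξ 0).2) :
    (ξ (1 / 100)).1 ≤ (ξ' (1 / 100)).1 ∧
    (β * ∫ t in (0:ℝ)..1 / 100, b t) * D ≤ h * ((ξ' (1 / 100)).2 - (ξ (1 / 100)).2) := by
  have k1 := kick1 S hξ hw
  have k1' := kick1 S hξ' hw'
  have h0 := S.h0
  have hh := S.h1
  have hκ0 := S.κ0
  have hκ1 := S.κ1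
  have hβ := S.β0
  obtain ⟨z1, z2⟩ := z_bd S.h0 j
  obtain ⟨w1, w2, w3⟩ := hw
  obtain ⟨w1', w2', w3'⟩ := hw'
  -- the derivative of the difference of the velocities
  have hdv : ∀ t, HasDerivAt (fun t => (ξ' t).2 - (ξ t).2)
      (fF dU b Rd β (ξ' t).1 t - fF dU b Rd β (ξ t).1 t) t := fun t => (hξ'.snd t).sub (hξ.snd t)
  have hdx : ∀ t, HasDerivAt (fun t => (ξ' t).1 - (ξ t).1) ((ξ' t).2 - (ξ t).2) t :=
    fun t => (hξ'.fst t).sub (hξ.fst t)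
  have hf : ∀ t ∈ Icc (0:ℝ) (1 / 100), (ξ t).1 ≤ (ξ' t).1 →
      β * b t * (4 / h * ((ξ' t).1 - (ξ t).1)) ≤ fF dU b Rd β (ξ' t).1 t - fF dU b Rd β (ξ t).1 t := by
    intro t ht hle
    obtain ⟨a1, a2, _⟩ := k1 t ht
    obtain ⟨a3, a4, _⟩ := k1' t ht
    rw [force_free S (by linarith) (by linarith), force_free S (by linarith) (by linarith), ← mul_sub]
    exact mul_le_mul_of_nonneg_left (S.Rs j _ _ (by linarith) hle (by linarith))
      (mul_nonneg hβ.le (S.bnn t))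
  -- the difference of positions
  have hκD : κ * D ≤ 1 / 10 * D := mul_le_mul_of_nonneg_right hκ1 hD.le
  have hpos : ∀ t ∈ Icc (0:ℝ) (1 / 100), D / 2 ≤ (ξ' t).1 - (ξ t).1 := by
    by_contra hc
    push Not at hc
    obtain ⟨t1, ht1, hlt⟩ := hc
    have hcx : Continuous (fun t => (ξ' t).1 - (ξ t).1) :=
      (continuous_fst.comp hξ'.cont).sub (continuous_fst.comp hξ.cont)
    have hS : IsCompact (Icc (0:ℝ) (1 / 100) ∩ (fun t => (ξ' t).1 - (ξ t).1) ⁻¹' (Iic (D / 2))) :=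
      isCompact_Icc.inter_right (isClosed_Iic.preimage hcx)
    obtain ⟨t2, ht2, ht2m⟩ := hS.exists_isLeast ⟨t1, ht1, hlt.le⟩
    have hge : ∀ t ∈ Icc (0:ℝ) t2, D / 2 ≤ (ξ' t).1 - (ξ t).1 := by
      intro t ht
      rcases lt_or_eq_of_le ht.2 with hlt2 | he
      · by_contra hc
        push Not at hc
        have := ht2m ⟨⟨ht.1, ht.2.trans ht2.1.2⟩, hc.le⟩
        linarith
      · -- at `t2` by continuity
        rw [he]
        by_contra hc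
        push Not at hc
        -- intermediate value
        have h0t : (ξ' 0).1 - (ξ 0).1 > D / 2 := by linarith
        obtain ⟨y, hy, hye⟩ := intermediate_value_Icc' ht2.1.1 hcx.continuousOn
          (show ((D / 2 + ((ξ' t2).1 - (ξ t2).1)) / 2) ∈ Icc ((ξ' t2).1 - (ξ t2).1) ((ξ' 0).1 - (ξ 0).1) from
            ⟨by linarith, by linarith⟩)
        have hyle : (ξ' y).1 - (ξ y).1 ≤ D / 2 := by
          have : (ξ' y).1 - (ξ y).1 = (D / 2 + ((ξ' t2).1 - (ξ t2).1)) / 2 := hye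
          linarith
        have h5 := ht2m ⟨⟨hy.1, hy.2.trans ht2.1.2⟩, hyle⟩
        have h6 : y = t2 := le_antisymm hy.2 h5
        have : (ξ' y).1 - (ξ y).1 = (D / 2 + ((ξ' t2).1 - (ξ t2).1)) / 2 := hye
        rw [h6] at this
        linarith
    have hvge : ∀ t ∈ Icc (0:ℝ) t2, -(κ * D) ≤ (ξ' t).2 - (ξ t).2 := by
      intro t ht
      have hcc : ContinuousOn (fun t => (ξ' t).2 - (ξ t).2) (Icc 0 t2) :=
        fun t _ => (hdv t).continuousAt.continuousWithinAt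
      have h7 := (convex_Icc (0:ℝ) t2).mul_sub_le_image_sub_of_le_deriv hcc
        (fun t _ => (hdv t).differentiableAt.differentiableWithinAt) (C := 0) (fun y hy => by
          rw [(hdv y).deriv]
          have hy' := interior_subset hy
          have h8 := hge y hy'
          have h9 := hf y ⟨hy'.1, hy'.2.trans ht2.1.2⟩ (by linarith)
          refine le_trans ?_ h9
          have : 0 ≤ (ξ' y).1 - (ξ y).1 := by linarith
          have := S.bnn y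
          positivity) 0 ⟨le_rfl, ht2.1.1⟩ t ht ht.1
      linarith
    have hccx : ContinuousOn (fun t => (ξ' t).1 - (ξ t).1) (Icc 0 t2) := hcx.continuousOn
    have h10 := (convex_Icc (0:ℝ) t2).mul_sub_le_image_sub_of_le_deriv hccx
      (fun t _ => (hdx t).differentiableAt.differentiableWithinAt) (C := -(κ * D)) (fun y hy => by
        rw [(hdx y).deriv]
        exact hvge y (interior_subset hy)) 0 ⟨le_rfl, ht2.1.1⟩ t2 ⟨ht2.1.1, le_rfl⟩ ht2.1.1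
    have h11 : (ξ' t2).1 - (ξ t2).1 ≤ D / 2 := ht2.2
    have h12 : κ * D * t2 ≤ κ * D * (1 / 100) :=
      mul_le_mul_of_nonneg_left ht2.1.2 (by positivity)
    rw [sub_zero] at h10
    nlinarith
  refine ⟨by linarith [hpos (1 / 100) ⟨by norm_num, le_rfl⟩], ?_⟩
  have i1 := kick_int S hξ
  have i2 := kick_int S hξ'
  have i3 : (∫ t in (0:ℝ)..1 / 100, (β * (2 / h * D)) * b t) ≤
      ∫ t in (0:ℝ)..1 / 100, (fF dU b Rd β (ξ' t).1 t - fF dU b Rd β (ξ t).1 t) := by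
    refine intervalIntegral.integral_mono_on (by norm_num) ((b_int S _ _).const_mul _)
      (((force_cont S hξ').sub (force_cont S hξ)).intervalIntegrable _ _) ?_
    intro t ht
    have h3 := hpos t ht
    refine le_trans ?_ (hf t ht (by linarith))
    have h4 : 4 / h * (D / 2) ≤ 4 / h * ((ξ' t).1 - (ξ t).1) :=
      mul_le_mul_of_nonneg_left h3 (by positivity)
    have h5 : β * b t * (4 / h * (D / 2)) ≤ β * b t * (4 / h * ((ξ' t).1 - (ξ t).1)) :=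
      mul_le_mul_of_nonneg_left h4 (mul_nonneg hβ.le (S.bnn t))
    refine le_trans (le_of_eq ?_) h5
    field_simp
    ring
  rw [intervalIntegral.integral_const_mul, intervalIntegral.integral_sub
    ((force_cont S hξ').intervalIntegrable _ _) ((force_cont S hξ).intervalIntegrable _ _), i1, i2] at i3
  have hκ2 := S.κ2
  have h6 : h * (β * (2 / h * D) * ∫ t in (0:ℝ)..1 / 100, b t) =
      2 * ((β * ∫ t in (0:ℝ)..1 / 100, b t) * D) := by
    field_simp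
  have h7 : h * (κ * D) ≤ (β * ∫ t in (0:ℝ)..1 / 100, b t) * D := by
    calc h * (κ * D) = (κ * h) * D := by ring
      _ ≤ _ := mul_le_mul_of_nonneg_right hκ2 hD.le
  have h8 := mul_le_mul_of_nonneg_left i3 h0.le
  rw [h6] at h8
  have h9 : h * (-(κ * D)) ≤ h * ((ξ' 0).2 - (ξ 0).2) := mul_le_mul_of_nonneg_left h2 h0.le
  nlinarith

end Pool.Agent.K9h32.SP.UH
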