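import Pool.Agent.K9h32.SP.UHA

/-!
# Leaf UH, part B: the autonomous passage, the time formula and hyperbolicity
-/

set_option autoImplicit false

open Set Filter Topology

noncomputable section

namespace Pool.Agent.K9h32.SP.UH

open Pool.Agent.K9h32.SP.Slow

variable {h β m κ w : ℝ} {T : ℕ} {U dU b Rd : ℝ → ℝ} {L : NNReal}

/-! ## The autonomous system -/

theorem energy (S : Sys2 h β m κ w T U dU b Rd L) {η : ℝ → ℝ × ℝ} (hη : Sol (fA dU) η) (t t0 : ℝ) :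
    (η t).2 ^ 2 + 2 * U (η t).1 = (η t0).2 ^ 2 + 2 * U (η t0).1 := by
  have hd : ∀ t, HasDerivAt (fun t => (η t).2 ^ 2 + 2 * U (η t).1) 0 t := by
    intro t
    have h1 := (hη.snd t).pow 2
    have h2 := ((S.hdU (η t).1).comp t (hη.fst t)).const_mul 2
    have h3 := h1.add h2
    refine HasDerivAt.congr_deriv h3 ?_
    unfold fA
    push_cast
    ring
  exact is_const_of_deriv_eq_zero (fun t => (hd t).differentiableAt) (fun t => (hd t).deriv) t t0

/-- the velocity is positive if the energy is at least the critical one -/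
theorem vpos (S : Sys2 h β m κ w T U dU b Rd L) {η : ℝ → ℝ × ℝ} (hη : Sol (fA dU) η) {t0 : ℝ}
    (x1 : 1 / 4 ≤ (η t0).1) (x2 : (η t0).1 ≤ 3 / 4) (hv : h ≤ (η t0).2) (t : ℝ) : 0 < (η t).2 := by
  have h0 := S.h0
  have hne : ∀ t, (η t).2 ≠ 0 := by
    intro t h1
    have h2 := energy S hη t t0
    rw [S.U0 _ x1 x2, h1] at h2
    have h3 := S.Ule (η t).1
    have h4 : h ^ 2 ≤ (η t0).2 ^ 2 := by nlinarith
    have h5 : U (η t).1 = h ^ 2 / 2 := by nlinarith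
    have h6 : Sol (fA dU) (fun _ => ((η t).1, (0:ℝ))) := by
      intro s
      have e : rhs (fA dU) s ((η t).1, (0:ℝ)) = (0, 0) := by
        unfold rhs fA
        simp only
        rw [S.dU2 _ h5, neg_zero]
      rw [e]
      exact hasDerivAt_const _ _
    have h7 := S.niceA.uniq' hη h6 (t0 := t) (Prod.ext rfl h1) t0
    rw [h7] at hv
    simp only at hv
    linarith
  have hcont : Continuous (fun t => (η t).2) := continuous_snd.comp hη.cont
  by_contra hc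
  push Not at hc
  obtain ⟨y, hy⟩ := intermediate_value_univ t t0 hcont (show (0:ℝ) ∈ Icc (η t).2 (η t0).2 from
    ⟨hc, by linarith⟩)
  exact hne y hy

/-- critical energy: the orbit stays on the left of the barrier -/
theorem slow (S : Sys2 h β m κ w T U dU b Rd L) {η : ℝ → ℝ × ℝ} (hη : Sol (fA dU) η) {t0 : ℝ}
    (x1 : 1 / 4 ≤ (η t0).1) (x2 : (η t0).1 ≤ 3 / 4) (hv : (η t0).2 = h) {t : ℝ} (ht : t0 ≤ t) :
    (η t).1 < 1 := by
  by_contra hc
  push Not at hc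
  have hcont : ContinuousOn (fun t => (η t).1) (Icc t0 t) := (continuous_fst.comp hη.cont).continuousOn
  obtain ⟨y, _, hy⟩ := intermediate_value_Icc ht hcont (show (1:ℝ) ∈ Icc (η t0).1 (η t).1 from
    ⟨by linarith, hc⟩)
  have hy' : (η y).1 = 1 := hy
  have h2 := energy S hη y t0
  rw [hy', S.U2 1 (by norm_num) (by norm_num), hv, S.U0 _ x1 x2] at h2
  have h3 := vpos S hη x1 x2 hv.ge y
  nlinarith

/-- a lower bound for the velocity -/
theorem fast (S : Sys2 h β m κ w T U dU b Rd L) {η : ℝ → ℝ × ℝ} (hη : Sol (fA dU) η) {t0 : ℝ}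
    (x1 : 1 / 4 ≤ (η t0).1) (x2 : (η t0).1 ≤ 3 / 4) (hv : h ≤ (η t0).2) (t : ℝ) :
    Real.sqrt ((η t0).2 ^ 2 - h ^ 2) ≤ (η t).2 := by
  refine Real.sqrt_le_iff.2 ⟨(vpos S hη x1 x2 hv t).le, ?_⟩
  have h2 := energy S hη t t0
  rw [S.U0 _ x1 x2] at h2
  have := S.Ule (η t).1
  linarith

theorem adv {η : ℝ → ℝ × ℝ} {f : ℝ → ℝ → ℝ} (hη : Sol f η) {c t0 t1 : ℝ} (h01 : t0 ≤ t1)
    (hc : ∀ t ∈ Icc t0 t1, c ≤ (η t).2) : (η t0).1 + c * (t1 - t0) ≤ (η t1).1 := by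
  have h1 := (convex_Icc t0 t1).mul_sub_le_image_sub_of_le_deriv (f := fun t => (η t).1)
    (fun t _ => (hη.fst t).continuousAt.continuousWithinAt)
    (fun t _ => (hη.fst t).differentiableAt.differentiableWithinAt) (C := c) (fun y hy => by
      rw [(hη.fst y).deriv]
      exact hc y (interior_subset hy)) t0 ⟨le_rfl, h01⟩ t1 ⟨h01, le_rfl⟩ h01
  linarith

theorem adv' {η : ℝ → ℝ × ℝ} {f : ℝ → ℝ → ℝ} (hη : Sol f η) {c t0 t1 : ℝ} (h01 : t0 ≤ t1)
    (hc : ∀ t ∈ Icc t0 t1, (η t).2 ≤ c) : (η t1).1 ≤ (η t0).1 + c * (t1 - t0) := by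
  have h1 := (convex_Icc t0 t1).image_sub_le_mul_sub_of_deriv_le (f := fun t => (η t).1)
    (fun t _ => (hη.fst t).continuousAt.continuousWithinAt)
    (fun t _ => (hη.fst t).differentiableAt.differentiableWithinAt) (C := c) (fun y hy => by
      rw [(hη.fst y).deriv]
      exact hc y (interior_subset hy)) t0 ⟨le_rfl, h01⟩ t1 ⟨h01, le_rfl⟩ h01
  linarith

theorem sm_of_pos {η : ℝ → ℝ × ℝ} {f : ℝ → ℝ → ℝ} (hη : Sol f η) (hp : ∀ t, 0 < (η t).2) :
    StrictMono (fun t => (η t).1) :=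
  strictMono_of_deriv_pos fun t => by rw [(hη.fst t).deriv]; exact hp t

/-- the velocity after the kick is at most `1.02 h`; the facts on the autonomous passage -/
theorem pass_auto (S : Sys2 h β m κ w T U dU b Rd L) {η : ℝ → ℝ × ℝ} (hη : Sol (fA dU) η) {j : Fin 3}
    (x1 : z h j - 401 / 10000 * h ≤ (η (1 / 100)).1) (x2 : (η (1 / 100)).1 ≤ z h j + 51 / 1000 * h)
    (v1 : h ≤ (η (1 / 100)).2) (v2 : (η (1 / 100)).2 ≤ 102 / 100 * h)
    (X2 : (η ((T:ℝ) - 1 / 2)).1 ≤ 3 / 2 + 51 / 1000 * h) :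
    (∀ t, 0 < (η t).2) ∧
    (∀ t ∈ Icc (1 / 100 : ℝ) (3 / 2), (η t).2 = (η (1 / 100)).2) ∧
    (∀ t ∈ Icc (1 / 2 : ℝ) ((T:ℝ) - 149 / 100), 1 / 2 + 1 / 5 * h ≤ (η t).1 ∧ (η t).1 ≤ 3 / 2 - 4 / 5 * h) ∧
    (∀ t ∈ Icc (1 : ℝ) ((T:ℝ) - 99 / 100), 1 / 2 + 13 / 20 * h ≤ (η t).1 ∧ (η t).1 ≤ 3 / 2 - 3 / 20 * h) ∧
    (5 / 4 ≤ (η ((T:ℝ) - 1 / 2)).1 → (η ((T:ℝ) - 1 / 2)).2 = (η (1 / 100)).2) := by
  have h0 := S.h0
  have hh := S.h1
  obtain ⟨z1, z2⟩ := z_bd S.h0 j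
  have hT : (3 : ℝ) ≤ T := by exact_mod_cast S.T3
  have p1 : 1 / 4 ≤ (η (1 / 100)).1 := by linarith
  have p2 : (η (1 / 100)).1 ≤ 3 / 4 := by linarith
  have hpos := vpos S hη p1 p2 v1
  have hm := (sm_of_pos hη hpos).monotone
  have hE : ∀ t, (η t).2 ^ 2 + 2 * U (η t).1 = (η (1 / 100)).2 ^ 2 := by
    intro t
    have := energy S hη t (1 / 100)
    rw [S.U0 _ p1 p2] at this
    linarith
  have hup : ∀ t, (η t).2 ≤ (η (1 / 100)).2 := by
    intro t
    have h1 := hE t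
    have h2 := S.Unn (η t).1
    exact (sq_le_sq₀ (hpos t).le (hpos _).le).1 (by linarith)
  have heq : ∀ t, U (η t).1 = 0 → (η t).2 = (η (1 / 100)).2 := by
    intro t h1
    have h2 := hE t
    rw [h1] at h2
    exact (sq_eq_sq₀ (hpos t).le (hpos _).le).1 (by linarith)
  -- the beginning
  have hbeg : ∀ t ∈ Icc (1 / 100 : ℝ) (3 / 2), (η t).2 = (η (1 / 100)).2 := by
    intro t ht
    have h1 := adv' hη ht.1 (fun s _ => hup s)
    have h2 : (η (1 / 100)).1 ≤ (η t).1 := hm ht.1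
    have h3 : (η (1 / 100)).2 * (t - 1 / 100) ≤ 102 / 100 * h * (3 / 2) := by
      refine mul_le_mul v2 (by linarith [ht.2]) (by linarith [ht.1]) (by positivity)
    exact heq t (S.U0 _ (by linarith) (by linarith))
  have hbeg2 : ∀ t ∈ Icc (1 / 100 : ℝ) (3 / 2), (η (1 / 100)).1 + h * (t - 1 / 100) ≤ (η t).1 := by
    intro t ht
    exact adv hη ht.1 (fun s hs => by rw [hbeg s ⟨hs.1, hs.2.trans ht.2⟩]; exact v1)
  -- the end
  have hend : ∀ (t c : ℝ), t ≤ (T:ℝ) - 1 / 2 → 0 ≤ c → c ≤ 1 → 3 / 2 + 51 / 1000 * h - c * h < (η t).1 →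
      (T:ℝ) - 1 / 2 - t < c := by
    intro t c ht hc0 hc1 hlt
    have hch : c * h ≤ h := by nlinarith
    have h1 := adv hη (c := h) ht (fun s hs => by
      have q1 : (η t).1 ≤ (η s).1 := hm hs.1
      have q2 : (η s).1 ≤ (η ((T:ℝ) - 1 / 2)).1 := hm hs.2
      rw [heq s (S.U1 _ (by linarith) (by linarith))]
      exact v1)
    by_contra hcc
    push Not at hcc
    have h2 : h * c ≤ h * ((T:ℝ) - 1 / 2 - t) := mul_le_mul_of_nonneg_left hcc h0.le
    nlinarith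
  refine ⟨hpos, hbeg, ?_, ?_, ?_⟩
  · intro t ht
    have q1 : (η (1 / 2)).1 ≤ (η t).1 := hm ht.1
    have q2 : (η t).1 ≤ (η ((T:ℝ) - 149 / 100)).1 := hm ht.2
    have q3 := hbeg2 (1 / 2) ⟨by norm_num, by norm_num⟩
    refine ⟨by linarith, ?_⟩
    by_contra hc
    push Not at hc
    have := hend ((T:ℝ) - 149 / 100) (98 / 100) (by linarith) (by norm_num) (by norm_num) (by linarith)
    linarith
  · intro t ht
    have q1 : (η 1).1 ≤ (η t).1 := hm ht.1
    have q2 : (η t).1 ≤ (η ((T:ℝ) - 99 / 100)).1 := hm ht.2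
    have q3 := hbeg2 1 ⟨by norm_num, by norm_num⟩
    refine ⟨by linarith, ?_⟩
    by_contra hc
    push Not at hc
    have := hend ((T:ℝ) - 99 / 100) (48 / 100) (by linarith) (by norm_num) (by norm_num) (by linarith)
    linarith
  · intro hX
    exact heq _ (S.U1 _ hX (by linarith))

/-- the real orbit is the autonomous one -/
theorem pass_full (S : Sys2 h β m κ w T U dU b Rd L) {η ξ : ℝ → ℝ × ℝ} (hη : Sol (fA dU) η)
    (hξ : Sol (fF dU b Rd β) ξ) (he : ξ (1 / 100) = η (1 / 100)) {j : Fin 3}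
    (x1 : z h j - 401 / 10000 * h ≤ (η (1 / 100)).1) (x2 : (η (1 / 100)).1 ≤ z h j + 51 / 1000 * h)
    (v1 : h ≤ (η (1 / 100)).2) (v2 : (η (1 / 100)).2 ≤ 102 / 100 * h)
    (X2 : (η ((T:ℝ) - 1 / 2)).1 ≤ 3 / 2 + 51 / 1000 * h) :
    ∀ t ∈ Icc (1 / 100 : ℝ) ((T:ℝ) - 1 / 2), ξ t = η t := by
  have hT : (3 : ℝ) ≤ T := by exact_mod_cast S.T3
  obtain ⟨_, _, _, f1, _⟩ := pass_auto S hη x1 x2 v1 v2 X2
  intro t ht
  refine S.niceF.uniq (a := 9 / 1000) (b := T - 1 / 2 + 1 / 1000) (t0 := 1 / 100)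
    ⟨by norm_num, by linarith⟩
    (fun t _ => hξ t) (fun t ht => ?_) he t ⟨by linarith [ht.1], by linarith [ht.2]⟩
  have hz : β * b t * Rd (η t).1 = 0 := by
    by_cases c1 : t ≤ 1
    · rw [S.b0 t ht.1.le (by linarith)]
      ring
    · push Not at c1
      by_cases c2 : t ≤ T - 99 / 100
      · obtain ⟨m1, m2⟩ := f1 t ⟨c1.le, c2⟩
        rw [S.R0 (η t).1 m1 m2, mul_zero]
      · push Not at c2
        have e1 := S.bper t (1 - (T : ℤ))
        push_cast at e1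
        rw [← e1, S.b0 _ (by linarith) (by linarith [ht.2])]
        ring
  have e : rhs (fF dU b Rd β) t (η t) = rhs (fA dU) t (η t) := by
    unfold rhs fF fA
    rw [hz, add_zero]
  rw [e]
  exact hη t

/-! ## The time formula -/

theorem time_formula (S : Sys2 h β m κ w T U dU b Rd L) {η : ℝ → ℝ × ℝ} (hη : Sol (fA dU) η) {V : ℝ}
    (hV : h < V) (hp : ∀ t, 0 < (η t).2) (hE : ∀ t, (η t).2 ^ 2 + 2 * U (η t).1 = V ^ 2) (t0 t1 : ℝ) :
    (∫ s in (η t0).1..(η t1).1, (Real.sqrt (V ^ 2 - 2 * U s))⁻¹) = t1 - t0 := by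
  have hUc : Continuous U := continuous_iff_continuousAt.2 fun s => (S.hdU s).continuousAt
  have h0 := S.h0
  have hpos : ∀ s, 0 < V ^ 2 - 2 * U s := by
    intro s
    have := S.Ule s
    nlinarith
  have hg : Continuous fun s => (Real.sqrt (V ^ 2 - 2 * U s))⁻¹ := by
    refine Continuous.inv₀ (by fun_prop) fun s => ?_
    exact (Real.sqrt_pos.2 (hpos s)).ne'
  have h1 := intervalIntegral.integral_comp_mul_deriv (a := t0) (b := t1) (f := fun t => (η t).1)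
    (f' := fun t => (η t).2) (g := fun s => (Real.sqrt (V ^ 2 - 2 * U s))⁻¹)
    (fun t _ => hη.fst t) (continuous_snd.comp hη.cont).continuousOn hg
  rw [← h1]
  have h2 : ∀ t, ((fun s => (Real.sqrt (V ^ 2 - 2 * U s))⁻¹) ∘ fun t => (η t).1) t * (η t).2 = 1 := by
    intro t
    simp only [Function.comp]
    have e : V ^ 2 - 2 * U (η t).1 = (η t).2 ^ 2 := by linarith [hE t]
    rw [e, Real.sqrt_sq (hp t).le]
    exact inv_mul_cancel₀ (hp t).ne'
  simp_rw [h2]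
  simp

/-- the comparison of two passages -/
theorem compare (S : Sys2 h β m κ w T U dU b Rd L) {η η' : ℝ → ℝ × ℝ} (hη : Sol (fA dU) η)
    (hη' : Sol (fA dU) η') {V V' : ℝ} (hV : h < V) (hVV : V ≤ V') (hp : ∀ t, 0 < (η t).2)
    (hp' : ∀ t, 0 < (η' t).2)
    (hE : ∀ t, (η t).2 ^ 2 + 2 * U (η t).1 = V ^ 2) (hE' : ∀ t, (η' t).2 ^ 2 + 2 * U (η' t).1 = V' ^ 2)
    {t0 t1 : ℝ} (h01 : (η t0).1 ≤ (η' t0).1) (q1 : (η' t0).1 ≤ 9 / 10) (q2 : 5 / 4 ≤ (η t1).1)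
    (q3 : (η t1).1 ≤ 7 / 4) (q4 : 5 / 4 ≤ (η' t1).1) (q5 : (η' t1).1 ≤ 7 / 4)
    (v1 : Real.sqrt (V ^ 2 - h ^ 2) ≤ w) (v2 : Real.sqrt (V' ^ 2 - h ^ 2) ≤ w) :
    h ^ 2 * (V' - V) ≤ 5 * w ^ 3 * ((η' t1).1 - (η t1).1) := by
  have hUc : Continuous U := continuous_iff_continuousAt.2 fun s => (S.hdU s).continuousAt
  have h0 := S.h0
  have hw := S.w0
  have hpos : ∀ s, 0 < V ^ 2 - 2 * U s := by
    intro s
    have := S.Ule s
    nlinarith
  have hle : ∀ s, V ^ 2 - 2 * U s ≤ V' ^ 2 - 2 * U s := by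
    intro s
    nlinarith
  have hpos' : ∀ s, 0 < V' ^ 2 - 2 * U s := fun s => (hpos s).trans_le (hle s)
  obtain ⟨g, hgd⟩ : ∃ g : ℝ → ℝ, g = fun s => (Real.sqrt (V ^ 2 - 2 * U s))⁻¹ := ⟨_, rfl⟩
  obtain ⟨g', hgd'⟩ : ∃ g' : ℝ → ℝ, g' = fun s => (Real.sqrt (V' ^ 2 - 2 * U s))⁻¹ := ⟨_, rfl⟩
  have hg : Continuous g := by
    rw [hgd]
    refine Continuous.inv₀ (by fun_prop) fun s => ?_
    exact (Real.sqrt_pos.2 (hpos s)).ne'
  have hg' : Continuous g' := by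
    rw [hgd']
    refine Continuous.inv₀ (by fun_prop) fun s => ?_
    exact (Real.sqrt_pos.2 (hpos' s)).ne'
  have hgg : ∀ s, g' s ≤ g s := by
    intro s
    rw [hgd, hgd']
    exact inv_anti₀ (Real.sqrt_pos.2 (hpos s)) (Real.sqrt_le_sqrt (hle s))
  have hgp : ∀ s, 0 < g' s := by
    intro s
    rw [hgd']
    exact inv_pos.2 (Real.sqrt_pos.2 (hpos' s))
  have i1 : (∫ s in (η t0).1..(η t1).1, g s) = t1 - t0 := by
    rw [hgd]; exact time_formula S hη hV hp hE t0 t1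
  have i2 : (∫ s in (η' t0).1..(η' t1).1, g' s) = t1 - t0 := by
    rw [hgd']; exact time_formula S hη' (hV.trans_le hVV) hp' hE' t0 t1
  have II : ∀ a c, IntervalIntegrable g MeasureTheory.volume a c := fun a c => hg.intervalIntegrable _ _
  have II' : ∀ a c, IntervalIntegrable g' MeasureTheory.volume a c := fun a c => hg'.intervalIntegrable _ _
  have i3 : (∫ s in (η t1).1..(η' t1).1, g' s) =
      (∫ s in (η t0).1..(η' t0).1, g' s) + ∫ s in (η t0).1..(η t1).1, (g s - g' s) := by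
    rw [intervalIntegral.integral_sub (II _ _) (II' _ _), i1]
    have e1 := intervalIntegral.integral_add_adjacent_intervals (II' (η t0).1 (η' t0).1)
      (II' (η' t0).1 (η' t1).1)
    have e2 := intervalIntegral.integral_add_adjacent_intervals (II' (η t0).1 (η t1).1)
      (II' (η t1).1 (η' t1).1)
    rw [i2] at e1
    linarith
  have i4 : 0 ≤ ∫ s in (η t0).1..(η' t0).1, g' s :=
    intervalIntegral.integral_nonneg h01 fun s _ => (hgp s).le
  -- on the plateau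
  have hvp : 0 < Real.sqrt (V ^ 2 - h ^ 2) := Real.sqrt_pos.2 (by nlinarith)
  have hvp' : 0 < Real.sqrt (V' ^ 2 - h ^ 2) := Real.sqrt_pos.2 (by nlinarith)
  have i5 : (1 / 5 : ℝ) * ((Real.sqrt (V ^ 2 - h ^ 2))⁻¹ - (Real.sqrt (V' ^ 2 - h ^ 2))⁻¹) ≤
      ∫ s in (η t0).1..(η t1).1, (g s - g' s) := by
    have e1 : (∫ s in (9 / 10 : ℝ)..(11 / 10), (g s - g' s)) ≤ ∫ s in (η t0).1..(η t1).1, (g s - g' s) := by
      refine intervalIntegral.integral_mono_interval (by linarith) (by norm_num) (by linarith)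
        (Eventually.of_forall fun s => sub_nonneg.2 (hgg s)) ((hg.sub hg').intervalIntegrable _ _)
    refine le_trans (le_of_eq ?_) e1
    have e2 : (∫ s in (9 / 10 : ℝ)..(11 / 10), (g s - g' s)) = ∫ s in (9 / 10 : ℝ)..(11 / 10),
        ((Real.sqrt (V ^ 2 - h ^ 2))⁻¹ - (Real.sqrt (V' ^ 2 - h ^ 2))⁻¹) := by
      refine intervalIntegral.integral_congr fun s hs => ?_
      rw [uIcc_of_le (by norm_num)] at hs
      rw [hgd, hgd']
      simp only
      rw [S.U2 s hs.1 hs.2]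
      have e3 : 2 * (h ^ 2 / 2) = h ^ 2 := by ring
      rw [e3]
    rw [e2, intervalIntegral.integral_const, smul_eq_mul]
    norm_num
  -- at the end
  have i6 : (∫ s in (η t1).1..(η' t1).1, g' s) = V'⁻¹ * ((η' t1).1 - (η t1).1) := by
    have e2 : (∫ s in (η t1).1..(η' t1).1, g' s) = ∫ s in (η t1).1..(η' t1).1, V'⁻¹ := by
      refine intervalIntegral.integral_congr fun s hs => ?_
      have hs2 : s ∈ Icc (5 / 4 : ℝ) (7 / 4) :=
        (ordConnected_Icc.uIcc_subset ⟨q2, q3⟩ ⟨q4, q5⟩) hs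
      rw [hgd']
      simp only
      rw [S.U1 s hs2.1 hs2.2, mul_zero, sub_zero, Real.sqrt_sq (by linarith)]
    rw [e2, intervalIntegral.integral_const, smul_eq_mul]
    ring
  obtain ⟨p, hpd⟩ : ∃ p : ℝ, p = Real.sqrt (V ^ 2 - h ^ 2) := ⟨_, rfl⟩
  obtain ⟨p', hpd'⟩ : ∃ p' : ℝ, p' = Real.sqrt (V' ^ 2 - h ^ 2) := ⟨_, rfl⟩
  rw [← hpd] at hvp v1 i5
  rw [← hpd'] at hvp' v2 i5
  have sp : p ^ 2 = V ^ 2 - h ^ 2 := by rw [hpd]; exact Real.sq_sqrt (by nlinarith)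
  have sp' : p' ^ 2 = V' ^ 2 - h ^ 2 := by rw [hpd']; exact Real.sq_sqrt (by nlinarith)
  have j1 : (1 / 5 : ℝ) * (p⁻¹ - p'⁻¹) ≤ V'⁻¹ * ((η' t1).1 - (η t1).1) := by
    rw [← i6, i3]; linarith
  have hV'0 : 0 < V' := by linarith
  have j2 : V' * (p' - p) ≤ 5 * (p * p') * ((η' t1).1 - (η t1).1) := by
    have e1 : p⁻¹ - p'⁻¹ = (p' - p) / (p * p') := by field_simp
    rw [e1, inv_mul_eq_div, ← mul_div_assoc, div_le_div_iff₀ (by positivity) hV'0] at j1
    nlinarith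
  -- `p'^2 - p^2 = V'^2 - V^2`
  have j3 : V' ^ 2 - V ^ 2 = (p' - p) * (p' + p) := by nlinarith
  have hDx : 0 ≤ (η' t1).1 - (η t1).1 := by
    have : p ≤ p' := by nlinarith
    by_contra hc
    push Not at hc
    have h1 : 5 * (p * p') * ((η' t1).1 - (η t1).1) < 0 := by
      have : 0 < 5 * (p * p') := by positivity
      nlinarith
    have h2 : 0 ≤ V' * (p' - p) := by
      have : 0 ≤ p' - p := by linarith
      positivity
    linarith
  have j4 : V' * (V' ^ 2 - V ^ 2) ≤ 10 * w ^ 3 * ((η' t1).1 - (η t1).1) := by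
    rw [j3]
    have hpp : p' + p ≤ 2 * w := by linarith
    have hprod : p * p' ≤ w * w := mul_le_mul v1 v2 hvp'.le hw.le
    calc V' * ((p' - p) * (p' + p)) = (V' * (p' - p)) * (p' + p) := by ring
      _ ≤ (5 * (p * p') * ((η' t1).1 - (η t1).1)) * (p' + p) :=
          mul_le_mul_of_nonneg_right j2 (by positivity)
      _ = ((p * p') * (p' + p)) * (5 * ((η' t1).1 - (η t1).1)) := by ring
      _ ≤ ((w * w) * (2 * w)) * (5 * ((η' t1).1 - (η t1).1)) := by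
          refine mul_le_mul_of_nonneg_right ?_ (by positivity)
          exact mul_le_mul hprod hpp (by positivity) (by positivity)
      _ = 10 * w ^ 3 * ((η' t1).1 - (η t1).1) := by ring
  have j5 : h * (2 * h * (V' - V)) ≤ V' * (V' ^ 2 - V ^ 2) := by
    have e1 : V' ^ 2 - V ^ 2 = (V' + V) * (V' - V) := by ring
    rw [e1]
    have e2 : 2 * h * (V' - V) ≤ (V' + V) * (V' - V) :=
      mul_le_mul_of_nonneg_right (by linarith) (by linarith)
    exact mul_le_mul (by linarith) e2 (by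
      have : 0 ≤ V' - V := by linarith
      positivity) (by linarith)
  linarith

end Pool.Agent.K9h32.SP.UH
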