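import Pool.Agent.K9h32.SP.UHB

/-!
# Leaf UH, part C: the statements for one passage (shifted time)
-/

set_option autoImplicit false

open Set Filter Topology

noncomputable section

namespace Pool.Agent.K9h32.SP.UH

open Pool.Agent.K9h32.SP.Slow

variable {h β m κ w : ℝ} {T : ℕ} {U dU b Rd : ℝ → ℝ} {L : NNReal}

/-- a state of the window for which the kick gives enough energy, but not too much: `η` is the autonomous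
continuation -/
structure GS (h m β : ℝ) (T : ℕ) (dU b Rd : ℝ → ℝ) (j : Fin 3) (ξ η : ℝ → ℝ × ℝ) : Prop where
  hξ : Sol (fF dU b Rd β) ξ
  hη : Sol (fA dU) η
  he : ξ (1 / 100) = η (1 / 100)
  hw : ξ 0 ∈ W h m j
  v1 : h ≤ (η (1 / 100)).2
  X2 : (η ((T:ℝ) - 1 / 2)).1 ≤ 3 / 2 + 51 / 1000 * h

theorem GS.pos (S : Sys2 h β m κ w T U dU b Rd L) {j : Fin 3} {ξ η : ℝ → ℝ × ℝ}
    (H : GS h m β T dU b Rd j ξ η) : z h j - 401 / 10000 * h ≤ (η (1 / 100)).1 ∧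
      (η (1 / 100)).1 ≤ z h j + 51 / 1000 * h ∧ (η (1 / 100)).2 ≤ 102 / 100 * h := by
  have h0 := S.h0
  obtain ⟨k1, k2, k3⟩ := kick1 S H.hξ H.hw (1 / 100) ⟨by norm_num, le_rfl⟩
  rw [H.he] at k1 k2 k3
  obtain ⟨w1, w2, _⟩ := H.hw
  exact ⟨by linarith, by linarith, (le_abs_self _).trans k3⟩

theorem GS.auto (S : Sys2 h β m κ w T U dU b Rd L) {j : Fin 3} {ξ η : ℝ → ℝ × ℝ}
    (H : GS h m β T dU b Rd j ξ η) :
    (∀ t, 0 < (η t).2) ∧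
    (∀ t ∈ Icc (1 / 100 : ℝ) (3 / 2), (η t).2 = (η (1 / 100)).2) ∧
    (∀ t ∈ Icc (1 / 2 : ℝ) ((T:ℝ) - 149 / 100), 1 / 2 + 1 / 5 * h ≤ (η t).1 ∧ (η t).1 ≤ 3 / 2 - 4 / 5 * h) ∧
    (∀ t ∈ Icc (1 : ℝ) ((T:ℝ) - 99 / 100), 1 / 2 + 13 / 20 * h ≤ (η t).1 ∧ (η t).1 ≤ 3 / 2 - 3 / 20 * h) ∧
    (5 / 4 ≤ (η ((T:ℝ) - 1 / 2)).1 → (η ((T:ℝ) - 1 / 2)).2 = (η (1 / 100)).2) := by
  obtain ⟨p1, p2, p3⟩ := H.pos S
  exact pass_auto S H.hη p1 p2 H.v1 p3 H.X2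

theorem GS.full (S : Sys2 h β m κ w T U dU b Rd L) {j : Fin 3} {ξ η : ℝ → ℝ × ℝ}
    (H : GS h m β T dU b Rd j ξ η) : ∀ t ∈ Icc (1 / 100 : ℝ) ((T:ℝ) - 1 / 2), ξ t = η t := by
  obtain ⟨p1, p2, p3⟩ := H.pos S
  exact pass_full S H.hη H.hξ H.he p1 p2 H.v1 p3 H.X2

/-- the speed on the barrier -/
theorem GS.slowv (S : Sys2 h β m κ w T U dU b Rd L) {j : Fin 3} {ξ η : ℝ → ℝ × ℝ}
    (H : GS h m β T dU b Rd j ξ η) (X1 : 3 / 2 - 551 / 1000 * h ≤ (η ((T:ℝ) - 1 / 2)).1) :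
    h < (η (1 / 100)).2 ∧ Real.sqrt ((η (1 / 100)).2 ^ 2 - h ^ 2) ≤ w := by
  have h0 := S.h0
  have hh := S.h1
  have hT : (3 : ℝ) ≤ T := by exact_mod_cast S.T3
  obtain ⟨z1, z2⟩ := z_bd S.h0 j
  obtain ⟨p1, p2, p3⟩ := H.pos S
  have q1 : 1 / 4 ≤ (η (1 / 100)).1 := by linarith
  have q2 : (η (1 / 100)).1 ≤ 3 / 4 := by linarith
  refine ⟨?_, ?_⟩
  · refine lt_of_le_of_ne H.v1 fun he => ?_
    have := slow S H.hη q1 q2 he.symm (t := (T:ℝ) - 1 / 2) (by linarith)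
    linarith
  · have h1 := adv H.hη (t0 := 1 / 100) (t1 := (T:ℝ) - 1 / 2) (by linarith)
      (fun t _ => fast S H.hη q1 q2 H.v1 t)
    have hX2 := H.X2
    have h2 : Real.sqrt ((η (1 / 100)).2 ^ 2 - h ^ 2) * ((T:ℝ) - 1) ≤
        Real.sqrt ((η (1 / 100)).2 ^ 2 - h ^ 2) * ((T:ℝ) - 1 / 2 - 1 / 100) :=
      mul_le_mul_of_nonneg_left (by linarith) (Real.sqrt_nonneg _)
    have h3 := S.w1
    have h4 : Real.sqrt ((η (1 / 100)).2 ^ 2 - h ^ 2) * ((T:ℝ) - 1) ≤ w * ((T:ℝ) - 1) := by linarith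
    exact le_of_mul_le_mul_right h4 (by linarith)

/-- the velocity at the end -/
theorem GS.endv (S : Sys2 h β m κ w T U dU b Rd L) {j : Fin 3} {ξ η : ℝ → ℝ × ℝ}
    (H : GS h m β T dU b Rd j ξ η) (X1 : 3 / 2 - 551 / 1000 * h ≤ (ξ ((T:ℝ) - 1 / 2)).1) :
    (ξ ((T:ℝ) - 1 / 2)).2 = (η (1 / 100)).2 ∧ |(ξ ((T:ℝ) - 1 / 2)).2 - h| ≤ m / 2 := by
  have h0 := S.h0
  have hh := S.h1
  have hT : (3 : ℝ) ≤ T := by exact_mod_cast S.T3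
  have e := H.full S ((T:ℝ) - 1 / 2) ⟨by linarith, le_rfl⟩
  rw [e] at X1 ⊢
  obtain ⟨s1, s2⟩ := H.slowv S X1
  obtain ⟨_, _, _, _, a5⟩ := H.auto S
  have e2 := a5 (by linarith)
  refine ⟨e2, ?_⟩
  rw [e2, abs_of_pos (by linarith)]
  have hnn : 0 ≤ (η (1 / 100)).2 ^ 2 - h ^ 2 := by nlinarith
  have s3 : (η (1 / 100)).2 ^ 2 - h ^ 2 ≤ w ^ 2 := by
    rw [← Real.sq_sqrt hnn]
    exact pow_le_pow_left₀ (Real.sqrt_nonneg _) s2 2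
  have s4 := S.w4
  have s5 : ((η (1 / 100)).2 - h) * (2 * h) ≤ m * h := by nlinarith
  have s6 : ((η (1 / 100)).2 - h) * 2 * h ≤ m * h := by linarith
  have s7 := le_of_mul_le_mul_right s6 h0
  linarith

/-- hyperbolicity -/
theorem hyper (S : Sys2 h β m κ w T U dU b Rd L) {j : Fin 3} {ξ η ξ' η' : ℝ → ℝ × ℝ}
    (H : GS h m β T dU b Rd j ξ η) (H' : GS h m β T dU b Rd j ξ' η')
    (X1 : 3 / 2 - 551 / 1000 * h ≤ (ξ ((T:ℝ) - 1 / 2)).1)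
    (X1' : 3 / 2 - 551 / 1000 * h ≤ (ξ' ((T:ℝ) - 1 / 2)).1) {D : ℝ} (hD : 0 < D)
    (h1 : 19 / 20 * D ≤ (ξ' 0).1 - (ξ 0).1) (h2 : -(κ * D) ≤ (ξ' 0).2 - (ξ 0).2) :
    8 * D ≤ (ξ' ((T:ℝ) - 1 / 2)).1 - (ξ ((T:ℝ) - 1 / 2)).1 ∧
    0 ≤ (ξ' ((T:ℝ) - 1 / 2)).2 - (ξ ((T:ℝ) - 1 / 2)).2 ∧
    (ξ' ((T:ℝ) - 1 / 2)).2 - (ξ ((T:ℝ) - 1 / 2)).2 ≤
      κ / 2 * ((ξ' ((T:ℝ) - 1 / 2)).1 - (ξ ((T:ℝ) - 1 / 2)).1) := by
  have h0 := S.h0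
  have hh := S.h1
  have hw0 := S.w0
  have hT : (3 : ℝ) ≤ T := by exact_mod_cast S.T3
  obtain ⟨z1, z2⟩ := z_bd S.h0 j
  obtain ⟨k1, k2⟩ := kick4 S H.hξ H'.hξ H.hw H'.hw hD h1 h2
  have v1 := (H.endv S X1).1
  have v1' := (H'.endv S X1').1
  rw [v1, v1']
  have e := H.full S ((T:ℝ) - 1 / 2) ⟨by linarith, le_rfl⟩
  have e' := H'.full S ((T:ℝ) - 1 / 2) ⟨by linarith, le_rfl⟩
  rw [e] at X1 ⊢
  rw [e'] at X1' ⊢
  rw [H.he, H'.he] at k1 k2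
  obtain ⟨s1, s2⟩ := H.slowv S X1
  obtain ⟨s1', s2'⟩ := H'.slowv S X1'
  obtain ⟨p1, p2, p3⟩ := H.pos S
  obtain ⟨p1', p2', p3'⟩ := H'.pos S
  have hI : 0 < β * ∫ t in (0:ℝ)..1 / 100, b t := by
    have := S.m2
    have := S.m0
    linarith
  have hVV : 0 < h * ((η' (1 / 100)).2 - (η (1 / 100)).2) := lt_of_lt_of_le (by positivity) k2
  have hVV' : (η (1 / 100)).2 < (η' (1 / 100)).2 := by
    have := pos_of_mul_pos_right hVV h0.le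
    linarith
  have E1 : ∀ t, (η t).2 ^ 2 + 2 * U (η t).1 = (η (1 / 100)).2 ^ 2 := by
    intro t
    rw [energy S H.hη t (1 / 100), S.U0 _ (by linarith) (by linarith)]
    ring
  have E1' : ∀ t, (η' t).2 ^ 2 + 2 * U (η' t).1 = (η' (1 / 100)).2 ^ 2 := by
    intro t
    rw [energy S H'.hη t (1 / 100), S.U0 _ (by linarith) (by linarith)]
    ring
  have hX2 := H.X2
  have hX2' := H'.X2
  have hcmp := compare S H.hη H'.hη s1 hVV'.le (H.auto S).1 (H'.auto S).1 E1 E1' (t0 := 1 / 100)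
    (t1 := (T:ℝ) - 1 / 2) k1 (by linarith) (by linarith) (by linarith) (by linarith) (by linarith) s2 s2'
  obtain ⟨Δ, hΔ⟩ : ∃ Δ : ℝ, Δ = (η' ((T:ℝ) - 1 / 2)).1 - (η ((T:ℝ) - 1 / 2)).1 := ⟨_, rfl⟩
  obtain ⟨K0, hK0⟩ : ∃ K0 : ℝ, K0 = β * ∫ t in (0:ℝ)..1 / 100, b t := ⟨_, rfl⟩
  rw [← hΔ] at hcmp ⊢
  have w2 := S.w2
  have w3 := S.w3
  rw [← hK0] at w2 k2 hI
  have hw3 : 0 < w ^ 3 := by positivity
  have hΔ0 : 0 < Δ := by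
    by_contra hc
    push Not at hc
    have h3 : 5 * w ^ 3 * Δ ≤ 0 := mul_nonpos_of_nonneg_of_nonpos (by positivity) hc
    have h4 : 0 < h ^ 2 * ((η' (1 / 100)).2 - (η (1 / 100)).2) :=
      mul_pos (by positivity) (by linarith)
    linarith
  refine ⟨?_, by linarith, ?_⟩
  · have h3 : h * K0 * D ≤ h ^ 2 * ((η' (1 / 100)).2 - (η (1 / 100)).2) := by
      have := mul_le_mul_of_nonneg_left k2 h0.le
      nlinarith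
    have h4 : 5 * w ^ 3 * Δ ≤ 5 * (h * K0 / 40) * Δ :=
      mul_le_mul_of_nonneg_right (by linarith) hΔ0.le
    have h5 : (h * K0) * (8 * D) ≤ (h * K0) * Δ := by nlinarith
    exact le_of_mul_le_mul_left h5 (by positivity)
  · have h4 : 5 * w ^ 3 * Δ ≤ 5 * (κ * h ^ 2 / 10) * Δ :=
      mul_le_mul_of_nonneg_right (by linarith) hΔ0.le
    have h5 : h ^ 2 * ((η' (1 / 100)).2 - (η (1 / 100)).2) ≤ h ^ 2 * (κ / 2 * Δ) := by nlinarith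
    exact le_of_mul_le_mul_left h5 (by positivity)

/-- families of states -/
theorem family (S : Sys2 h β m κ w T U dU b Rd L) {Φ Ψ : ℝ × ℝ → ℝ → ℝ × ℝ} (Φ0 : ∀ w, Φ w 0 = w)
    (Φ1 : ∀ w, Sol (fF dU b Rd β) (Φ w)) (Φ2 : ∀ t, 0 ≤ t → Continuous (fun w => Φ w t))
    (Ψ0 : ∀ w, Ψ w 0 = w) (Ψ1 : ∀ w, Sol (fA dU) (Ψ w)) (Ψ2 : ∀ t, 0 ≤ t → Continuous (fun w => Ψ w t))
    {j : Fin 3} {γ : ℝ → ℝ × ℝ} {a c : ℝ} (hac : a ≤ c) (hγ : ContinuousOn γ (Icc a c))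
    (ha : (γ a).1 ≤ z h j - 399 / 10000 * h) (hc : z h j + 399 / 10000 * h ≤ (γ c).1)
    (hK : ∀ p ∈ Icc a c, γ p ∈ W h m j) :
    ∃ a' c', a ≤ a' ∧ a' ≤ c' ∧ c' ≤ c ∧ (Φ (γ a') ((T:ℝ) - 1 / 2)).1 = 3 / 2 - 551 / 1000 * h ∧
      (Φ (γ c') ((T:ℝ) - 1 / 2)).1 = 3 / 2 + 51 / 1000 * h ∧
      ∀ p ∈ Icc a' c', h ≤ (Φ (γ p) (1 / 100)).2 ∧
        (Ψ (Φ (γ p) (1 / 100)) ((T:ℝ) - 1 / 2 - 1 / 100)).1 ≤ 3 / 2 + 51 / 1000 * h ∧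
        3 / 2 - 551 / 1000 * h ≤ (Φ (γ p) ((T:ℝ) - 1 / 2)).1 ∧
        (Φ (γ p) ((T:ℝ) - 1 / 2)).1 ≤ 3 / 2 + 51 / 1000 * h := by
  have h0 := S.h0
  have hh := S.h1
  obtain ⟨z1, z2⟩ := z_bd S.h0 j
  have hT : (3 : ℝ) ≤ T := by exact_mod_cast S.T3
  have hI : 0 < β * ∫ t in (0:ℝ)..1 / 100, b t := by
    have := S.m2
    have := S.m0
    linarith
  -- the velocity after the kick
  have hg1 : ContinuousOn (fun p => Φ (γ p) (1 / 100)) (Icc a c) :=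
    (Φ2 (1 / 100) (by norm_num)).comp_continuousOn hγ
  have hK0 : ∀ p ∈ Icc a c, Φ (γ p) 0 ∈ W h m j := fun p hp => by rw [Φ0]; exact hK p hp
  have ka : (Φ (γ a) (1 / 100)).2 < h := by
    refine kick2 S (Φ1 _) (hK0 a ⟨le_rfl, hac⟩) ?_
    rw [Φ0]; exact ha
  have kc : h + (β * ∫ t in (0:ℝ)..1 / 100, b t) / 5 < (Φ (γ c) (1 / 100)).2 := by
    refine kick3 S (Φ1 _) (hK0 c ⟨hac, le_rfl⟩) ?_
    rw [Φ0]; exact hc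
  obtain ⟨a1, c1, i1, i2, i3, i4, i5, i6⟩ := ivt_sub (g := fun p => (Φ (γ p) (1 / 100)).2) hac
    (show h ≤ h + (β * ∫ t in (0:ℝ)..1 / 100, b t) / 5 by linarith)
    (continuous_snd.comp_continuousOn hg1) ka.le kc.le
  have i4' : (Φ (γ a1) (1 / 100)).2 = h := i4
  have i5' : (Φ (γ c1) (1 / 100)).2 = h + (β * ∫ t in (0:ℝ)..1 / 100, b t) / 5 := i5
  -- positions after the kick
  have hpos : ∀ p ∈ Icc a1 c1, 1 / 4 ≤ (Φ (γ p) (1 / 100)).1 ∧ (Φ (γ p) (1 / 100)).1 ≤ 3 / 4 := by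
    intro p hp
    have hp' : p ∈ Icc a c := ⟨i1.trans hp.1, hp.2.trans i3⟩
    have k1 := kick1 S (Φ1 _) (hK0 p hp') (1 / 100) ⟨by norm_num, le_rfl⟩
    obtain ⟨k2, k3, _⟩ := hK0 p hp'
    constructor <;> linarith [k1.1, k1.2.1]
  -- the autonomous continuation
  have hη : ∀ p, Sol (fA dU) (fun t => Ψ (Φ (γ p) (1 / 100)) (t - 1 / 100)) := fun p =>
    (Ψ1 _).shift_auto (1 / 100)
  have hη0 : ∀ p, Ψ (Φ (γ p) (1 / 100)) (1 / 100 - 1 / 100) = Φ (γ p) (1 / 100) := by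
    intro p
    rw [sub_self, Ψ0]
  have hcont : ContinuousOn (fun p => (Ψ (Φ (γ p) (1 / 100)) ((T:ℝ) - 1 / 2 - 1 / 100)).1) (Icc a1 c1) :=
    (continuous_fst.comp (Ψ2 ((T:ℝ) - 1 / 2 - 1 / 100) (by linarith))).comp_continuousOn
      (hg1.mono (Icc_subset_Icc i1 i3))
  have ea : (Ψ (Φ (γ a1) (1 / 100)) ((T:ℝ) - 1 / 2 - 1 / 100)).1 ≤ 3 / 2 - 551 / 1000 * h := by
    obtain ⟨q1, q2⟩ := hpos a1 ⟨le_rfl, i2⟩
    have := slow S (hη a1) (t0 := 1 / 100) (t := (T:ℝ) - 1 / 2) (by rw [hη0]; exact q1)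
      (by rw [hη0]; exact q2) (by rw [hη0]; exact i4') (by linarith)
    linarith
  have ec : 3 / 2 + 51 / 1000 * h ≤ (Ψ (Φ (γ c1) (1 / 100)) ((T:ℝ) - 1 / 2 - 1 / 100)).1 := by
    obtain ⟨q1, q2⟩ := hpos c1 ⟨i2, le_rfl⟩
    have q4 := fast S (hη c1) (t0 := 1 / 100) (by rw [hη0]; exact q1) (by rw [hη0]; exact q2)
      (by rw [hη0, i5']; linarith)
    rw [hη0, i5'] at q4
    have q6 := adv (hη c1) (t0 := 1 / 100) (t1 := (T:ℝ) - 1 / 2) (by linarith) (fun t _ => q4 t)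
    rw [hη0] at q6
    have q7 := S.Tl
    have q8 : ((T : ℝ) - 1) * Real.sqrt ((h + (β * ∫ t in (0:ℝ)..1 / 100, b t) / 5) ^ 2 - h ^ 2) ≤
        Real.sqrt ((h + (β * ∫ t in (0:ℝ)..1 / 100, b t) / 5) ^ 2 - h ^ 2) * ((T:ℝ) - 1 / 2 - 1 / 100) := by
      rw [mul_comm]
      exact mul_le_mul_of_nonneg_left (by linarith) (Real.sqrt_nonneg _)
    linarith
  obtain ⟨a2, c2, l1, l2, l3, l4, l5, l6⟩ := ivt_sub
    (g := fun p => (Ψ (Φ (γ p) (1 / 100)) ((T:ℝ) - 1 / 2 - 1 / 100)).1) i2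
    (show 3 / 2 - 551 / 1000 * h ≤ 3 / 2 + 51 / 1000 * h by linarith) hcont ea ec
  have key : ∀ p ∈ Icc a2 c2, Φ (γ p) ((T:ℝ) - 1 / 2) =
      Ψ (Φ (γ p) (1 / 100)) ((T:ℝ) - 1 / 2 - 1 / 100) := by
    intro p hp
    have hp' : p ∈ Icc a1 c1 := ⟨l1.trans hp.1, hp.2.trans l3⟩
    have H : GS h m β T dU b Rd j (Φ (γ p)) (fun t => Ψ (Φ (γ p) (1 / 100)) (t - 1 / 100)) :=
      ⟨Φ1 _, hη p, (hη0 p).symm, hK0 p ⟨i1.trans hp'.1, hp'.2.trans i3⟩,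
        by rw [hη0]; exact (i6 p hp').1, (l6 p hp).2⟩
    exact H.full S ((T:ℝ) - 1 / 2) ⟨by linarith, le_rfl⟩
  refine ⟨a2, c2, i1.trans l1, l2, l3.trans i3, ?_, ?_, fun p hp => ⟨?_, ?_, ?_, ?_⟩⟩
  · rw [key a2 ⟨le_rfl, l2⟩]; exact l4
  · rw [key c2 ⟨l2, le_rfl⟩]; exact l5
  · exact (i6 p ⟨l1.trans hp.1, hp.2.trans l3⟩).1
  · exact (l6 p hp).2
  · rw [key p hp]; exact (l6 p hp).1
  · rw [key p hp]; exact (l6 p hp).2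

/-- from the gate to the kick -/
theorem init (S : Sys2 h β m κ w T U dU b Rd L) {ξ : ℝ → ℝ × ℝ} (hξ : Sol (fF dU b Rd β) ξ) {j : Fin 3}
    (s1 : z h j - 27 / 50 * h ≤ (ξ (-(1 / 2))).1) (s2 : (ξ (-(1 / 2))).1 ≤ z h j - 23 / 50 * h)
    (hr : |(ξ (-(1 / 2))).2 - h| ≤ m) :
    (∀ t ∈ Icc (-(1 / 2) : ℝ) 0, ξ t = ((ξ (-(1 / 2))).1 + (ξ (-(1 / 2))).2 * (t + 1 / 2),
      (ξ (-(1 / 2))).2)) ∧ ξ 0 ∈ W h m j := by
  have h0 := S.h0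
  have hh := S.h1
  have hm := S.m1
  obtain ⟨z1, z2⟩ := z_bd S.h0 j
  have hr' := abs_le.1 hr
  have hfree := S.niceF.free (a := -(3 / 5)) (b := 1 / 1000) (t0 := -(1 / 2)) ⟨by norm_num, by norm_num⟩
    (ξ := ξ) (fun t _ => hξ t) (fun t ht => by
      have m1 : (ξ (-(1 / 2))).2 * (-(1 / 10)) ≤ (ξ (-(1 / 2))).2 * (t - -(1 / 2)) :=
        mul_le_mul_of_nonneg_left (by linarith [ht.1]) (by linarith)
      have m2 : (ξ (-(1 / 2))).2 * (t - -(1 / 2)) ≤ (ξ (-(1 / 2))).2 * 1 :=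
        mul_le_mul_of_nonneg_left (by linarith [ht.2]) (by linarith)
      rw [force_free S (by linarith) (by linarith)]
      have e1 := S.bper t 1
      push_cast at e1
      rw [← e1, S.b0 _ (by linarith [ht.1]) (by linarith [ht.2])]
      ring)
  have hf : ∀ t ∈ Icc (-(1 / 2) : ℝ) 0, ξ t = ((ξ (-(1 / 2))).1 + (ξ (-(1 / 2))).2 * (t + 1 / 2),
      (ξ (-(1 / 2))).2) := by
    intro t ht
    rw [hfree t ⟨by linarith [ht.1], by linarith [ht.2]⟩, sub_neg_eq_add]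
  refine ⟨hf, ?_⟩
  rw [hf 0 ⟨by norm_num, le_rfl⟩]
  refine ⟨?_, ?_, hr⟩
  · simp only
    linarith
  · simp only
    linarith

end Pool.Agent.K9h32.SP.UH
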