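import Pool.Agent.K9h32.SP.UHC

/-!
# Leaf UH, part D: the potential
-/

set_option autoImplicit false

open Set Filter Topology
open scoped ContDiff

noncomputable section

namespace Pool.Agent.K9h32.SP.UH

open Pool.Agent.K9h32.SP.Slow

/-- the profile of the autonomous part: `1` for `|s - m| ≤ 1/10`, `0` on `[1/4, 3/4]` -/
def u2 (s : ℝ) : ℝ := pb 0 (1 / 4) (1 / 10) s

theorem u2_contDiff : ContDiff ℝ ∞ u2 := pb_contDiff _ _ _

theorem u2_per (s : ℝ) (n : ℤ) : u2 (s + n) = u2 s := pb_per _ _ _ _ _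

theorem u2_nonneg (s : ℝ) : 0 ≤ u2 s := pb_nonneg _ _ _ _

theorem u2_le_one (s : ℝ) : u2 s ≤ 1 := pb_le_one _ _ _ _

theorem u2_one {s : ℝ} (h1 : 9 / 10 ≤ s) (h2 : s ≤ 11 / 10) : u2 s = 1 := by
  have := u2_per (s - 1) 1
  push_cast at this
  rw [sub_add_cancel] at this
  rw [this]
  exact pb_one (by norm_num) (by norm_num) (by norm_num) (by rw [abs_le]; constructor <;> linarith)

theorem u2_zero {s : ℝ} (h1 : 1 / 4 ≤ s) (h2 : s ≤ 3 / 4) : u2 s = 0 :=
  pb_zero (by norm_num) (by norm_num) (by norm_num) (by linarith) (by linarith)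

theorem u2_zero' {s : ℝ} (h1 : 5 / 4 ≤ s) (h2 : s ≤ 7 / 4) : u2 s = 0 := by
  have := u2_per (s - 1) 1
  push_cast at this
  rw [sub_add_cancel] at this
  rw [this]
  exact u2_zero (by linarith) (by linarith)

theorem sin_pos_z {N : ℕ} (hN : 10 ≤ N) (j : Fin 3) {s : ℝ} (h1 : z (1 / N) j + 399 / 10000 * (1 / N) ≤ s)
    (h2 : s ≤ z (1 / N) j + 51 / 1000 * (1 / N)) : 2 / 5 ≤ Real.sin (8 * Real.pi * N * (s - 1 / 2)) := by
  have hN' : (10 : ℝ) ≤ N := by exact_mod_cast hN
  have hN0 : (0 : ℝ) < N := by linarith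
  have hp := Real.pi_pos
  have e : 8 * Real.pi * N * (s - 1 / 2) = 8 * Real.pi * (N * (s - z (1 / N) j)) +
      ((j : ℕ) : ℤ) * (2 * Real.pi) := by
    unfold z
    push_cast
    field_simp
    ring
  rw [e, Real.sin_add_int_mul_two_pi]
  have k1 : 399 / 10000 ≤ N * (s - z (1 / N) j) := by
    have : N * (399 / 10000 * (1 / N)) ≤ N * (s - z (1 / N) j) :=
      mul_le_mul_of_nonneg_left (by linarith) hN0.le
    have e2 : (N : ℝ) * (399 / 10000 * (1 / N)) = 399 / 10000 := by field_simp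
    linarith
  have k2 : N * (s - z (1 / N) j) ≤ 51 / 1000 := by
    have : N * (s - z (1 / N) j) ≤ N * (51 / 1000 * (1 / N)) :=
      mul_le_mul_of_nonneg_left (by linarith) hN0.le
    have e2 : (N : ℝ) * (51 / 1000 * (1 / N)) = 51 / 1000 := by field_simp
    linarith
  refine sin_ge ?_ ?_
  · nlinarith
  · nlinarith

theorem sin_neg_z {N : ℕ} (hN : 10 ≤ N) (j : Fin 3) {s : ℝ} (h1 : z (1 / N) j - 401 / 10000 * (1 / N) ≤ s)
    (h2 : s ≤ z (1 / N) j - 29 / 1000 * (1 / N)) :
    Real.sin (8 * Real.pi * N * (s - 1 / 2)) ≤ -(2 / 5) := by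
  have hN' : (10 : ℝ) ≤ N := by exact_mod_cast hN
  have hN0 : (0 : ℝ) < N := by linarith
  have hp := Real.pi_pos
  have e : 8 * Real.pi * N * (s - 1 / 2) = -(8 * Real.pi * (N * (z (1 / N) j - s))) +
      ((j : ℕ) : ℤ) * (2 * Real.pi) := by
    unfold z
    push_cast
    field_simp
    ring
  rw [e, Real.sin_add_int_mul_two_pi, Real.sin_neg]
  have k1 : 29 / 1000 ≤ N * (z (1 / N) j - s) := by
    have : N * (29 / 1000 * (1 / N)) ≤ N * (z (1 / N) j - s) :=
      mul_le_mul_of_nonneg_left (by linarith) hN0.le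
    have e2 : (N : ℝ) * (29 / 1000 * (1 / N)) = 29 / 1000 := by field_simp
    linarith
  have k2 : N * (z (1 / N) j - s) ≤ 401 / 10000 := by
    have : N * (z (1 / N) j - s) ≤ N * (401 / 10000 * (1 / N)) :=
      mul_le_mul_of_nonneg_left (by linarith) hN0.le
    have e2 : (N : ℝ) * (401 / 10000 * (1 / N)) = 401 / 10000 := by field_simp
    linarith
  have := sin_ge (x := 8 * Real.pi * (N * (z (1 / N) j - s))) (by nlinarith) (by nlinarith)
  linarith

theorem cos_ge {x : ℝ} (h1 : -(51 / 125 * Real.pi) ≤ x) (h2 : x ≤ 51 / 125 * Real.pi) :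
    23 / 125 ≤ Real.cos x := by
  have hp := Real.pi_pos
  rw [← Real.cos_abs]
  have h3 : |x| ≤ 51 / 125 * Real.pi := abs_le.2 ⟨h1, h2⟩
  have h4 := Real.one_sub_mul_le_cos (abs_nonneg x) (by linarith)
  have h5 : 2 / Real.pi * |x| ≤ 2 / Real.pi * (51 / 125 * Real.pi) :=
    mul_le_mul_of_nonneg_left h3 (by positivity)
  have h6 : 2 / Real.pi * (51 / 125 * Real.pi) = 102 / 125 := by field_simp; norm_num
  linarith

theorem slope_z {N : ℕ} (hN : 10 ≤ N) (j : Fin 3) {s s' : ℝ} (h1 : z (1 / N) j - 401 / 10000 * (1 / N) ≤ s)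
    (hss : s ≤ s') (h2 : s' ≤ z (1 / N) j + 51 / 1000 * (1 / N)) :
    4 / (1 / N) * (s' - s) ≤ Real.sin (8 * Real.pi * N * (s' - 1 / 2)) -
      Real.sin (8 * Real.pi * N * (s - 1 / 2)) := by
  have hN' : (10 : ℝ) ≤ N := by exact_mod_cast hN
  have hN0 : (0 : ℝ) < N := by linarith
  have hp := Real.pi_pos
  have e : ∀ s, Real.sin (8 * Real.pi * N * (s - 1 / 2)) =
      Real.sin (8 * Real.pi * (N * (s - z (1 / N) j))) := by
    intro s
    have e : 8 * Real.pi * N * (s - 1 / 2) = 8 * Real.pi * (N * (s - z (1 / N) j)) +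
        ((j : ℕ) : ℤ) * (2 * Real.pi) := by
      unfold z
      push_cast
      field_simp
      ring
    rw [e, Real.sin_add_int_mul_two_pi]
  rw [e, e]
  have k1 : -(401 / 10000) ≤ N * (s - z (1 / N) j) := by
    have : N * (-(401 / 10000) * (1 / N)) ≤ N * (s - z (1 / N) j) :=
      mul_le_mul_of_nonneg_left (by linarith) hN0.le
    have e2 : (N : ℝ) * (-(401 / 10000) * (1 / N)) = -(401 / 10000) := by field_simp
    linarith
  have k2 : N * (s' - z (1 / N) j) ≤ 51 / 1000 := by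
    have : N * (s' - z (1 / N) j) ≤ N * (51 / 1000 * (1 / N)) :=
      mul_le_mul_of_nonneg_left (by linarith) hN0.le
    have e2 : (N : ℝ) * (51 / 1000 * (1 / N)) = 51 / 1000 := by field_simp
    linarith
  have k3 : N * (s - z (1 / N) j) ≤ N * (s' - z (1 / N) j) :=
    mul_le_mul_of_nonneg_left (by linarith) hN0.le
  have h3 := (convex_Icc (8 * Real.pi * (N * (s - z (1 / N) j))) (8 * Real.pi * (N * (s' - z (1 / N) j)))).mul_sub_le_image_sub_of_le_deriv
    Real.continuous_sin.continuousOn Real.differentiable_sin.differentiableOn (C := 23 / 125)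
    (fun x hx => by
      have hx' := interior_subset hx
      rw [Real.deriv_sin]
      refine cos_ge ?_ ?_
      · nlinarith [hx'.1]
      · nlinarith [hx'.2]) _ (left_mem_Icc.2 (mul_le_mul_of_nonneg_left k3 (by positivity))) _
      (right_mem_Icc.2 (mul_le_mul_of_nonneg_left k3 (by positivity)))
      (mul_le_mul_of_nonneg_left k3 (by positivity))
  refine le_trans ?_ h3
  have e3 : 23 / 125 * (8 * Real.pi * (N * (s' - z (1 / N) j)) - 8 * Real.pi * (N * (s - z (1 / N) j))) =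
      (184 / 125 * Real.pi) * (N * (s' - s)) := by ring
  have e4 : 4 / (1 / (N:ℝ)) * (s' - s) = 4 * (N * (s' - s)) := by
    field_simp
  rw [e3, e4]
  refine mul_le_mul_of_nonneg_right ?_ (mul_nonneg hN0.le (by linarith))
  have := Real.pi_gt_three
  linarith

/-- the potential -/
def AA (N : ℕ) (β s t : ℝ) : ℝ := -((1 / N) ^ 2 / 2) * u2 s + β * (bb (t - 1 / 2) * R N s)

theorem exists_sys (k : ℕ) {ε : ℝ} (hε : 0 < ε) : ∃ (N : ℕ) (β m κ w : ℝ) (T : ℕ) (L : NNReal), 10 ≤ N ∧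
    Sys2 (1 / N) β m κ w T (fun s => (1 / N) ^ 2 / 2 * u2 s) (fun s => (1 / N) ^ 2 / 2 * deriv u2 s) bb
      (deriv (R N)) L ∧
    ∀ i ≤ k, ∀ q, ‖iteratedFDeriv ℝ i (fun q : ℝ × ℝ => AA N β q.1 q.2) q‖ ≤ ε := by
  -- bounds
  have F1c : ContDiff ℝ ∞ (fun q : ℝ × ℝ => u2 q.1) := u2_contDiff.comp contDiff_fst
  obtain ⟨M1, M1p, hM1⟩ := bd_per F1c (fun q a c => u2_per q.1 a) k
  have deriv_per : ∀ {g : ℝ → ℝ}, (∀ (s : ℝ) (n : ℤ), g (s + n) = g s) → ∀ (s : ℝ) (n : ℤ),
      deriv g (s + n) = deriv g s := by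
    intro g hg s n
    rw [← deriv_comp_add_const]
    congr 1
    funext y
    exact hg y n
  have up : ∀ s, deriv u2 (s + 1) = deriv u2 s := fun s => by
    have := deriv_per u2_per s 1
    push_cast at this
    exact this
  have u1c : ContDiff ℝ ∞ (deriv u2) := by
    have := (contDiff_infty_iff_deriv (𝕜 := ℝ) (f := u2)).1 u2_contDiff
    exact this.2
  obtain ⟨C1, C1p, hC1⟩ := per_bd u1c.continuous up
  obtain ⟨C2, C2p, hC2⟩ := per_lip u1c up
  obtain ⟨N, hN⟩ := exists_nat_ge (100 + 2 * M1 / ε + 2 * C1)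
  have hN100 : (100 : ℝ) ≤ N := by
    have : 0 ≤ 2 * M1 / ε := by positivity
    linarith
  have hN10' : 10 ≤ N := by
    have : 100 ≤ N := by exact_mod_cast hN100
    omega
  have hN0 : (0 : ℝ) < N := by linarith
  obtain ⟨h, hh⟩ : ∃ h : ℝ, h = 1 / N := ⟨_, rfl⟩
  have h0 : 0 < h := by rw [hh]; positivity
  have h1 : h ≤ 1 / 100 := by rw [hh]; exact one_div_le_one_div_of_le (by norm_num) hN100
  have hNh : h * N = 1 := by rw [hh]; field_simp
  have hM1' : h ^ 2 / 2 * M1 ≤ ε / 2 := by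
    have e1 : 2 * M1 / ε ≤ N := by linarith
    rw [div_le_iff₀ hε] at e1
    have e2 : h * (2 * M1) ≤ ε := by
      calc h * (2 * M1) ≤ h * (N * ε) := mul_le_mul_of_nonneg_left e1 h0.le
        _ = (h * N) * ε := by ring
        _ = ε := by rw [hNh, one_mul]
    nlinarith
  have hC1' : h ^ 2 / 2 * C1 ≤ h / 2 := by
    have e1 : C1 ≤ N := by
      have : 0 ≤ 2 * M1 / ε := by positivity
      linarith
    have e2 : h * C1 ≤ 1 := by
      calc h * C1 ≤ h * N := mul_le_mul_of_nonneg_left e1 h0.le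
        _ = 1 := hNh
    nlinarith
  -- the kick
  have F2c : ContDiff ℝ ∞ (fun q : ℝ × ℝ => bb (q.2 - 1 / 2) * R N q.1) := by
    refine ContDiff.mul ?_ ((R_contDiff N).comp contDiff_fst)
    exact (pb_contDiff _ _ _).comp (contDiff_snd.sub contDiff_const)
  have bper : ∀ (t : ℝ) (n : ℤ), bb (t + n) = bb t := fun t n => pb_per _ _ _ _ _
  obtain ⟨M2, M2p, hM2⟩ := bd_per F2c (fun q a c => by
    have e : q.2 + (c : ℝ) - 1 / 2 = (q.2 - 1 / 2) + c := by ring
    simp only
    rw [e, bper, R_per]) k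
  have Rp' : ∀ s, deriv (R N) (s + 1) = deriv (R N) s := fun s => by
    have := deriv_per (R_per N) s 1
    push_cast at this
    exact this
  have R1c : ContDiff ℝ ∞ (deriv (R N)) := by
    have := (contDiff_infty_iff_deriv (𝕜 := ℝ) (f := R N)).1 (R_contDiff N)
    exact this.2
  obtain ⟨C3, C3p, hC3⟩ := per_bd R1c.continuous Rp'
  obtain ⟨C4, C4p, hC4⟩ := per_lip R1c Rp'
  obtain ⟨β, hβ⟩ : ∃ β : ℝ, β = min (ε / (2 * M2)) (h / (2 * C3)) := ⟨_, rfl⟩
  have β0 : 0 < β := by rw [hβ]; exact lt_min (by positivity) (by positivity)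
  have βM : β * M2 ≤ ε / 2 := by
    have : β ≤ ε / (2 * M2) := by rw [hβ]; exact min_le_left _ _
    calc β * M2 ≤ ε / (2 * M2) * M2 := mul_le_mul_of_nonneg_right this M2p.le
      _ = ε / 2 := by field_simp
  have βC : β * C3 ≤ h / 2 := by
    have : β ≤ h / (2 * C3) := by rw [hβ]; exact min_le_right _ _
    calc β * C3 ≤ h / (2 * C3) * C3 := mul_le_mul_of_nonneg_right this C3p.le
      _ = h / 2 := by field_simp
  obtain ⟨K0, hK0⟩ : ∃ K0 : ℝ, K0 = β * ∫ t in (0:ℝ)..1 / 100, bb t := ⟨_, rfl⟩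
  have K0p : 0 < K0 := by rw [hK0]; exact mul_pos β0 bb_int
  obtain ⟨m, hm⟩ : ∃ m : ℝ, m = min (h / 10000) (K0 / 20) := ⟨_, rfl⟩
  have m0 : 0 < m := by rw [hm]; exact lt_min (by positivity) (by positivity)
  have m1 : m ≤ h / 10000 := by rw [hm]; exact min_le_left _ _
  have m2 : m ≤ K0 / 20 := by rw [hm]; exact min_le_right _ _
  obtain ⟨κ, hκ⟩ : ∃ κ : ℝ, κ = min (1 / 10) (K0 / h) := ⟨_, rfl⟩
  have κ0 : 0 < κ := by rw [hκ]; exact lt_min (by norm_num) (by positivity)
  have κ1 : κ ≤ 1 / 10 := by rw [hκ]; exact min_le_left _ _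
  have κ2 : κ * h ≤ K0 := by
    have : κ ≤ K0 / h := by rw [hκ]; exact min_le_right _ _
    rwa [le_div_iff₀ h0] at this
  obtain ⟨w, hw⟩ : ∃ w : ℝ, w = min (min 1 (h * K0 / 40)) (min (κ * h ^ 2 / 10) (m * h)) := ⟨_, rfl⟩
  have w0 : 0 < w := by
    rw [hw]
    exact lt_min (lt_min one_pos (by positivity)) (lt_min (by positivity) (by positivity))
  have wa : w ≤ 1 := by rw [hw]; exact (min_le_left _ _).trans (min_le_left _ _)
  have wb : w ≤ h * K0 / 40 := by rw [hw]; exact (min_le_left _ _).trans (min_le_right _ _)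
  have wc : w ≤ κ * h ^ 2 / 10 := by rw [hw]; exact (min_le_right _ _).trans (min_le_left _ _)
  have wd : w ≤ m * h := by rw [hw]; exact (min_le_right _ _).trans (min_le_right _ _)
  have w2 : w ^ 2 ≤ w := by nlinarith
  have w3 : w ^ 3 ≤ w := by nlinarith [mul_le_mul w2 wa w0.le w0.le]
  obtain ⟨y, hy⟩ : ∃ y : ℝ, y = Real.sqrt ((h + K0 / 5) ^ 2 - h ^ 2) := ⟨_, rfl⟩
  have y0 : 0 < y := by
    rw [hy]
    refine Real.sqrt_pos.2 ?_
    nlinarith
  obtain ⟨T, hT⟩ := exists_nat_ge (3 + 2 / y + (11 / 10) / w)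
  have t1 : 0 ≤ 2 / y := by positivity
  have t2 : 0 ≤ (11 / 10) / w := by positivity
  have hT3 : (3 : ℝ) ≤ T := by linarith
  have hTy : 2 ≤ ((T : ℝ) - 1) * y := by
    have : 2 / y ≤ (T : ℝ) - 1 := by linarith
    rwa [div_le_iff₀ y0] at this
  have hTw : 11 / 10 ≤ ((T : ℝ) - 1) * w := by
    have : (11 / 10) / w ≤ (T : ℝ) - 1 := by linarith
    rwa [div_le_iff₀ w0] at this
  have bc : Continuous bb := (pb_contDiff _ _ _).continuous
  have b1 : ∀ t, |bb t| ≤ 1 := by
    intro t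
    have e1 : 0 ≤ bb t := pb_nonneg _ _ _ _
    rw [abs_of_nonneg e1]
    exact pb_le_one _ _ _ _
  have LA : ∀ x y, |h ^ 2 / 2 * deriv u2 x - h ^ 2 / 2 * deriv u2 y| ≤ (h ^ 2 / 2 * C2) * |x - y| := by
    intro x y
    rw [← mul_sub, abs_mul, abs_of_pos (by positivity : 0 < h ^ 2 / 2), mul_assoc]
    exact mul_le_mul_of_nonneg_left (hC2 x y) (by positivity)
  have L0 : 0 ≤ h ^ 2 / 2 * C2 + β * C4 := by positivity
  refine ⟨N, β, m, κ, w, T, Real.toNNReal (h ^ 2 / 2 * C2 + β * C4), hN10', ?_, ?_⟩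
  · rw [← hh]
    refine { h0 := h0, h1 := h1, β0 := β0, m0 := m0, m1 := m1, m2 := ?_, κ0 := κ0, κ1 := κ1, κ2 := ?_,
             w0 := w0, w1 := hTw, w2 := ?_, w3 := w3.trans wc, w4 := w2.trans wd, T3 := by exact_mod_cast hT3,
             hdU := ?_, Unn := ?_, Ule := ?_, U0 := ?_, U1 := ?_, U2 := ?_, dU0 := ?_, dU2 := ?_,
             bper := bper, b0 := ?_, bnn := ?_, bcont := bc, R0 := ?_, Rp := ?_, Rn := ?_, Rs := ?_,
             fb := ?_, Tl := ?_, niceF := ?_, niceA := ?_ }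
    · rw [← hK0]; exact m2
    · rw [← hK0]; exact κ2
    · rw [← hK0]; exact w3.trans wb
    · intro s
      exact ((u2_contDiff.differentiable (by norm_cast)) s).hasDerivAt.const_mul _
    · intro s
      have := u2_nonneg s
      positivity
    · intro s
      have := u2_le_one s
      nlinarith [sq_nonneg h]
    · intro s hs1 hs2
      rw [u2_zero hs1 hs2, mul_zero]
    · intro s hs1 hs2
      rw [u2_zero' hs1 hs2, mul_zero]
    · intro s hs1 hs2
      rw [u2_one hs1 hs2, mul_one]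
    · intro s hs1 hs2
      rw [deriv_of_ext u2_nonneg u2_le_one (Or.inl (u2_zero hs1 hs2)), mul_zero]
    · intro s hs
      have h2 : u2 s = 1 := by
        have h3 : 0 < h ^ 2 / 2 := by positivity
        have h4 : h ^ 2 / 2 * u2 s = h ^ 2 / 2 * 1 := by rw [hs, mul_one]
        exact mul_left_cancel₀ h3.ne' h4
      rw [deriv_of_ext u2_nonneg u2_le_one (Or.inr h2), mul_zero]
    · intro t ht1 ht2
      exact bb_zero ht1 ht2
    · intro t
      exact pb_nonneg _ _ _ _
    · intro s hs1 hs2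
      rw [hh] at hs1 hs2
      exact R_zero hN10' hs1 hs2
    · intro j s hs1 hs2
      rw [hh] at hs1 hs2
      have hz := z_bd (by rw [← hh]; exact h0 : (0:ℝ) < 1 / N) j
      rw [← hh] at hz
      rw [R_deriv hN10' (by rw [← hh] at *; linarith) (by rw [← hh] at *; linarith)]
      exact sin_pos_z hN10' j hs1 hs2
    · intro j s hs1 hs2
      rw [hh] at hs1 hs2
      have hz := z_bd (by rw [← hh]; exact h0 : (0:ℝ) < 1 / N) j
      rw [← hh] at hz
      rw [R_deriv hN10' (by rw [← hh] at *; linarith) (by rw [← hh] at *; linarith)]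
      exact sin_neg_z hN10' j hs1 hs2
    · intro j s s' hs1 hss hs2
      rw [hh] at hs1 hs2 ⊢
      have hz := z_bd (by rw [← hh]; exact h0 : (0:ℝ) < 1 / N) j
      rw [← hh] at hz
      rw [R_deriv hN10' (s := s) (by rw [← hh] at *; linarith) (by rw [← hh] at *; linarith),
        R_deriv hN10' (s := s') (by rw [← hh] at *; linarith) (by rw [← hh] at *; linarith)]
      exact slope_z hN10' j hs1 hss hs2
    · intro s t
      unfold fF
      have e1 : |-(h ^ 2 / 2 * deriv u2 s)| ≤ h / 2 := by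
        rw [abs_neg, abs_mul, abs_of_pos (by positivity : 0 < h ^ 2 / 2)]
        exact (mul_le_mul_of_nonneg_left (hC1 s) (by positivity)).trans hC1'
      have e2 : |β * bb t * deriv (R N) s| ≤ h / 2 := by
        rw [abs_mul, abs_mul, abs_of_pos β0]
        calc β * |bb t| * |deriv (R N) s| ≤ β * 1 * C3 :=
              mul_le_mul (mul_le_mul_of_nonneg_left (b1 t) β0.le) (hC3 s) (abs_nonneg _) (by positivity)
          _ ≤ h / 2 := by rw [mul_one]; exact βC
      calc |-(h ^ 2 / 2 * deriv u2 s) + β * bb t * deriv (R N) s| ≤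
            |-(h ^ 2 / 2 * deriv u2 s)| + |β * bb t * deriv (R N) s| := abs_add_le _ _
        _ ≤ h := by linarith
    · rw [← hK0, ← hy]; exact hTy
    · constructor
      · intro t
        refine LipschitzWith.of_dist_le_mul fun x y => ?_
        rw [Real.coe_toNNReal _ L0, Real.dist_eq, Real.dist_eq]
        unfold fF
        have e1 := LA x y
        have e2 : |β * bb t * deriv (R N) x - β * bb t * deriv (R N) y| ≤ β * C4 * |x - y| := by
          rw [← mul_sub, abs_mul, abs_mul, abs_of_pos β0]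
          calc β * |bb t| * |deriv (R N) x - deriv (R N) y| ≤ β * 1 * (C4 * |x - y|) :=
                mul_le_mul (mul_le_mul_of_nonneg_left (b1 t) β0.le) (hC4 x y) (abs_nonneg _)
                  (by positivity)
            _ = β * C4 * |x - y| := by ring
        have e3 : -(h ^ 2 / 2 * deriv u2 x) + β * bb t * deriv (R N) x -
            (-(h ^ 2 / 2 * deriv u2 y) + β * bb t * deriv (R N) y) =
            -(h ^ 2 / 2 * deriv u2 x - h ^ 2 / 2 * deriv u2 y) +
            (β * bb t * deriv (R N) x - β * bb t * deriv (R N) y) := by ring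
        rw [e3]
        refine (abs_add_le _ _).trans ?_
        rw [abs_neg, add_mul]
        exact add_le_add e1 e2
      · unfold fF
        have c1 : Continuous fun q : ℝ × ℝ => deriv u2 q.1 := u1c.continuous.comp continuous_fst
        have c2 : Continuous fun q : ℝ × ℝ => deriv (R N) q.1 := R1c.continuous.comp continuous_fst
        have c3 : Continuous fun q : ℝ × ℝ => bb q.2 := bc.comp continuous_snd
        exact ((continuous_const.mul c1).neg).add ((continuous_const.mul c3).mul c2)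
    · constructor
      · intro t
        refine LipschitzWith.of_dist_le_mul fun x y => ?_
        rw [Real.coe_toNNReal _ L0, Real.dist_eq, Real.dist_eq]
        unfold fA
        have e3 : -(h ^ 2 / 2 * deriv u2 x) - -(h ^ 2 / 2 * deriv u2 y) =
            -(h ^ 2 / 2 * deriv u2 x - h ^ 2 / 2 * deriv u2 y) := by ring
        rw [e3, abs_neg]
        refine (LA x y).trans ?_
        refine mul_le_mul_of_nonneg_right ?_ (abs_nonneg _)
        have : 0 ≤ β * C4 := by positivity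
        linarith
      · unfold fA
        have c1 : Continuous fun q : ℝ × ℝ => deriv u2 q.1 := u1c.continuous.comp continuous_fst
        exact (continuous_const.mul c1).neg
  · intro i hi q
    have e : (fun q : ℝ × ℝ => AA N β q.1 q.2) = (fun q : ℝ × ℝ => (-(h ^ 2 / 2)) • u2 q.1) +
        fun q : ℝ × ℝ => β • (bb (q.2 - 1 / 2) * R N q.1) := by
      funext q
      unfold AA
      simp only [Pi.add_apply, smul_eq_mul]
      rw [hh]
    have hi' : (i : WithTop ℕ∞) ≤ ∞ := by norm_cast; exact le_top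
    have c1 : ContDiffAt ℝ i (fun q : ℝ × ℝ => u2 q.1) q := (F1c.of_le hi').contDiffAt
    have c2 : ContDiffAt ℝ i (fun q : ℝ × ℝ => bb (q.2 - 1 / 2) * R N q.1) q :=
      (F2c.of_le hi').contDiffAt
    rw [e, iteratedFDeriv_add_apply (c1.const_smul _) (c2.const_smul _),
      iteratedFDeriv_const_smul_apply' c1, iteratedFDeriv_const_smul_apply' c2]
    refine (norm_add_le _ _).trans ?_
    rw [norm_smul, norm_smul, Real.norm_eq_abs, Real.norm_eq_abs, abs_neg,
      abs_of_pos (by positivity : 0 < h ^ 2 / 2), abs_of_pos β0]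
    have n1 : h ^ 2 / 2 * ‖iteratedFDeriv ℝ i (fun q : ℝ × ℝ => u2 q.1) q‖ ≤ h ^ 2 / 2 * M1 :=
      mul_le_mul_of_nonneg_left (hM1 i hi q) (by positivity)
    have n2 : β * ‖iteratedFDeriv ℝ i (fun q : ℝ × ℝ => bb (q.2 - 1 / 2) * R N q.1) q‖ ≤ β * M2 :=
      mul_le_mul_of_nonneg_left (hM2 i hi q) β0.le
    linarith

end Pool.Agent.K9h32.SP.UH
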